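import Pool.Agent.Lib.MP_4ddf81_pr.Stm3
import Pool.Agent.Lib.MP_4ddf81_pr.P.Dual1

/-!
# MP_4ddf81_pr : piece BadC

The number of the subgroups of bad type.
-/

namespace NilCut

open scoped commutatorElement

namespace BadCP

theorem finHom (G : Type) [Group G] [Finite G] : Finite (G →* ℂˣ) := by
  have hfin : Finite (Abelianization G →* ℂˣ) := by
    apply Nat.finite_of_card_ne_zero
    rw [CommGroup.card_monoidHom_of_hasEnoughRootsOfUnity]
    exact Nat.card_pos.ne'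
  exact Finite.of_surjective _ (Dual1.c_bij G).2

/-- counting by a cover, with a weight `w` -/
theorem cover {α β : Type} [Finite α] (X : Set α) (A : Set β) (hA : A.Finite) (f : β → Set α)
    (n N w : ℕ) (hn : A.ncard ≤ n) (hf : ∀ a ∈ A, (f a).ncard * w ≤ N)
    (h : ∀ x ∈ X, ∃ a ∈ A, x ∈ f a) : X.ncard * w ≤ n * N := by
  classical
  let s : Finset β := hA.toFinset
  let t : β → Finset α := fun a => (Set.toFinite (f a)).toFinset
  have ht : ∀ a, (t a).card = (f a).ncard := fun a =>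
    (Set.ncard_eq_toFinset_card (f a) (Set.toFinite (f a))).symm
  have h1 : X ⊆ ((s.biUnion t : Finset α) : Set α) := by
    intro x hx
    obtain ⟨a, ha, hxa⟩ := h x hx
    rw [Finset.mem_coe, Finset.mem_biUnion]
    exact ⟨a, hA.mem_toFinset.2 ha, (Set.Finite.mem_toFinset _).2 hxa⟩
  have h2 : X.ncard ≤ (s.biUnion t).card := by
    rw [← Set.ncard_coe_finset]
    exact Set.ncard_le_ncard h1 (Finset.finite_toSet _)
  have h3 : (s.biUnion t).card ≤ ∑ a ∈ s, (t a).card := Finset.card_biUnion_le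
  calc X.ncard * w ≤ (∑ a ∈ s, (t a).card) * w := Nat.mul_le_mul_right _ (h2.trans h3)
    _ = ∑ a ∈ s, (t a).card * w := Finset.sum_mul _ _ _
    _ ≤ ∑ _a ∈ s, N := Finset.sum_le_sum fun a ha => by
        rw [ht a]
        exact hf a (hA.mem_toFinset.1 ha)
    _ = s.card * N := by rw [Finset.sum_const, smul_eq_mul]
    _ ≤ n * N := Nat.mul_le_mul_right _ (by
        rw [← Set.ncard_eq_toFinset_card A hA]
        exact hn)

section

variable {G : Type} [Group G]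

/-- the extensions of `μ` to `P₁` of exponent `p` -/
def LS (K P₁ : Subgroup G) (p : ℕ) (μ : (⁅K, K⁆ : Subgroup G) →* ℂˣ) : Set (P₁ →* ℂˣ) :=
  {lam | lam ^ p = 1 ∧ ∀ (x : G) (hx : x ∈ ⁅K, K⁆) (h : x ∈ P₁), lam ⟨x, h⟩ = μ ⟨x, hx⟩}

theorem LS_card [Finite G] (K P₁ : Subgroup G) (p : ℕ) (μ : (⁅K, K⁆ : Subgroup G) →* ℂˣ) :
    (LS K P₁ p μ).ncard ≤
      Nat.card {lam : P₁ →* ℂˣ // lam ^ p = 1 ∧ ∀ x : P₁, (x : G) ∈ ⁅K, K⁆ → lam x = 1} := by
  have := finHom P₁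
  rcases (LS K P₁ p μ).eq_empty_or_nonempty with he | ⟨l0, h0, h0'⟩
  · rw [he, Set.ncard_empty]
    exact Nat.zero_le _
  · rw [← Nat.card_coe_set_eq]
    refine Nat.card_le_card_of_injective
      (fun l : LS K P₁ p μ => (⟨l.1 * l0⁻¹, ?_, ?_⟩ : {lam : P₁ →* ℂˣ // lam ^ p = 1 ∧
        ∀ x : P₁, (x : G) ∈ ⁅K, K⁆ → lam x = 1})) ?_
    · refine MonoidHom.ext fun x => ?_
      have e1 : (l.1 ^ p) x = 1 := by rw [l.2.1]; rfl
      have e2 : (l0 ^ p) x = 1 := by rw [h0]; rfl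
      rw [MonoidHom.pow_apply] at e1 e2 ⊢
      rw [MonoidHom.mul_apply, MonoidHom.inv_apply, mul_pow, inv_pow, e1, e2, inv_one, mul_one]
      rfl
    · intro x hx
      have e1 := l.2.2 (x : G) hx x.2
      have e2 := h0' (x : G) hx x.2
      have e1' : l.1 x = μ ⟨x, hx⟩ := e1
      have e2' : l0 x = μ ⟨x, hx⟩ := e2
      rw [MonoidHom.mul_apply, MonoidHom.inv_apply, e1', e2', mul_inv_cancel]
    · intro l l' hl
      have := congrArg Subtype.val hl
      exact Subtype.ext (mul_right_cancel this)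

/-- the data of a subgroup of bad type -/
structure Dat (K P : Subgroup G) (p : ℕ) (μ : (⁅K, K⁆ : Subgroup G) →* ℂˣ) (P₁ : Subgroup G)
    (lam : P₁ →* ℂˣ) : Prop where
  sup : P₁ ⊔ K = ⊤
  cc : ⁅K, K⁆ ≤ P₁
  idx : P.index = p * P₁.index
  mem : lam ∈ LS K P₁ p μ
  eq : P = lam.ker.map P₁.subtype

theorem norm_inf {K P₁ : Subgroup G} (hK : K.Normal) (hs : P₁ ⊔ K = ⊤) (hc : ⁅K, K⁆ ≤ P₁) :
    (P₁ ⊓ K).Normal := by
  refine ⟨fun u hu g => ?_⟩
  have hg : g ∈ P₁ ⊔ K := by rw [hs]; exact Subgroup.mem_top g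
  obtain ⟨y, hy, z, hz, rfl⟩ := Subgroup.mem_sup_of_normal_right.1 hg
  have h1 : z * u * z⁻¹ ∈ P₁ := by
    have h2 : ⁅z, u⁆ ∈ P₁ := hc (Subgroup.commutator_mem_commutator hz hu.2)
    have h3 : z * u * z⁻¹ = ⁅z, u⁆ * u := by
      rw [commutatorElement_def]
      group
    rw [h3]
    exact P₁.mul_mem h2 hu.1
  have e : y * z * u * (y * z)⁻¹ = y * (z * u * z⁻¹) * y⁻¹ := by group
  refine ⟨?_, hK.conj_mem u hu.2 _⟩
  change y * z * u * (y * z)⁻¹ ∈ P₁
  rw [e]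
  exact P₁.mul_mem (P₁.mul_mem hy h1) (P₁.inv_mem hy)

theorem rel_inf [Finite G] {K P₁ : Subgroup G} (hK : K.Normal) (hs : P₁ ⊔ K = ⊤) :
    (P₁ ⊓ K).relIndex K = P₁.index := by
  have h1 : (P₁ ⊓ K).relIndex K * K.index = (P₁ ⊓ K).index :=
    Subgroup.relIndex_mul_index inf_le_right
  have h2 : (P₁ ⊓ K).relIndex P₁ * P₁.index = (P₁ ⊓ K).index :=
    Subgroup.relIndex_mul_index inf_le_left
  have h3 : (P₁ ⊓ K).relIndex P₁ = K.index := by
    rw [Subgroup.inf_relIndex_left]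
    have h4 := Subgroup.relIndex_sup_right P₁ K
    rw [hs, Subgroup.relIndex_top_right] at h4
    exact h4.symm
  rw [h3] at h2
  have hK0 : 0 < K.index := Nat.pos_of_ne_zero Subgroup.index_ne_zero_of_finite
  exact Nat.eq_of_mul_eq_mul_right hK0 (by rw [h1, ← h2, mul_comm])

theorem dat_ex [Finite G] {K P : Subgroup G} {B : ℕ} (hK : K.Normal) (hP : BadT K P)
    (hB : P.index ≤ B) :
    ∃ μ ∈ MuS K B, μ ≠ 1 ∧ ∃ p, p.Prime ∧ ∃ P₁ lam, Dat K P p μ P₁ lam := by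
  obtain ⟨hn, hs, P₁, lam, p, hp, hle, hc, hl, hk, hi⟩ := hP
  have hs1 : P₁ ⊔ K = ⊤ := by
    rw [eq_top_iff, ← hs]
    exact sup_le_sup_right hle K
  let μ : (⁅K, K⁆ : Subgroup G) →* ℂˣ := lam.comp (Subgroup.inclusion hc)
  have hμ : ∀ (x : G) (hx : x ∈ ⁅K, K⁆) (h : x ∈ P₁), lam ⟨x, h⟩ = μ ⟨x, hx⟩ :=
    fun x hx h => rfl
  refine ⟨μ, ?_, ?_, p, hp, P₁, lam, hs1, hc, hi, ⟨hl, hμ⟩, ?_⟩
  · refine ⟨P₁ ⊓ K, le_inf hc (Subgroup.commutator_le_left K K), inf_le_right, ?_, ?_⟩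
    · rw [rel_inf hK hs1]
      refine le_trans ?_ hB
      rw [hi]
      exact Nat.le_mul_of_pos_left _ hp.pos
    · exact ⟨lam.comp (Subgroup.inclusion inf_le_left), fun x hx hU => rfl⟩
  · intro h1
    apply hn
    intro x hx
    have h2 : lam ⟨x, hc hx⟩ = 1 := by
      rw [hμ x hx (hc hx), h1]
      rfl
    exact (hk ⟨x, hc hx⟩).2 h2
  · ext x
    rw [Subgroup.mem_map]
    constructor
    · intro hx
      exact ⟨⟨x, hle hx⟩, (hk ⟨x, hle hx⟩).1 hx, rfl⟩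
    · rintro ⟨y, hy, rfl⟩
      exact (hk y).2 hy

end

end BadCP

open BadCP in
theorem p_BadC (hN : S_NormC) (hC : S_Compl) (hR : S_MuR) (hL : S_Lext) : S_BadC := by
  intro B Jm
  obtain ⟨c₀, hc₀⟩ := hN (B * Jm)
  obtain ⟨c₁, hc₁⟩ := hL (B * Jm)
  refine ⟨B * ((2 ^ (B ^ 2) + 1) * (c₀ * ((B + 1) ^ Jm * c₁))), ?_⟩
  intro G _ _ S hS K hK hKJ hMu j hj1 hjB
  have hK0 : 0 < K.index := Nat.pos_of_ne_zero Subgroup.index_ne_zero_of_finite
  set E : ℕ := (2 ^ (B ^ 2) + 1) * (c₀ * ((B + 1) ^ Jm * c₁) * j ^ S.card) with hE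
  -- fixed `μ` and `p`
  have key : ∀ μ : (⁅K, K⁆ : Subgroup G) →* ℂˣ, μ ≠ 1 → ∀ p : ℕ, p.Prime → p ∣ j →
      ({P : Subgroup G | P.index = j ∧ ∃ P₁ lam, Dat K P p μ P₁ lam}).ncard * 2 ^ S.card ≤ E := by
    intro μ hμ p hp hpj
    obtain ⟨T, hT1, hT2, hT3⟩ := hR G K hK B μ hμ
    refine cover _ (T : Set (Subgroup G)) T.finite_toSet
      (fun R => {P : Subgroup G | P.index = j ∧ ∃ P₁ lam, Dat K P p μ P₁ lam ∧ P₁ ⊓ K ≤ R})
      _ _ _ (by rw [Set.ncard_coe_finset]; exact hT1) ?_ ?_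
    · intro R hRT
      obtain ⟨hRn, hRK⟩ := hT2 R (Finset.mem_coe.1 hRT)
      have hq2 : 2 ≤ R.relIndex K := by
        have h0 : R.relIndex K ≠ 0 := Subgroup.index_ne_zero_of_finite (H := R.subgroupOf K)
        have h1 : R.relIndex K ≠ 1 := by
          intro h
          exact absurd (Subgroup.relIndex_eq_one.1 h) (not_le_of_gt hRK)
        omega
      set q : ℕ := R.relIndex K with hq
      set m : ℕ := j / p / q with hm
      have hmp : 2 * m * p ≤ j := by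
        have h1 : m * q ≤ j / p := Nat.div_mul_le_self _ _
        have h2 : m * 2 ≤ m * q := Nat.mul_le_mul_left _ hq2
        have h3 : j / p * p ≤ j := Nat.div_mul_le_self _ _
        calc 2 * m * p = m * 2 * p := by ring
          _ ≤ j / p * p := Nat.mul_le_mul_right _ (h2.trans h1)
          _ ≤ j := h3
      -- level `U`
      have hU := cover {P : Subgroup G | P.index = j ∧ ∃ P₁ lam, Dat K P p μ P₁ lam ∧ P₁ ⊓ K ≤ R}
        {U : Subgroup G | U.Normal ∧ U ≤ R ∧ U.relIndex R = m ∧ U.index ≤ B * Jm}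
        (Set.toFinite _)
        (fun U => {P : Subgroup G | P.index = j ∧ ∃ P₁ lam, Dat K P p μ P₁ lam ∧ P₁ ⊓ K = U})
        (c₀ * m ^ S.card) ((B + 1) ^ Jm * (c₁ * p ^ S.card)) 1
        (by
          rw [← Nat.card_coe_set_eq]
          exact hc₀ G S hS R hRn m)
        ?_ ?_
      · rw [mul_one] at hU
        calc _ ≤ c₀ * m ^ S.card * ((B + 1) ^ Jm * (c₁ * p ^ S.card)) * 2 ^ S.card :=
              Nat.mul_le_mul_right _ hU
          _ = c₀ * ((B + 1) ^ Jm * c₁) * (2 * m * p) ^ S.card := by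
              rw [mul_pow, mul_pow]
              ring
          _ ≤ c₀ * ((B + 1) ^ Jm * c₁) * j ^ S.card :=
              Nat.mul_le_mul_left _ (Nat.pow_le_pow_left hmp _)
      · rintro U ⟨hUn, hUR, hUm, hUi⟩
        have hUK : U.relIndex K ≤ B := by
          have h1 : U.relIndex R * R.relIndex K = U.relIndex K :=
            Subgroup.relIndex_mul_relIndex U R K hUR hRK.le
          rw [← h1, hUm]
          refine (Nat.div_mul_le_self _ _).trans ((Nat.div_le_self _ _).trans hjB)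
        rw [mul_one]
        have h5 := cover
          {P : Subgroup G | P.index = j ∧ ∃ P₁ lam, Dat K P p μ P₁ lam ∧ P₁ ⊓ K = U}
          {P₁ : Subgroup G | P₁ ⊔ K = ⊤ ∧ P₁ ⊓ K = U ∧ ⁅K, K⁆ ≤ P₁ ∧ p * P₁.index = j}
          (Set.toFinite _)
          (fun P₁ => {P : Subgroup G | ∃ lam, Dat K P p μ P₁ lam})
          ((B + 1) ^ Jm) (c₁ * p ^ S.card) 1 ?_ ?_ ?_
        · rw [mul_one] at h5
          exact h5
        · have h6 := hC G K U hK
          rw [← Nat.card_coe_set_eq]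
          have h7 : Nat.card ({P₁ : Subgroup G | P₁ ⊔ K = ⊤ ∧ P₁ ⊓ K = U ∧ ⁅K, K⁆ ≤ P₁ ∧
              p * P₁.index = j}) ≤ Nat.card {P : Subgroup G // P ⊔ K = ⊤ ∧ P ⊓ K = U} :=
            Nat.card_le_card_of_injective
              (fun x => ⟨x.1, x.2.1, x.2.2.1⟩)
              (fun x y h => Subtype.ext (congrArg
                (fun z : {P : Subgroup G // P ⊔ K = ⊤ ∧ P ⊓ K = U} => z.1) h))
          refine h7.trans (h6.trans ?_)
          calc (U.relIndex K) ^ K.index ≤ (B + 1) ^ K.index :=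
                Nat.pow_le_pow_left (hUK.trans (Nat.le_succ B)) _
            _ ≤ (B + 1) ^ Jm := Nat.pow_le_pow_right (Nat.succ_pos B) hKJ
        · rintro P₁ ⟨hP1, hP2, hP3, hP4⟩
          have hfin := finHom P₁
          have h8 := cover {P : Subgroup G | ∃ lam, Dat K P p μ P₁ lam}
            (LS K P₁ p μ) (Set.toFinite _)
            (fun lam => {lam.ker.map P₁.subtype}) (c₁ * p ^ S.card) 1 1 ?_ ?_ ?_
          · simp only [mul_one] at h8 ⊢
            exact h8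
          · refine (LS_card K P₁ p μ).trans (hc₁ G S hS K P₁ p hK hp hP3 hP1 ?_)
            calc K.index * P₁.index * p = p * P₁.index * K.index := by ring
              _ = j * K.index := by rw [hP4]
              _ ≤ B * Jm := Nat.mul_le_mul hjB hKJ
          · intro lam _
            rw [Set.ncard_singleton]
          · rintro P ⟨lam, hD⟩
            exact ⟨lam, hD.mem, hD.eq⟩
        · rintro P ⟨hPj, P₁, lam, hD, hPU⟩
          exact ⟨P₁, ⟨hD.sup, hPU, hD.cc, by rw [← hD.idx, hPj]⟩, lam, hD⟩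
      · rintro P ⟨hPj, P₁, lam, hD, hPR⟩
        have hrel := rel_inf hK hD.sup
        have hjp : j / p = P₁.index := by
          rw [← hPj, hD.idx]
          exact Nat.mul_div_cancel_left _ hp.pos
        refine ⟨P₁ ⊓ K, ⟨norm_inf hK hD.sup hD.cc, hPR, ?_, ?_⟩, hPj, P₁, lam, hD, rfl⟩
        · have h1 : (P₁ ⊓ K).relIndex R * R.relIndex K = (P₁ ⊓ K).relIndex K :=
            Subgroup.relIndex_mul_relIndex (P₁ ⊓ K) R K hPR hRK.le
          rw [hm, hjp, ← hrel, ← h1, ← hq]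
          exact (Nat.mul_div_cancel _ (by omega)).symm
        · have h1 : (P₁ ⊓ K).relIndex K * K.index = (P₁ ⊓ K).index :=
            Subgroup.relIndex_mul_index inf_le_right
          rw [← h1, hrel]
          refine Nat.mul_le_mul ?_ hKJ
          rw [← hjp]
          exact (Nat.div_le_self _ _).trans hjB
    · rintro P ⟨hPj, P₁, lam, hD⟩
      have hrel := rel_inf hK hD.sup
      have hjp : j / p = P₁.index := by
        rw [← hPj, hD.idx]
        exact Nat.mul_div_cancel_left _ hp.pos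
      obtain ⟨R, hR1, hR2⟩ := hT3 (P₁ ⊓ K) (norm_inf hK hD.sup hD.cc) inf_le_right
        (le_inf hD.cc (Subgroup.commutator_le_left K K))
        (by
          rw [hrel, ← hjp]
          exact (Nat.div_le_self _ _).trans hjB)
        ⟨lam.comp (Subgroup.inclusion inf_le_left), fun x hx hU => hD.mem.2 x hx _⟩
      exact ⟨R, Finset.mem_coe.2 hR1, hPj, P₁, lam, hD, hR2⟩
  -- level `p`
  have lev2 : ∀ μ : (⁅K, K⁆ : Subgroup G) →* ℂˣ, μ ≠ 1 →
      ({P : Subgroup G | P.index = j ∧ ∃ p, p.Prime ∧ ∃ P₁ lam, Dat K P p μ P₁ lam}).ncard *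
        2 ^ S.card ≤ B * E := by
    intro μ hμ
    refine cover _ {p : ℕ | p.Prime ∧ p ∣ j}
      (Set.Finite.subset (Set.finite_Icc 1 B) fun p hp => ⟨hp.1.one_lt.le,
        (Nat.le_of_dvd hj1 hp.2).trans hjB⟩)
      (fun p => {P : Subgroup G | P.index = j ∧ ∃ P₁ lam, Dat K P p μ P₁ lam}) _ _ _ ?_ ?_ ?_
    · have h1 : {p : ℕ | p.Prime ∧ p ∣ j} ⊆ ((Finset.Icc 1 B : Finset ℕ) : Set ℕ) := by
        intro p hp
        rw [Finset.coe_Icc]
        exact ⟨hp.1.one_lt.le, (Nat.le_of_dvd hj1 hp.2).trans hjB⟩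
      have h2 := Set.ncard_le_ncard h1 (Finset.finite_toSet _)
      rw [Set.ncard_coe_finset, Nat.card_Icc] at h2
      omega
    · rintro p ⟨hp, hpj⟩
      exact key μ hμ p hp hpj
    · rintro P ⟨hPj, p, hp, P₁, lam, hD⟩
      refine ⟨p, ⟨hp, ?_⟩, hPj, P₁, lam, hD⟩
      rw [← hPj, hD.idx]
      exact Dvd.intro _ rfl
  -- level `μ`
  have lev1 := cover {P : Subgroup G | P.index = j ∧ BadT K P}
    {μ : (⁅K, K⁆ : Subgroup G) →* ℂˣ | μ ∈ MuS K B ∧ μ ≠ 1}
    (Set.Finite.subset (Set.toFinite (MuS K B)) fun μ hμ => hμ.1)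
    (fun μ => {P : Subgroup G | P.index = j ∧ ∃ p, p.Prime ∧ ∃ P₁ lam, Dat K P p μ P₁ lam})
    (Nat.card (MuS K B)) (B * E) (2 ^ S.card) ?_ ?_ ?_
  · have h1 : Nat.card {P : Subgroup G // P.index = j ∧ BadT K P} =
        ({P : Subgroup G | P.index = j ∧ BadT K P}).ncard := by
      rw [← Nat.card_coe_set_eq]
      rfl
    rw [h1]
    refine lev1.trans (le_of_eq ?_)
    rw [hE]
    ring
  · rw [Nat.card_coe_set_eq]
    exact Set.ncard_le_ncard (fun μ hμ => hμ.1) (Set.toFinite (MuS K B))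
  · rintro μ ⟨-, hμ⟩
    exact lev2 μ hμ
  · rintro P ⟨hPj, hP⟩
    obtain ⟨μ, hμ1, hμ2, p, hp, P₁, lam, hD⟩ := dat_ex (B := B) hK hP (by omega)
    exact ⟨μ, ⟨hμ1, hμ2⟩, hPj, p, hp, P₁, lam, hD⟩

end NilCut
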