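import Pool.Agent.Lib.MP_4ddf81_pr.Stm3
import Pool.Agent.Lib.MP_4ddf81_pr.P2.Gap

/-! # MP_4ddf81_pr, stage 3, piece Big (helper15): linear characters of large order are not
slow. -/

namespace NilCut

namespace BigP

open GapMain

theorem cases (h1 : S_DPt) (h2 : S_Case2) (hR : S_Root)
    (G : Type) [Group G] [Fintype G] (H : Subgroup G) (lam : H →* ℂˣ) (k D r₀ : ℕ)
    (Z : Fin k → G) (γ f₀ : ℝ) (hk : 0 < k) (hγ : 0 < γ) (hγ1 : γ ≤ 1 / 2) (hD : H.index ≤ D)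
    (hr : 4 ≤ f₀ * r₀) (hf : 0 < f₀)
    (hβ : √(γ * D) ≤ 1 / 4) (hβf : 8 * √(γ * D) ≤ f₀)
    (hc : r₀ < Nat.card lam.range) (hgap : ¬ DGap Z H lam (γ ^ 2 / 2)) :
    (Nat.card {ξ : lam.range // ‖((ξ : ℂˣ) : ℂ) - 1‖ ≤ 8 * √(γ * D)} : ℝ) ≤
      f₀ * (Nat.card lam.range : ℝ) ∧ B2 H lam γ (8 * √(γ * D)) Z := by
  obtain ⟨v, vm, I, hv, hvm, hv1, hv2, hI, hI2⟩ :=
    h1 G H lam k D Z γ hk hγ (by linarith) hD hgap
  have hk' : (0 : ℝ) < k := by exact_mod_cast hk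
  have hIne : I.Nonempty := by
    rw [← Finset.card_pos]
    have : (0 : ℝ) < I.card := lt_of_lt_of_le (mul_pos (by linarith) hk') hI
    exact_mod_cast this
  obtain ⟨q, θ, hθ, hθ2⟩ := h2 G H lam k Z (√(γ * D)) v v vm I (Real.sqrt_nonneg _) hβ hIne hv
    hv hvm hv1 hv2 hI2
  refine ⟨?_, I, hI, q, θ, hθ, hθ2⟩
  have : Finite lam.range := Finite.of_surjective _ lam.rangeRestrict_surjective
  refine (hR lam.range (8 * √(γ * D)) (by positivity)).trans ?_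
  have hr' : (r₀ : ℝ) ≤ (Nat.card lam.range : ℝ) := by exact_mod_cast hc.le
  have h3 : 4 ≤ f₀ * (Nat.card lam.range : ℝ) :=
    hr.trans (mul_le_mul_of_nonneg_left hr' hf.le)
  have h4 : 8 * √(γ * D) * (Nat.card lam.range : ℝ) ≤ f₀ * (Nat.card lam.range : ℝ) :=
    mul_le_mul_of_nonneg_right hβf (Nat.cast_nonneg _)
  linarith

end BigP

open GapMain BigP in
theorem p_Big (h1 : S_DPt) (h2 : S_Case2) (h3 : S_Root) (h4 : S_CaseP) : S_Big := by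
  intro D C₀ η hD hC hη
  obtain ⟨f₀, γ₀, r₀, hf₀, hγ₀, hγ1, -, hr, hβ, hβf, -⟩ := consts C₀ 1 D hC hD one_pos
  have hf0 : 0 < f₀ := by rw [hf₀]; exact Real.exp_pos _
  have hf1 : f₀ ≤ 1 := by
    rw [hf₀]
    apply Real.exp_le_one_iff.2
    have : 0 < ((D : ℝ) + 1) * C₀ + 2 := by positivity
    linarith
  refine ⟨r₀, γ₀, hγ₀, fun γ hγ hγle => ⟨max 1 ⌈Real.log (2 * D / η)⌉₊, ?_⟩⟩
  intro k hk G _ _ hlog ι _ H lam hι hidx
  have hsq : √(γ * D) ≤ √(γ₀ * D) :=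
    Real.sqrt_le_sqrt (mul_le_mul_of_nonneg_right hγle (Nat.cast_nonneg _))
  have hkb : 1 ≤ k := (le_max_left _ _).trans hk
  have hkc : Real.log (2 * D / η) ≤ k := by
    refine (Nat.le_ceil _).trans ?_
    exact_mod_cast (le_max_right _ _).trans hk
  have hg1 : (1 : ℝ) ≤ Nat.card G := by exact_mod_cast Nat.card_pos
  set B : ℝ := (D : ℝ) * (Nat.card G : ℝ) ^ D * 2 ^ k * f₀ ^ ((1 - γ) * (k : ℝ)) *
      (Nat.card G : ℝ) ^ k with hB
  have hB0 : 0 ≤ B := by positivity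
  have hu := union_card
    (fun Z : Fin k → G => ∃ i, r₀ < Nat.card (lam i).range ∧ ¬ DGap Z (H i) (lam i) (γ ^ 2 / 2))
    (fun _ : Fin k → G => False)
    (fun i : ι =>
      (Nat.card {ξ : (lam i).range // ‖((ξ : ℂˣ) : ℂ) - 1‖ ≤ 8 * √(γ * D)} : ℝ) ≤
        f₀ * (Nat.card (lam i).range : ℝ))
    (fun i Z => B2 (H i) (lam i) γ (8 * √(γ * D)) Z)
    (fun Z ⟨i, hri, hgap⟩ => by
      obtain ⟨h5, h6⟩ := BigP.cases h1 h2 h3 G (H i) (lam i) k D r₀ Z γ f₀ hkb hγ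
        (by linarith) (hidx i) hr hf0 (by linarith) (by linarith) hri hgap
      exact Or.inr ⟨i, h5, h6⟩)
    0 B hB0 (by simp)
    (fun i hi2 =>
      h4 G (H i) (lam i) k D (8 * √(γ * D)) f₀ γ (hidx i) (by positivity) hf0 hf1 hγ
        (by linarith) hi2)
  refine hu.trans ?_
  have hι' : (Nat.card ι : ℝ) ≤ Nat.card G := by
    rw [Nat.card_eq_fintype_card (α := ι)]
    exact_mod_cast hι
  have h5 : (Nat.card ι : ℝ) * B ≤ (Nat.card G : ℝ) * B :=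
    mul_le_mul_of_nonneg_right hι' hB0
  have h6 : (Nat.card G : ℝ) * B ≤ η / 2 * (Nat.card G : ℝ) ^ k := by
    rw [hB, hf₀]
    exact numer C₀ η γ (Nat.card G) D k hC hη (by linarith) hg1 hlog hkc hD
  have h7 : η / 2 * (Nat.card G : ℝ) ^ k ≤ η * (Nat.card G : ℝ) ^ k :=
    mul_le_mul_of_nonneg_right (by linarith) (by positivity)
  linarith

end NilCut
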