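import Pool.Agent.Lib.MP_4ddf81_pr.Stm3

/-! # MP_4ddf81_pr, stage 3, piece CFg (helper15): elementary facts on the functions `cf`. -/

namespace NilCut

namespace CFgP

variable {G : Type} [Group G] (K : Subgroup G) [K.Normal] (lam : K →* ℂˣ)

/-- the values depend on the coset only -/
theorem conj_dep (g h : G) (κ : K) (hgh : g⁻¹ * h ∈ K) :
    lam (MulAut.conjNormal g κ) = lam (MulAut.conjNormal h κ) := by
  have h1 : h = g * ((⟨g⁻¹ * h, hgh⟩ : K) : G) := by
    rw [mul_inv_cancel_left]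
  generalize (⟨g⁻¹ * h, hgh⟩ : K) = y at h1
  subst h1
  rw [map_mul, MulAut.mul_apply, MulAut.conjNormal_val, MulAut.conj_apply, map_mul, map_mul,
    map_mul, map_mul, map_inv, map_inv, mul_right_comm, mul_inv_cancel, one_mul]

theorem cf_mk (g : G) (κ : K) : cf K lam κ (g : G ⧸ K) =
    ((lam (MulAut.conjNormal g κ) : ℂˣ) : ℂ) := by
  unfold cf
  rw [conj_dep K lam _ g κ]
  rw [← QuotientGroup.eq]
  exact Quotient.out_eq' _

theorem cf_mul (κ κ' : K) : cf K lam (κ * κ') = cf K lam κ * cf K lam κ' := by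
  funext x
  unfold cf
  rw [Pi.mul_apply, map_mul, map_mul, Units.val_mul]

theorem cf_one : cf K lam 1 = 1 := by
  funext x
  unfold cf
  rw [map_one, map_one, Units.val_one, Pi.one_apply]

theorem cf_inv (κ : K) : cf K lam κ⁻¹ = (cf K lam κ)⁻¹ := by
  funext x
  unfold cf
  rw [map_inv, map_inv, Units.val_inv_eq_inv_val, Pi.inv_apply]

theorem mem_CF [Finite G] (c : G ⧸ K → ℂ) : c ∈ CF K lam ↔ ∃ κ, cf K lam κ = c := by
  unfold CF
  rw [Set.Finite.mem_toFinset, Set.mem_range]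

theorem norm_cf [Finite G] (κ : K) (x : G ⧸ K) : ‖cf K lam κ x‖ = 1 := by
  unfold cf
  have h1 : ((lam (MulAut.conjNormal (Quotient.out x) κ) : ℂˣ) : ℂ) ^ Nat.card K = 1 := by
    rw [← Units.val_pow_eq_pow_val, ← map_pow, pow_card_eq_one', map_one, Units.val_one]
  exact Complex.norm_eq_one_of_pow_eq_one h1 Nat.card_pos.ne'

theorem cf_trans (κ : K) (g : G) :
    (fun x => cf K lam κ (x * (g : G ⧸ K))) = cf K lam (MulAut.conjNormal g κ) := by
  funext x
  induction x using QuotientGroup.induction_on with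
  | H h =>
    rw [← QuotientGroup.mk_mul, cf_mk, cf_mk, map_mul, MulAut.mul_apply]

end CFgP

open CFgP in
theorem p_CFg : S_CFg := by
  classical
  intro G _ _ K _ lam
  have h1 : 1 ∈ CF K lam := (mem_CF K lam 1).2 ⟨1, cf_one K lam⟩
  refine ⟨h1, ?_, ?_, ?_, ?_, ?_, ?_⟩
  · intro c hc c' hc'
    obtain ⟨κ, rfl⟩ := (mem_CF K lam c).1 hc
    obtain ⟨κ', rfl⟩ := (mem_CF K lam c').1 hc'
    exact (mem_CF K lam _).2 ⟨κ * κ', cf_mul K lam κ κ'⟩
  · intro c hc
    obtain ⟨κ, rfl⟩ := (mem_CF K lam c).1 hc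
    exact (mem_CF K lam _).2 ⟨κ⁻¹, cf_inv K lam κ⟩
  · intro c hc x
    obtain ⟨κ, rfl⟩ := (mem_CF K lam c).1 hc
    exact norm_cf K lam κ x
  · intro c hc q
    obtain ⟨κ, rfl⟩ := (mem_CF K lam c).1 hc
    induction q using QuotientGroup.induction_on with
    | H g => exact (mem_CF K lam _).2 ⟨_, (cf_trans K lam κ g).symm⟩
  · intro hlam
    obtain ⟨κ, hκ⟩ : ∃ κ, lam κ ≠ 1 := by
      by_contra hc
      push Not at hc
      exact hlam (MonoidHom.ext fun κ => hc κ)
    have h2 : cf K lam κ ∈ CF K lam := (mem_CF K lam _).2 ⟨κ, rfl⟩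
    have h3 : cf K lam κ ≠ 1 := by
      intro h
      have h4 := congrFun h ((1 : G) : G ⧸ K)
      rw [cf_mk, map_one, MulAut.one_apply, Pi.one_apply] at h4
      exact hκ (Units.ext h4)
    exact Finset.one_lt_card.2 ⟨_, h2, _, h1, h3⟩
  · have : Finite lam.range := Finite.of_surjective _ lam.rangeRestrict_surjective
    have : Fintype lam.range := Fintype.ofFinite _
    have : Fintype (G ⧸ K) := Fintype.ofFinite _
    let F : (G ⧸ K → lam.range) → (G ⧸ K → ℂ) := fun f x => (((f x : lam.range) : ℂˣ) : ℂ)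
    have hsub : CF K lam ⊆ Finset.univ.image F := by
      intro c hc
      obtain ⟨κ, rfl⟩ := (mem_CF K lam c).1 hc
      rw [Finset.mem_image]
      exact ⟨fun x => ⟨lam (MulAut.conjNormal (Quotient.out x) κ), ⟨_, rfl⟩⟩,
        Finset.mem_univ _, rfl⟩
    refine (Finset.card_le_card hsub).trans (Finset.card_image_le.trans (le_of_eq ?_))
    rw [Finset.card_univ, Fintype.card_fun, Nat.card_eq_fintype_card, Subgroup.index,
      Nat.card_eq_fintype_card]

end NilCut
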