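import Pool.Agent.Lib.MP_4ddf81_pr.Stm3

/-!
# MP_4ddf81_pr, stage 3 : the number of the classes of counts   (helper13)
-/

namespace NilCut

namespace ClsNP

variable {Q : Type} [Fintype Q]

/-- the submonoid -/
def Cs (C : Finset (Q → ℂ)) (h1 : 1 ∈ C) (hm : ∀ c ∈ C, ∀ c' ∈ C, c * c' ∈ C) :
    Submonoid (Q → ℂ) where
  carrier := {c | c ∈ C}
  mul_mem' := fun {a b} ha hb => hm a ha b hb
  one_mem' := h1

/-- evaluation -/
noncomputable def psi (M : Submonoid (Q → ℂ)) (N : Q → ℕ) : M →* ℂ where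
  toFun c := evc c.1 N
  map_one' := by simp [evc]
  map_mul' a b := by simp [evc, mul_pow, Finset.prod_mul_distrib]

theorem evc_ne {c : Q → ℂ} (hc : ∀ x, ‖c x‖ = 1) (N : Q → ℕ) : evc c N ≠ 0 := by
  rw [evc, Finset.prod_ne_zero_iff]
  intro x _
  refine pow_ne_zero _ fun h => ?_
  have := hc x
  rw [h, norm_zero] at this
  exact zero_ne_one this

theorem gen (hH : S_HoC) (C : Finset (Q → ℂ)) (h1 : 1 ∈ C)
    (hm : ∀ c ∈ C, ∀ c' ∈ C, c * c' ∈ C) (hn : ∀ c ∈ C, ∀ x, ‖c x‖ = 1) (c : Q → ℂ)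
    (hc : c ∈ C) (hc1 : c ≠ 1) (k : ℕ) (y : ℝ) (hk : 0 < k) (hy : 0 ≤ y)
    (X : Finset (Fin k → C → ℂ))
    (hX : ∀ x ∈ X, ∃ N : Fin k → Q → ℕ, (∀ i (c' : C), x i c' = evc c'.1 (N i)) ∧
      y ≤ ‖∑ i, evc c (N i)‖) :
    (X.card : ℝ) ≤ 4 * (C.card : ℝ) ^ k * Real.exp (-(y ^ 2 / (4 * (k : ℝ)))) := by
  classical
  set M := Cs C h1 hm with hM
  have hMfin : Finite M := Finite.of_injective (fun x : M => (⟨x.1, x.2⟩ : C)) (by
    intro a b hab
    exact Subtype.ext (congrArg (fun z : C => z.1) hab))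
  have hMcard : Nat.card M ≤ C.card := by
    have hcc : Nat.card C = C.card := by simp
    rw [← hcc]
    exact Nat.card_le_card_of_injective (fun x : M => (⟨x.1, x.2⟩ : C)) (by
      intro a b hab
      exact Subtype.ext (congrArg (fun z : C => z.1) hab))
  let _ : Fintype M := Fintype.ofFinite M
  have hli := linearIndependent_monoidHom M ℂ
  have hHfin : Finite (M →* ℂ) := hli.finite
  let _ : Fintype (M →* ℂ) := Fintype.ofFinite _
  have hcard : Fintype.card (M →* ℂ) ≤ C.card := by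
    have h2 := hli.fintype_card_le_finrank
    rw [Module.finrank_fintype_fun_eq_card] at h2
    rw [Nat.card_eq_fintype_card] at hMcard
    exact h2.trans hMcard
  set f : (M →* ℂ) → ℂ := fun ψ => ψ ⟨c, hc⟩ with hf
  have hf1 : ∀ ψ, ‖f ψ‖ ≤ 1 := by
    intro ψ
    obtain ⟨i, j, hij, he⟩ := Finite.exists_ne_map_eq_of_infinite
      (fun n : ℕ => (⟨c, hc⟩ : M) ^ n)
    have key : ∀ i j : ℕ, i < j → (⟨c, hc⟩ : M) ^ i = (⟨c, hc⟩ : M) ^ j → ‖f ψ‖ ≤ 1 := by
      intro i j hij he
      have h2 : (⟨c, hc⟩ : M) ^ (j - i) = 1 := by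
        apply Subtype.ext
        have h3 := congrArg Subtype.val he
        simp only [SubmonoidClass.coe_pow] at h3
        funext x
        have h4 := congrFun h3 x
        simp only [Pi.pow_apply] at h4
        have h5 : c x ≠ 0 := by
          intro h
          have := hn c hc x
          rw [h, norm_zero] at this
          exact zero_ne_one this
        have h6 : c x ^ j = c x ^ i * c x ^ (j - i) := by
          rw [← pow_add]; congr 1; omega
        rw [h6] at h4
        have h7 : c x ^ (j - i) = 1 := by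
          have h8 : c x ^ i * c x ^ (j - i) = c x ^ i * 1 := by rw [mul_one]; exact h4.symm
          exact mul_left_cancel₀ (pow_ne_zero _ h5) h8
        simpa using h7
      have h3 : (f ψ) ^ (j - i) = 1 := by
        rw [hf]
        simp only
        rw [← map_pow, h2, map_one]
      exact (Complex.norm_eq_one_of_pow_eq_one h3 (by omega)).le
    rcases lt_or_gt_of_ne hij with h | h
    · exact key i j h he
    · exact key j i h he.symm
  have hf0 : ∑ ψ, f ψ = 0 := by
    obtain ⟨x₀, hx₀⟩ : ∃ x, c x ≠ 1 := by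
      by_contra h
      push Not at h
      exact hc1 (funext h)
    set N₀ : Q → ℕ := fun x => if x = x₀ then 1 else 0 with hN₀
    have hc₀ : evc c N₀ = c x₀ := by
      rw [evc, Finset.prod_eq_single x₀]
      · simp [hN₀]
      · intro b _ hb
        simp [hN₀, hb]
      · intro h
        exact absurd (Finset.mem_univ _) h
    have hinj : Function.Injective (fun ψ : M →* ℂ => psi M N₀ * ψ) := by
      intro ψ ψ' h
      ext z
      have h2 := DFunLike.congr_fun h z
      simp only [MonoidHom.mul_apply] at h2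
      exact mul_left_cancel₀ (evc_ne (hn z.1 z.2) N₀) h2
    have hbij : Function.Bijective (fun ψ : M →* ℂ => psi M N₀ * ψ) :=
      Finite.injective_iff_bijective.1 hinj
    have h2 := hbij.sum_comp f
    have h3 : ∑ ψ : M →* ℂ, f (psi M N₀ * ψ) = c x₀ * ∑ ψ, f ψ := by
      rw [Finset.mul_sum]
      refine Finset.sum_congr rfl fun ψ _ => ?_
      rw [hf]
      simp only [MonoidHom.mul_apply]
      congr 1
    rw [h3] at h2
    have h4 : (c x₀ - 1) * ∑ ψ, f ψ = 0 := by rw [sub_mul, h2, one_mul, sub_self]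
    exact (mul_eq_zero.1 h4).resolve_left (sub_ne_zero.2 hx₀)
  have : Nonempty (M →* ℂ) := ⟨1⟩
  have hmain := hH (M →* ℂ) f hf1 hf0 k y hk hy
  have hXc : X.card ≤ Nat.card {x : Fin k → (M →* ℂ) // y ≤ ‖∑ i, f (x i)‖} := by
    choose! N hN using hX
    have hcc : Nat.card X = X.card := by simp
    rw [← hcc]
    refine Nat.card_le_card_of_injective (fun x : X =>
      (⟨fun i => psi M (N x.1 i), by
        exact (hN x.1 x.2).2⟩ : {x : Fin k → (M →* ℂ) // y ≤ ‖∑ i, f (x i)‖})) ?_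
    intro x x' h
    have h2 : (fun i => psi M (N x.1 i)) = fun i => psi M (N x'.1 i) := congrArg Subtype.val h
    apply Subtype.ext
    funext i c'
    have h3 := DFunLike.congr_fun (congrFun h2 i) (⟨c'.1, c'.2⟩ : M)
    rw [(hN x.1 x.2).1 i c', (hN x'.1 x'.2).1 i c']
    exact h3
  calc (X.card : ℝ) ≤ (Nat.card {x : Fin k → (M →* ℂ) // y ≤ ‖∑ i, f (x i)‖} : ℝ) := by
        exact_mod_cast hXc
    _ ≤ 4 * (Fintype.card (M →* ℂ) : ℝ) ^ k * Real.exp (-(y ^ 2 / (4 * (k : ℝ)))) := hmain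
    _ ≤ 4 * (C.card : ℝ) ^ k * Real.exp (-(y ^ 2 / (4 * (k : ℝ)))) := by
        have : (Fintype.card (M →* ℂ) : ℝ) ≤ C.card := by exact_mod_cast hcard
        gcongr

end ClsNP

theorem p_ClsN (hC : S_CFg) (hH : S_HoC) : S_ClsN := by
  intro G _ _ K _ _ lam c hc hc1 k y hk hy X hX
  obtain ⟨h1, hm, -, hn, -, -, -⟩ := hC G K lam
  exact ClsNP.gen hH (CF K lam) h1 hm hn c hc hc1 k y hk hy X hX

end NilCut
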