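import Pool.Agent.Lib.MP_4ddf81_pr.Stm3

/-!
# MP_4ddf81_pr, stage 3 : the number of the complements
-/

namespace NilCut

open Filter Topology

namespace ComplP

theorem le_of_eq {G : Type} [Group G] (K U P P' : Subgroup G) [K.Normal] (hP : P ⊓ K = U)
    (hP' : P' ⊓ K = U) (y y' : G ⧸ K → G) (hy : ∀ x, y x ∈ P) (hy' : ∀ x, y' x ∈ P')
    (hyx : ∀ x, ((y x : G) : G ⧸ K) = x)
    (h : ∀ x, (y x)⁻¹ * y' x ∈ U) : P ≤ P' := by
  intro p hp
  have h1 : (y (p : G ⧸ K))⁻¹ * p ∈ P ⊓ K := by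
    have h0 : (y (p : G ⧸ K))⁻¹ * p ∈ K := by
      rw [← QuotientGroup.eq]
      exact hyx _
    exact ⟨P.mul_mem (P.inv_mem (hy _)) hp, h0⟩
  have h2 : (y (p : G ⧸ K))⁻¹ * p ∈ P' := by
    rw [hP, ← hP'] at h1
    exact h1.1
  have h3 : (y (p : G ⧸ K))⁻¹ * y' (p : G ⧸ K) ∈ P' := by
    have := h (p : G ⧸ K)
    rw [← hP'] at this
    exact this.1
  have h4 : p = y' (p : G ⧸ K) * ((y (p : G ⧸ K))⁻¹ * y' (p : G ⧸ K))⁻¹ *
      ((y (p : G ⧸ K))⁻¹ * p) := by group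
  rw [h4]
  exact P'.mul_mem (P'.mul_mem (hy' _) (P'.inv_mem h3)) h2

end ComplP

open ComplP

theorem p_Compl : S_Compl := by
  intro G _ _ K U hK
  have := hK
  have key : ∀ (P : {P : Subgroup G // P ⊔ K = ⊤ ∧ P ⊓ K = U}) (x : G ⧸ K),
      ∃ y ∈ P.1, ((y : G) : G ⧸ K) = x := by
    intro P x
    obtain ⟨g, rfl⟩ := QuotientGroup.mk_surjective x
    have hg : g ∈ P.1 ⊔ K := by
      rw [P.2.1]
      exact Subgroup.mem_top g
    obtain ⟨y, hy, z, hz, rfl⟩ := Subgroup.mem_sup_of_normal_right.1 hg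
    refine ⟨y, hy, ?_⟩
    rw [QuotientGroup.eq, inv_mul_cancel_left]
    exact hz
  choose y hy hyx using key
  have hKm : ∀ P x, (Quotient.out x : G)⁻¹ * y P x ∈ K := by
    intro P x
    rw [← QuotientGroup.eq, QuotientGroup.out_eq', hyx]
  set F : {P : Subgroup G // P ⊔ K = ⊤ ∧ P ⊓ K = U} → (G ⧸ K → K ⧸ U.subgroupOf K) :=
    fun P x => QuotientGroup.mk ⟨_, hKm P x⟩ with hF
  have hinj : Function.Injective F := by
    intro P P' hPP
    have h1 : ∀ x, (y P x)⁻¹ * y P' x ∈ U := by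
      intro x
      have h2 := congrFun hPP x
      rw [hF] at h2
      beta_reduce at h2
      rw [QuotientGroup.eq, Subgroup.mem_subgroupOf] at h2
      have h3 : ((Quotient.out x : G)⁻¹ * y P x)⁻¹ * ((Quotient.out x : G)⁻¹ * y P' x) ∈ U := h2
      have h4 : ((Quotient.out x : G)⁻¹ * y P x)⁻¹ * ((Quotient.out x : G)⁻¹ * y P' x) =
          (y P x)⁻¹ * y P' x := by group
      rwa [h4] at h3
    apply Subtype.ext
    apply le_antisymm
    · exact ComplP.le_of_eq K U P.1 P'.1 P.2.2 P'.2.2 (y P) (y P') (hy P) (hy P') (hyx P) h1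
    · refine ComplP.le_of_eq K U P'.1 P.1 P'.2.2 P.2.2 (y P') (y P) (hy P') (hy P) (hyx P')
        (fun x => ?_)
      have h2 := U.inv_mem (h1 x)
      rwa [mul_inv_rev, inv_inv] at h2
  calc Nat.card {P : Subgroup G // P ⊔ K = ⊤ ∧ P ⊓ K = U}
      ≤ Nat.card (G ⧸ K → K ⧸ U.subgroupOf K) := Nat.card_le_card_of_injective F hinj
    _ = (U.relIndex K) ^ K.index := by
        rw [Nat.card_fun]
        rfl

end NilCut
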