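import Pool.Agent.Lib.MP_4ddf81_pr.Stm3

/-!
# MP_4ddf81_pr, stage 3, piece DPt : almost invariant vectors, pointwise form
-/

namespace NilCut

namespace DPtP

variable {G : Type} [Group G] [Fintype G]

theorem norm_lam {H : Subgroup G} (lam : H →* ℂˣ) (h : H) : ‖(((lam h)⁻¹ : ℂˣ) : ℂ)‖ = 1 := by
  have h1 : ((((lam h)⁻¹ : ℂˣ) : ℂ)) ^ Nat.card H = 1 := by
    rw [← Units.val_pow_eq_pow_val, inv_pow, ← map_pow, pow_card_eq_one', map_one, inv_one,
      Units.val_one]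
  exact Complex.norm_eq_one_of_pow_eq_one h1 Nat.card_pos.ne'

end DPtP

open DPtP in
theorem p_DPt : S_DPt := by
  classical
  intro G _ _ H lam k D Z γ hk hγ hγ1 hD hgap
  unfold DGap at hgap
  push Not at hgap
  obtain ⟨v, hv, hlt⟩ := hgap
  obtain ⟨N, hN⟩ : ∃ N, N = ∑ g : G, ‖v g‖ ^ 2 := ⟨_, rfl⟩
  rw [← hN] at hlt
  have hkR : (0 : ℝ) < k := by exact_mod_cast hk
  -- the energies
  obtain ⟨E, hE⟩ : ∃ E : Fin k → ℝ, E = fun i => ∑ g : G, ‖v ((Z i)⁻¹ * g) - v g‖ ^ 2 :=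
    ⟨_, rfl⟩
  have hE0 : ∀ i, 0 ≤ E i := fun i => by
    rw [hE]
    exact Finset.sum_nonneg fun g _ => by positivity
  have hElt : ∑ i, E i < k * (γ ^ 2 * N) := by
    rw [hE]
    simp only
    linarith
  have hN0 : 0 < N := by
    by_contra h
    have h1 : 0 ≤ ∑ i, E i := Finset.sum_nonneg fun i _ => hE0 i
    have h2 : (k : ℝ) * (γ ^ 2 * N) ≤ 0 := by
      have : γ ^ 2 * N ≤ 0 := mul_nonpos_of_nonneg_of_nonpos (by positivity) (not_lt.1 h)
      exact mul_nonpos_of_nonneg_of_nonpos hkR.le this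
    linarith
  -- the maximum
  obtain ⟨g0, hg0⟩ := Finite.exists_max fun g : G => ‖v g‖
  have hvm : 0 < ‖v g0‖ := by
    by_contra h
    have h1 : ∀ g, ‖v g‖ = 0 := fun g => le_antisymm ((hg0 g).trans (not_lt.1 h)) (norm_nonneg _)
    rw [hN] at hN0
    simp [h1] at hN0
  have hNle : N ≤ (Fintype.card G : ℝ) * ‖v g0‖ ^ 2 := by
    rw [hN]
    calc ∑ g : G, ‖v g‖ ^ 2 ≤ ∑ _g : G, ‖v g0‖ ^ 2 :=
          Finset.sum_le_sum fun g _ => pow_le_pow_left₀ (norm_nonneg _) (hg0 g) 2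
      _ = _ := by simp
  refine ⟨v, ‖v g0‖, Finset.univ.filter fun i => E i ≤ γ * N, hv, hvm, hg0, ⟨g0, rfl⟩, ?_, ?_⟩
  · have h1 : (((Finset.univ.filter fun i => ¬ E i ≤ γ * N).card : ℕ) : ℝ) * (γ * N) ≤
        ∑ i, E i := by
      calc (((Finset.univ.filter fun i => ¬ E i ≤ γ * N).card : ℕ) : ℝ) * (γ * N)
          = ∑ _i ∈ Finset.univ.filter (fun i => ¬ E i ≤ γ * N), γ * N := by simp
        _ ≤ ∑ i ∈ Finset.univ.filter (fun i => ¬ E i ≤ γ * N), E i :=
            Finset.sum_le_sum fun i hi => (not_le.1 (Finset.mem_filter.1 hi).2).le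
        _ ≤ ∑ i, E i := Finset.sum_le_sum_of_subset_of_nonneg (Finset.filter_subset _ _)
            fun i _ _ => hE0 i
    have h2 : (Finset.univ.filter fun i => E i ≤ γ * N).card +
        (Finset.univ.filter fun i => ¬ E i ≤ γ * N).card = k := by
      have := Finset.card_filter_add_card_filter_not (s := (Finset.univ : Finset (Fin k)))
        (fun i => E i ≤ γ * N)
      simpa using this
    have h3 : ((Finset.univ.filter fun i => E i ≤ γ * N).card : ℝ) +
        ((Finset.univ.filter fun i => ¬ E i ≤ γ * N).card : ℝ) = k := by exact_mod_cast h2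
    have h4 : ((Finset.univ.filter fun i => ¬ E i ≤ γ * N).card : ℝ) < γ * k := by
      have h5 : 0 < γ * N := by positivity
      have h6 : ((Finset.univ.filter fun i => ¬ E i ≤ γ * N).card : ℝ) * (γ * N) <
          (γ * k) * (γ * N) := by
        calc _ ≤ ∑ i, E i := h1
          _ < k * (γ ^ 2 * N) := hElt
          _ = _ := by ring
      exact lt_of_mul_lt_mul_right h6 h5.le
    linarith
  · intro i hi g
    have hi' : E i ≤ γ * N := (Finset.mem_filter.1 hi).2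
    -- invariance
    have h1 : ∀ h : H, ‖v ((Z i)⁻¹ * (g * h)) - v (g * h)‖ = ‖v ((Z i)⁻¹ * g) - v g‖ := by
      intro h
      rw [← mul_assoc, hv _ h, hv g h, ← mul_sub, norm_mul, norm_lam, one_mul]
    have h2 : (Nat.card H : ℝ) * ‖v ((Z i)⁻¹ * g) - v g‖ ^ 2 ≤ E i := by
      calc (Nat.card H : ℝ) * ‖v ((Z i)⁻¹ * g) - v g‖ ^ 2
          = ∑ h : H, ‖v ((Z i)⁻¹ * (g * h)) - v (g * h)‖ ^ 2 := by
            simp only [h1]
            simp
        _ = ∑ x ∈ Finset.univ.map ⟨fun h : H => g * (h : G), fun a b hab =>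
              Subtype.ext (mul_left_cancel hab)⟩, ‖v ((Z i)⁻¹ * x) - v x‖ ^ 2 := by
            rw [Finset.sum_map]
            rfl
        _ ≤ ∑ x : G, ‖v ((Z i)⁻¹ * x) - v x‖ ^ 2 :=
            Finset.sum_le_sum_of_subset_of_nonneg (Finset.subset_univ _) fun _ _ _ => by
              positivity
        _ = E i := by rw [hE]
    have h3 : (Fintype.card G : ℝ) ≤ Nat.card H * D := by
      have h4 : Nat.card H * H.index = Nat.card G := H.card_mul_index
      have h5 : Nat.card G ≤ Nat.card H * D := h4 ▸ Nat.mul_le_mul_left _ hD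
      rw [Nat.card_eq_fintype_card] at h5
      exact_mod_cast h5
    have hH : (0 : ℝ) < Nat.card H := by exact_mod_cast Nat.card_pos
    have h6 : ‖v ((Z i)⁻¹ * g) - v g‖ ^ 2 ≤ γ * D * ‖v g0‖ ^ 2 := by
      have h7 : (Nat.card H : ℝ) * ‖v ((Z i)⁻¹ * g) - v g‖ ^ 2 ≤
          Nat.card H * (γ * D * ‖v g0‖ ^ 2) := by
        calc _ ≤ E i := h2
          _ ≤ γ * N := hi'
          _ ≤ γ * ((Fintype.card G : ℝ) * ‖v g0‖ ^ 2) := mul_le_mul_of_nonneg_left hNle hγ.le
          _ ≤ γ * ((Nat.card H * D) * ‖v g0‖ ^ 2) :=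
              mul_le_mul_of_nonneg_left (mul_le_mul_of_nonneg_right h3 (by positivity)) hγ.le
          _ = _ := by ring
      exact le_of_mul_le_mul_left h7 hH
    have h8 : γ * D * ‖v g0‖ ^ 2 = (Real.sqrt (γ * D) * ‖v g0‖) ^ 2 := by
      rw [mul_pow, Real.sq_sqrt (by positivity)]
    rw [h8] at h6
    exact le_of_sq_le_sq h6 (by positivity)

end NilCut
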