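import Pool.Agent.Lib.MP_4ddf81_pr.Stm3

/-!
# MP_4ddf81_pr, stage 3 : the numbers of the letters in the cosets
-/

namespace NilCut

open Filter Topology

namespace EQP

private lemma sum_cons {X : Type} [Fintype X] {k : ℕ} (F : (Fin (k + 1) → X) → ℝ) :
    ∑ w, F w = ∑ x : X, ∑ u : Fin k → X, F (Fin.cons x u : Fin (k + 1) → X) := by
  rw [← (Fin.consEquiv (fun _ : Fin (k + 1) => X)).sum_comp F, Fintype.sum_prod_type]
  rfl

private lemma var_sum {X : Type} [Fintype X] (y : X → ℝ) (hy : ∑ x, y x = 0) : ∀ k : ℕ,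
    (Fintype.card X : ℝ) * ∑ z : Fin k → X, (∑ i, y (z i)) ^ 2 =
      (k : ℝ) * (Fintype.card X : ℝ) ^ k * ∑ x, y x ^ 2 := by
  intro k
  induction k with
  | zero => simp
  | succ k ih =>
      rw [sum_cons]
      have h : ∑ x : X, ∑ u : Fin k → X, (∑ i, y ((Fin.cons x u : Fin (k + 1) → X) i)) ^ 2 =
          (Fintype.card X : ℝ) ^ k * ∑ x, y x ^ 2 +
            (Fintype.card X : ℝ) * ∑ u : Fin k → X, (∑ i, y (u i)) ^ 2 := by
        have e : ∀ (x : X) (u : Fin k → X),
            (∑ i, y ((Fin.cons x u : Fin (k + 1) → X) i)) ^ 2 =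
            y x ^ 2 + 2 * y x * (∑ i, y (u i)) + (∑ i, y (u i)) ^ 2 := by
          intro x u
          rw [Fin.sum_univ_succ]
          simp only [Fin.cons_zero, Fin.cons_succ]
          ring
        simp only [e, Finset.sum_add_distrib]
        have e1 : ∑ x : X, ∑ _u : Fin k → X, y x ^ 2 = (Fintype.card X : ℝ) ^ k * ∑ x, y x ^ 2 := by
          simp only [Finset.sum_const, Finset.card_univ, nsmul_eq_mul, ← Finset.mul_sum]
          simp
        have e2 : ∑ x : X, ∑ u : Fin k → X, 2 * y x * (∑ i, y (u i)) = 0 := by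
          simp only [← Finset.mul_sum]
          rw [← Finset.sum_mul, ← Finset.mul_sum, hy]
          ring
        have e3 : ∑ _x : X, ∑ u : Fin k → X, (∑ i, y (u i)) ^ 2 =
            (Fintype.card X : ℝ) * ∑ u : Fin k → X, (∑ i, y (u i)) ^ 2 := by
          rw [Finset.sum_const, Finset.card_univ, nsmul_eq_mul]
        rw [e1, e2, e3]
        ring
      rw [h, ih]
      push_cast
      ring

open Classical in
private lemma kq_eq {Q : Type} {k : ℕ} (z : Fin k → Q) (q : Q) :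
    (kq z q : ℝ) = ∑ i, if z i = q then (1 : ℝ) else 0 := by
  unfold kq
  rw [Nat.card_eq_fintype_card, Fintype.card_subtype, Finset.sum_boole]

private lemma one (Q : Type) [Fintype Q] [Nonempty Q] (k : ℕ) (q : Q) :
    ∑ z : Fin k → Q, ((kq z q : ℝ) - (k : ℝ) / (Fintype.card Q : ℝ)) ^ 2 ≤
      (k : ℝ) * (Fintype.card Q : ℝ) ^ k / (Fintype.card Q : ℝ) := by
  classical
  have hJ : (0 : ℝ) < Fintype.card Q := by exact_mod_cast Fintype.card_pos
  set y : Q → ℝ := fun x => (if x = q then 1 else 0) - 1 / (Fintype.card Q : ℝ) with hy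
  have hy0 : ∑ x, y x = 0 := by
    simp only [hy]
    rw [Finset.sum_sub_distrib, Finset.sum_const, Finset.card_univ, nsmul_eq_mul]
    simp
  have hy2 : ∑ x, y x ^ 2 ≤ 1 := by
    have e : ∀ x, y x ^ 2 = (if x = q then 1 else 0) - 2 / (Fintype.card Q : ℝ) *
        (if x = q then 1 else 0) + 1 / (Fintype.card Q : ℝ) ^ 2 := by
      intro x
      simp only [hy]
      split_ifs <;> ring
    simp only [e]
    rw [Finset.sum_add_distrib, Finset.sum_sub_distrib, ← Finset.mul_sum, Finset.sum_const,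
      Finset.card_univ, nsmul_eq_mul]
    simp only [Finset.sum_ite_eq', Finset.mem_univ, if_true]
    have h1 : (Fintype.card Q : ℝ) * (1 / (Fintype.card Q : ℝ) ^ 2) =
        1 / (Fintype.card Q : ℝ) := by field_simp
    rw [h1]
    have h2 : 0 < 1 / (Fintype.card Q : ℝ) := by positivity
    have h3 : 2 / (Fintype.card Q : ℝ) * 1 = 2 * (1 / (Fintype.card Q : ℝ)) := by ring
    rw [h3]
    linarith
  have hv := var_sum y hy0 k
  have e2 : ∀ z : Fin k → Q, (kq z q : ℝ) - (k : ℝ) / (Fintype.card Q : ℝ) = ∑ i, y (z i) := by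
    intro z
    simp only [hy]
    rw [Finset.sum_sub_distrib, Finset.sum_const, Finset.card_univ, Fintype.card_fin,
      nsmul_eq_mul, kq_eq]
    ring
  simp only [e2]
  rw [le_div_iff₀ hJ, mul_comm, hv]
  calc (k : ℝ) * (Fintype.card Q : ℝ) ^ k * ∑ x, y x ^ 2 ≤
        (k : ℝ) * (Fintype.card Q : ℝ) ^ k * 1 := by gcongr
    _ = _ := mul_one _

end EQP

open EQP in
theorem p_EQ : S_EQ := by
  classical
  intro Q _ _ k y hy
  have hJ : (0 : ℝ) < Fintype.card Q := by exact_mod_cast Fintype.card_pos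
  have hy2 : 0 < y ^ 2 := by positivity
  rw [Nat.card_eq_fintype_card, Fintype.card_subtype]
  have h1 : ((Finset.univ.filter fun z : Fin k → Q => ∃ q, y <
      |(kq z q : ℝ) - (k : ℝ) / (Fintype.card Q : ℝ)|).card : ℝ) * y ^ 2 ≤
      ∑ z : Fin k → Q, ∑ q : Q, ((kq z q : ℝ) - (k : ℝ) / (Fintype.card Q : ℝ)) ^ 2 := by
    rw [← nsmul_eq_mul, ← Finset.sum_const]
    refine le_trans (Finset.sum_le_sum (g := fun z : Fin k → Q => ∑ q : Q,
      ((kq z q : ℝ) - (k : ℝ) / (Fintype.card Q : ℝ)) ^ 2) ?_) ?_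
    · intro z hz
      obtain ⟨q, hq⟩ := (Finset.mem_filter.1 hz).2
      refine le_trans ?_ (Finset.single_le_sum
        (f := fun q : Q => ((kq z q : ℝ) - (k : ℝ) / (Fintype.card Q : ℝ)) ^ 2)
        (fun q _ => sq_nonneg _) (Finset.mem_univ q))
      rw [← sq_abs ((kq z q : ℝ) - (k : ℝ) / (Fintype.card Q : ℝ))]
      exact pow_le_pow_left₀ hy.le hq.le 2
    · exact Finset.sum_le_sum_of_subset_of_nonneg (Finset.filter_subset _ _)
        fun z _ _ => Finset.sum_nonneg fun q _ => sq_nonneg _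
  have h2 : ∑ z : Fin k → Q, ∑ q : Q, ((kq z q : ℝ) - (k : ℝ) / (Fintype.card Q : ℝ)) ^ 2 ≤
      (k : ℝ) * (Fintype.card Q : ℝ) ^ k := by
    rw [Finset.sum_comm]
    calc ∑ q : Q, ∑ z : Fin k → Q, ((kq z q : ℝ) - (k : ℝ) / (Fintype.card Q : ℝ)) ^ 2
        ≤ ∑ _q : Q, (k : ℝ) * (Fintype.card Q : ℝ) ^ k / (Fintype.card Q : ℝ) :=
          Finset.sum_le_sum fun q _ => one Q k q
      _ = (k : ℝ) * (Fintype.card Q : ℝ) ^ k := by
          rw [Finset.sum_const, Finset.card_univ, nsmul_eq_mul]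
          field_simp
  have h3 : (k : ℝ) / y ^ 2 * (Fintype.card Q : ℝ) ^ k =
      (k : ℝ) * (Fintype.card Q : ℝ) ^ k / y ^ 2 := by ring
  rw [h3, le_div_iff₀ hy2]
  exact h1.trans h2

end NilCut
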