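import Pool.Agent.Lib.MP_4ddf81_pr.Stm3

/-! The law of the energy of a letter. -/

namespace NilCut

namespace EdistP

variable {G : Type} [Group G]

theorem norm_char [Finite G] {K : Subgroup G} (lam : K →* ℂˣ) (h : K) :
    ‖((lam h : ℂˣ) : ℂ)‖ = 1 := by
  have h1 : (lam h) ^ (Nat.card K) = 1 := by rw [← map_pow, pow_card_eq_one', map_one]
  have h2 : ((lam h : ℂˣ) : ℂ) ^ (Nat.card K) = 1 := by
    rw [← Units.val_pow_eq_pow_val, h1, Units.val_one]
  exact Complex.norm_eq_one_of_pow_eq_one h2 Nat.card_pos.ne'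

theorem conj_mul {K : Subgroup G} [K.Normal] (lam : K →* ℂˣ) (g : G) (k κ : K) :
    lam (MulAut.conjNormal (g * (k : G)) κ) = lam (MulAut.conjNormal g κ) := by
  have h1 : MulAut.conjNormal (g * (k : G)) κ =
      MulAut.conjNormal g k * MulAut.conjNormal g κ * (MulAut.conjNormal g k)⁻¹ := by
    apply Subtype.ext
    push_cast
    simp only [MulAut.conjNormal_apply]
    group
  rw [h1, map_mul, map_mul, map_inv]
  exact mul_inv_cancel_comm _ _

theorem conj_out {K : Subgroup G} [K.Normal] (lam : K →* ℂˣ) (g : G) (κ : K) :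
    lam (MulAut.conjNormal (Quotient.out (g : G ⧸ K)) κ) = lam (MulAut.conjNormal g κ) := by
  obtain ⟨k, hk⟩ := QuotientGroup.mk_out_eq_mul K g
  rw [hk, conj_mul]

theorem cf_mk {K : Subgroup G} [K.Normal] (lam : K →* ℂˣ) (g : G) (κ : K) :
    cf K lam κ (g : G ⧸ K) = ((lam (MulAut.conjNormal g κ) : ℂˣ) : ℂ) := by
  unfold cf
  rw [conj_out]

theorem cf_mul {K : Subgroup G} [K.Normal] (lam : K →* ℂˣ) (κ κ' : K) (x : G ⧸ K) :
    cf K lam (κ * κ') x = cf K lam κ x * cf K lam κ' x := by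
  unfold cf
  rw [map_mul, map_mul, Units.val_mul]

theorem cf_ne {K : Subgroup G} [K.Normal] (lam : K →* ℂˣ) (κ : K) (x : G ⧸ K) :
    cf K lam κ x ≠ 0 := Units.ne_zero _

theorem cf_of_ker {K : Subgroup G} [K.Normal] {lam : K →* ℂˣ} {u : K}
    (hu : ∀ x : G, lam (MulAut.conjNormal x u) = 1) (κ : K) :
    cf K lam (κ * u) = cf K lam κ := by
  funext x
  rw [cf_mul]
  have h : cf K lam u x = 1 := by
    unfold cf
    rw [hu, Units.val_one]
  rw [h, mul_one]

/-- sums over the cosets -/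
theorem sum_coset [Fintype G] (K : Subgroup G) [K.Normal] [Fintype (G ⧸ K)]
    (F : G ⧸ K → ℝ) : ∑ g : G, F (g : G ⧸ K) = (Nat.card K : ℝ) * ∑ x, F x := by
  classical
  have : Fintype K := Fintype.ofFinite K
  rw [Fintype.sum_equiv (Subgroup.groupEquivQuotientProdSubgroup (s := K))
    (fun g : G => F (g : G ⧸ K)) (fun p : (G ⧸ K) × K => F p.1) (fun g => rfl),
    Fintype.sum_prod_type]
  simp only [Finset.sum_const, Finset.card_univ, nsmul_eq_mul]
  rw [← Finset.mul_sum, Nat.card_eq_fintype_card]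

/-- the energy of a letter -/
theorem Ez_eq [Fintype G] (K : Subgroup G) [K.Normal] [Fintype (G ⧸ K)] (lam : K →* ℂˣ)
    (P : Subgroup G) (v' : G → ℂ) (hv : Cov K lam v') (hn : ∀ g, ‖v' g‖ = 1)
    (hP : ∀ p ∈ P, ∀ g, v' (p⁻¹ * g) = v' g) (κ : K) (p : G) (hp : p ∈ P) :
    Ez v' ((κ : G) * p) = En (cf K lam κ) := by
  have h1 : ∀ g : G, ‖v' (((κ : G) * p)⁻¹ * g) - v' g‖ ^ 2 =
      2 * (1 - (cf K lam κ ((g⁻¹ : G) : G ⧸ K)).re) := by
    intro g
    have e1 : ((κ : G) * p)⁻¹ * g = p⁻¹ * ((κ : G)⁻¹ * g) := by group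
    have e2 : (κ : G)⁻¹ * g = g * ((MulAut.conjNormal g⁻¹ κ⁻¹ : K) : G) := by
      rw [MulAut.conjNormal_apply]
      push_cast
      group
    rw [e1, hP p hp, e2, hv, map_inv, map_inv, inv_inv, cf_mk]
    set w : ℂ := ((lam (MulAut.conjNormal g⁻¹ κ) : ℂˣ) : ℂ) with hw
    have e3 : w * v' g - v' g = (w - 1) * v' g := by ring
    rw [e3, norm_mul, hn, mul_one]
    have e4 : ‖w‖ = 1 := norm_char lam _
    have e5 : w.re ^ 2 + w.im ^ 2 = 1 := by
      have h := Complex.sq_norm w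
      rw [e4, Complex.normSq_apply] at h
      nlinarith [h]
    rw [Complex.sq_norm, Complex.normSq_apply, Complex.sub_re, Complex.sub_im, Complex.one_re,
      Complex.one_im]
    nlinarith [e5]
  unfold Ez En
  rw [Finset.sum_congr rfl fun g _ => h1 g]
  have h2 : ∑ g : G, 2 * (1 - (cf K lam κ ((g⁻¹ : G) : G ⧸ K)).re) =
      ∑ g : G, 2 * (1 - (cf K lam κ (g : G ⧸ K)).re) :=
    Fintype.sum_equiv (Equiv.inv G) _ _ (fun g => rfl)
  rw [h2, sum_coset K (fun x => 2 * (1 - (cf K lam κ x).re)), ← Finset.mul_sum]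
  have hc : Nat.card G = Nat.card (G ⧸ K) * Nat.card K :=
    Subgroup.card_eq_card_quotient_mul_card_subgroup K
  have hK : (Nat.card K : ℝ) ≠ 0 := Nat.cast_ne_zero.2 Nat.card_pos.ne'
  have hQ : (Fintype.card (G ⧸ K) : ℝ) ≠ 0 := by
    have : Nonempty (G ⧸ K) := ⟨((1 : G) : G ⧸ K)⟩
    exact Nat.cast_ne_zero.2 Fintype.card_ne_zero
  rw [hc, Nat.cast_mul, Nat.card_eq_fintype_card (α := G ⧸ K)]
  field_simp

end EdistP

open EdistP in
theorem p_Edist : S_Edist := by
  classical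
  intro G _ _ K _ _ lam P v' s hC hv hn hP
  have hex : ∀ z : G, ∃ κ : K, (κ : G)⁻¹ * z ∈ P := by
    intro z
    have hz : z ∈ K ⊔ P := by
      rw [sup_comm, hC.1]
      exact Subgroup.mem_top z
    obtain ⟨κ, hκ, p, hp, h⟩ := (Subgroup.mem_sup_of_normal_left).1 hz
    refine ⟨⟨κ, hκ⟩, ?_⟩
    rw [← h]
    simpa using hp
  choose kp hkp using hex
  let cz : G → (G ⧸ K → ℂ) := fun z => cf K lam (kp z)
  -- the values do not depend on the choices
  have hcz : ∀ (z : G) (κ : K), (κ : G)⁻¹ * z ∈ P → cf K lam κ = cz z := by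
    intro z κ hκ
    have h1 : (κ : G)⁻¹ * (kp z : G) ∈ P := by
      have h := P.mul_mem hκ (P.inv_mem (hkp z))
      have e : (κ : G)⁻¹ * z * ((kp z : G)⁻¹ * z)⁻¹ = (κ : G)⁻¹ * (kp z : G) := by group
      rwa [e] at h
    have h2 := (hC.2 (κ⁻¹ * kp z)).1 h1
    have h3 := cf_of_ker h2 κ
    rw [mul_inv_cancel_left] at h3
    exact h3.symm
  have hmul : ∀ (κ : K) (z : G) (x : G ⧸ K), cz ((κ : G) * z) x = cf K lam κ x * cz z x := by
    intro κ z x
    have h1 : (((κ * kp z : K)) : G)⁻¹ * ((κ : G) * z) ∈ P := by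
      have e : (((κ * kp z : K)) : G)⁻¹ * ((κ : G) * z) = (kp z : G)⁻¹ * z := by
        push_cast
        group
      rw [e]
      exact hkp z
    rw [← hcz _ _ h1, cf_mul]
  have hE : ∀ z : G, Ez v' z = En (cz z) := by
    intro z
    have h := Ez_eq K lam P v' hv hn hP (kp z) _ (hkp z)
    rw [mul_inv_cancel_left] at h
    exact h
  -- the fibres
  let n : ℕ := (Finset.univ.filter fun z : G => cz z = fun _ => 1).card
  have hfib : ∀ c ∈ CF K lam, (Finset.univ.filter fun z : G => cz z = c).card = n := by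
    intro c hc
    obtain ⟨κ, rfl⟩ := (Set.finite_range (cf K lam)).mem_toFinset.1 hc
    symm
    refine Finset.card_bij (fun z _ => (κ : G) * z) ?_ ?_ ?_
    · intro z hz
      have hz' := (Finset.mem_filter.1 hz).2
      refine Finset.mem_filter.2 ⟨Finset.mem_univ _, ?_⟩
      funext x
      rw [hmul, hz', mul_one]
    · intro a _ b _ h
      exact mul_left_cancel h
    · intro z hz
      have hz' := (Finset.mem_filter.1 hz).2
      refine ⟨(κ : G)⁻¹ * z, Finset.mem_filter.2 ⟨Finset.mem_univ _, ?_⟩, by group⟩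
      funext x
      have h := hmul κ ((κ : G)⁻¹ * z) x
      rw [mul_inv_cancel_left, hz'] at h
      exact (mul_right_eq_self₀.1 h.symm).resolve_right (cf_ne lam κ x)
  have hmaps : ∀ z ∈ (Finset.univ : Finset G), cz z ∈ CF K lam := fun z _ =>
    (Set.finite_range (cf K lam)).mem_toFinset.2 ⟨kp z, rfl⟩
  have hsum : ∑ z : G, Real.exp (-(2 * s * Ez v' z)) =
      (n : ℝ) * ∑ c ∈ CF K lam, Real.exp (-(2 * s * En c)) := by
    rw [← Finset.sum_fiberwise_of_maps_to hmaps, Finset.mul_sum]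
    refine Finset.sum_congr rfl fun c hc => ?_
    rw [← hfib c hc, ← nsmul_eq_mul, ← Finset.sum_const]
    refine Finset.sum_congr rfl fun z hz => ?_
    rw [hE, (Finset.mem_filter.1 hz).2]
  have hcard : (Nat.card G : ℝ) = (n : ℝ) * ((CF K lam).card : ℝ) := by
    have h1 := Finset.card_eq_sum_card_fiberwise hmaps
    rw [Finset.sum_congr rfl hfib, Finset.sum_const, smul_eq_mul, Finset.card_univ] at h1
    rw [Nat.card_eq_fintype_card, h1]
    push_cast
    ring
  have hne : ((CF K lam).card : ℝ) ≠ 0 := by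
    have h : (CF K lam).Nonempty := ⟨_, hmaps 1 (Finset.mem_univ _)⟩
    exact Nat.cast_ne_zero.2 h.card_pos.ne'
  rw [hsum, hcard, ph3]
  field_simp

end NilCut
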