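import Pool.Agent.Lib.MP_4ddf81_pr.Stm3

/-! # MP_4ddf81_pr, stage 3 : bounds of the energy (S_EnL) -/

namespace NilCut

namespace EnLP

theorem root {G : Type} [Group G] [Finite G] (K : Subgroup G) (lam : K →* ℂˣ) (y : K) :
    ((lam y : ℂˣ) : ℂ) ^ (Nat.card lam.range) = 1 := by
  have h : (⟨lam y, y, rfl⟩ : lam.range) ^ (Nat.card lam.range) = 1 := pow_card_eq_one'
  have h2 := congrArg (fun z : lam.range => ((z : ℂˣ) : ℂ)) h
  simpa using h2

theorem gap (m : ℕ) (hm : 0 < m) (ζ : ℂ) (h : ζ ^ m = 1) (h1 : ζ ≠ 1) :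
    8 / (m : ℝ) ^ 2 ≤ 1 - ζ.re := by
  have hp := Complex.isPrimitiveRoot_exp m hm.ne'
  have : NeZero m := ⟨hm.ne'⟩
  obtain ⟨j, hj, rfl⟩ := hp.eq_pow_of_pow_eq_one h
  have hj0 : j ≠ 0 := by
    rintro rfl
    exact h1 (pow_zero _)
  have hmR : (0:ℝ) < m := by exact_mod_cast hm
  set θ : ℝ := Real.pi * j / m with hθ
  have hre : (Complex.exp (2 * Real.pi * Complex.I / m) ^ j).re = Real.cos (2 * θ) := by
    rw [← Complex.exp_nat_mul]
    have : (j : ℂ) * (2 * Real.pi * Complex.I / m) = ((2 * θ : ℝ) : ℂ) * Complex.I := by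
      rw [hθ]; push_cast; field_simp
    rw [this, Complex.exp_ofReal_mul_I_re]
  rw [hre]
  have hcos : 1 - Real.cos (2 * θ) = 2 * Real.sin θ ^ 2 := by
    rw [Real.cos_two_mul, Real.sin_sq]; ring
  rw [hcos]
  have hpi := Real.pi_pos
  have hj1 : (1:ℝ) ≤ j := by exact_mod_cast Nat.one_le_iff_ne_zero.mpr hj0
  have hjm : (j:ℝ) + 1 ≤ m := by exact_mod_cast hj
  have hlow : Real.pi / m ≤ θ := by
    rw [hθ]
    apply div_le_div_of_nonneg_right _ hmR.le
    nlinarith
  have hup : Real.pi / m ≤ Real.pi - θ := by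
    rw [hθ]
    have : Real.pi - Real.pi * j / m = Real.pi * (m - j) / m := by field_simp
    rw [this]
    apply div_le_div_of_nonneg_right _ hmR.le
    nlinarith
  have hsin : 2 / (m : ℝ) ≤ Real.sin θ := by
    have key : ∀ x : ℝ, Real.pi / m ≤ x → x ≤ Real.pi / 2 → 2 / (m : ℝ) ≤ Real.sin x := by
      intro x hx hx2
      have h0 : 0 ≤ x := le_trans (by positivity) hx
      have := Real.mul_le_sin h0 hx2
      calc 2 / (m : ℝ) = 2 / Real.pi * (Real.pi / m) := by field_simp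
        _ ≤ 2 / Real.pi * x := mul_le_mul_of_nonneg_left hx (by positivity)
        _ ≤ Real.sin x := this
    rcases le_total θ (Real.pi / 2) with h | h
    · exact key θ hlow h
    · rw [← Real.sin_pi_sub]
      exact key _ hup (by linarith)
  have h2m : (0:ℝ) < 2 / m := by positivity
  calc 8 / (m : ℝ) ^ 2 = 2 * (2 / (m : ℝ)) ^ 2 := by ring
    _ ≤ 2 * Real.sin θ ^ 2 := by
        apply mul_le_mul_of_nonneg_left _ (by norm_num)
        exact pow_le_pow_left₀ h2m.le hsin 2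

end EnLP

theorem p_EnL : S_EnL := by
  intro G _ _ K _ _ lam r hr c hc
  unfold CF at hc
  rw [Set.Finite.mem_toFinset] at hc
  obtain ⟨κ, rfl⟩ := hc
  have hfin : Finite lam.range := Finite.of_surjective lam.rangeRestrict lam.rangeRestrict_surjective
  have hmpos : 0 < Nat.card lam.range := Nat.card_pos
  have hroot : ∀ x, (cf K lam κ x) ^ (Nat.card lam.range) = 1 := fun x => EnLP.root K lam _
  have hnorm : ∀ x, ‖cf K lam κ x‖ = 1 := fun x =>
    Complex.norm_eq_one_of_pow_eq_one (hroot x) hmpos.ne'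
  have hre1 : ∀ x, (cf K lam κ x).re ≤ 1 := fun x =>
    le_trans (Complex.re_le_norm _) (hnorm x).le
  have hre2 : ∀ x, -1 ≤ (cf K lam κ x).re := fun x => by
    have := Complex.abs_re_le_norm (cf K lam κ x)
    rw [hnorm x, abs_le] at this
    exact this.1
  have hcard : (0:ℝ) < (Fintype.card (G ⧸ K) : ℝ) := by
    exact_mod_cast Fintype.card_pos
  have hidx : (K.index : ℝ) = (Fintype.card (G ⧸ K) : ℝ) := by
    rw [Subgroup.index_eq_card, Nat.card_eq_fintype_card]
  refine ⟨?_, ?_, ?_⟩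
  · unfold En
    apply div_nonneg _ hcard.le
    exact Finset.sum_nonneg fun x _ => by linarith [hre1 x]
  · unfold En
    rw [div_le_iff₀ hcard]
    calc ∑ x, (1 - (cf K lam κ x).re) ≤ ∑ x : G ⧸ K, (2:ℝ) :=
          Finset.sum_le_sum fun x _ => by linarith [hre2 x]
      _ = 2 * (Fintype.card (G ⧸ K) : ℝ) := by simp [mul_comm]
  · intro hne
    obtain ⟨x, hx⟩ : ∃ x, cf K lam κ x ≠ 1 := by
      by_contra hcon
      push Not at hcon
      exact hne (funext hcon)
    have hg := EnLP.gap _ hmpos _ (hroot x) hx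
    have hmR : (0:ℝ) < (Nat.card lam.range : ℝ) := by exact_mod_cast hmpos
    have hrR : (Nat.card lam.range : ℝ) ≤ r := by exact_mod_cast hr
    have hr0 : (0:ℝ) < r := lt_of_lt_of_le hmR hrR
    have h8 : 8 / (r : ℝ) ^ 2 ≤ 8 / (Nat.card lam.range : ℝ) ^ 2 := by
      apply div_le_div_of_nonneg_left (by norm_num) (by positivity)
      exact pow_le_pow_left₀ hmR.le hrR 2
    unfold En
    rw [le_div_iff₀ hcard, hidx]
    calc 8 / ((r : ℝ) ^ 2 * (Fintype.card (G ⧸ K) : ℝ)) * (Fintype.card (G ⧸ K) : ℝ)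
        = 8 / (r : ℝ) ^ 2 := by field_simp
      _ ≤ 1 - (cf K lam κ x).re := le_trans h8 hg
      _ ≤ ∑ x, (1 - (cf K lam κ x).re) :=
          Finset.single_le_sum (f := fun x => 1 - (cf K lam κ x).re)
            (fun y _ => by linarith [hre1 y]) (Finset.mem_univ x)

end NilCut
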