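import Pool.Agent.Lib.MP_4ddf81_pr.Stm3

/-!
# MP_4ddf81_pr, stage 3 : a subgroup with most of the letters meets all the cosets
-/

namespace NilCut

open Filter Topology

theorem p_Full : S_Full := by
  classical
  intro G _ _ K _ k Z γ P I hq hI hP
  by_contra hne
  obtain ⟨g, hg⟩ : ∃ g : G, g ∉ P ⊔ K := by
    by_contra h
    apply hne
    rw [eq_top_iff]
    intro g _
    by_contra hg
    exact h ⟨g, hg⟩
  set J : Finset (Fin k) := Finset.univ.filter fun i => ((Z i : G) : G ⧸ K) = (g : G ⧸ K) with hJ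
  have hJc : (J.card : ℝ) = (kq (fun i => (Z i : G ⧸ K)) (g : G ⧸ K) : ℝ) := by
    unfold kq
    rw [Nat.card_eq_fintype_card, Fintype.card_subtype]
  have hdis : Disjoint I J := by
    rw [Finset.disjoint_left]
    intro i hi hiJ
    rw [hJ, Finset.mem_filter] at hiJ
    have h1 : (Z i)⁻¹ * g ∈ K := QuotientGroup.eq.1 hiJ.2
    apply hg
    have h2 : g = Z i * ((Z i)⁻¹ * g) := by group
    rw [h2]
    exact Subgroup.mul_mem_sup (hP i hi) h1
  have h1 : I.card + J.card ≤ k := by
    rw [← Finset.card_union_of_disjoint hdis]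
    exact (Finset.card_le_univ _).trans (le_of_eq (Fintype.card_fin k))
  have h2 : (I.card : ℝ) + (J.card : ℝ) ≤ (k : ℝ) := by exact_mod_cast h1
  have h3 := hq (g : G ⧸ K)
  rw [← hJc] at h3
  linarith

end NilCut
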