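import Pool.Agent.Lib.MP_4ddf81_pr.Stm3

namespace NilCut

namespace HoCP

theorem mgf {α : Type} [Fintype α] (g : α → ℝ) (hg : ∀ x, |g x| ≤ 1)
    (h0 : ∑ x, g x = 0) (s : ℝ) :
    ∑ x, Real.exp (s * g x) ≤ (Fintype.card α : ℝ) * Real.exp (s ^ 2 / 2) := by
  calc ∑ x, Real.exp (s * g x) ≤ ∑ x, (Real.cosh s + g x * Real.sinh s) :=
        Finset.sum_le_sum fun x _ => by
          rw [mul_comm s (g x)]
          exact Real.exp_mul_le_cosh_add_mul_sinh (hg x) s
    _ = (Fintype.card α : ℝ) * Real.cosh s := by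
        rw [Finset.sum_add_distrib, ← Finset.sum_mul, h0, zero_mul, add_zero, Finset.sum_const,
          Finset.card_univ, nsmul_eq_mul]
    _ ≤ _ := mul_le_mul_of_nonneg_left (Real.cosh_le_exp_half_sq s) (Nat.cast_nonneg _)

theorem mgfk {α : Type} [Fintype α] (g : α → ℝ) (hg : ∀ x, |g x| ≤ 1)
    (h0 : ∑ x, g x = 0) (k : ℕ) (s : ℝ) :
    ∑ x : Fin k → α, Real.exp (s * ∑ i, g (x i)) ≤
      (Fintype.card α : ℝ) ^ k * Real.exp ((k : ℝ) * (s ^ 2 / 2)) := by
  have h1 : ∑ x : Fin k → α, Real.exp (s * ∑ i, g (x i)) =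
      (∑ a, Real.exp (s * g a)) ^ k := by
    rw [Fintype.sum_pow]
    refine Finset.sum_congr rfl fun x _ => ?_
    rw [Finset.mul_sum, Real.exp_sum]
  rw [h1, Real.exp_nat_mul, ← mul_pow]
  exact pow_le_pow_left₀ (Finset.sum_nonneg fun a _ => (Real.exp_pos _).le) (mgf g hg h0 s) k

open Classical in
theorem tail {α : Type} [Fintype α] (g : α → ℝ) (hg : ∀ x, |g x| ≤ 1)
    (h0 : ∑ x, g x = 0) (k : ℕ) (hk : 0 < k) (t : ℝ) (ht : 0 ≤ t) :
    ((Finset.univ.filter fun x : Fin k → α => t ≤ ∑ i, g (x i)).card : ℝ) ≤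
      (Fintype.card α : ℝ) ^ k * Real.exp (-(t ^ 2 / (2 * (k : ℝ)))) := by
  have hk' : (0 : ℝ) < k := Nat.cast_pos.2 hk
  obtain ⟨s, hs⟩ : ∃ s : ℝ, s = t / k := ⟨_, rfl⟩
  have hs0 : 0 ≤ s := by rw [hs]; positivity
  have h1 : ((Finset.univ.filter fun x : Fin k → α => t ≤ ∑ i, g (x i)).card : ℝ) *
      Real.exp (s * t) ≤ (Fintype.card α : ℝ) ^ k * Real.exp ((k : ℝ) * (s ^ 2 / 2)) := by
    refine le_trans ?_ (mgfk g hg h0 k s)
    rw [← nsmul_eq_mul, ← Finset.sum_const]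
    refine le_trans (Finset.sum_le_sum (g := fun x : Fin k → α =>
      Real.exp (s * ∑ i, g (x i))) fun x hx => ?_)
      (Finset.sum_le_sum_of_subset_of_nonneg (Finset.filter_subset _ _) fun x _ _ =>
        (Real.exp_pos _).le)
    apply Real.exp_le_exp.2
    exact mul_le_mul_of_nonneg_left (Finset.mem_filter.1 hx).2 hs0
  have h2 : Real.exp (-(t ^ 2 / (2 * (k : ℝ)))) =
      Real.exp ((k : ℝ) * (s ^ 2 / 2)) * Real.exp (-(s * t)) := by
    rw [← Real.exp_add]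
    congr 1
    rw [hs]
    field_simp
    ring
  have h3 : Real.exp (s * t) * Real.exp (-(s * t)) = 1 := by
    rw [← Real.exp_add, add_neg_cancel, Real.exp_zero]
  calc ((Finset.univ.filter fun x : Fin k → α => t ≤ ∑ i, g (x i)).card : ℝ)
      = ((Finset.univ.filter fun x : Fin k → α => t ≤ ∑ i, g (x i)).card : ℝ) *
        Real.exp (s * t) * Real.exp (-(s * t)) := by rw [mul_assoc, h3, mul_one]
    _ ≤ (Fintype.card α : ℝ) ^ k * Real.exp ((k : ℝ) * (s ^ 2 / 2)) *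
        Real.exp (-(s * t)) := mul_le_mul_of_nonneg_right h1 (Real.exp_pos _).le
    _ = _ := by rw [h2, mul_assoc]

theorem split {z : ℂ} {y : ℝ} (hy : 0 ≤ y) (h : y ≤ ‖z‖) :
    y / √2 ≤ z.re ∨ y / √2 ≤ -z.re ∨ y / √2 ≤ z.im ∨ y / √2 ≤ -z.im := by
  by_contra hc
  push Not at hc
  obtain ⟨h1, h2, h3, h4⟩ := hc
  have h5 : |z.re| < y / √2 := abs_lt.2 ⟨by linarith, h1⟩
  have h6 : |z.im| < y / √2 := abs_lt.2 ⟨by linarith, h3⟩
  have h7 : z.re ^ 2 < (y / √2) ^ 2 := by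
    rw [← sq_abs]
    exact pow_lt_pow_left₀ h5 (abs_nonneg _) two_ne_zero
  have h8 : z.im ^ 2 < (y / √2) ^ 2 := by
    rw [← sq_abs]
    exact pow_lt_pow_left₀ h6 (abs_nonneg _) two_ne_zero
  have h9 : (y / √2) ^ 2 = y ^ 2 / 2 := by
    rw [div_pow, Real.sq_sqrt (by norm_num)]
  have h10 : ‖z‖ ^ 2 = z.re ^ 2 + z.im ^ 2 := by
    rw [← Complex.normSq_eq_norm_sq, Complex.normSq_apply]
    ring
  have h11 : y ^ 2 ≤ ‖z‖ ^ 2 := pow_le_pow_left₀ hy h 2
  rw [h9] at h7 h8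
  linarith

end HoCP

open HoCP in
theorem p_HoC : S_HoC := by
  classical
  intro α _ _ f hf h0 k y hk hy
  have hk' : (0 : ℝ) < k := Nat.cast_pos.2 hk
  have hre : ∑ x, (f x).re = 0 := by rw [← Complex.re_sum, h0, Complex.zero_re]
  have him : ∑ x, (f x).im = 0 := by rw [← Complex.im_sum, h0, Complex.zero_im]
  obtain ⟨t, ht⟩ : ∃ t : ℝ, t = y / √2 := ⟨_, rfl⟩
  have ht0 : 0 ≤ t := by rw [ht]; positivity
  have ht2 : t ^ 2 / (2 * (k : ℝ)) = y ^ 2 / (4 * (k : ℝ)) := by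
    rw [ht, div_pow, Real.sq_sqrt (by norm_num)]
    field_simp
    ring
  have hr1 : ∀ x, |(f x).re| ≤ 1 := fun x => (Complex.abs_re_le_norm _).trans (hf x)
  have hi1 : ∀ x, |(f x).im| ≤ 1 := fun x => (Complex.abs_im_le_norm _).trans (hf x)
  have b1 := tail (fun x => (f x).re) hr1 hre k hk t ht0
  have b2 := tail (fun x => -(f x).re) (fun x => by rw [abs_neg]; exact hr1 x)
    (by rw [Finset.sum_neg_distrib, hre, neg_zero]) k hk t ht0
  have b3 := tail (fun x => (f x).im) hi1 him k hk t ht0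
  have b4 := tail (fun x => -(f x).im) (fun x => by rw [abs_neg]; exact hi1 x)
    (by rw [Finset.sum_neg_distrib, him, neg_zero]) k hk t ht0
  rw [ht2] at b1 b2 b3 b4
  rw [Nat.card_eq_fintype_card, Fintype.card_subtype]
  have hsub : (Finset.univ.filter fun x : Fin k → α => y ≤ ‖∑ i, f (x i)‖) ⊆
      ((Finset.univ.filter fun x : Fin k → α => t ≤ ∑ i, (f (x i)).re) ∪
        (Finset.univ.filter fun x : Fin k → α => t ≤ ∑ i, -(f (x i)).re)) ∪
      ((Finset.univ.filter fun x : Fin k → α => t ≤ ∑ i, (f (x i)).im) ∪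
        (Finset.univ.filter fun x : Fin k → α => t ≤ ∑ i, -(f (x i)).im)) := by
    intro x hx
    have h1 := (Finset.mem_filter.1 hx).2
    have h2 := split hy h1
    rw [← ht, Complex.re_sum, Complex.im_sum, ← Finset.sum_neg_distrib,
      ← Finset.sum_neg_distrib] at h2
    simp only [Finset.mem_union, Finset.mem_filter, Finset.mem_univ, true_and]
    tauto
  have hc := Finset.card_le_card hsub
  have hc2 : ((Finset.univ.filter fun x : Fin k → α => y ≤ ‖∑ i, f (x i)‖).card : ℝ) ≤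
      ((Finset.univ.filter fun x : Fin k → α => t ≤ ∑ i, (f (x i)).re).card : ℝ) +
        ((Finset.univ.filter fun x : Fin k → α => t ≤ ∑ i, -(f (x i)).re).card : ℝ) +
      (((Finset.univ.filter fun x : Fin k → α => t ≤ ∑ i, (f (x i)).im).card : ℝ) +
        ((Finset.univ.filter fun x : Fin k → α => t ≤ ∑ i, -(f (x i)).im).card : ℝ)) := by
    have h3 := hc.trans ((Finset.card_union_le _ _).trans
      (Nat.add_le_add (Finset.card_union_le _ _) (Finset.card_union_le _ _)))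
    exact_mod_cast h3
  linarith

end NilCut
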