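import Pool.Agent.Lib.MP_4ddf81_pr.Stm3

/-!
# MP_4ddf81_pr, stage 3 : from almost invariant to invariant vectors
-/

namespace NilCut

namespace InvP

section reach

variable {Q : Type} [Group Q] [Fintype Q]

open Classical in
/-- Elements which are products of at most `l` elements of `S`. -/
noncomputable def R (S : Finset Q) : ℕ → Finset Q
  | 0 => {1}
  | l + 1 => R S l ∪ (R S l ×ˢ S).image (fun x => x.1 * x.2)

lemma R_sub (S : Finset Q) (l : ℕ) : R S l ⊆ R S (l + 1) := by
  classical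
  rw [R]
  exact Finset.subset_union_left

lemma one_mem_R (S : Finset Q) (l : ℕ) : (1 : Q) ∈ R S l := by
  induction l with
  | zero => simp [R]
  | succ l ih => exact R_sub S l ih

lemma mul_mem_R (S : Finset Q) (l : ℕ) {x s : Q} (hx : x ∈ R S l) (hs : s ∈ S) :
    x * s ∈ R S (l + 1) := by
  classical
  rw [R]
  refine Finset.mem_union_right _ (Finset.mem_image.mpr ⟨(x, s), ?_, rfl⟩)
  exact Finset.mem_product.mpr ⟨hx, hs⟩

lemma mem_R_succ (S : Finset Q) (l : ℕ) {x : Q} (hx : x ∈ R S (l + 1)) :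
    x ∈ R S l ∨ ∃ y ∈ R S l, ∃ s ∈ S, y * s = x := by
  classical
  rw [R] at hx
  rcases Finset.mem_union.mp hx with h | h
  · exact Or.inl h
  · obtain ⟨⟨y, s⟩, hys, hyx⟩ := Finset.mem_image.mp h
    obtain ⟨hy, hs⟩ := Finset.mem_product.mp hys
    exact Or.inr ⟨y, hy, s, hs, hyx⟩

lemma R_dich (S : Finset Q) (l : ℕ) : R S (l + 1) = R S l ∨ l + 1 ≤ (R S l).card := by
  classical
  induction l with
  | zero =>
    right
    simp [R]
  | succ l ih =>
    by_cases h : R S (l + 1) = R S l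
    · left
      rw [R, h]
      nth_rewrite 3 [← h]
      rw [R]
    · right
      rcases ih with ih | ih
      · exact absurd ih h
      · have hlt : R S l ⊂ R S (l + 1) := by
          refine lt_of_le_of_ne (R_sub S l) ?_
          exact fun e => h e.symm
        have := Finset.card_lt_card hlt
        omega

lemma R_stable (S : Finset Q) : R S (Fintype.card Q + 1) = R S (Fintype.card Q) := by
  rcases R_dich S (Fintype.card Q) with h | h
  · exact h
  · have := Finset.card_le_univ (R S (Fintype.card Q))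
    omega

lemma closure_sub (S : Finset Q) {x : Q} (hx : x ∈ Subgroup.closure (S : Set Q)) :
    x ∈ R S (Fintype.card Q) := by
  have hx' : x ∈ (Subgroup.closure (S : Set Q)).toSubmonoid := hx
  rw [Subgroup.closure_toSubmonoid_of_finite] at hx'
  clear hx
  induction hx' using Submonoid.closure_induction_right with
  | one => exact one_mem_R S _
  | mul_right x hx y hy ih =>
    rw [← R_stable S]
    exact mul_mem_R S _ ih hy

end reach

variable {G : Type} [Group G] [Fintype G]

/-- Invariance under the core of the kernel. -/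
lemma cov_inv (H : Subgroup G) (lam : H →* ℂˣ) {u : G → ℂ} (hu : Cov H lam u) {n : G}
    (hn : n ∈ (lam.ker.map H.subtype).normalCore) (g : G) : u (n⁻¹ * g) = u g := by
  have h1 : g⁻¹ * n⁻¹ * g⁻¹⁻¹ ∈ lam.ker.map H.subtype := by
    have h2 := Subgroup.inv_mem _ hn
    exact h2 g⁻¹
  obtain ⟨h, hh, he⟩ := Subgroup.mem_map.mp h1
  have h3 : n⁻¹ * g = g * (h : G) := by
    have : (h : G) = g⁻¹ * n⁻¹ * g⁻¹⁻¹ := he
    rw [this]
    group
  rw [h3, hu g h, (MonoidHom.mem_ker).mp hh]
  simp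

lemma index_ker_map (H : Subgroup G) (lam : H →* ℂˣ) :
    (lam.ker.map H.subtype).index = H.index * Nat.card lam.range := by
  rw [Subgroup.index_map, Subgroup.ker_subtype, sup_bot_eq, Subgroup.range_subtype,
    Subgroup.index_ker, mul_comm]

/-- The stabiliser of a function under left translations. -/
def stab (u : G → ℂ) : Subgroup G where
  carrier := {p | ∀ g, u (p⁻¹ * g) = u g}
  one_mem' := by
    intro g
    simp
  mul_mem' := by
    intro a b ha hb g
    rw [mul_inv_rev, mul_assoc, hb, ha]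
  inv_mem' := by
    intro a ha g
    have := ha (a * g)
    rw [inv_mul_cancel_left] at this
    rw [inv_inv]
    exact this.symm

/-- Bound for the elements which are short products. -/
lemma short (N : Subgroup G) [N.Normal] [Fintype (G ⧸ N)] {k : ℕ} (Z : Fin k → G)
    (v : G → ℂ) (I : Finset (Fin k)) (b : ℝ)
    (hN : ∀ n ∈ N, ∀ g, v (n⁻¹ * g) = v g)
    (hI : ∀ i ∈ I, ∀ g, ‖v ((Z i)⁻¹ * g) - v g‖ ≤ b) (hb : 0 ≤ b)
    (S : Finset (G ⧸ N)) (hS : ∀ s ∈ S, ∃ i ∈ I, (Z i : G ⧸ N) = s) (l : ℕ) :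
    ∀ q ∈ R S l, ∀ p : G, (p : G ⧸ N) = q → ∀ g, ‖v (p⁻¹ * g) - v g‖ ≤ l * b := by
  classical
  induction l with
  | zero =>
    intro q hq p hp g
    have hq1 : q = 1 := Finset.mem_singleton.mp hq
    have hpN : p ∈ N := by
      rw [← QuotientGroup.eq_one_iff, hp, hq1]
    rw [hN p hpN g]
    simp
  | succ l ih =>
    intro q hq p hp g
    rcases mem_R_succ S l hq with hq | ⟨x, hx, s, hs, hxq⟩
    · refine (ih q hq p hp g).trans ?_
      push_cast
      nlinarith
    · obtain ⟨i, hi, his⟩ := hS s hs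
      have hp' : ((p * (Z i)⁻¹ : G) : G ⧸ N) = x := by
        rw [QuotientGroup.mk_mul, QuotientGroup.mk_inv, hp, his, ← hxq]
        simp
      have h1 := ih x hx _ hp' g
      have h2 := hI i hi ((p * (Z i)⁻¹)⁻¹ * g)
      have h3 : (Z i)⁻¹ * ((p * (Z i)⁻¹)⁻¹ * g) = p⁻¹ * g := by group
      rw [h3] at h2
      calc ‖v (p⁻¹ * g) - v g‖
          = ‖(v (p⁻¹ * g) - v ((p * (Z i)⁻¹)⁻¹ * g)) + (v ((p * (Z i)⁻¹)⁻¹ * g) - v g)‖ := by
            congr 1
            ring
        _ ≤ b + l * b := (norm_add_le _ _).trans (add_le_add h2 h1)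
        _ = ((l + 1 : ℕ) : ℝ) * b := by
            push_cast
            ring

end InvP

open InvP in
theorem p_Inv (hC : S_Core) : S_Inv := by
  classical
  intro G _ _ H lam k m Z β vm v I hm hβ hmβ hv hvm hle hmax hI
  set N := (lam.ker.map H.subtype).normalCore with hNdef
  have hNidx : N.index ≤ m.factorial := by
    refine (hC G (lam.ker.map H.subtype)).trans (Nat.factorial_le ?_)
    rw [index_ker_map]
    exact hm
  have hNn : N.Normal := Subgroup.normalCore_normal _
  have := hNn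
  let _ : Fintype (G ⧸ N) := Fintype.ofFinite _
  have hNinv : ∀ n ∈ N, ∀ g, v (n⁻¹ * g) = v g := fun n hn g => cov_inv H lam hv hn g
  let S : Finset (G ⧸ N) := I.image (fun i => (Z i : G ⧸ N))
  have hS : ∀ s ∈ S, ∃ i ∈ I, (Z i : G ⧸ N) = s := by
    intro s hs
    exact Finset.mem_image.mp hs
  set b := β * vm with hbdef
  have hb : 0 ≤ b := by positivity
  set P₀ : Subgroup G := (Subgroup.closure (S : Set (G ⧸ N))).comap (QuotientGroup.mk' N)
    with hP₀
  have hP₀N : N ≤ P₀ := by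
    intro n hn
    rw [hP₀, Subgroup.mem_comap]
    have : QuotientGroup.mk' N n = 1 := by
      rw [QuotientGroup.mk'_apply]
      exact (QuotientGroup.eq_one_iff n).mpr hn
    rw [this]
    exact Subgroup.one_mem _
  have hP₀Z : ∀ i ∈ I, Z i ∈ P₀ := by
    intro i hi
    rw [hP₀, Subgroup.mem_comap]
    apply Subgroup.subset_closure
    exact Finset.mem_coe.mpr (Finset.mem_image.mpr ⟨i, hi, rfl⟩)
  have hcardQ : Fintype.card (G ⧸ N) = N.index := by
    rw [Subgroup.index_eq_card, Nat.card_eq_fintype_card]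
  have hbound : ∀ p ∈ P₀, ∀ g, ‖v (p⁻¹ * g) - v g‖ ≤ (m.factorial : ℝ) * b := by
    intro p hp g
    have h1 : (p : G ⧸ N) ∈ R S (Fintype.card (G ⧸ N)) := closure_sub S hp
    have h2 := short N Z v I b hNinv hI hb S hS _ _ h1 p rfl g
    refine h2.trans (mul_le_mul_of_nonneg_right ?_ hb)
    rw [hcardQ]
    exact_mod_cast hNidx
  set v' : G → ℂ := fun g => ∑ p : P₀, v ((p : G)⁻¹ * g) with hv'
  have hv'cov : Cov H lam v' := by
    intro g h
    simp only [hv']
    rw [Finset.mul_sum]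
    refine Finset.sum_congr rfl fun p _ => ?_
    rw [← mul_assoc, hv]
  have hinv : ∀ q ∈ P₀, ∀ g, v' (q⁻¹ * g) = v' g := by
    intro q hq g
    simp only [hv']
    refine Fintype.sum_equiv (Equiv.mulLeft (⟨q, hq⟩ : P₀)) _ _ fun p => ?_
    simp only [Equiv.coe_mulLeft, Subgroup.coe_mul, mul_inv_rev, mul_assoc]
  have hne : v' ≠ 0 := by
    intro h0
    obtain ⟨g₀, hg₀⟩ := hmax
    have h1 : ∑ p : P₀, (v ((p : G)⁻¹ * g₀) - v g₀) = -((Fintype.card P₀ : ℂ) * v g₀) := by
      rw [Finset.sum_sub_distrib]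
      have h2 : ∑ p : P₀, v ((p : G)⁻¹ * g₀) = 0 := congrFun h0 g₀
      rw [h2, Finset.sum_const, Finset.card_univ, nsmul_eq_mul, zero_sub]
    have h2 : ‖∑ p : P₀, (v ((p : G)⁻¹ * g₀) - v g₀)‖ ≤
        (Fintype.card P₀ : ℝ) * ((m.factorial : ℝ) * b) := by
      refine (norm_sum_le _ _).trans ?_
      have h3 : ∀ p : P₀, ‖v ((p : G)⁻¹ * g₀) - v g₀‖ ≤ (m.factorial : ℝ) * b :=
        fun p => hbound (p : G) p.2 g₀
      refine (Finset.sum_le_sum fun p _ => h3 p).trans ?_
      rw [Finset.sum_const, Finset.card_univ, nsmul_eq_mul]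
    rw [h1, norm_neg, norm_mul, Complex.norm_natCast, hg₀] at h2
    have hcp : (0 : ℝ) < Fintype.card P₀ := by
      exact_mod_cast Fintype.card_pos
    have h3 : vm ≤ (m.factorial : ℝ) * b := le_of_mul_le_mul_left h2 hcp
    have h4 : (m.factorial : ℝ) * b < vm := by
      rw [hbdef, ← mul_assoc]
      have := mul_lt_mul_of_pos_right hmβ hvm
      linarith
    linarith
  refine ⟨v', stab v', hv'cov, hne, fun p => Iff.rfl, fun i hi => hinv (Z i) (hP₀Z i hi), ?_⟩
  have h1 : N ≤ stab v' := fun n hn => hinv n (hP₀N hn)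
  have h2 : (stab v').index ∣ N.index := Subgroup.index_dvd_of_le h1
  have h3 : N.index ≠ 0 := Subgroup.index_ne_zero_of_finite
  exact (Nat.le_of_dvd (Nat.pos_of_ne_zero h3) h2).trans hNidx

end NilCut
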