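import Pool.Agent.Lib.MP_4ddf81_pr.Stm3
import Pool.Agent.Lib.MP_4ddf81_pr.P.Dual2

set_option autoImplicit false

/-!
# MP_4ddf81_pr: the representations which are trivial on `[K, K]` but not on `K`
-/

namespace NilCut

namespace KidP

section avg

variable {G : Type} [Group G] [Fintype G] {d : ℕ}

open Classical in
/-- the average of `ρ` over `N` -/
noncomputable def E (N : Subgroup G) (ρ : G →* Matrix (Fin d) (Fin d) ℂ) :
    Matrix (Fin d) (Fin d) ℂ :=
  (1 / (Nat.card N : ℂ)) • ∑ x : N, ρ x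

theorem cardN_ne (N : Subgroup G) : (Nat.card N : ℂ) ≠ 0 := by
  have : 0 < Nat.card N := Nat.card_pos
  exact_mod_cast this.ne'

theorem comm_E (N : Subgroup G) [N.Normal] (ρ : G →* Matrix (Fin d) (Fin d) ℂ) (g : G) :
    ρ g * E N ρ = E N ρ * ρ g := by
  classical
  unfold E
  rw [Matrix.mul_smul, Matrix.smul_mul, Finset.mul_sum, Finset.sum_mul]
  congr 1
  refine Fintype.sum_equiv (MulAut.conjNormal g : N ≃* N).toEquiv _ _ fun x => ?_
  show ρ g * ρ x = ρ ((MulAut.conjNormal g x : N) : G) * ρ g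
  rw [MulAut.conjNormal_apply, ← map_mul, ← map_mul]
  congr 1
  group

theorem mul_E (N : Subgroup G) (ρ : G →* Matrix (Fin d) (Fin d) ℂ) (x : N) :
    ρ x * E N ρ = E N ρ := by
  classical
  unfold E
  rw [Matrix.mul_smul, Finset.mul_sum]
  congr 1
  refine Fintype.sum_equiv (Equiv.mulLeft x) _ _ fun y => ?_
  show ρ x * ρ y = ρ ((x * y : N) : G)
  rw [Subgroup.coe_mul, map_mul]

theorem E_mul_E (N : Subgroup G) (ρ : G →* Matrix (Fin d) (Fin d) ℂ) :
    E N ρ * E N ρ = E N ρ := by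
  classical
  have h : E N ρ * E N ρ = (1 / (Nat.card N : ℂ)) • ∑ x : N, ρ x * E N ρ := by
    conv_lhs => rw [E]
    rw [Matrix.smul_mul, Finset.sum_mul]
    rfl
  rw [h, Finset.sum_congr rfl fun x _ => mul_E N ρ x, Finset.sum_const, Finset.card_univ,
    ← Nat.card_eq_fintype_card, ← Nat.cast_smul_eq_nsmul ℂ, smul_smul,
    one_div, inv_mul_cancel₀ (cardN_ne N), one_smul]

theorem E_scalar (N : Subgroup G) [N.Normal] (ρ : G →* Matrix (Fin d) (Fin d) ℂ)
    (hρ : IsIrr ρ) : ∃ c : ℂ, E N ρ = c • 1 := by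
  have h1 : ∀ Y : Matrix (Fin d) (Fin d) ℂ, Y * E N ρ = E N ρ * Y := by
    intro Y
    have hY : Y ∈ Submodule.span ℂ (Set.range ρ) := by
      rw [hρ]
      exact Submodule.mem_top
    induction hY using Submodule.span_induction with
    | mem x hx =>
      obtain ⟨g, rfl⟩ := hx
      exact comm_E N ρ g
    | zero => rw [zero_mul, mul_zero]
    | add x y _ _ hx hy => rw [add_mul, mul_add, hx, hy]
    | smul a x _ hx => rw [Matrix.smul_mul, Matrix.mul_smul, hx]
  have h2 : E N ρ ∈ Set.range (Matrix.scalar (Fin d)) :=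
    Matrix.mem_range_scalar_of_commute_single fun i j _ => h1 _
  obtain ⟨c, hc⟩ := h2
  refine ⟨c, ?_⟩
  rw [← hc]
  ext i j
  simp [Matrix.scalar_apply, Matrix.diagonal_apply, Matrix.one_apply]

theorem E_eq_one (N : Subgroup G) (ρ : G →* Matrix (Fin d) (Fin d) ℂ)
    (h : ∀ x ∈ N, ρ x = 1) : E N ρ = 1 := by
  classical
  unfold E
  rw [Finset.sum_congr rfl fun x _ => h x.1 x.2, Finset.sum_const, Finset.card_univ,
    ← Nat.card_eq_fintype_card, ← Nat.cast_smul_eq_nsmul ℂ, smul_smul,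
    one_div, inv_mul_cancel₀ (cardN_ne N), one_smul]

theorem E_dich (N : Subgroup G) [N.Normal] (ρ : G →* Matrix (Fin d) (Fin d) ℂ)
    (hρ : IsIrr ρ) (hd : 0 < d) (h : ¬ ∀ x ∈ N, ρ x = 1) : E N ρ = 0 := by
  obtain ⟨c, hc⟩ := E_scalar N ρ hρ
  have h2 := E_mul_E N ρ
  rw [hc, smul_mul_smul_comm, one_mul] at h2
  have h3 : c * c = c := by
    have := congrFun (congrFun h2 ⟨0, hd⟩) ⟨0, hd⟩
    simpa using this
  have h4 : c = 0 ∨ c = 1 := by
    rcases eq_or_ne c 0 with h0 | h0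
    · exact Or.inl h0
    · exact Or.inr (mul_left_cancel₀ h0 (by rw [h3, mul_one]))
  rcases h4 with h4 | h4
  · rw [hc, h4, zero_smul]
  · exfalso
    apply h
    intro x hx
    have h5 := mul_E N ρ ⟨x, hx⟩
    rw [hc, h4, one_smul, mul_one] at h5
    exact h5

open Classical in
theorem triv_sum (P : Planch G) (N : Subgroup G) [N.Normal] (g : G) :
    ∑ i, (if ∀ x ∈ N, P.ρ i x = 1 then (P.d i : ℂ) * (P.ρ i g).trace else 0) =
      if g ∈ N then (Nat.card G : ℂ) / (Nat.card N : ℂ) else 0 := by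
  have h1 : ∀ i, (if ∀ x ∈ N, P.ρ i x = 1 then (P.d i : ℂ) * (P.ρ i g).trace else 0) =
      (1 / (Nat.card N : ℂ)) * ∑ x : N, (P.d i : ℂ) * (P.ρ i (g * x)).trace := by
    intro i
    have h2 : (1 / (Nat.card N : ℂ)) * ∑ x : N, (P.d i : ℂ) * (P.ρ i (g * x)).trace =
        (P.d i : ℂ) * (P.ρ i g * E N (P.ρ i)).trace := by
      unfold E
      rw [Matrix.mul_smul, Matrix.trace_smul, Finset.mul_sum (s := Finset.univ) (a := P.ρ i g),
        Matrix.trace_sum, smul_eq_mul, ← Finset.mul_sum]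
      rw [mul_left_comm]
      congr 2
      refine Finset.sum_congr rfl fun x _ => ?_
      rw [map_mul]
    rw [h2]
    split_ifs with h
    · rw [E_eq_one N _ h, mul_one]
    · rw [E_dich N _ (P.irr i) (P.pos i) h, mul_zero, Matrix.trace_zero, mul_zero]
  rw [Finset.sum_congr rfl fun i _ => h1 i, ← Finset.mul_sum, Finset.sum_comm]
  rw [Finset.sum_congr rfl fun (x : N) _ => P.planch (g * x)]
  by_cases hg : g ∈ N
  · rw [if_pos hg]
    have h3 : ∀ x : N, (if g * (x : G) = 1 then (Nat.card G : ℂ) else 0) =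
        if x = ⟨g⁻¹, N.inv_mem hg⟩ then (Nat.card G : ℂ) else 0 := by
      intro x
      have : g * (x : G) = 1 ↔ x = ⟨g⁻¹, N.inv_mem hg⟩ := by
        rw [Subtype.ext_iff, mul_eq_one_iff_eq_inv']
      simp only [this]
    rw [Finset.sum_congr rfl fun x _ => h3 x, Finset.sum_ite_eq' Finset.univ,
      if_pos (Finset.mem_univ _)]
    ring
  · rw [if_neg hg]
    have h3 : ∀ x : N, (if g * (x : G) = 1 then (Nat.card G : ℂ) else 0) = 0 := by
      intro x
      rw [if_neg]
      intro h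
      apply hg
      rw [mul_eq_one_iff_eq_inv] at h
      rw [h]
      exact N.inv_mem x.2
    rw [Finset.sum_congr rfl fun x _ => h3 x, Finset.sum_const_zero, mul_zero]

end avg

theorem coe_sum_ne {K : Type} [Group K] [Fintype (K →* ℂˣ)] (x : K) (m : K →* ℂˣ)
    (hm : m x ≠ 1) : ∑ lam : K →* ℂˣ, ((lam x : ℂˣ) : ℂ) = 0 := by
  have h : ∑ lam : K →* ℂˣ, ((lam x : ℂˣ) : ℂ) =
      ((m x : ℂˣ) : ℂ) * ∑ lam : K →* ℂˣ, ((lam x : ℂˣ) : ℂ) := by
    rw [Finset.mul_sum]
    symm
    refine Fintype.sum_equiv (Equiv.mulLeft m) _ _ fun lam => ?_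
    show ((m x : ℂˣ) : ℂ) * ((lam x : ℂˣ) : ℂ) = (((m * lam) x : ℂˣ) : ℂ)
    rw [MonoidHom.mul_apply, Units.val_mul]
  have h1 : (1 - ((m x : ℂˣ) : ℂ)) * ∑ lam : K →* ℂˣ, ((lam x : ℂˣ) : ℂ) = 0 := by
    rw [sub_mul, one_mul, ← h, sub_self]
  rcases mul_eq_zero.mp h1 with h2 | h2
  · exfalso
    apply hm
    apply Units.ext
    rw [Units.val_one]
    exact (sub_eq_zero.mp h2).symm
  · exact h2

open Classical in
theorem sum_char {K : Type} [Group K] [Finite K] (hF : S_FinC) [Fintype (K →* ℂˣ)] (x : K) :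
    ∑ lam : K →* ℂˣ, ((lam x : ℂˣ) : ℂ) =
      if x ∈ commutator K then (Nat.card (Abelianization K) : ℂ) else 0 := by
  split_ifs with h
  · have h1 : ∀ lam : K →* ℂˣ, ((lam x : ℂˣ) : ℂ) = 1 := by
      intro lam
      have h2 : lam x = 1 := by
        have := Abelianization.commutator_subset_ker lam h
        exact this
      rw [h2, Units.val_one]
    rw [Finset.sum_congr rfl fun lam _ => h1 lam, Finset.sum_const, Finset.card_univ,
      ← Nat.card_eq_fintype_card, (hF K).2.1, nsmul_eq_mul, mul_one]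
  · obtain ⟨l, -, hl⟩ := (p_Dual2 K (commutator K) le_rfl).1 x h
    exact coe_sum_ne x l hl

theorem card_comm {G : Type} [Group G] (K : Subgroup G) :
    Nat.card (⁅K, K⁆ : Subgroup G) = Nat.card (commutator K) := by
  rw [← Subgroup.map_subtype_commutator]
  exact Subgroup.card_map_of_injective K.subtype_injective

theorem mem_comm {G : Type} [Group G] (K : Subgroup G) (x : K) :
    x ∈ commutator K ↔ (x : G) ∈ (⁅K, K⁆ : Subgroup G) := by
  rw [← Subgroup.map_subtype_commutator]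
  constructor
  · intro h
    exact Subgroup.mem_map_of_mem K.subtype h
  · rintro ⟨y, hy, hyx⟩
    have : y = x := Subtype.ext hyx
    rwa [← this]

theorem card_ab (K : Type) [Group K] :
    Nat.card (commutator K) * Nat.card (Abelianization K) = Nat.card K :=
  Subgroup.card_mul_index (commutator K)

end KidP

open Classical in
theorem p_Kid (hF : S_FinC) : S_Kid := by
  intro G _ _ P K hK F hFm g
  have := hK
  have hle : ⁅K, K⁆ ≤ K := Subgroup.commutator_le_left K K
  -- the left side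
  have hL : ∑ i, (if P.Kl K i then (P.d i : ℂ) * (P.ρ i g).trace else 0) =
      (if g ∈ (⁅K, K⁆ : Subgroup G) then
        (Nat.card G : ℂ) / (Nat.card (⁅K, K⁆ : Subgroup G) : ℂ) else 0) -
        (if g ∈ K then (Nat.card G : ℂ) / (Nat.card K : ℂ) else 0) := by
    rw [← KidP.triv_sum P ⁅K, K⁆ g, ← KidP.triv_sum P K g, ← Finset.sum_sub_distrib]
    refine Finset.sum_congr rfl fun i _ => ?_
    by_cases h1 : ∀ x ∈ K, P.ρ i x = 1
    · have h2 : ∀ x ∈ (⁅K, K⁆ : Subgroup G), P.ρ i x = 1 := fun x hx => h1 x (hle hx)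
      have h3 : ¬ P.Kl K i := by
        rintro ⟨-, x, hx, hx1⟩
        exact hx1 (h1 x hx)
      rw [if_neg h3, if_pos h1, if_pos h2, sub_self]
    · by_cases h2 : ∀ x ∈ (⁅K, K⁆ : Subgroup G), P.ρ i x = 1
      · have h3 : P.Kl K i := by
          refine ⟨h2, ?_⟩
          by_contra h4
          push Not at h4
          exact h1 h4
        rw [if_pos h3, if_neg h1, if_pos h2, sub_zero]
      · have h3 : ¬ P.Kl K i := fun h => h2 h.1
        rw [if_neg h3, if_neg h1, if_neg h2, sub_zero]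
  rw [hL]
  -- the right side
  have hfin : Finite (K →* ℂˣ) := (hF K).1
  have : Fintype (K →* ℂˣ) := Fintype.ofFinite _
  have hFe : F = Finset.univ.erase 1 := by
    ext lam
    rw [hFm, Finset.mem_erase]
    simp
  have hK0 : (Nat.card K : ℂ) ≠ 0 := KidP.cardN_ne K
  have hC0 : (Nat.card (⁅K, K⁆ : Subgroup G) : ℂ) ≠ 0 := KidP.cardN_ne _
  have hR : ∑ lam ∈ F, indL K lam g = (1 / (Nat.card K : ℂ)) * ∑ y : G,
      ∑ lam ∈ F, (if h : y⁻¹ * g * y ∈ K then ((lam ⟨y⁻¹ * g * y, h⟩ : ℂˣ) : ℂ) else 0) := by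
    unfold indL
    rw [← Finset.mul_sum, Finset.sum_comm]
  rw [hR]
  by_cases hg : g ∈ K
  · rw [if_pos hg]
    have h1 : ∀ y : G, ∑ lam ∈ F,
        (if h : y⁻¹ * g * y ∈ K then ((lam ⟨y⁻¹ * g * y, h⟩ : ℂˣ) : ℂ) else 0) =
        (if g ∈ (⁅K, K⁆ : Subgroup G) then (Nat.card (Abelianization K) : ℂ) else 0) - 1 := by
      intro y
      have hy : y⁻¹ * g * y ∈ K := by
        have := hK.conj_mem g hg y⁻¹
        rwa [inv_inv] at this
      have h2 : ∀ lam ∈ F,
          (if h : y⁻¹ * g * y ∈ K then ((lam ⟨y⁻¹ * g * y, h⟩ : ℂˣ) : ℂ) else 0) =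
          ((lam ⟨y⁻¹ * g * y, hy⟩ : ℂˣ) : ℂ) := fun lam _ => dif_pos hy
      rw [Finset.sum_congr rfl h2, hFe, Finset.sum_erase_eq_sub (Finset.mem_univ _),
        KidP.sum_char hF]
      have h3 : (⟨y⁻¹ * g * y, hy⟩ : K) ∈ commutator K ↔ g ∈ (⁅K, K⁆ : Subgroup G) := by
        rw [KidP.mem_comm]
        constructor
        · intro h
          have h4 := (inferInstance : (⁅K, K⁆ : Subgroup G).Normal).conj_mem _ h y
          have h5 : y * (y⁻¹ * g * y) * y⁻¹ = g := by group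
          rwa [h5] at h4
        · intro h
          have h4 := (inferInstance : (⁅K, K⁆ : Subgroup G).Normal).conj_mem _ h y⁻¹
          rwa [inv_inv] at h4
      simp only [h3]
      rw [MonoidHom.one_apply, Units.val_one]
    rw [Finset.sum_congr rfl fun y _ => h1 y, Finset.sum_const, Finset.card_univ,
      ← Nat.card_eq_fintype_card, nsmul_eq_mul]
    have hab : (Nat.card (⁅K, K⁆ : Subgroup G) : ℂ) * (Nat.card (Abelianization K) : ℂ) =
        (Nat.card K : ℂ) := by
      rw [KidP.card_comm]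
      exact_mod_cast KidP.card_ab K
    split_ifs with hg'
    · have hab2 : (Nat.card (Abelianization K) : ℂ) =
          (Nat.card K : ℂ) / (Nat.card (⁅K, K⁆ : Subgroup G) : ℂ) := by
        rw [eq_div_iff hC0, mul_comm]
        exact hab
      rw [hab2]
      field_simp
    · ring
  · rw [if_neg hg, if_neg fun h => hg (hle h), sub_zero]
    have h1 : ∀ y : G, ∑ lam ∈ F,
        (if h : y⁻¹ * g * y ∈ K then ((lam ⟨y⁻¹ * g * y, h⟩ : ℂˣ) : ℂ) else 0) = 0 := by
      intro y
      apply Finset.sum_eq_zero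
      intro lam _
      rw [dif_neg]
      intro h
      apply hg
      have h4 := hK.conj_mem _ h y
      have h5 : y * (y⁻¹ * g * y) * y⁻¹ = g := by group
      rwa [h5] at h4
    rw [Finset.sum_congr rfl fun y _ => h1 y, Finset.sum_const_zero, mul_zero]

end NilCut
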