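import Pool.Agent.Lib.MP_4ddf81_pr.Stm3
import Pool.Agent.Lib.MP_4ddf81_pr.P2.LB2

/-!
# MP_4ddf81_pr, stage 3, piece LB3 (helper75)
-/

namespace NilCut

namespace LB3P

/-- the vectors which are killed by all the functions of `C` -/
noncomputable def SS {Q : Type} [Fintype Q] (C : Finset (Q → ℂ)) (n : ℕ) : Finset (Q → ℤ) := by
  classical
  exact (BR Q n).filter fun δ => ∀ c ∈ C, ∏ x, c x ^ δ x = 1

theorem mem_SS {Q : Type} [Fintype Q] (C : Finset (Q → ℂ)) (n : ℕ) (δ : Q → ℤ) :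
    δ ∈ SS C n ↔ δ ∈ BR Q n ∧ ∀ c ∈ C, ∏ x, c x ^ δ x = 1 := by
  classical
  unfold SS
  rw [Finset.mem_filter]

theorem mem_BR {Q : Type} [Fintype Q] (n : ℕ) (δ : Q → ℤ) (h : ∀ x, |δ x| ≤ (n : ℤ)) :
    δ ∈ BR Q n := by
  classical
  unfold BR
  rw [Fintype.mem_piFinset]
  intro a
  rw [Finset.mem_Icc]
  exact abs_le.1 (h a)

theorem mem_rS {Q : Type} [Group Q] (S : Finset (Q → ℤ)) (δ : Q → ℤ) (h : δ ∈ S) :
    δ ∈ rS S := by
  unfold rS
  apply AddSubgroup.subset_closure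
  exact ⟨δ, h, 1, fun b => by simp⟩

theorem cnt_le {Q : Type} [Group Q] {k n : ℕ} (z : Fin k → Q) (w : Fin n → Fin k) (i : Fin k)
    (a : Q) : cnt z w i a ≤ n := by
  classical
  unfold cnt
  exact (Finset.card_le_univ _).trans (by simp)

/-- equal classes give a difference in `SS` -/
theorem diff_mem {Q : Type} [Group Q] [Fintype Q] (C : Finset (Q → ℂ)) (n : ℕ)
    (hC : ∀ c ∈ C, ∀ x, ‖c x‖ = 1) (N N' : Q → ℕ) (hN : ∀ x, N x ≤ n) (hN' : ∀ x, N' x ≤ n)
    (h : ∀ c ∈ C, evc c N = evc c N') :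
    (fun a => (N a : ℤ) - (N' a : ℤ)) ∈ SS C n := by
  rw [mem_SS]
  refine ⟨mem_BR n _ fun x => ?_, fun c hc => ?_⟩
  · have h1 := hN x
    have h2 := hN' x
    rw [abs_le]
    constructor <;> omega
  · have hne : ∀ x, c x ≠ 0 := fun x h0 => by
      have := hC c hc x
      rw [h0, norm_zero] at this
      exact zero_ne_one this
    have e : ∏ x, c x ^ ((N x : ℤ) - (N' x : ℤ)) = evc c N / evc c N' := by
      unfold evc
      rw [← Finset.prod_div_distrib]
      apply Finset.prod_congr rfl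
      intro x _
      rw [zpow_sub₀ (hne x), zpow_natCast, zpow_natCast]
    have hne' : evc c N' ≠ 0 := by
      unfold evc
      exact Finset.prod_ne_zero_iff.2 fun x _ => pow_ne_zero _ (hne x)
    change ∏ x, c x ^ ((N x : ℤ) - (N' x : ℤ)) = 1
    rw [e, h c hc, div_self hne']

end LB3P

open LB3P in
theorem p_LB3 (h1 : S_LB1) (h2 : S_ClsN) (h3 : S_MSi) (hC : S_CFg) : S_LB3 := by
  classical
  intro G _ _ K _ _ k n Z lam c hc hc1 y hk hy
  obtain ⟨-, -, -, hnorm, -⟩ := hC G K lam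
  set z : Fin k → G ⧸ K := fun i => (Z i : G ⧸ K) with hz
  set S : Finset (G ⧸ K → ℤ) := SS (CF K lam) n with hS
  -- the set
  let A : Set G := {g | ∃ w : Fin n → Fin k, wprod Z w = g ∧ y ≤ ‖∑ i, evc c (cnt z w i)‖}
  have hA : ∀ g : A, ∃ w : Fin n → Fin k, wprod Z w = g ∧
    y ≤ ‖∑ i, evc c (cnt z w i)‖ := fun g => g.2
  choose w hw1 hw2 using hA
  have : Fintype A := Fintype.ofFinite _
  -- class vectors
  let V : A → (Fin k → CF K lam → ℂ) := fun g i c' => evc c'.1 (cnt z (w g) i)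
  let X : Finset (Fin k → CF K lam → ℂ) := Finset.univ.image V
  have hVX : ∀ g, V g ∈ X := fun g => Finset.mem_image_of_mem V (Finset.mem_univ g)
  have hXcard : (X.card : ℝ) ≤
      4 * ((CF K lam).card : ℝ) ^ k * Real.exp (-(y ^ 2 / (4 * (k : ℝ)))) := by
    refine h2 G K lam c hc hc1 k y hk hy X ?_
    intro x hx
    obtain ⟨g, -, rfl⟩ := Finset.mem_image.1 hx
    exact ⟨cnt z (w g), fun i c' => rfl, hw2 g⟩
  have htrs : ∀ (g : A) (a q : G ⧸ K), trs z (w g) a q < n + 1 := by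
    intro g a q
    have : trs z (w g) a q ≤ n := by
      unfold trs
      exact (Finset.card_le_univ _).trans (by simp)
    omega
  let D : A → (G ⧸ K) × (G ⧸ K → G ⧸ K → Fin (n + 1)) × X :=
    fun g => (st z (w g) n, fun a q => ⟨trs z (w g) a q, htrs g a q⟩, ⟨V g, hVX g⟩)
  have hD : ∀ g g' : A, D g = D g' → (g : G) * (g' : G)⁻¹ ∈ LB2.KS K S := by
    intro g g' he
    have e1 : st z (w g) n = st z (w g') n := congrArg (fun x => x.1) he
    have e2 : ∀ a q, trs z (w g) a q = trs z (w g') a q := fun a q =>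
      congrArg (fun x => ((x.2.1 a q : Fin (n + 1)) : ℕ)) he
    have e3 : V g = V g' := congrArg (fun x => (x.2.2 : Fin k → CF K lam → ℂ)) he
    have e4 : ∀ i, (fun a => (cnt z (w g) i a : ℤ) - (cnt z (w g') i a : ℤ)) ∈ rS S := by
      intro i
      refine mem_rS S _ (diff_mem (CF K lam) n hnorm _ _ (fun x => cnt_le z _ i x)
        (fun x => cnt_le z _ i x) ?_)
      intro c' hc'
      exact congrFun (congrFun e3 i) ⟨c', hc'⟩
    obtain ⟨hkk, hm⟩ := h1 G K k n Z S (w g) (w g') e4 e2 e1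
    have hmem : wprod Z (w g) * (wprod Z (w g'))⁻¹ ∈ LB2.KS K S := ⟨⟨_, hkk⟩, hm, rfl⟩
    rwa [hw1, hw1] at hmem
  -- representatives
  let rep : (G ⧸ K) × (G ⧸ K → G ⧸ K → Fin (n + 1)) × X → G :=
    fun d => if hd : ∃ g : A, D g = d then (hd.choose : G) else 1
  have hrep : ∀ g : A, ∃ g' : A, D g' = D g ∧ rep (D g) = g' := by
    intro g
    have hd : ∃ g' : A, D g' = D g := ⟨g, rfl⟩
    refine ⟨hd.choose, hd.choose_spec, ?_⟩
    simp only [rep]
    rw [dif_pos hd]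
  let F : A → ((G ⧸ K) × (G ⧸ K → G ⧸ K → Fin (n + 1)) × X) × LB2.KS K S :=
    fun g => (D g, ⟨(g : G) * (rep (D g))⁻¹, by
      obtain ⟨g', e, e'⟩ := hrep g
      rw [e']
      exact hD g g' e.symm⟩)
  have hF : Function.Injective F := by
    intro g g' he
    have e1 : D g = D g' := congrArg (fun x => x.1) he
    have e2 : (g : G) * (rep (D g))⁻¹ = (g' : G) * (rep (D g'))⁻¹ :=
      congrArg (fun x => (x.2 : G)) he
    rw [e1] at e2
    exact Subtype.ext (mul_right_cancel e2)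
  have hcard := Nat.card_le_card_of_injective F hF
  have hJ : Nat.card (G ⧸ K) = K.index := rfl
  have hJ' : Fintype.card (G ⧸ K) = K.index := by rw [← Nat.card_eq_fintype_card, hJ]
  have hcd : Nat.card (((G ⧸ K) × (G ⧸ K → G ⧸ K → Fin (n + 1)) × X) × LB2.KS K S) =
      (K.index * (((n + 1) ^ (K.index ^ 2)) * X.card)) * Nat.card (LB2.KS K S) := by
    rw [Nat.card_prod, Nat.card_prod, Nat.card_prod, hJ]
    congr 3
    · rw [Nat.card_eq_fintype_card, Fintype.card_fun, Fintype.card_fun, Fintype.card_fin, hJ',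
        ← pow_mul, sq]
    · rw [Nat.card_eq_fintype_card, Fintype.card_coe]
  rw [hcd] at hcard
  have hcardR : (Nat.card A : ℝ) ≤ (K.index * ((((n : ℝ) + 1) ^ (K.index ^ 2)) *
      X.card)) * Nat.card (LB2.KS K S) := by exact_mod_cast hcard
  have hKS : (Nat.card (LB2.KS K S) : ℝ) * K.index * (MS K S).index = Nat.card G := by
    exact_mod_cast LB2.KS_card K S
  have hM : (Nat.card {lam' : K →* ℂˣ // CF K lam' = CF K lam} : ℝ) ≤ ((MS K S).index : ℝ) := by
    have := h3 G K (CF K lam) S (fun δ hδ => ((mem_SS _ _ _).1 hδ).2)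
    exact_mod_cast this
  change (Nat.card A : ℝ) * (Nat.card {lam' : K →* ℂˣ // CF K lam' = CF K lam} : ℝ) ≤ _
  calc (Nat.card A : ℝ) * (Nat.card {lam' : K →* ℂˣ // CF K lam' = CF K lam} : ℝ)
      ≤ ((K.index * ((((n : ℝ) + 1) ^ (K.index ^ 2)) *
        (4 * ((CF K lam).card : ℝ) ^ k * Real.exp (-(y ^ 2 / (4 * (k : ℝ))))))) *
          Nat.card (LB2.KS K S)) * ((MS K S).index : ℝ) := by
        refine mul_le_mul (hcardR.trans ?_) hM (by positivity) (by positivity)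
        gcongr
    _ = (Nat.card (LB2.KS K S) : ℝ) * K.index * (MS K S).index *
          ((n : ℝ) + 1) ^ (K.index ^ 2) *
        (4 * ((CF K lam).card : ℝ) ^ k * Real.exp (-(y ^ 2 / (4 * (k : ℝ))))) := by ring
    _ = (Nat.card G : ℝ) * ((n : ℝ) + 1) ^ (K.index ^ 2) *
        (4 * ((CF K lam).card : ℝ) ^ k * Real.exp (-(y ^ 2 / (4 * (k : ℝ))))) := by rw [hKS]

end NilCut
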