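import Pool.Agent.Lib.MP_4ddf81_pr.Stm3

/-!
# MP_4ddf81_pr, stage 3 : the statistic for a typical word (helper30)
-/

namespace NilCut

open Filter Topology

namespace LTypP

theorem ncard {α : Type} [Fintype α] (P : α → Prop) [DecidablePred P] :
    Nat.card {x // P x} = (Finset.univ.filter P).card := by
  rw [Nat.card_eq_fintype_card, Fintype.card_subtype]

/-- Chebyshev for the words with given increments. -/
theorem cheb {β : Type} (F B : Finset β) (S : β → ℂ) (m : ℂ) (K r : ℝ) (hr : 0 < r)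
    (hBF : B ⊆ F) (hV : ∑ w ∈ F, ‖S w - m‖ ^ 2 ≤ K * (F.card : ℝ)) (hm : 2 * r ≤ ‖m‖)
    (hB : ∀ w ∈ B, ‖S w‖ < r) : (B.card : ℝ) * r ^ 2 ≤ K * (F.card : ℝ) := by
  refine le_trans ?_ hV
  refine le_trans ?_ (Finset.sum_le_sum_of_subset_of_nonneg hBF fun w _ _ => by positivity)
  rw [← nsmul_eq_mul]
  refine Finset.card_nsmul_le_sum _ _ _ fun w hw => ?_
  have h1 : r ≤ ‖S w - m‖ := by
    have h2 := norm_sub_norm_le m (S w)
    rw [norm_sub_rev] at h2
    have := hB w hw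
    linarith
  exact pow_le_pow_left₀ hr.le h1 2

/-- the elementary inequalities for large `k` -/
theorem large (J₀ : ℕ) (C₁ η ε : ℝ) (hC : 0 < C₁) (hη : 0 < η) (hε : 0 < ε) :
    ∃ k₀ : ℕ, ∀ k : ℕ, k₀ ≤ k → 1 ≤ Real.log k ∧ 8 < ε * (k : ℝ) ∧
      1000 * ((J₀ : ℝ) + 1) ^ 3 * ((C₁ + C₁ ^ 2) / ε ^ 2) * Real.log k ^ 2 ≤ η / 4 * (k : ℝ) ∧
      (k : ℝ) / ((k : ℝ) ^ (2 / 3 : ℝ)) ^ 2 ≤ η / 4 := by
  set D : ℝ := 1000 * ((J₀ : ℝ) + 1) ^ 3 * ((C₁ + C₁ ^ 2) / ε ^ 2) with hD
  have hD0 : 0 < D := by positivity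
  have e1 : ∀ᶠ x : ℝ in atTop, 1 ≤ Real.log x := Real.tendsto_log_atTop.eventually_ge_atTop 1
  have e2 : ∀ᶠ x : ℝ in atTop, 8 < ε * x := by
    filter_upwards [eventually_gt_atTop (8 / ε)] with x hx
    rw [div_lt_iff₀ hε] at hx
    linarith
  have e3 : ∀ᶠ x : ℝ in atTop, D * Real.log x ^ 2 ≤ η / 4 * x := by
    have h := (Real.isLittleO_pow_log_id_atTop (n := 2)).bound (show 0 < η / 4 / D by positivity)
    filter_upwards [h, eventually_ge_atTop (0 : ℝ)] with x hx h0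
    simp only [id, Real.norm_eq_abs] at hx
    rw [abs_of_nonneg (by positivity : (0 : ℝ) ≤ Real.log x ^ 2), abs_of_nonneg h0] at hx
    calc D * Real.log x ^ 2 ≤ D * (η / 4 / D * x) := mul_le_mul_of_nonneg_left hx hD0.le
      _ = η / 4 * x := by field_simp
  have e4 : ∀ᶠ x : ℝ in atTop, x / (x ^ (2 / 3 : ℝ)) ^ 2 ≤ η / 4 := by
    have h := (tendsto_rpow_neg_atTop (show (0 : ℝ) < 1 / 3 by norm_num)).eventually_le_const
      (show (0 : ℝ) < η / 4 by positivity)
    filter_upwards [h, eventually_gt_atTop (0 : ℝ)] with x hx h0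
    refine le_trans (le_of_eq ?_) hx
    rw [← Real.rpow_natCast, ← Real.rpow_mul h0.le]
    rw [div_eq_mul_inv, ← Real.rpow_neg h0.le]
    nth_rewrite 1 [← Real.rpow_one x]
    rw [← Real.rpow_add h0]
    norm_num
  obtain ⟨X, hX⟩ := (e1.and (e2.and (e3.and e4))).exists_forall_of_atTop
  refine ⟨⌈X⌉₊, fun k hk => ?_⟩
  have := hX k (Nat.ceil_le.1 hk)
  exact this

end LTypP

open LTypP

theorem p_LTyp (hT : S_Trs) (hE : S_EQ) (hV : S_PathV) (hM : S_MPath) : S_LTyp := by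
  classical
  intro J₀ C₁ η hC₁ hη
  obtain ⟨ε, k₁, hε, hk₁⟩ := hM J₀ C₁ hC₁
  obtain ⟨k₂, hk₂⟩ := large J₀ C₁ η ε hC₁ hη hε
  refine ⟨18 / η, max (max k₁ k₂) 1, by positivity, ?_⟩
  intro k hk Q _ _ hQ n hn c hc hM₀
  have hkk1 : k₁ ≤ k := le_trans (le_trans (le_max_left _ _) (le_max_left _ _)) hk
  have hkk2 : k₂ ≤ k := le_trans (le_trans (le_max_right _ _) (le_max_left _ _)) hk
  have hk1 : 1 ≤ k := le_trans (le_max_right _ _) hk
  have hk0 : (0 : ℝ) < k := by exact_mod_cast hk1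
  obtain ⟨l1, l2, l3, l4⟩ := hk₂ k hkk2
  have hMP := hk₁ k hkk1 Q hQ n hn
  set J : ℝ := (Fintype.card Q : ℝ) with hJ
  have hJ1 : (1 : ℝ) ≤ J := by
    rw [hJ]; exact_mod_cast Fintype.card_pos
  have hJ0 : J ≤ (J₀ : ℝ) + 1 := by
    have : J ≤ (J₀ : ℝ) := by rw [hJ]; exact_mod_cast hQ
    linarith
  set φ : ℝ := Real.exp (-((n : ℝ) / (k : ℝ) * En c)) with hφ
  have hφ0 : 0 < φ := Real.exp_pos _
  set T : ℝ := J ^ k * (k : ℝ) ^ n with hTd
  have hT0 : 0 < T := by positivity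
  -- the exceptional sets
  set A1 : Finset ((Fin k → Q) × (Fin n → Fin k)) := Finset.univ.filter fun p =>
    ∃ q, (k : ℝ) ^ (2 / 3 : ℝ) < |(kq p.1 q : ℝ) - (k : ℝ) / (Fintype.card Q : ℝ)| with hA1
  set A2 : Finset ((Fin k → Q) × (Fin n → Fin k)) := Finset.univ.filter fun p =>
    ∃ a q, ε * (k : ℝ) < |(trs p.1 p.2 a q : ℝ) - (n : ℝ) / (Fintype.card Q : ℝ) ^ 2| with hA2
  set A3 : Finset ((Fin k → Q) × (Fin n → Fin k)) := Finset.univ.filter fun p =>
    (p ∉ A1 ∧ p ∉ A2) ∧ ‖∑ i, evc c (cnt p.1 p.2 i)‖ < (k : ℝ) * φ / 3 with hA3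
  -- the first set
  have c1 : (A1.card : ℝ) ≤ η / 4 * T := by
    have h1 : A1 = (Finset.univ.filter fun z : Fin k → Q =>
        ∃ q, (k : ℝ) ^ (2 / 3 : ℝ) < |(kq z q : ℝ) - (k : ℝ) / (Fintype.card Q : ℝ)|) ×ˢ
        (Finset.univ : Finset (Fin n → Fin k)) := by
      ext p
      simp [hA1]
    have h2 := hE Q k ((k : ℝ) ^ (2 / 3 : ℝ)) (by positivity)
    rw [ncard] at h2
    rw [h1, Finset.card_product, Finset.card_univ, Fintype.card_fun, Fintype.card_fin,
      Fintype.card_fin]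
    push_cast
    calc _ ≤ ((k : ℝ) / ((k : ℝ) ^ (2 / 3 : ℝ)) ^ 2 * (Fintype.card Q : ℝ) ^ k) * (k : ℝ) ^ n :=
          mul_le_mul_of_nonneg_right h2 (by positivity)
      _ = ((k : ℝ) / ((k : ℝ) ^ (2 / 3 : ℝ)) ^ 2) * T := by rw [hTd]; ring
      _ ≤ η / 4 * T := mul_le_mul_of_nonneg_right l4 hT0.le
  -- the second set
  have c2 : (A2.card : ℝ) ≤ η / 4 * T := by
    have h2 := hT Q k n ε hε l2
    rw [ncard] at h2
    refine h2.trans ?_
    have hl0 : 0 ≤ Real.log k := by linarith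
    have hn0 : (0 : ℝ) ≤ n := Nat.cast_nonneg n
    have b1 : (n : ℝ) / (ε * (k : ℝ)) ^ 2 ≤ C₁ / ε ^ 2 * Real.log k ^ 2 / k := by
      rw [div_le_div_iff₀ (by positivity) hk0]
      calc (n : ℝ) * k ≤ (C₁ * k * Real.log k) * k := by
            exact mul_le_mul_of_nonneg_right hn hk0.le
        _ ≤ (C₁ * k * Real.log k ^ 2) * k := by
            refine mul_le_mul_of_nonneg_right ?_ hk0.le
            refine mul_le_mul_of_nonneg_left ?_ (by positivity)
            nlinarith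
        _ = C₁ / ε ^ 2 * Real.log k ^ 2 * (ε * (k : ℝ)) ^ 2 := by
            field_simp
    have b2 : (n : ℝ) ^ 2 / (ε ^ 2 * (k : ℝ) ^ 3) ≤ C₁ ^ 2 / ε ^ 2 * Real.log k ^ 2 / k := by
      rw [div_le_div_iff₀ (by positivity) hk0]
      calc (n : ℝ) ^ 2 * k ≤ (C₁ * k * Real.log k) ^ 2 * k := by
            exact mul_le_mul_of_nonneg_right (pow_le_pow_left₀ hn0 hn 2) hk0.le
        _ = C₁ ^ 2 / ε ^ 2 * Real.log k ^ 2 * (ε ^ 2 * (k : ℝ) ^ 3) := by
            field_simp
    have b3 : 1000 * J ^ 3 * ((n : ℝ) / (ε * (k : ℝ)) ^ 2 +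
        (n : ℝ) ^ 2 / (ε ^ 2 * (k : ℝ) ^ 3)) ≤ η / 4 := by
      have hJ3 : J ^ 3 ≤ ((J₀ : ℝ) + 1) ^ 3 := pow_le_pow_left₀ (by linarith) hJ0 3
      calc 1000 * J ^ 3 * ((n : ℝ) / (ε * (k : ℝ)) ^ 2 + (n : ℝ) ^ 2 / (ε ^ 2 * (k : ℝ) ^ 3))
          ≤ 1000 * ((J₀ : ℝ) + 1) ^ 3 * (C₁ / ε ^ 2 * Real.log k ^ 2 / k +
              C₁ ^ 2 / ε ^ 2 * Real.log k ^ 2 / k) := by
            refine mul_le_mul ?_ (add_le_add b1 b2) (by positivity) (by positivity)
            linarith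
        _ = (1000 * ((J₀ : ℝ) + 1) ^ 3 * ((C₁ + C₁ ^ 2) / ε ^ 2) * Real.log k ^ 2) / k := by
            field_simp
        _ ≤ η / 4 := by
            rw [div_le_iff₀ hk0]
            exact l3
    calc _ = T * (1000 * J ^ 3 * ((n : ℝ) / (ε * (k : ℝ)) ^ 2 +
        (n : ℝ) ^ 2 / (ε ^ 2 * (k : ℝ) ^ 3))) := by rw [hTd, hJ]
      _ ≤ T * (η / 4) := mul_le_mul_of_nonneg_left b3 hT0.le
      _ = η / 4 * T := by ring
  -- the third set
  have c3 : (A3.card : ℝ) ≤ η / 2 * T := by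
    -- a fibre
    have hfib : ∀ (z : Fin k → Q) (q' : Fin n → Q),
        (((Finset.univ.filter fun w : Fin n → Fin k => (z, w) ∈ A3).filter
          (fun w => (fun j => z (w j)) = q')).card : ℝ) ≤
        η / 2 * ((Finset.univ.filter fun w : Fin n → Fin k => (fun j => z (w j)) = q').card : ℝ) := by
      intro z q'
      set B := (Finset.univ.filter fun w : Fin n → Fin k => (z, w) ∈ A3).filter
          (fun w => (fun j => z (w j)) = q') with hB
      rcases B.eq_empty_or_nonempty with h0 | ⟨w₀, hw₀⟩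
      · rw [h0, Finset.card_empty, Nat.cast_zero]
        positivity
      rw [hB, Finset.mem_filter, Finset.mem_filter, hA3, Finset.mem_filter] at hw₀
      obtain ⟨⟨-, -, ⟨n1, n2⟩, -⟩, hw₀q⟩ := hw₀
      rw [hA1, Finset.mem_filter] at n1
      rw [hA2, Finset.mem_filter] at n2
      push Not at n1 n2
      have n1' := n1 (Finset.mem_univ _)
      have n2' := n2 (Finset.mem_univ _)
      have hq1 : ∀ x, |(kq z x : ℝ) - (k : ℝ) / (Fintype.card Q : ℝ)| ≤
          (k : ℝ) ^ (2 / 3 : ℝ) := fun x => n1' x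
      have hq2 : ∀ a x, |(Nat.card {j : Fin n // pst q' j = a ∧ q' j = x} : ℝ) -
          (n : ℝ) / (Fintype.card Q : ℝ) ^ 2| ≤ ε * (k : ℝ) := by
        intro a x
        have h3 : Nat.card {j : Fin n // pst q' j = a ∧ q' j = x} = trs z w₀ a x := by
          subst hw₀q
          unfold trs
          rw [ncard]
          rfl
        rw [h3]
        exact n2' a x
      obtain ⟨h4, h5⟩ := hMP z q' c hc hq1 hq2
      obtain ⟨F, hF, hFV⟩ : ∃ F : Finset (Fin n → Fin k), (∀ w, w ∈ F ↔ ∀ j, z (w j) = q' j) ∧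
          ∑ w ∈ F, ‖∑ i, evc c (cnt z w i) - ∑ i, mPath z q' c i‖ ^ 2 ≤
            (k : ℝ) * (F.card : ℝ) :=
        ⟨_, fun w => by rw [Finset.mem_filter]; exact ⟨fun h => h.2, fun h => ⟨Finset.mem_univ _, h⟩⟩,
          hV Q k n z q' c hc h4⟩
      have hFe : F = Finset.univ.filter fun w : Fin n → Fin k => (fun j => z (w j)) = q' := by
        ext w
        rw [hF, Finset.mem_filter, funext_iff]
        exact ⟨fun h => ⟨Finset.mem_univ _, h⟩, fun h => h.2⟩
      have hBF : B ⊆ F := by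
        intro w hw
        rw [hB, Finset.mem_filter] at hw
        rw [hF]
        exact fun j => congrFun hw.2 j
      have hch := cheb F B (fun w => ∑ i, evc c (cnt z w i)) (∑ i, mPath z q' c i) k
        ((k : ℝ) * φ / 3) (by positivity) hBF hFV (by linarith) (by
          intro w hw
          rw [hB, Finset.mem_filter, Finset.mem_filter, hA3, Finset.mem_filter] at hw
          exact hw.1.2.2.2)
      rw [← hFe]
      have h6 : 18 / η * 1 ≤ (k : ℝ) * φ ^ 2 := by rw [mul_one]; exact hM₀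
      have h7 : (B.card : ℝ) * ((k : ℝ) * φ ^ 2) ≤ 9 * (F.card : ℝ) := by
        have h8 : (B.card : ℝ) * ((k : ℝ) * φ / 3) ^ 2 =
            (k : ℝ) * ((B.card : ℝ) * ((k : ℝ) * φ ^ 2) / 9) := by ring
        rw [h8] at hch
        have h9 := le_of_mul_le_mul_left hch hk0
        linarith
      have h10 : (B.card : ℝ) * (18 / η) ≤ 9 * (F.card : ℝ) := by
        refine le_trans (mul_le_mul_of_nonneg_left ?_ (Nat.cast_nonneg _)) h7
        linarith
      have h11 : (B.card : ℝ) * (18 / η) = (B.card : ℝ) * 18 / η := by ring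
      rw [h11, div_le_iff₀ hη] at h10
      linarith
    -- a first component
    have hz : ∀ z : Fin k → Q,
        ((Finset.univ.filter fun w : Fin n → Fin k => (z, w) ∈ A3).card : ℝ) ≤
          η / 2 * (k : ℝ) ^ n := by
      intro z
      have h1 := Finset.card_eq_sum_card_fiberwise (f := fun w : Fin n → Fin k => fun j => z (w j))
        (s := Finset.univ.filter fun w : Fin n → Fin k => (z, w) ∈ A3)
        (t := (Finset.univ : Finset (Fin n → Q))) (fun w _ => Finset.mem_coe.2 (Finset.mem_univ _))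
      have h2 := Finset.card_eq_sum_card_fiberwise (f := fun w : Fin n → Fin k => fun j => z (w j))
        (s := (Finset.univ : Finset (Fin n → Fin k)))
        (t := (Finset.univ : Finset (Fin n → Q))) (fun w _ => Finset.mem_coe.2 (Finset.mem_univ _))
      have h3 : (Finset.univ : Finset (Fin n → Fin k)).card = k ^ n := by
        rw [Finset.card_univ, Fintype.card_fun, Fintype.card_fin, Fintype.card_fin]
      rw [h3] at h2
      have h4 : ((k : ℝ)) ^ n = ∑ q' : Fin n → Q,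
          ((Finset.univ.filter fun w : Fin n → Fin k => (fun j => z (w j)) = q').card : ℝ) := by
        rw [← Nat.cast_pow, h2, Nat.cast_sum]
      rw [h1, h4, Nat.cast_sum, Finset.mul_sum]
      exact Finset.sum_le_sum fun q' _ => hfib z q'
    have h5 := Finset.card_eq_sum_card_fiberwise (f := fun p : (Fin k → Q) × (Fin n → Fin k) => p.1)
        (s := A3) (t := (Finset.univ : Finset (Fin k → Q)))
        (fun w _ => Finset.mem_coe.2 (Finset.mem_univ _))
    have h6 : ∀ z : Fin k → Q, (A3.filter fun p => p.1 = z).card =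
        (Finset.univ.filter fun w : Fin n → Fin k => (z, w) ∈ A3).card := by
      intro z
      refine Finset.card_bij' (fun p _ => p.2) (fun w _ => (z, w)) ?_ ?_ ?_ ?_
      · rintro ⟨z', w⟩ hp
        rw [Finset.mem_filter] at hp ⊢
        obtain ⟨hp1, hp2⟩ := hp
        refine ⟨Finset.mem_univ _, ?_⟩
        have : z' = z := hp2
        subst this
        exact hp1
      · intro w hw
        rw [Finset.mem_filter] at hw ⊢
        exact ⟨hw.2, rfl⟩
      · rintro ⟨z', w⟩ hp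
        rw [Finset.mem_filter] at hp
        have : z' = z := hp.2
        subst this
        rfl
      · intro w _
        rfl
    have h7 : (A3.card : ℝ) ≤ ∑ _z : Fin k → Q, η / 2 * (k : ℝ) ^ n := by
      rw [h5, Nat.cast_sum]
      refine Finset.sum_le_sum fun z _ => ?_
      rw [h6]
      exact hz z
    refine h7.trans (le_of_eq ?_)
    rw [Finset.sum_const, Finset.card_univ, Fintype.card_fun, Fintype.card_fin, nsmul_eq_mul,
      hTd, hJ]
    push_cast
    ring
  -- conclusion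
  rw [ncard]
  have hsub : (Finset.univ.filter fun p : (Fin k → Q) × (Fin n → Fin k) =>
      ‖∑ i, evc c (cnt p.1 p.2 i)‖ < (k : ℝ) * φ / 3) ⊆ (A1 ∪ A2) ∪ A3 := by
    intro p hp
    rw [Finset.mem_filter] at hp
    rw [Finset.mem_union, Finset.mem_union]
    by_cases h1 : p ∈ A1
    · exact Or.inl (Or.inl h1)
    by_cases h2 : p ∈ A2
    · exact Or.inl (Or.inr h2)
    right
    rw [hA3, Finset.mem_filter]
    exact ⟨Finset.mem_univ _, ⟨h1, h2⟩, hp.2⟩
  have hcard : ((Finset.univ.filter fun p : (Fin k → Q) × (Fin n → Fin k) =>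
      ‖∑ i, evc c (cnt p.1 p.2 i)‖ < (k : ℝ) * φ / 3).card : ℝ) ≤
      (A1.card : ℝ) + A2.card + A3.card := by
    have h1 := Finset.card_le_card hsub
    have h2 := Finset.card_union_le (A1 ∪ A2) A3
    have h3 := Finset.card_union_le A1 A2
    have h4 : (Finset.univ.filter fun p : (Fin k → Q) × (Fin n → Fin k) =>
      ‖∑ i, evc c (cnt p.1 p.2 i)‖ < (k : ℝ) * φ / 3).card ≤ A1.card + A2.card + A3.card := by
      omega
    exact_mod_cast h4
  refine hcard.trans ?_
  linarith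

end NilCut
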