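import Pool.Agent.Lib.MP_4ddf81_pr.Stm3

/-!
# MP_4ddf81_pr, stage 3 : the expected sum over the linear characters (helper30)
-/

namespace NilCut

open Filter Topology

namespace LamEP

section

variable {G : Type} [Group G] [Fintype G]

theorem Ez_nonneg (v : G → ℂ) (z : G) : 0 ≤ Ez v z := by
  unfold Ez
  positivity

open Classical in
/-- the point mass at `1` -/
noncomputable def dl (g : G) : ℝ := if g = 1 then 1 else 0

theorem conv_dl (μ : G → ℝ) : conv μ dl = μ := by
  classical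
  funext g
  unfold conv dl
  rw [Finset.sum_eq_single g]
  · rw [inv_mul_cancel, if_pos rfl, mul_one]
  · intro h _ hh
    rw [if_neg, mul_zero]
    intro h'
    exact hh (inv_mul_eq_one.1 h')
  · intro h
    exact absurd (Finset.mem_univ _) h

theorem QF_dl (χ : G → ℂ) : QF χ dl = (χ 1).re := by
  classical
  unfold QF
  congr 1
  rw [Finset.sum_eq_single (1 : G)]
  · rw [Finset.sum_eq_single (1 : G)]
    · simp [dl]
    · intro b _ hb
      simp [dl, hb]
    · intro h
      exact absurd (Finset.mem_univ _) h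
  · intro a _ ha
    refine Finset.sum_eq_zero fun b _ => ?_
    simp [dl, ha]
  · intro h
    exact absurd (Finset.mem_univ _) h

theorem indL_one (H : Subgroup G) (lam : H →* ℂˣ) : indL H lam 1 = (H.index : ℂ) := by
  classical
  unfold indL
  have h1 : ∀ y : G, (if h : y⁻¹ * 1 * y ∈ H then ((lam ⟨y⁻¹ * 1 * y, h⟩ : ℂˣ) : ℂ) else 0) =
      1 := by
    intro y
    have h2 : y⁻¹ * 1 * y = 1 := by group
    have h3 : y⁻¹ * 1 * y ∈ H := by rw [h2]; exact H.one_mem
    rw [dif_pos h3]
    have h4 : (⟨y⁻¹ * 1 * y, h3⟩ : H) = 1 := Subtype.ext h2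
    rw [h4, map_one, Units.val_one]
  rw [Finset.sum_congr rfl fun y _ => h1 y, Finset.sum_const, Finset.card_univ, nsmul_eq_mul,
    mul_one, ← Nat.card_eq_fintype_card]
  have h5 := H.card_mul_index
  have h6 : (Nat.card H : ℂ) ≠ 0 := by
    exact_mod_cast Nat.card_pos.ne'
  rw [← h5]
  push_cast
  field_simp

theorem QF_law (h5 : S_QF5) (K : Subgroup G) (lam : K →* ℂˣ) (k : ℕ) (Z : Fin k → G) (r t : ℝ)
    (hk : 0 < k) (hr : 0 ≤ r) (ht : 0 ≤ t) (hg : DGap Z K lam r) :
    QF (indL K lam) (law Z t) ≤ Real.exp (-(2 * r * t)) * (K.index : ℝ) := by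
  have h := h5 G K lam k Z r t dl hk hr ht hg
  rwa [conv_dl, QF_dl, indL_one, Complex.natCast_re] at h

/-- the conditions on the function `v'` -/
def Vp (P K : Subgroup G) (lam : K →* ℂˣ) (v : G → ℂ) : Prop :=
  Cov K lam v ∧ (∀ g, ‖v g‖ = 1) ∧ ∀ p ∈ P, ∀ g, v (p⁻¹ * g) = v g

theorem Ez_uniq (P K : Subgroup G) [K.Normal] (lam : K →* ℂˣ) (hP : P ⊔ K = ⊤) (v v' : G → ℂ)
    (h : Vp P K lam v) (h' : Vp P K lam v') (z : G) : Ez v z = Ez v' z := by
  obtain ⟨a1, a2, a3⟩ := h
  obtain ⟨b1, b2, b3⟩ := h'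
  have hv1 : v 1 ≠ 0 := by
    intro h0
    have := a2 1
    rw [h0, norm_zero] at this
    exact zero_ne_one this
  have key : ∀ g, v' g = (v' 1 / v 1) * v g := by
    intro g
    have hg : g ∈ P ⊔ K := by rw [hP]; trivial
    obtain ⟨p, hp, κ, hκ, rfl⟩ := (Subgroup.mem_sup_of_normal_right).1 hg
    have e1 : v (p * κ) = v κ := by
      have := a3 p hp (p * κ)
      rw [inv_mul_cancel_left] at this
      exact this.symm
    have e2 : v' (p * κ) = v' κ := by
      have := b3 p hp (p * κ)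
      rw [inv_mul_cancel_left] at this
      exact this.symm
    have e3 := a1 1 ⟨κ, hκ⟩
    have e4 := b1 1 ⟨κ, hκ⟩
    simp only [one_mul] at e3 e4
    rw [e1, e2, e3, e4]
    field_simp
  have hn : ‖v' 1 / v 1‖ = 1 := by rw [norm_div, a2, b2, div_one]
  unfold Ez
  congr 1
  refine Finset.sum_congr rfl fun g _ => ?_
  rw [key (z⁻¹ * g), key g, ← mul_sub, norm_mul, hn, one_mul]

open Classical in
/-- the energy for `P`, `lam` -/
noncomputable def en (K P : Subgroup G) (lam : K →* ℂˣ) (z : G) : ℝ :=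
  if h : ∃ v, Vp P K lam v then Ez h.choose z else 0

theorem en_eq (P K : Subgroup G) [K.Normal] (lam : K →* ℂˣ) (hP : P ⊔ K = ⊤) (v : G → ℂ)
    (h : Vp P K lam v) (z : G) : en K P lam z = Ez v z := by
  have h' : ∃ v, Vp P K lam v := ⟨v, h⟩
  unfold en
  rw [dif_pos h']
  exact Ez_uniq P K lam hP _ _ h'.choose_spec h z

end

end LamEP

open LamEP

theorem p_LamE (h5 : S_QF5) (hE : S_Edist) (h1 : S_QF1) : S_LamE := by
  classical
  intro G _ _ K _ _ F F₁ k r γ ε₁ t Good hk hγ hε hε1 ht hF hGood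
  haveI : Fintype (Subgroup G) := Fintype.ofFinite _
  have hk0 : (0 : ℝ) < k := by exact_mod_cast hk
  set J : ℝ := (K.index : ℝ) with hJ
  have hJ0 : 0 ≤ J := Nat.cast_nonneg _
  set s : ℝ := (1 - ε₁) * t / (k : ℝ) with hs
  set a : ℝ := Real.exp (-(γ ^ 2 * t)) with ha
  set b : ℝ := Real.exp (-(t / 4)) with hb
  have ha0 : 0 < a := Real.exp_pos _
  have hb0 : 0 < b := Real.exp_pos _
  let PS : (K →* ℂˣ) → Finset (Subgroup G) := fun lam =>
    Finset.univ.filter fun P => Cpl P K lam ∧ ∃ v, Vp P K lam v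
  let X : (K →* ℂˣ) → (Fin k → G) → ℝ := fun lam Z =>
    ∑ P ∈ PS lam, ∏ i, Real.exp (-(2 * s * en K P lam (Z i)))
  have hX0 : ∀ lam Z, 0 ≤ X lam Z := fun lam Z =>
    Finset.sum_nonneg fun P _ => Finset.prod_nonneg fun i _ => (Real.exp_pos _).le
  -- one summand
  have hone : ∀ Z, Good Z → ∀ lam ∈ F, QF (indL K lam) (law Z t) ≤
      J * (a + b + if lam ∈ F₁ then X lam Z else 0) := by
    intro Z hZ lam hlam
    have hif : 0 ≤ (if lam ∈ F₁ then X lam Z else 0) := by
      split_ifs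
      · exact hX0 _ _
      · exact le_refl _
    rcases hGood Z hZ lam hlam with h | ⟨hr, P, v, hC, hv1, hv2, hv3, hg⟩
    · have h2 := QF_law h5 K lam k Z (γ ^ 2 / 2) t hk (by positivity) ht h
      have h3 : Real.exp (-(2 * (γ ^ 2 / 2) * t)) = a := by
        rw [ha]; congr 1; ring
      rw [h3] at h2
      refine h2.trans ?_
      rw [mul_comm]
      exact mul_le_mul_of_nonneg_left (by linarith) hJ0
    · have hl1 : lam ∈ F₁ := hF lam hlam hr
      have hV : Vp P K lam v := ⟨hv1, hv2, hv3⟩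
      set A : ℝ := (1 - ε₁) * (∑ i, Ez v (Z i)) / (k : ℝ) with hA
      have hA0 : 0 ≤ A := by
        rw [hA]
        have : 0 ≤ ∑ i, Ez v (Z i) := Finset.sum_nonneg fun i _ => Ez_nonneg v (Z i)
        have h1 : 0 ≤ 1 - ε₁ := by linarith
        positivity
      have h2 := QF_law h5 K lam k Z (min A (1 / 8)) t hk (le_min hA0 (by norm_num)) ht hg
      have h3 : Real.exp (-(2 * min A (1 / 8) * t)) ≤ Real.exp (-(2 * A * t)) + b := by
        rcases min_choice A (1 / 8) with h | h
        · rw [h]; linarith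
        · rw [h]
          have : Real.exp (-(2 * (1 / 8) * t)) = b := by
            rw [hb]; congr 1; ring
          rw [this]
          linarith [Real.exp_pos (-(2 * A * t))]
      have h4 : Real.exp (-(2 * A * t)) ≤ X lam Z := by
        have hmem : P ∈ PS lam := by
          refine Finset.mem_filter.2 ⟨Finset.mem_univ _, hC, v, hV⟩
        have h5' : Real.exp (-(2 * A * t)) = ∏ i, Real.exp (-(2 * s * en K P lam (Z i))) := by
          rw [← Real.exp_sum]
          congr 1
          have : ∀ i, -(2 * s * en K P lam (Z i)) = -(2 * s) * Ez v (Z i) := by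
            intro i
            rw [en_eq P K lam hC.1 v hV]
            ring
          rw [Finset.sum_congr rfl fun i _ => this i, ← Finset.mul_sum, hA, hs]
          field_simp
        rw [h5']
        exact Finset.single_le_sum (f := fun P => ∏ i, Real.exp (-(2 * s * en K P lam (Z i))))
          (fun P _ => Finset.prod_nonneg fun i _ => (Real.exp_pos _).le) hmem
      rw [if_pos hl1]
      refine h2.trans ?_
      rw [mul_comm]
      exact mul_le_mul_of_nonneg_left (by linarith) hJ0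
  -- the sum of `X` over `Z`
  have hXsum : ∀ lam, ∑ Z : Fin k → G, X lam Z ≤
      (Nat.card G : ℝ) ^ k * ((Nat.card {P : Subgroup G // Cpl P K lam} : ℝ) *
        ph3 (CF K lam) s ^ k) := by
    intro lam
    have h1 : ∑ Z : Fin k → G, X lam Z = ∑ P ∈ PS lam, ((Nat.card G : ℝ) *
        ph3 (CF K lam) s) ^ k := by
      show ∑ Z : Fin k → G, ∑ P ∈ PS lam, ∏ i, Real.exp (-(2 * s * en K P lam (Z i))) = _
      rw [Finset.sum_comm]
      refine Finset.sum_congr rfl fun P hP => ?_
      obtain ⟨-, hC, v, hV⟩ := Finset.mem_filter.1 hP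
      rw [← hE G K lam P v s hC hV.1 hV.2.1 hV.2.2, Fintype.sum_pow]
      refine Finset.sum_congr rfl fun Z _ => ?_
      refine Finset.prod_congr rfl fun i _ => ?_
      rw [en_eq P K lam hC.1 v hV]
    have hph : 0 ≤ ph3 (CF K lam) s := by
      unfold ph3
      positivity
    rw [h1, Finset.sum_const, nsmul_eq_mul, mul_pow]
    have h2 : ((PS lam).card : ℝ) ≤ (Nat.card {P : Subgroup G // Cpl P K lam} : ℝ) := by
      rw [Nat.card_eq_fintype_card, Fintype.card_subtype]
      have : PS lam ⊆ Finset.univ.filter fun P => Cpl P K lam := by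
        intro P hP
        obtain ⟨-, hC, -⟩ := Finset.mem_filter.1 hP
        exact Finset.mem_filter.2 ⟨Finset.mem_univ _, hC⟩
      exact_mod_cast Finset.card_le_card this
    calc _ ≤ (Nat.card {P : Subgroup G // Cpl P K lam} : ℝ) *
          ((Nat.card G : ℝ) ^ k * ph3 (CF K lam) s ^ k) :=
          mul_le_mul_of_nonneg_right h2 (by positivity)
      _ = _ := by ring
  -- the total
  have htot : (∑ Z : Fin k → G, if Good Z then ∑ lam ∈ F, QF (indL K lam) (law Z t) else 0) ≤
      ∑ Z : Fin k → G, ∑ lam ∈ F, J * (a + b + if lam ∈ F₁ then X lam Z else 0) := by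
    refine Finset.sum_le_sum fun Z _ => ?_
    split_ifs with hZ
    · exact Finset.sum_le_sum fun lam hlam => hone Z hZ lam hlam
    · refine Finset.sum_nonneg fun lam _ => mul_nonneg hJ0 ?_
      have : 0 ≤ (if lam ∈ F₁ then X lam Z else 0) := by
        split_ifs
        · exact hX0 _ _
        · exact le_refl _
      linarith
  refine htot.trans ?_
  have e1 : ∑ Z : Fin k → G, ∑ lam ∈ F, J * (a + b + if lam ∈ F₁ then X lam Z else 0) =
      (Nat.card G : ℝ) ^ k * (J * ((F.card : ℝ) * (a + b))) +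
        J * ∑ lam ∈ F, (if lam ∈ F₁ then ∑ Z : Fin k → G, X lam Z else 0) := by
    have h1 : ∀ Z : Fin k → G, ∑ lam ∈ F, J * (a + b + if lam ∈ F₁ then X lam Z else 0) =
        J * ((F.card : ℝ) * (a + b)) + J * ∑ lam ∈ F, (if lam ∈ F₁ then X lam Z else 0) := by
      intro Z
      rw [← Finset.mul_sum, Finset.sum_add_distrib, Finset.sum_const, nsmul_eq_mul, mul_add]
    rw [Finset.sum_congr rfl fun Z _ => h1 Z, Finset.sum_add_distrib, Finset.sum_const,
      Finset.card_univ, Fintype.card_fun, Fintype.card_fin, nsmul_eq_mul, ← Finset.mul_sum,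
      Finset.sum_comm, ← Nat.card_eq_fintype_card]
    push_cast
    congr 2
    refine Finset.sum_congr rfl fun lam _ => ?_
    split_ifs
    · rfl
    · rw [Finset.sum_const_zero]
  rw [e1]
  have e2 : ∑ lam ∈ F, (if lam ∈ F₁ then ∑ Z : Fin k → G, X lam Z else 0) ≤
      ∑ lam ∈ F₁, ∑ Z : Fin k → G, X lam Z := by
    rw [← Finset.sum_filter]
    refine Finset.sum_le_sum_of_subset_of_nonneg (fun lam hlam => (Finset.mem_filter.1 hlam).2) ?_
    intro lam _ _
    exact Finset.sum_nonneg fun Z _ => hX0 lam Z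
  have e3 : ∑ lam ∈ F₁, ∑ Z : Fin k → G, X lam Z ≤ (Nat.card G : ℝ) ^ k *
      ∑ lam ∈ F₁, (Nat.card {P : Subgroup G // Cpl P K lam} : ℝ) * ph3 (CF K lam) s ^ k := by
    rw [Finset.mul_sum]
    exact Finset.sum_le_sum fun lam _ => hXsum lam
  have e4 := mul_le_mul_of_nonneg_left (e2.trans e3) hJ0
  calc _ ≤ (Nat.card G : ℝ) ^ k * (J * ((F.card : ℝ) * (a + b))) + J * ((Nat.card G : ℝ) ^ k *
      ∑ lam ∈ F₁, (Nat.card {P : Subgroup G // Cpl P K lam} : ℝ) * ph3 (CF K lam) s ^ k) := by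
        linarith
    _ = _ := by ring

end NilCut
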