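import Pool.Agent.Lib.MP_4ddf81_pr.Stm3

namespace NilCut

open scoped commutatorElement

namespace LextP

/-- fibres of size at most `M` -/
theorem card_le_mul {A B : Type} [Finite A] (f : A → B) (T : Set B) (hTf : T.Finite)
    (hf : ∀ a, f a ∈ T) (M : ℕ) (hM : ∀ b ∈ T, Nat.card {a // f a = b} ≤ M) :
    Nat.card A ≤ M * T.ncard := by
  classical
  haveI := Fintype.ofFinite A
  rw [Nat.card_eq_fintype_card, ← Finset.card_univ]
  have h1 := Finset.card_le_mul_card_image_of_maps_to (f := f) (s := (Finset.univ : Finset A))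
    (t := hTf.toFinset) (fun a _ => hTf.mem_toFinset.2 (hf a)) M (fun b hb => by
      have h2 := hM b (hTf.mem_toFinset.1 hb)
      rwa [Nat.card_eq_fintype_card, Fintype.card_subtype] at h2)
  rwa [← Set.ncard_eq_toFinset_card T hTf] at h1

/-- the characters which are trivial on a normal subgroup -/
theorem card_triv (hF : S_FinC) {H : Type} [Group H] [Finite H] (N : Subgroup H) [N.Normal] :
    Finite {χ : H →* ℂˣ // ∀ x ∈ N, χ x = 1} ∧
      Nat.card {χ : H →* ℂˣ // ∀ x ∈ N, χ x = 1} ≤ N.index := by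
  obtain ⟨h1, h2, h3⟩ := hF (H ⧸ N)
  have hinj : Function.Injective (fun χ : {χ : H →* ℂˣ // ∀ x ∈ N, χ x = 1} =>
      (QuotientGroup.lift N χ.1 χ.2 : H ⧸ N →* ℂˣ)) := by
    intro χ χ' h
    apply Subtype.ext
    ext x
    have := DFunLike.congr_fun h (x : H ⧸ N)
    simp only [QuotientGroup.lift_mk] at this
    rw [this]
  refine ⟨Finite.of_injective _ hinj, ?_⟩
  refine (Nat.card_le_card_of_injective _ hinj).trans ?_
  rw [h2]
  exact h3

/-- the characters with a given restriction -/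
theorem card_fib (hF : S_FinC) {H : Type} [Group H] [Finite H] (N : Subgroup H) [N.Normal]
    (μ : N →* ℂˣ) : Nat.card {χ : H →* ℂˣ // ∀ x : N, χ x = μ x} ≤ N.index := by
  classical
  by_cases hne : Nonempty {χ : H →* ℂˣ // ∀ x : N, χ x = μ x}
  · obtain ⟨χ₀⟩ := hne
    obtain ⟨h1, h2⟩ := card_triv hF N
    have hinj : Function.Injective (fun χ : {χ : H →* ℂˣ // ∀ x : N, χ x = μ x} =>
        (⟨χ.1 * χ₀.1⁻¹, fun x hx => by
          rw [MonoidHom.mul_apply, MonoidHom.inv_apply, χ.2 ⟨x, hx⟩, χ₀.2 ⟨x, hx⟩,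
            mul_inv_cancel]⟩ : {χ : H →* ℂˣ // ∀ x ∈ N, χ x = 1})) := by
      intro χ χ' h
      apply Subtype.ext
      exact mul_right_cancel (Subtype.ext_iff.1 h)
    exact (Nat.card_le_card_of_injective _ hinj).trans h2
  · rw [not_nonempty_iff] at hne
    rw [Nat.card_of_isEmpty]
    exact Nat.zero_le _

theorem le_normalizer_of {G : Type} [Group G] (A V : Subgroup G)
    (h : ∀ a ∈ A, ∀ v ∈ V, a * v * a⁻¹ ∈ V) : A ≤ Subgroup.normalizer (V : Set G) := by
  intro a ha
  rw [Subgroup.mem_normalizer_iff]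
  intro v
  constructor
  · exact h a ha v
  · intro hv
    have := h a⁻¹ (A.inv_mem ha) _ hv
    have e : a⁻¹ * (a * v * a⁻¹) * a⁻¹⁻¹ = v := by group
    rwa [e] at this

theorem normal_of_sup {G : Type} [Group G] (A K V : Subgroup G) (hAK : A ⊔ K = ⊤)
    (hA : ∀ a ∈ A, ∀ v ∈ V, a * v * a⁻¹ ∈ V) (hK : ∀ a ∈ K, ∀ v ∈ V, a * v * a⁻¹ ∈ V) :
    V.Normal := by
  rw [← Subgroup.normalizer_eq_top_iff, eq_top_iff, ← hAK]
  exact sup_le (le_normalizer_of A V hA) (le_normalizer_of K V hK)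

/-- the range of a character with values in the `p`-th roots of unity -/
theorem card_range {H : Type} [Group H] (μ : H →* ℂˣ) (p : ℕ) (hp : p.Prime)
    (hμ : ∀ x, μ x ^ p = 1) : Nat.card μ.range = 1 ∨ Nat.card μ.range = p := by
  haveI : NeZero p := ⟨hp.ne_zero⟩
  have h1 : μ.range ≤ rootsOfUnity p ℂ := by
    rintro _ ⟨x, rfl⟩
    rw [mem_rootsOfUnity]
    exact hμ x
  have h2 : Nat.card μ.range ∣ Nat.card (rootsOfUnity p ℂ) := Subgroup.card_dvd_of_le h1
  rw [Complex.card_rootsOfUnity] at h2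
  exact (Nat.dvd_prime hp).1 h2

end LextP

open LextP in
theorem p_Lext (hN : S_NormC) (hF : S_FinC) : S_Lext := by
  classical
  intro N₀
  obtain ⟨c₀, hc₀⟩ := hN N₀
  refine ⟨N₀ * N₀ * (c₀ + 1), ?_⟩
  intro G _ _ S hS K P₁ p hKn hp hKP hPK hidx
  haveI := hKn
  have hpos : ∀ H : Subgroup G, 0 < H.index := fun H => Nat.pos_of_ne_zero Subgroup.index_ne_zero_of_finite
  have hp0 : 0 < p := hp.pos
  have hK0 := hpos K
  have hP0 := hpos P₁
  have hKN : K.index ≤ N₀ := by
    calc K.index ≤ K.index * (P₁.index * p) := Nat.le_mul_of_pos_right _ (Nat.mul_pos hP0 hp0)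
      _ ≤ N₀ := by rw [← mul_assoc]; exact hidx
  have hpN : p ≤ N₀ := by
    calc p ≤ (K.index * P₁.index) * p := Nat.le_mul_of_pos_left _ (Nat.mul_pos hK0 hP0)
      _ ≤ N₀ := hidx
  set U : Subgroup G := P₁ ⊓ K with hU
  -- conjugation by elements of `K`
  have hcomm : ∀ a ∈ K, ∀ u ∈ K, a * u * a⁻¹ = ⁅a, u⁆ * u := by
    intro a _ u _
    rw [commutatorElement_def]
    group
  have hKK : ∀ a ∈ K, ∀ u ∈ K, ⁅a, u⁆ ∈ ⁅K, K⁆ := fun a ha u hu =>
    Subgroup.commutator_mem_commutator ha hu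
  have hUn : U.Normal := by
    refine normal_of_sup P₁ K U hPK ?_ ?_
    · intro a ha v hv
      exact ⟨P₁.mul_mem (P₁.mul_mem ha hv.1) (P₁.inv_mem ha), hKn.conj_mem v hv.2 a⟩
    · intro a ha v hv
      refine ⟨?_, hKn.conj_mem v hv.2 a⟩
      rw [hcomm a ha v hv.2]
      exact P₁.mul_mem (hKP (hKK a ha v hv.2)) hv.1
  haveI := hUn
  have hUP : U ≤ P₁ := inf_le_left
  -- the type of the characters
  set Λ := {lam : P₁ →* ℂˣ // lam ^ p = 1 ∧ ∀ x : P₁, (x : G) ∈ ⁅K, K⁆ → lam x = 1} with hΛ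
  haveI : Finite (P₁ →* ℂˣ) := (hF P₁).1
  haveI : Finite (U →* ℂˣ) := (hF U).1
  haveI : Finite Λ := Subtype.finite
  -- restriction to `U`
  let res : Λ → (U →* ℂˣ) := fun lam => lam.1.comp (Subgroup.inclusion hUP)
  let ker' : (U →* ℂˣ) → Subgroup G := fun μ => μ.ker.map U.subtype
  let T : Set (U →* ℂˣ) := Set.range res
  let 𝒱 : Set (Subgroup G) := {V | V = U} ∪ {V | V.Normal ∧ V ≤ U ∧ V.relIndex U = p ∧ V.index ≤ N₀}
  -- step 1
  have hstep1 : Nat.card Λ ≤ N₀ * T.ncard := by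
    refine card_le_mul res T (Set.toFinite _) (fun a => ⟨a, rfl⟩) N₀ ?_
    rintro μ -
    haveI : (U.subgroupOf P₁).Normal := inferInstance
    let μ' : (U.subgroupOf P₁) →* ℂˣ :=
      μ.comp ((Subgroup.subgroupOfEquivOfLe hUP).toMonoidHom)
    have h1 := card_fib hF (U.subgroupOf P₁) μ'
    haveI : Finite {χ : P₁ →* ℂˣ // ∀ x : U.subgroupOf P₁, χ x = μ' x} := Subtype.finite
    have hinj : Function.Injective (fun a : {a : Λ // res a = μ} =>
        (⟨a.1.1, fun x => by
          have := DFunLike.congr_fun a.2 ((Subgroup.subgroupOfEquivOfLe hUP) x)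
          exact this⟩ : {χ : P₁ →* ℂˣ // ∀ x : U.subgroupOf P₁, χ x = μ' x})) := by
      intro a b h
      apply Subtype.ext
      apply Subtype.ext
      have h' := congrArg Subtype.val h
      exact h'
    refine (Nat.card_le_card_of_injective _ hinj).trans (h1.trans ?_)
    change U.relIndex P₁ ≤ N₀
    rw [hU, Subgroup.inf_relIndex_left]
    refine le_trans ?_ hKN
    rw [← Subgroup.relIndex_top_right]
    refine Subgroup.relIndex_le_of_le_right le_top ?_
    rw [Subgroup.relIndex_top_right]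
    exact hK0.ne'
  -- facts on the restrictions
  have hμp : ∀ μ ∈ T, ∀ x, μ x ^ p = 1 := by
    rintro _ ⟨lam, rfl⟩ x
    have := DFunLike.congr_fun lam.2.1 (Subgroup.inclusion hUP x)
    simp only [MonoidHom.pow_apply, MonoidHom.one_apply] at this
    exact this
  have hrel : ∀ μ : U →* ℂˣ, (ker' μ).relIndex U = Nat.card μ.range := by
    intro μ
    rw [← Subgroup.index_ker]
    change ((μ.ker.map U.subtype).subgroupOf U).index = _
    rw [Subgroup.subgroupOf, Subgroup.comap_map_eq_self_of_injective (Subgroup.subtype_injective U)]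
  have hle : ∀ μ : U →* ℂˣ, ker' μ ≤ U := by
    rintro μ _ ⟨x, _, rfl⟩
    exact x.2
  have hnorm : ∀ μ ∈ T, (ker' μ).Normal := by
    rintro _ ⟨lam, rfl⟩
    refine normal_of_sup P₁ K _ hPK ?_ ?_
    · rintro a ha _ ⟨x, hx, rfl⟩
      have hx1 : lam.1 (Subgroup.inclusion hUP x) = 1 := hx
      refine ⟨⟨a * x * a⁻¹, hUn.conj_mem x x.2 a⟩, ?_, rfl⟩
      change lam.1 (Subgroup.inclusion hUP _) = 1
      have e : Subgroup.inclusion hUP (⟨a * x * a⁻¹, hUn.conj_mem x x.2 a⟩ : U) =
          ⟨a, ha⟩ * Subgroup.inclusion hUP x * (⟨a, ha⟩ : P₁)⁻¹ := rfl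
      rw [e, map_mul, map_mul, hx1, mul_one, map_inv, mul_inv_cancel]
    · rintro a ha _ ⟨x, hx, rfl⟩
      have hx1 : lam.1 (Subgroup.inclusion hUP x) = 1 := hx
      refine ⟨⟨a * x * a⁻¹, hUn.conj_mem x x.2 a⟩, ?_, rfl⟩
      change lam.1 (Subgroup.inclusion hUP _) = 1
      have hc := hKK a ha x x.2.2
      have e : Subgroup.inclusion hUP (⟨a * x * a⁻¹, hUn.conj_mem x x.2 a⟩ : U) =
          (⟨⁅a, (x : G)⁆, hKP hc⟩ : P₁) * Subgroup.inclusion hUP x := by
        apply Subtype.ext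
        exact hcomm a ha x x.2.2
      rw [e, map_mul, hx1, mul_one]
      exact lam.2.2 _ hc
  have hUidx : U.index ≤ P₁.index * K.index := Subgroup.index_inf_le
  -- step 2
  haveI : Finite T := Set.toFinite _
  have hstep2 : T.ncard ≤ p * 𝒱.ncard := by
    have h0 : T.ncard = Nat.card T := rfl
    rw [h0]
    refine card_le_mul (fun μ : T => ker' μ.1) 𝒱 (Set.toFinite _) ?_ p ?_
    · rintro ⟨μ, hμ⟩
      rcases card_range μ p hp (hμp μ hμ) with h | h
      · left
        have h1 : (ker' μ).relIndex U = 1 := by rw [hrel, h]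
        exact le_antisymm (hle μ) (Subgroup.relIndex_eq_one.1 h1)
      · right
        have h1 : (ker' μ).relIndex U = p := by rw [hrel, h]
        refine ⟨hnorm μ hμ, hle μ, h1, ?_⟩
        have h2 := Subgroup.relIndex_mul_index (hle μ)
        rw [h1] at h2
        rw [← h2]
        calc p * U.index ≤ p * (P₁.index * K.index) := Nat.mul_le_mul_left _ hUidx
          _ = K.index * P₁.index * p := by ring
          _ ≤ N₀ := hidx
    · intro V hV
      have hVn : V.Normal := by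
        rcases hV with h | h
        · rw [h]; exact hUn
        · exact h.1
      haveI := hVn
      haveI : (V.subgroupOf U).Normal := inferInstance
      obtain ⟨h1, h2⟩ := card_triv hF (V.subgroupOf U)
      have hinj : Function.Injective (fun a : {a : T // ker' a.1 = V} =>
          (⟨a.1.1, fun x hx => by
            have h3 : (x : G) ∈ ker' a.1.1 := by rw [a.2]; exact hx
            obtain ⟨y, hy, hyx⟩ := h3
            have h4 : y = x := Subtype.ext hyx
            rw [← h4]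
            exact hy⟩ : {χ : U →* ℂˣ // ∀ x ∈ V.subgroupOf U, χ x = 1})) := by
        intro a b h
        apply Subtype.ext
        apply Subtype.ext
        have h' := congrArg Subtype.val h
        exact h'
      refine (Nat.card_le_card_of_injective _ hinj).trans (h2.trans ?_)
      change V.relIndex U ≤ p
      rcases hV with h | h
      · rw [h, Subgroup.relIndex_self]; exact hp.one_le
      · exact h.2.2.1.le
  -- step 3
  have hstep3 : 𝒱.ncard ≤ 1 + c₀ * p ^ S.card := by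
    refine (Set.ncard_union_le _ _).trans (add_le_add ?_ ?_)
    · rw [Set.ofPred_eq_eq_singleton, Set.ncard_singleton]
    · exact hc₀ G S hS U hUn p
  calc Nat.card Λ ≤ N₀ * T.ncard := hstep1
    _ ≤ N₀ * (p * 𝒱.ncard) := Nat.mul_le_mul_left _ hstep2
    _ ≤ N₀ * (N₀ * (1 + c₀ * p ^ S.card)) :=
        Nat.mul_le_mul_left _ (Nat.mul_le_mul hpN hstep3)
    _ ≤ N₀ * (N₀ * ((c₀ + 1) * p ^ S.card)) := by
        refine Nat.mul_le_mul_left _ (Nat.mul_le_mul_left _ ?_)
        have : 1 ≤ p ^ S.card := Nat.one_le_pow _ _ hp0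
        nlinarith
    _ = N₀ * N₀ * (c₀ + 1) * p ^ S.card := by ring

end NilCut
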