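import Pool.Agent.Lib.MP_4ddf81_pr.Stm3

/-!
# MP_4ddf81_pr, stage 3 : the lower bound in the saturated case
-/

namespace NilCut

open Filter Topology

namespace Low3P

/-- Summation over the first coordinate. -/
theorem card_pairs {A B : Type} [Fintype A] [Fintype B] (P : A → B → Prop) :
    (Nat.card {p : A × B // P p.1 p.2} : ℝ) = ∑ a : A, (Nat.card {b : B // P a b} : ℝ) := by
  classical
  rw [Nat.card_congr (Equiv.subtypeProdEquivSigmaSubtype P), Nat.card_sigma]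
  push_cast
  rfl

open Classical in
/-- The mass of the set of the elements which are reached by good words. -/
theorem mass {G : Type} [Group G] [Fintype G] {k n : ℕ} (Z : Fin k → G)
    (Pw : (Fin n → Fin k) → Prop) (hk : 0 < k) (A : Set G) (hA : ∀ w, Pw w → wprod Z w ∈ A) :
    1 - (Nat.card {w : Fin n → Fin k // ¬ Pw w} : ℝ) / (k : ℝ) ^ n ≤
      ∑ g : G, (if g ∈ A then stepLaw Z n g else 0) := by
  have hk0 : (0 : ℝ) < (k : ℝ) := by exact_mod_cast hk
  have hkn : (0 : ℝ) < (k : ℝ) ^ n := by positivity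
  have e2 : 1 - (Nat.card {w : Fin n → Fin k // ¬ Pw w} : ℝ) / (k : ℝ) ^ n =
      (Nat.card {w : Fin n → Fin k // Pw w} : ℝ) / (k : ℝ) ^ n := by
    have h6 : Nat.card {w : Fin n → Fin k // Pw w} +
        Nat.card {w : Fin n → Fin k // ¬ Pw w} = k ^ n := by
      rw [Nat.card_eq_fintype_card, Nat.card_eq_fintype_card, Fintype.card_subtype_compl]
      have e3 : Fintype.card {w : Fin n → Fin k // Pw w} ≤
          Fintype.card (Fin n → Fin k) := Fintype.card_subtype_le _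
      have e4 : Fintype.card (Fin n → Fin k) = k ^ n := by simp
      omega
    have h7 : (Nat.card {w : Fin n → Fin k // Pw w} : ℝ) +
        (Nat.card {w : Fin n → Fin k // ¬ Pw w} : ℝ) = (k : ℝ) ^ n := by
      exact_mod_cast h6
    rw [← h7] at hkn ⊢
    field_simp
    ring
  rw [e2]
  have e4 : (Nat.card {w : Fin n → Fin k // Pw w} : ℝ) ≤
      ∑ g : G, (if g ∈ A then
        (Nat.card {w : Fin n → Fin k // wprod Z w = g} : ℝ) else 0) := by
    have e5 : ∑ g : G, (if g ∈ A then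
        (Nat.card {w : Fin n → Fin k // wprod Z w = g} : ℝ) else 0) =
        ∑ w : Fin n → Fin k, (if wprod Z w ∈ A then (1 : ℝ) else 0) := by
      have e6 : ∀ g : G, (if g ∈ A then
        (Nat.card {w : Fin n → Fin k // wprod Z w = g} : ℝ) else 0) =
        ∑ w ∈ Finset.univ.filter (fun w : Fin n → Fin k => wprod Z w = g),
          (if wprod Z w ∈ A then (1 : ℝ) else 0) := by
        intro g
        rw [Nat.card_eq_fintype_card, Fintype.card_subtype]
        split_ifs with hg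
        · rw [Finset.sum_congr rfl (g := fun _ => (1 : ℝ))]
          · simp
          · intro w hw
            rw [(Finset.mem_filter.1 hw).2, if_pos hg]
        · symm
          apply Finset.sum_eq_zero
          intro w hw
          rw [(Finset.mem_filter.1 hw).2, if_neg hg]
      rw [Finset.sum_congr rfl fun g _ => e6 g]
      exact Finset.sum_fiberwise _ _ _
    rw [e5]
    rw [← Finset.sum_filter, Finset.sum_const, nsmul_eq_mul, mul_one]
    have e7 : Nat.card {w : Fin n → Fin k // Pw w} ≤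
        (Finset.univ.filter (fun w : Fin n → Fin k => wprod Z w ∈ A)).card := by
      rw [← Fintype.card_subtype, ← Nat.card_eq_fintype_card]
      apply Nat.card_le_card_of_injective
        (fun w => (⟨w.1, hA w.1 w.2⟩ : {w : Fin n → Fin k // wprod Z w ∈ A}))
      intro p q hpq
      exact Subtype.ext (congrArg (fun x => x.1) hpq)
    exact_mod_cast e7
  calc _ ≤ (∑ g : G, (if g ∈ A then
        (Nat.card {w : Fin n → Fin k // wprod Z w = g} : ℝ) else 0)) / (k : ℝ) ^ n :=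
        div_le_div_of_nonneg_right e4 hkn.le
    _ = _ := by
        rw [Finset.sum_div]
        apply Finset.sum_congr rfl
        intro g _
        unfold stepLaw
        split_ifs <;> simp

/-- The summation of the lower bounds. -/
theorem fin_asm (hLB : S_LBtv) (G : Type) [Group G] [Fintype G] (k : ℕ) (t e ρ : ℝ)
    (W : Finset ℕ) (Pw : (Fin k → G) → (n : ℕ) → (Fin n → Fin k) → Prop) (hk : 0 < k)
    (ht : 0 ≤ t) (he : 0 ≤ e)
    (hsize : ∀ Z : Fin k → G, ∀ n ∈ W, (Nat.card {g : G // ∃ w : Fin n → Fin k,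
      wprod Z w = g ∧ Pw Z n w} : ℝ) ≤ (Nat.card G : ℝ) * ρ)
    (hρ : (W.card : ℝ) * ρ ≤ e)
    (hbad : ∀ n ∈ W, ∑ Z : Fin k → G, (Nat.card {w : Fin n → Fin k // ¬ Pw Z n w} : ℝ) /
      (k : ℝ) ^ n ≤ (Nat.card G : ℝ) ^ k * e)
    (hpW : 1 - 2 * e ≤ ∑ n ∈ W, pois t n) (hpW1 : ∑ n ∈ W, pois t n ≤ 1) :
    (1 - 4 * e) * (Nat.card G : ℝ) ^ k ≤ ∑ Z : Fin k → G, dTV Z t := by
  classical
  have hGpos : (0 : ℝ) < (Nat.card G : ℝ) := by exact_mod_cast Nat.card_pos
  have hpt : ∀ n : ℕ, 0 ≤ pois t n := by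
    intro n
    unfold pois
    positivity
  set bd : (Fin k → G) → ℕ → ℝ := fun Z n =>
    (Nat.card {w : Fin n → Fin k // ¬ Pw Z n w} : ℝ) / (k : ℝ) ^ n with hbd
  obtain ⟨A, hA⟩ : ∃ A : (Fin k → G) → ℕ → Set G, ∀ Z n, A Z n = {g : G |
      ∃ w : Fin n → Fin k, wprod Z w = g ∧ Pw Z n w} := ⟨_, fun _ _ => rfl⟩
  have hsum2 : ∀ Z : Fin k → G, (∑ n ∈ W, (Nat.card (A Z n) : ℝ)) / (Nat.card G : ℝ) ≤ e := by
    intro Z
    rw [div_le_iff₀ hGpos]
    calc _ ≤ ∑ n ∈ W, (Nat.card G : ℝ) * ρ := Finset.sum_le_sum fun n hn => by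
            rw [hA]
            exact hsize Z n hn
      _ = ((W.card : ℝ) * ρ) * (Nat.card G : ℝ) := by
          rw [Finset.sum_const, nsmul_eq_mul]
          ring
      _ ≤ _ := mul_le_mul_of_nonneg_right hρ hGpos.le
  have hZ : ∀ Z : Fin k → G, ∑ n ∈ W, pois t n * (1 - bd Z n) - e ≤ dTV Z t := by
    intro Z
    have h3 := hLB G k Z t W (A Z) hk ht
    have h4 : ∑ n ∈ W, pois t n * (1 - bd Z n) ≤ ∑ n ∈ W, pois t n * ∑ g : G,
        (open Classical in if g ∈ A Z n then stepLaw Z n g else 0) := by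
      apply Finset.sum_le_sum
      intro n _
      exact mul_le_mul_of_nonneg_left (mass Z (Pw Z n) hk (A Z n)
        (fun w hw => by rw [hA]; exact ⟨w, rfl, hw⟩))
        (hpt n)
    have h5 := hsum2 Z
    linarith
  have hcardZ : (Fintype.card (Fin k → G) : ℝ) = (Nat.card G : ℝ) ^ k := by
    rw [Fintype.card_fun, Fintype.card_fin, Nat.card_eq_fintype_card]
    push_cast
    rfl
  have hGk : (0 : ℝ) < (Nat.card G : ℝ) ^ k := by positivity
  calc (1 - 4 * e) * (Nat.card G : ℝ) ^ k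
      ≤ (∑ n ∈ W, pois t n) * (Nat.card G : ℝ) ^ k -
          (∑ n ∈ W, pois t n) * ((Nat.card G : ℝ) ^ k * e) -
          e * (Nat.card G : ℝ) ^ k := by
        have h3 : (∑ n ∈ W, pois t n) * ((Nat.card G : ℝ) ^ k * e) ≤
            1 * ((Nat.card G : ℝ) ^ k * e) :=
          mul_le_mul_of_nonneg_right hpW1 (by positivity)
        have h4 : (1 - 2 * e) * (Nat.card G : ℝ) ^ k ≤
            (∑ n ∈ W, pois t n) * (Nat.card G : ℝ) ^ k :=
          mul_le_mul_of_nonneg_right hpW hGk.le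
        nlinarith
    _ ≤ ∑ n ∈ W, pois t n * ((Nat.card G : ℝ) ^ k - ∑ Z : Fin k → G, bd Z n) -
          e * (Nat.card G : ℝ) ^ k := by
        have h3 : (∑ n ∈ W, pois t n) * (Nat.card G : ℝ) ^ k -
          (∑ n ∈ W, pois t n) * ((Nat.card G : ℝ) ^ k * e) =
          ∑ n ∈ W, pois t n * ((Nat.card G : ℝ) ^ k - (Nat.card G : ℝ) ^ k * e) := by
          rw [← Finset.sum_mul]
          ring
        rw [h3]
        apply sub_le_sub_right
        apply Finset.sum_le_sum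
        intro n hn
        apply mul_le_mul_of_nonneg_left _ (hpt n)
        linarith [hbad n hn]
    _ = ∑ Z : Fin k → G, (∑ n ∈ W, pois t n * (1 - bd Z n) - e) := by
        rw [Finset.sum_sub_distrib, Finset.sum_const, Finset.card_univ, nsmul_eq_mul, hcardZ,
          Finset.sum_comm, mul_comm e]
        congr 1
        apply Finset.sum_congr rfl
        intro n _
        rw [← Finset.mul_sum, Finset.sum_sub_distrib, Finset.sum_const, Finset.card_univ,
          nsmul_eq_mul, hcardZ, mul_one]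
    _ ≤ ∑ Z : Fin k → G, dTV Z t := Finset.sum_le_sum fun Z _ => hZ Z

/-- The window of the numbers of the jumps. -/
theorem window (hP1 : S_P1) (hP2 : S_P2) (k : ℕ) (t e : ℝ) (hk : 0 < k) (hkt : (k : ℝ) ≤ t)
    (he : Real.exp (-((k : ℝ) ^ 2 / (8 * t))) ≤ e) :
    ∃ W : Finset ℕ, (∀ n ∈ W, |(n : ℝ) - t| ≤ (k : ℝ)) ∧ 1 - 2 * e ≤ ∑ n ∈ W, pois t n ∧
      ∑ n ∈ W, pois t n ≤ 1 ∧ (W.card : ℝ) ≤ t + (k : ℝ) + 1 := by
  classical
  have hk0 : (0 : ℝ) < (k : ℝ) := by exact_mod_cast hk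
  have ht0 : 0 < t := lt_of_lt_of_le hk0 hkt
  set a : ℕ := ⌈t - (k : ℝ)⌉₊ with ha
  set b : ℕ := ⌊t + (k : ℝ)⌋₊ with hb
  have hble : (b : ℝ) ≤ t + (k : ℝ) := Nat.floor_le (by positivity)
  set δ : ℝ := (k : ℝ) / t with hδ
  have hδ0 : 0 ≤ δ := by positivity
  have hδ1 : δ ≤ 1 := by
    rw [hδ, div_le_one ht0]
    exact hkt
  have hδt : δ * t = (k : ℝ) := by
    rw [hδ]
    field_simp
  have hd8 : δ ^ 2 * t / 8 = (k : ℝ) ^ 2 / (8 * t) := by
    rw [hδ]
    field_simp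
  have hd4 : (k : ℝ) ^ 2 / (8 * t) ≤ δ ^ 2 * t / 4 := by
    rw [← hd8]
    have : 0 ≤ δ ^ 2 * t := by positivity
    linarith
  have hpt : ∀ n : ℕ, 0 ≤ pois t n := by
    intro n
    unfold pois
    positivity
  have hpa : ∑ n ∈ Finset.range a, pois t n ≤ e := by
    refine le_trans (hP1 t δ a ht0.le hδ0 hδ1 ?_) (le_trans (Real.exp_le_exp.2
      (neg_le_neg hd4)) he)
    have h3 := Nat.ceil_lt_add_one (a := t - (k : ℝ)) (by linarith)
    rw [← ha] at h3
    nlinarith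
  have hpb : 1 - e ≤ ∑ n ∈ Finset.range (b + 1), pois t n := by
    have h3 := hP2 t δ b ht0.le hδ0 hδ1 (by
      have h4 := Nat.lt_floor_add_one (t + (k : ℝ))
      rw [← hb] at h4
      nlinarith)
    rw [hd8] at h3
    linarith
  refine ⟨(Finset.range (b + 1)).filter (fun n => a ≤ n), ?_, ?_, ?_, ?_⟩
  · intro n hn
    rw [Finset.mem_filter, Finset.mem_range] at hn
    have h3 : (n : ℝ) ≤ (b : ℝ) := by exact_mod_cast (by omega : n ≤ b)
    have h4 : t - (k : ℝ) ≤ (n : ℝ) := le_trans (Nat.le_ceil _) (by exact_mod_cast hn.2)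
    rw [abs_le]
    constructor <;> linarith
  · have h3 : ∑ n ∈ Finset.range (b + 1), pois t n =
        ∑ n ∈ (Finset.range (b + 1)).filter (fun n => a ≤ n), pois t n +
        ∑ n ∈ (Finset.range (b + 1)).filter (fun n => ¬ a ≤ n), pois t n := by
      rw [Finset.sum_filter_add_sum_filter_not]
    have h4 : ∑ n ∈ (Finset.range (b + 1)).filter (fun n => ¬ a ≤ n), pois t n ≤
        ∑ n ∈ Finset.range a, pois t n := by
      apply Finset.sum_le_sum_of_subset_of_nonneg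
      · intro n hn
        rw [Finset.mem_filter] at hn
        rw [Finset.mem_range]
        omega
      · intro n _ _
        exact hpt n
    linarith
  · calc _ ≤ ∑ n ∈ Finset.range (b + 1), pois t n :=
          Finset.sum_le_sum_of_subset_of_nonneg (Finset.filter_subset _ _)
            (fun n _ _ => hpt n)
      _ = Real.exp (-t) * ∑ n ∈ Finset.range (b + 1), t ^ n / (n.factorial : ℝ) := by
          rw [Finset.mul_sum]
          apply Finset.sum_congr rfl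
          intro n _
          unfold pois
          ring
      _ ≤ Real.exp (-t) * Real.exp t :=
          mul_le_mul_of_nonneg_left (Real.sum_le_exp_of_nonneg ht0.le _) (Real.exp_pos _).le
      _ = 1 := by
          rw [← Real.exp_add]
          simp
  · have h3 : ((Finset.range (b + 1)).filter (fun n => a ≤ n)).card ≤ b + 1 :=
      le_trans (Finset.card_filter_le _ _) (by simp)
    have h4 : (((Finset.range (b + 1)).filter (fun n => a ≤ n)).card : ℝ) ≤ (b : ℝ) + 1 := by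
      exact_mod_cast h3
    linarith

/-- The group of the linear characters is finite. -/
theorem finHom (G : Type) [Group G] [Finite G] : Finite (G →* ℂˣ) := by
  have hfin : Finite (Abelianization G →* ℂˣ) := by
    apply Nat.finite_of_card_ne_zero
    rw [CommGroup.card_monoidHom_of_hasEnoughRootsOfUnity]
    exact Nat.card_pos.ne'
  refine Finite.of_surjective (fun l : Abelianization G →* ℂˣ =>
    l.comp (Abelianization.of : G →* Abelianization G)) ?_
  intro l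
  refine ⟨Abelianization.lift l, ?_⟩
  ext x
  simp

/-- The pairs and the linear characters. -/
theorem nc_le (hP : S_NCp) (G : Type) [Group G] [Finite G] (K : Subgroup G) [K.Normal] (r : ℕ)
    (C : Finset (G ⧸ K → ℂ)) :
    (NC K r C : ℝ) ≤ (Nat.card {lam' : K →* ℂˣ // CF K lam' = C} : ℝ) *
      (C.card : ℝ) ^ K.index := by
  classical
  have := finHom K
  have hfs : Finite (Subgroup G) := inferInstance
  have := Fintype.ofFinite {lam' : K →* ℂˣ // CF K lam' = C}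
  have h1 : NC K r C ≤ Nat.card (Σ lam' : {lam' : K →* ℂˣ // CF K lam' = C},
      {P : Subgroup G // Cpl P K lam'.1}) := by
    unfold NC
    apply Nat.card_le_card_of_injective
      (fun p => (⟨⟨p.1.2, p.2.2.2.2⟩, ⟨p.1.1, p.2.1⟩⟩ :
        (Σ lam' : {lam' : K →* ℂˣ // CF K lam' = C}, {P : Subgroup G // Cpl P K lam'.1})))
    intro p q hpq
    have e1 : p.1.2 = q.1.2 := congrArg (fun x => x.1.1) hpq
    have e2 : p.1.1 = q.1.1 := congrArg (fun x => x.2.1) hpq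
    exact Subtype.ext (Prod.ext e2 e1)
  have h2 : Nat.card (Σ lam' : {lam' : K →* ℂˣ // CF K lam' = C},
      {P : Subgroup G // Cpl P K lam'.1}) ≤
      Nat.card {lam' : K →* ℂˣ // CF K lam' = C} * C.card ^ K.index := by
    rw [Nat.card_sigma]
    calc _ ≤ ∑ lam' : {lam' : K →* ℂˣ // CF K lam' = C}, C.card ^ K.index := by
          apply Finset.sum_le_sum
          intro lam' _
          have h3 := hP G K lam'.1
          rwa [lam'.2] at h3
      _ = _ := by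
          rw [Finset.sum_const, Finset.card_univ, Nat.card_eq_fintype_card, smul_eq_mul]
  exact_mod_cast h1.trans h2

/-- `|C| ph3 C s = 1 + ∑_{c ≠ 1} exp (- 2 s En c)`. -/
theorem ph3_eq {Q : Type} [Fintype Q] (C : Finset (Q → ℂ)) (s : ℝ) (h1 : 1 ∈ C) :
    (open Classical in (C.card : ℝ) * ph3 C s =
      1 + ∑ c ∈ C.erase 1, Real.exp (-(2 * s * En c))) := by
  classical
  have h0 : (C.card : ℝ) ≠ 0 := by
    have : 0 < C.card := Finset.card_pos.2 ⟨1, h1⟩
    positivity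
  have hE : En (1 : Q → ℂ) = 0 := by
    unfold En
    simp
  unfold ph3
  rw [mul_div_cancel₀ _ h0, ← Finset.add_sum_erase C _ h1, hE]
  simp

/-- The logarithm is eventually large. -/
theorem ev_log (A : ℝ) : ∀ᶠ k : ℕ in atTop, A ≤ Real.log k :=
  (Real.tendsto_log_atTop.comp tendsto_natCast_atTop_atTop).eventually (eventually_ge_atTop A)

/-- `exp (-x) ≤ e` for `1 / e ≤ x`. -/
theorem exp_small (x e : ℝ) (he : 0 < e) (hx : 1 / e ≤ x) : Real.exp (-x) ≤ e := by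
  rw [Real.exp_neg]
  have h1 : 1 / e ≤ Real.exp x := by linarith [Real.add_one_le_exp x]
  rw [div_le_iff₀ he] at h1
  rw [inv_le_iff_one_le_mul₀ (Real.exp_pos _)]
  linarith

/-- The polynomial factor. -/
theorem ev_poly (C₁ c' e A : ℝ) (m : ℕ) (hC₁ : 0 < C₁) (hc' : 0 < c') (he : 0 < e)
    (hA : 0 < A) : ∀ᶠ k : ℕ in atTop,
    (C₁ * (k : ℝ) * Real.log k + 1) ^ m * (A * Real.exp (-(c' * Real.log k ^ 3))) ≤ e := by
  filter_upwards [ev_log 1, ev_log (2 * C₁), ev_log ((3 * (m : ℝ) + 1) / c'),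
    ev_log (1 / (e / A)), eventually_gt_atTop 0] with k h1 h2 h3 h4 hk
  have hk0 : (0 : ℝ) < (k : ℝ) := by exact_mod_cast hk
  set L : ℝ := Real.log k with hL
  have hkL : (k : ℝ) = Real.exp L := (Real.exp_log hk0).symm
  have hL0 : 0 ≤ L := by linarith
  have e1 : C₁ * L ≤ Real.exp L := by
    have := Real.quadratic_le_exp_of_nonneg hL0
    nlinarith
  have e2 : C₁ * (k : ℝ) * L + 1 ≤ Real.exp (3 * L) := by
    have e3 : C₁ * (k : ℝ) * L ≤ Real.exp (2 * L) := by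
      rw [hkL]
      calc C₁ * Real.exp L * L = (C₁ * L) * Real.exp L := by ring
        _ ≤ Real.exp L * Real.exp L := mul_le_mul_of_nonneg_right e1 (Real.exp_pos _).le
        _ = Real.exp (2 * L) := by
            rw [← Real.exp_add]
            congr 1
            ring
    have e4 : (1 : ℝ) ≤ Real.exp (2 * L) := Real.one_le_exp (by positivity)
    have e5 : (2 : ℝ) ≤ Real.exp L := by linarith [Real.add_one_le_exp L]
    have e6 : Real.exp (3 * L) = Real.exp L * Real.exp (2 * L) := by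
      rw [← Real.exp_add]
      congr 1
      ring
    rw [e6]
    nlinarith
  have e7 : (C₁ * (k : ℝ) * L + 1) ^ m ≤ Real.exp (3 * L) ^ m :=
    pow_le_pow_left₀ (by positivity) e2 m
  have e8 : 3 * (m : ℝ) + 1 ≤ c' * L ^ 2 := by
    rw [div_le_iff₀ hc'] at h3
    nlinarith
  have e9 : Real.exp (3 * L) ^ m * Real.exp (-(c' * L ^ 3)) ≤ Real.exp (-L) := by
    rw [← Real.exp_nat_mul, ← Real.exp_add]
    apply Real.exp_le_exp.2
    have := mul_le_mul_of_nonneg_right e8 hL0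
    nlinarith
  calc (C₁ * (k : ℝ) * L + 1) ^ m * (A * Real.exp (-(c' * L ^ 3)))
      ≤ Real.exp (3 * L) ^ m * (A * Real.exp (-(c' * L ^ 3))) :=
        mul_le_mul_of_nonneg_right e7 (by positivity)
    _ = A * (Real.exp (3 * L) ^ m * Real.exp (-(c' * L ^ 3))) := by ring
    _ ≤ A * (e / A) := mul_le_mul_of_nonneg_left
        (e9.trans (exp_small L (e / A) (by positivity) h4)) hA.le
    _ = e := by field_simp

/-- The error of the window. -/
theorem ev_win (C₀ e : ℝ) (hC₀ : 0 < C₀) (he : 0 < e) : ∀ᶠ k : ℕ in atTop,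
    Real.exp (-((k : ℝ) / (8 * C₀ * Real.log k))) ≤ e := by
  filter_upwards [ev_log 1, ev_log (16 * C₀ * (1 / e)), eventually_gt_atTop 0] with k h1 h2 hk
  have hk0 : (0 : ℝ) < (k : ℝ) := by exact_mod_cast hk
  apply exp_small _ _ he
  set L : ℝ := Real.log k with hL
  have hkL : (k : ℝ) = Real.exp L := (Real.exp_log hk0).symm
  have hL0 : 0 < L := by linarith
  rw [le_div_iff₀ (by positivity), hkL]
  have := Real.quadratic_le_exp_of_nonneg hL0.le
  nlinarith

/-- The choice of the linear character and of the function. -/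
theorem core (hS : S_Star) (hB : S_NCb) (hC : S_CFg) (hE : S_EnL) (Jm r k : ℕ) (ε : ℝ)
    (hr : 2 ≤ r) (hε : 0 < ε) (hε1 : ε < 1) (G : Type) [Group G] [Fintype G]
    (K : Subgroup G) [K.Normal] [Fintype (G ⧸ K)] (hJ : K.index ≤ Jm) (S : Finset G)
    (hcl : Subgroup.closure (S : Set G) = ⊤) (hSk : S.card + 2 ≤ k) (hpos : 0 < sStar K k r)
    (h72 : 72 * ((r : ℝ) ^ Jm * Real.exp 4) ≤
      Real.exp (ε * (8 / ((r : ℝ) ^ 2 * (Jm : ℝ))) * sStar K k r)) :
    ∃ (lam : K →* ℂˣ) (c : G ⧸ K → ℂ) (X : ℝ), c ∈ CF K lam ∧ c ≠ 1 ∧ (∀ x, ‖c x‖ = 1) ∧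
      ((CF K lam).card : ℝ) ≤ (r : ℝ) ^ Jm ∧ 0 < (NC K r (CF K lam) : ℝ) ∧
      ((CF K lam).card : ℝ) ^ k ≤ (NC K r (CF K lam) : ℝ) * Real.exp ((k : ℝ) * X) ∧
      ∀ n : ℕ, |(n : ℝ) - (1 - ε) * (sStar K k r * (k : ℝ))| ≤ (k : ℝ) →
        72 * X ≤ Real.exp (-((n : ℝ) / (k : ℝ) * En c)) ^ 2 ∧
        Real.exp (-4) * Real.log 2 / (r : ℝ) ^ Jm * (((k : ℝ) - (S.card : ℝ)) *
          Real.exp (ε * (8 / ((r : ℝ) ^ 2 * (Jm : ℝ))) * sStar K k r)) ≤
            (k : ℝ) * Real.exp (-((n : ℝ) / (k : ℝ) * En c)) ^ 2 := by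
  classical
  set s : ℝ := sStar K k r with hs
  obtain ⟨_, _, _, h4⟩ := hS G K k r S hcl (by omega) hSk
  obtain ⟨lam, hlam, hran, hNC⟩ := h4 ((1 - ε / 2) * s) (by nlinarith) (by nlinarith)
  obtain ⟨hc1, _, _, hcn, _, hc2, hcc⟩ := hC G K lam
  set C : Finset (G ⧸ K → ℂ) := CF K lam with hCdef
  have hC2 : 2 ≤ C.card := hc2 hlam
  have hne : (C.erase 1).Nonempty := by
    rw [← Finset.card_pos, Finset.card_erase_of_mem hc1]
    omega
  obtain ⟨c, hcm, hmin⟩ := Finset.exists_min_image (C.erase 1) (fun c => En c) hne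
  have hcC : c ∈ C := Finset.mem_of_mem_erase hcm
  have hcne : c ≠ 1 := Finset.ne_of_mem_erase hcm
  set X : ℝ := ∑ c' ∈ C.erase 1, Real.exp (-(2 * ((1 - ε / 2) * s) * En c')) with hX
  have hX0 : 0 ≤ X := Finset.sum_nonneg fun _ _ => (Real.exp_pos _).le
  have hk0 : (0 : ℝ) < (k : ℝ) := by
    have : 0 < k := by omega
    exact_mod_cast this
  have hr1 : (1 : ℝ) ≤ (r : ℝ) := by exact_mod_cast (by omega : 1 ≤ r)
  have hr0 : (0 : ℝ) < (r : ℝ) := by linarith
  have hcm0 : (0 : ℝ) < (r : ℝ) ^ Jm := by positivity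
  have hCcard : (C.card : ℝ) ≤ (r : ℝ) ^ Jm := by
    have h5 : C.card ≤ r ^ Jm := by
      calc C.card ≤ Nat.card lam.range ^ K.index := hcc
        _ ≤ r ^ K.index := Nat.pow_le_pow_left hran _
        _ ≤ r ^ Jm := Nat.pow_le_pow_right (by omega) hJ
    exact_mod_cast h5
  have hCpos : (0 : ℝ) < (C.card : ℝ) := by
    have : 0 < C.card := by omega
    exact_mod_cast this
  have hph := ph3_eq C ((1 - ε / 2) * s) hc1
  rw [← hX] at hph
  have hCk : (0 : ℝ) < (C.card : ℝ) ^ k := by positivity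
  -- the bound for `|C| ^ k`
  have hmain : (C.card : ℝ) ^ k < (NC K r C : ℝ) * (1 + X) ^ k := by
    rw [← hph, mul_pow]
    have := mul_lt_mul_of_pos_left hNC hCk
    calc (C.card : ℝ) ^ k = (C.card : ℝ) ^ k * 1 := (mul_one _).symm
      _ < _ := this
      _ = _ := by ring
  have hNC0 : 0 < (NC K r C : ℝ) := by
    by_contra hcon
    have h5 : (NC K r C : ℝ) = 0 := le_antisymm (not_lt.1 hcon) (Nat.cast_nonneg _)
    rw [h5, zero_mul] at hNC
    linarith
  have hexpX : (1 + X) ^ k ≤ Real.exp ((k : ℝ) * X) := by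
    rw [Real.exp_nat_mul]
    exact pow_le_pow_left₀ (by positivity) (by linarith [Real.add_one_le_exp X]) k
  have hmain2 : (C.card : ℝ) ^ k ≤ (NC K r C : ℝ) * Real.exp ((k : ℝ) * X) :=
    hmain.le.trans (mul_le_mul_of_nonneg_left hexpX hNC0.le)
  -- (a)
  have hkX : ((k : ℝ) - (S.card : ℝ)) * Real.log 2 ≤ (k : ℝ) * X := by
    have h5 : (NC K r C : ℝ) ≤ (C.card : ℝ) ^ S.card := by
      exact_mod_cast hB G K r C S hcl
    have h6 : (C.card : ℝ) ^ k ≤ (C.card : ℝ) ^ S.card * Real.exp ((k : ℝ) * X) :=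
      hmain2.trans (mul_le_mul_of_nonneg_right h5 (Real.exp_pos _).le)
    have h7 : (C.card : ℝ) ^ k = (C.card : ℝ) ^ S.card * (C.card : ℝ) ^ (k - S.card) := by
      rw [← pow_add]
      congr 1
      omega
    rw [h7] at h6
    have h8 : (C.card : ℝ) ^ (k - S.card) ≤ Real.exp ((k : ℝ) * X) :=
      le_of_mul_le_mul_left h6 (by positivity)
    have h9 : (2 : ℝ) ^ (k - S.card) ≤ Real.exp ((k : ℝ) * X) :=
      (pow_le_pow_left₀ (by norm_num) (by exact_mod_cast hC2) _).trans h8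
    have h10 := Real.log_le_log (by positivity) h9
    rw [Real.log_exp, Real.log_pow, Nat.cast_sub (by omega)] at h10
    exact h10
  -- (c)
  obtain ⟨hE0, hE2, hE8⟩ := hE G K lam r hran c hcC
  have hE8' := hE8 hcne
  have hJ1 : 1 ≤ K.index := Nat.one_le_iff_ne_zero.2 Subgroup.index_ne_zero_of_finite
  have hem : 8 / ((r : ℝ) ^ 2 * (Jm : ℝ)) ≤ En c := by
    refine le_trans ?_ hE8'
    have h5 : (0 : ℝ) < (K.index : ℝ) := by exact_mod_cast hJ1
    have h6 : (K.index : ℝ) ≤ (Jm : ℝ) := by exact_mod_cast hJ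
    gcongr
  have hXle : X ≤ (r : ℝ) ^ Jm * Real.exp (-(2 * ((1 - ε / 2) * s) * En c)) := by
    have h5 : X ≤ ∑ c' ∈ C.erase 1, Real.exp (-(2 * ((1 - ε / 2) * s) * En c)) := by
      apply Finset.sum_le_sum
      intro c' hc'
      apply Real.exp_le_exp.2
      apply neg_le_neg
      have h6 := hmin c' hc'
      have h7 : 0 ≤ 2 * ((1 - ε / 2) * s) := by nlinarith
      exact mul_le_mul_of_nonneg_left h6 h7
    rw [Finset.sum_const, nsmul_eq_mul] at h5
    have h6 : ((C.erase 1).card : ℝ) ≤ (r : ℝ) ^ Jm := by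
      have h7 : (C.erase 1).card ≤ C.card := Finset.card_le_card (Finset.erase_subset _ _)
      have h8 : ((C.erase 1).card : ℝ) ≤ (C.card : ℝ) := by exact_mod_cast h7
      linarith
    exact h5.trans (mul_le_mul_of_nonneg_right h6 (Real.exp_pos _).le)
  set Y : ℝ := Real.exp (ε * (8 / ((r : ℝ) ^ 2 * (Jm : ℝ))) * s) with hY
  have hY0 : 0 < Y := Real.exp_pos _
  have hφ : ∀ n : ℕ, |(n : ℝ) - (1 - ε) * (s * (k : ℝ))| ≤ (k : ℝ) →
      Real.exp (-4) * Y * (X / (r : ℝ) ^ Jm) ≤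
        Real.exp (-((n : ℝ) / (k : ℝ) * En c)) ^ 2 := by
    intro n hn
    have h5 : (n : ℝ) / (k : ℝ) ≤ (1 - ε) * s + 1 := by
      rw [div_le_iff₀ hk0]
      have := (abs_le.1 hn).2
      nlinarith
    have h6 : (n : ℝ) / (k : ℝ) * En c ≤ ((1 - ε) * s + 1) * En c :=
      mul_le_mul_of_nonneg_right h5 hE0
    have h7 : X / (r : ℝ) ^ Jm ≤ Real.exp (-(2 * ((1 - ε / 2) * s) * En c)) := by
      rw [div_le_iff₀ hcm0]
      linarith
    calc Real.exp (-4) * Y * (X / (r : ℝ) ^ Jm)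
        ≤ Real.exp (-4) * Y * Real.exp (-(2 * ((1 - ε / 2) * s) * En c)) :=
          mul_le_mul_of_nonneg_left h7 (by positivity)
      _ = Real.exp (-4 + ε * (8 / ((r : ℝ) ^ 2 * (Jm : ℝ))) * s +
            -(2 * ((1 - ε / 2) * s) * En c)) := by
          rw [Real.exp_add, Real.exp_add]
      _ ≤ Real.exp (2 * (-((n : ℝ) / (k : ℝ) * En c))) := by
          apply Real.exp_le_exp.2
          have h8 : ε * (8 / ((r : ℝ) ^ 2 * (Jm : ℝ))) * s ≤ ε * En c * s := by
            have : 0 ≤ ε * s := by positivity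
            nlinarith
          nlinarith
      _ = _ := by
          rw [two_mul, Real.exp_add, pow_two]
  refine ⟨lam, c, X, hcC, hcne, hcn c hcC, hCcard, hNC0, hmain2, ?_⟩
  intro n hn
  have h5 := hφ n hn
  constructor
  · refine le_trans ?_ h5
    have h6 : 72 ≤ Real.exp (-4) * Y / (r : ℝ) ^ Jm := by
      rw [le_div_iff₀ hcm0]
      have h7 := mul_le_mul_of_nonneg_left h72 (Real.exp_pos (-4)).le
      have h8 : Real.exp (-4) * Real.exp 4 = 1 := by
        rw [← Real.exp_add]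
        simp
      calc 72 * (r : ℝ) ^ Jm = Real.exp (-4) * Real.exp 4 * (72 * (r : ℝ) ^ Jm) := by
            rw [h8, one_mul]
        _ = Real.exp (-4) * (72 * ((r : ℝ) ^ Jm * Real.exp 4)) := by ring
        _ ≤ _ := h7
    calc 72 * X ≤ Real.exp (-4) * Y / (r : ℝ) ^ Jm * X := mul_le_mul_of_nonneg_right h6 hX0
      _ = _ := by ring
  · calc Real.exp (-4) * Real.log 2 / (r : ℝ) ^ Jm * (((k : ℝ) - (S.card : ℝ)) * Y)
        = Real.exp (-4) * Y / (r : ℝ) ^ Jm * (((k : ℝ) - (S.card : ℝ)) * Real.log 2) := by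
          ring
      _ ≤ Real.exp (-4) * Y / (r : ℝ) ^ Jm * ((k : ℝ) * X) :=
          mul_le_mul_of_nonneg_left hkX (by positivity)
      _ = (k : ℝ) * (Real.exp (-4) * Y * (X / (r : ℝ) ^ Jm)) := by ring
      _ ≤ _ := mul_le_mul_of_nonneg_left h5 hk0.le

/-- The number of the elements which are reached by good words. -/
theorem size (hP : S_NCp) (h3 : S_LB3) (G : Type) [Group G] [Fintype G] (K : Subgroup G)
    [K.Normal] [Fintype (G ⧸ K)] (Jm r k n : ℕ) (Z : Fin k → G) (lam : K →* ℂˣ)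
    (c : G ⧸ K → ℂ) (hc : c ∈ CF K lam) (hc1 : c ≠ 1) (X φ D T : ℝ) (hk : 0 < k) (hr : 1 ≤ r)
    (hJ : K.index ≤ Jm) (hcard : ((CF K lam).card : ℝ) ≤ (r : ℝ) ^ Jm)
    (hNC0 : 0 < (NC K r (CF K lam) : ℝ))
    (hNC : ((CF K lam).card : ℝ) ^ k ≤ (NC K r (CF K lam) : ℝ) * Real.exp ((k : ℝ) * X))
    (hφ : 0 ≤ φ) (h72 : 72 * X ≤ φ ^ 2) (hD : D ≤ (k : ℝ) * φ ^ 2) (hT : (n : ℝ) + 1 ≤ T) :
    (Nat.card {g : G // ∃ w : Fin n → Fin k, wprod Z w = g ∧
      (k : ℝ) * φ / 3 ≤ ‖∑ i, evc c (cnt (fun i => (Z i : G ⧸ K)) w i)‖} : ℝ) ≤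
      (Nat.card G : ℝ) * (T ^ (Jm ^ 2) * (4 * ((r : ℝ) ^ Jm) ^ Jm * Real.exp (-(D / 72)))) := by
  have hk0 : (0 : ℝ) < (k : ℝ) := by exact_mod_cast hk
  have hr1 : (1 : ℝ) ≤ (r : ℝ) := by exact_mod_cast hr
  have hGpos : (0 : ℝ) < (Nat.card G : ℝ) := by exact_mod_cast Nat.card_pos
  have h4 := h3 G K k n Z lam c hc hc1 ((k : ℝ) * φ / 3) hk (by positivity)
  set N : ℝ := (Nat.card {g : G // ∃ w : Fin n → Fin k, wprod Z w = g ∧
      (k : ℝ) * φ / 3 ≤ ‖∑ i, evc c (cnt (fun i => (Z i : G ⧸ K)) w i)‖} : ℝ) with hN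
  have hN0 : 0 ≤ N := Nat.cast_nonneg _
  set C : Finset (G ⧸ K → ℂ) := CF K lam with hCdef
  have h5 := nc_le hP G K r C
  have hexp : ((k : ℝ) * φ / 3) ^ 2 / (4 * (k : ℝ)) = (k : ℝ) * φ ^ 2 / 36 := by
    field_simp
    ring
  rw [hexp] at h4
  have hT1 : (1 : ℝ) ≤ T := by
    have : (0 : ℝ) ≤ (n : ℝ) := Nat.cast_nonneg n
    linarith
  have h6 : ((n : ℝ) + 1) ^ (K.index ^ 2) ≤ T ^ (Jm ^ 2) := by
    calc ((n : ℝ) + 1) ^ (K.index ^ 2) ≤ T ^ (K.index ^ 2) :=
          pow_le_pow_left₀ (by positivity) hT _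
      _ ≤ T ^ (Jm ^ 2) := pow_le_pow_right₀ hT1 (Nat.pow_le_pow_left hJ 2)
  have h7 : (C.card : ℝ) ^ K.index ≤ ((r : ℝ) ^ Jm) ^ Jm := by
    calc (C.card : ℝ) ^ K.index ≤ ((r : ℝ) ^ Jm) ^ K.index :=
          pow_le_pow_left₀ (Nat.cast_nonneg _) hcard _
      _ ≤ ((r : ℝ) ^ Jm) ^ Jm := pow_le_pow_right₀ (one_le_pow₀ hr1) hJ
  have h8 : Real.exp ((k : ℝ) * X) * Real.exp (-((k : ℝ) * φ ^ 2 / 36)) ≤
      Real.exp (-(D / 72)) := by
    rw [← Real.exp_add]
    apply Real.exp_le_exp.2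
    have := mul_le_mul_of_nonneg_left h72 hk0.le
    nlinarith
  have h9 : N * (NC K r C : ℝ) ≤ ((Nat.card G : ℝ) * (T ^ (Jm ^ 2) *
      (4 * ((r : ℝ) ^ Jm) ^ Jm * Real.exp (-(D / 72))))) * (NC K r C : ℝ) := by
    calc N * (NC K r C : ℝ) ≤ N * ((Nat.card {lam' : K →* ℂˣ // CF K lam' = C} : ℝ) *
          (C.card : ℝ) ^ K.index) := mul_le_mul_of_nonneg_left h5 hN0
      _ = (N * (Nat.card {lam' : K →* ℂˣ // CF K lam' = C} : ℝ)) *
          (C.card : ℝ) ^ K.index := by ring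
      _ ≤ ((Nat.card G : ℝ) * ((n : ℝ) + 1) ^ (K.index ^ 2) *
          (4 * (C.card : ℝ) ^ k * Real.exp (-((k : ℝ) * φ ^ 2 / 36)))) *
          (C.card : ℝ) ^ K.index := mul_le_mul_of_nonneg_right h4 (by positivity)
      _ ≤ ((Nat.card G : ℝ) * T ^ (Jm ^ 2) *
          (4 * ((NC K r C : ℝ) * Real.exp ((k : ℝ) * X)) *
            Real.exp (-((k : ℝ) * φ ^ 2 / 36)))) * ((r : ℝ) ^ Jm) ^ Jm := by
          gcongr
      _ = (Nat.card G : ℝ) * T ^ (Jm ^ 2) * (4 * ((r : ℝ) ^ Jm) ^ Jm) * (NC K r C : ℝ) *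
          (Real.exp ((k : ℝ) * X) * Real.exp (-((k : ℝ) * φ ^ 2 / 36))) := by ring
      _ ≤ (Nat.card G : ℝ) * T ^ (Jm ^ 2) * (4 * ((r : ℝ) ^ Jm) ^ Jm) * (NC K r C : ℝ) *
          Real.exp (-(D / 72)) := by
          apply mul_le_mul_of_nonneg_left h8
          positivity
      _ = _ := by ring
  exact le_of_mul_le_mul_right h9 hNC0

/-- The bad words. -/
theorem badw (hPu : S_Push) (G : Type) [Group G] [Fintype G] (K : Subgroup G) [K.Normal]
    [Fintype (G ⧸ K)] (k n : ℕ) (e : ℝ) (hk : 0 < k)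
    (B : (Fin k → G ⧸ K) → (Fin n → Fin k) → Prop)
    (h : (Nat.card {p : (Fin k → G ⧸ K) × (Fin n → Fin k) // B p.1 p.2} : ℝ) ≤
      e * ((Fintype.card (G ⧸ K) : ℝ) ^ k * (k : ℝ) ^ n)) :
    ∑ Z : Fin k → G, (Nat.card {w : Fin n → Fin k // B (fun i => (Z i : G ⧸ K)) w} : ℝ) /
      (k : ℝ) ^ n ≤ (Nat.card G : ℝ) ^ k * e := by
  have hk0 : (0 : ℝ) < (k : ℝ) := by exact_mod_cast hk
  have hkn : (0 : ℝ) < (k : ℝ) ^ n := by positivity
  have hJc : Fintype.card (G ⧸ K) = K.index := by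
    rw [Subgroup.index_eq_card, Nat.card_eq_fintype_card]
  have hGK : (Nat.card G : ℝ) = (Nat.card K : ℝ) * (K.index : ℝ) := by
    rw [← Subgroup.card_mul_index K]
    push_cast
    ring
  have h4 := hPu G K k (Fin n → Fin k) B
  have h5 := card_pairs (A := Fin k → G) (B := Fin n → Fin k)
    (fun Z w => B (fun i => (Z i : G ⧸ K)) w)
  rw [← Finset.sum_div, ← h5, h4, div_le_iff₀ hkn]
  push_cast
  rw [hJc] at h
  calc (Nat.card K : ℝ) ^ k *
        (Nat.card {p : (Fin k → G ⧸ K) × (Fin n → Fin k) // B p.1 p.2} : ℝ)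
      ≤ (Nat.card K : ℝ) ^ k * (e * ((K.index : ℝ) ^ k * (k : ℝ) ^ n)) :=
        mul_le_mul_of_nonneg_left h (by positivity)
    _ = (Nat.card G : ℝ) ^ k * e * (k : ℝ) ^ n := by
        rw [hGK, mul_pow]
        ring

end Low3P

open Low3P in
/-- The lower bound. -/
theorem p_Low3 (hS : S_Star) (hB : S_NCb) (hP : S_NCp) (hC : S_CFg) (hE : S_EnL)
    (hL : S_LTyp) (h3 : S_LB3) (hT : S_LBtv) (hPu : S_Push) (hP1 : S_P1) (hP2 : S_P2) :
    S_Low3 := by
  classical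
  intro Jm r ε η hr hε hε1 hη
  rcases Nat.eq_zero_or_pos Jm with hJm | hJm
  · refine ⟨0, 0, ?_⟩
    intro k _ G _ _ K _ _ hJ
    have hJ1 : 1 ≤ K.index := Nat.one_le_iff_ne_zero.2 Subgroup.index_ne_zero_of_finite
    omega
  have hr1 : (1 : ℝ) ≤ (r : ℝ) := by exact_mod_cast (by omega : 1 ≤ r)
  have hr0 : (0 : ℝ) < (r : ℝ) := by linarith
  have hJm0 : (0 : ℝ) < (Jm : ℝ) := by exact_mod_cast hJm
  set e : ℝ := η / 4 with he
  have he0 : 0 < e := by positivity
  set cm : ℝ := (r : ℝ) ^ Jm with hcm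
  have hcm0 : 0 < cm := by positivity
  set em : ℝ := 8 / ((r : ℝ) ^ 2 * (Jm : ℝ)) with hem
  have hem0 : 0 < em := by positivity
  set C₀ : ℝ := (r : ℝ) ^ 2 * (Jm : ℝ) / 8 with hC₀
  have hC₀0 : 0 < C₀ := by positivity
  set C₁ : ℝ := C₀ + 1 with hC₁
  have hC₁0 : 0 < C₁ := by positivity
  have hlog2 : 0 < Real.log 2 := Real.log_pos (by norm_num)
  set c' : ℝ := Real.exp (-4) * Real.log 2 / cm with hc'
  have hc'0 : 0 < c' := by positivity
  obtain ⟨M₀, k₁, hM₀, hLT⟩ := hL Jm C₁ e hC₁0 he0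
  refine ⟨max (1 / (1 - ε)) (Real.log (72 * (cm * Real.exp 4)) / (ε * em)), ?_⟩
  refine eventually_atTop.1 ?_
  filter_upwards [eventually_ge_atTop k₁, eventually_gt_atTop 0, ev_log 1,
    ev_log ((Jm : ℝ) * Real.log r), ev_log (M₀ / c'),
    ev_poly C₁ (c' / 72) e (4 * cm ^ Jm) (Jm ^ 2 + 1) hC₁0 (by positivity) he0
      (by positivity), ev_win C₀ e hC₀0 he0] with k hk₁ hk hL1 hLr hLM hpoly hwin
  intro G _ _ K _ _ hJ S hcl hSk hσ hlog
  have hk0 : (0 : ℝ) < (k : ℝ) := by exact_mod_cast hk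
  have hJ1 : 1 ≤ K.index := Nat.one_le_iff_ne_zero.2 Subgroup.index_ne_zero_of_finite
  have hJ1' : (1 : ℝ) ≤ (K.index : ℝ) := by exact_mod_cast hJ1
  have hJ' : (K.index : ℝ) ≤ (Jm : ℝ) := by exact_mod_cast hJ
  have hJc : Fintype.card (G ⧸ K) = K.index := by
    rw [Subgroup.index_eq_card, Nat.card_eq_fintype_card]
  set s : ℝ := sStar K k r with hs
  set L : ℝ := Real.log k with hLdef
  have hL0 : 0 < L := by linarith
  have h1ε : 0 < 1 - ε := by linarith
  have hs1 : 1 / (1 - ε) ≤ s := (le_max_left _ _).trans hσ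
  have hs2 : Real.log (72 * (cm * Real.exp 4)) / (ε * em) ≤ s := (le_max_right _ _).trans hσ
  have hs1' : 1 ≤ (1 - ε) * s := by
    rw [div_le_iff₀ h1ε] at hs1
    linarith
  have hspos : 0 < s := lt_of_lt_of_le (by positivity) hs1
  have h72 : 72 * (cm * Real.exp 4) ≤ Real.exp (ε * em * s) := by
    rw [div_le_iff₀ (by positivity)] at hs2
    rw [← Real.log_le_iff_le_exp (by positivity)]
    linarith
  -- the bound for `s`
  have hsC : s ≤ C₀ * L := by
    have h4 := (hS G K k r S hcl (by omega) hSk).2.1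
    rw [← hs] at h4
    refine h4.trans ?_
    have h5 : Real.log ((k : ℝ) * (r : ℝ) ^ K.index) ≤ 2 * L := by
      rw [Real.log_mul hk0.ne' (by positivity), Real.log_pow]
      have h6 : (K.index : ℝ) * Real.log r ≤ (Jm : ℝ) * Real.log r :=
        mul_le_mul_of_nonneg_right hJ' (Real.log_nonneg hr1)
      linarith
    rw [div_le_iff₀ (by positivity)]
    refine h5.trans ?_
    have h7 : C₀ * L * (2 * (8 / ((r : ℝ) ^ 2 * (K.index : ℝ)))) =
        2 * L * ((Jm : ℝ) / (K.index : ℝ)) := by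
      rw [hC₀]
      field_simp
    rw [h7]
    have h8 : 1 ≤ (Jm : ℝ) / (K.index : ℝ) := by
      rw [le_div_iff₀ (by linarith)]
      linarith
    exact le_mul_of_one_le_right (by positivity) h8
  set t : ℝ := (1 - ε) * (s * (k : ℝ)) with ht
  have hkt : (k : ℝ) ≤ t := by
    calc (k : ℝ) = 1 * (k : ℝ) := (one_mul _).symm
      _ ≤ ((1 - ε) * s) * (k : ℝ) := mul_le_mul_of_nonneg_right hs1' hk0.le
      _ = t := by
          rw [ht]
          ring
  have htC : t ≤ C₀ * L * (k : ℝ) := by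
    have h4 : t ≤ s * (k : ℝ) := by
      rw [ht]
      have : 0 ≤ ε * (s * (k : ℝ)) := by positivity
      linarith
    exact h4.trans (mul_le_mul_of_nonneg_right hsC hk0.le)
  have ht0 : 0 < t := lt_of_lt_of_le hk0 hkt
  have hwin' : Real.exp (-((k : ℝ) ^ 2 / (8 * t))) ≤ e := by
    refine le_trans (Real.exp_le_exp.2 (neg_le_neg ?_)) hwin
    rw [div_le_div_iff₀ (by positivity) (by positivity)]
    calc (k : ℝ) * (8 * t) = 8 * (k : ℝ) * t := by ring
      _ ≤ 8 * (k : ℝ) * (C₀ * L * (k : ℝ)) := mul_le_mul_of_nonneg_left htC (by positivity)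
      _ = _ := by ring
  obtain ⟨W, hWn, hpW, hpW1, hWc⟩ := window hP1 hP2 k t e hk hkt hwin'
  obtain ⟨lam, c, X, hcC, hc1, hcn, hcard, hNC0, hNC, hcore⟩ :=
    core hS hB hC hE Jm r k ε hr hε hε1 G K hJ S hcl hSk hspos h72
  have hkL : (k : ℝ) ≤ (k : ℝ) * L := le_mul_of_one_le_right hk0.le hL1
  have hC₁e : C₁ * (k : ℝ) * L = C₀ * L * (k : ℝ) + (k : ℝ) * L := by
    rw [hC₁]
    ring
  have hnC : ∀ n ∈ W, (n : ℝ) ≤ C₁ * (k : ℝ) * L := by
    intro n hn
    have h4 := (abs_le.1 (hWn n hn)).2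
    linarith
  have hD : ∀ n ∈ W, c' * L ^ 3 ≤
      (k : ℝ) * Real.exp (-((n : ℝ) / (k : ℝ) * En c)) ^ 2 := by
    intro n hn
    exact (mul_le_mul_of_nonneg_left hlog hc'0.le).trans (hcore n (hWn n hn)).2
  have hfin := fin_asm hT G k t e ((C₁ * (k : ℝ) * L + 1) ^ (Jm ^ 2) *
    (4 * cm ^ Jm * Real.exp (-(c' * L ^ 3 / 72)))) W (fun Z n w =>
      (k : ℝ) * Real.exp (-((n : ℝ) / (k : ℝ) * En c)) / 3 ≤
        ‖∑ i, evc c (cnt (fun i => (Z i : G ⧸ K)) w i)‖) hk ht0.le he0.le ?_ ?_ ?_ hpW hpW1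
  · refine le_trans (mul_le_mul_of_nonneg_right ?_ (by positivity)) hfin
    linarith
  · intro Z n hn
    exact size hP h3 G K Jm r k n Z lam c hcC hc1 X _ (c' * L ^ 3) (C₁ * (k : ℝ) * L + 1) hk
      (by omega) hJ hcard hNC0 hNC (Real.exp_pos _).le (hcore n (hWn n hn)).1 (hD n hn)
      (by linarith [hnC n hn])
  · have h4 : (W.card : ℝ) ≤ C₁ * (k : ℝ) * L + 1 := by linarith
    have h6 : -(c' * L ^ 3 / 72) = -(c' / 72 * L ^ 3) := by ring
    rw [h6]
    calc (W.card : ℝ) * ((C₁ * (k : ℝ) * L + 1) ^ (Jm ^ 2) *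
          (4 * cm ^ Jm * Real.exp (-(c' / 72 * L ^ 3))))
        ≤ (C₁ * (k : ℝ) * L + 1) * ((C₁ * (k : ℝ) * L + 1) ^ (Jm ^ 2) *
          (4 * cm ^ Jm * Real.exp (-(c' / 72 * L ^ 3)))) :=
          mul_le_mul_of_nonneg_right h4 (by positivity)
      _ = (C₁ * (k : ℝ) * L + 1) ^ (Jm ^ 2 + 1) *
          (4 * cm ^ Jm * Real.exp (-(c' / 72 * L ^ 3))) := by
          rw [pow_succ]
          ring
      _ ≤ e := hpoly
  · intro n hn
    have h4 := hLT k hk₁ (G ⧸ K) (by rw [hJc]; exact hJ) n (hnC n hn) c hcn (by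
      refine le_trans ?_ (hD n hn)
      rw [div_le_iff₀ hc'0] at hLM
      have h5 : L ≤ L ^ 3 := le_self_pow₀ hL1 (by norm_num)
      calc M₀ ≤ L * c' := hLM
        _ ≤ L ^ 3 * c' := mul_le_mul_of_nonneg_right h5 hc'0.le
        _ = _ := mul_comm _ _)
    have h5 := badw hPu G K k n e hk (fun z w => ‖∑ i, evc c (cnt z w i)‖ <
      (k : ℝ) * Real.exp (-((n : ℝ) / (k : ℝ) * En c)) / 3) h4
    simpa only [not_le] using h5

end NilCut
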