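import Pool.Agent.Lib.MP_4ddf81_pr.Stm3
import Pool.Agent.Lib.MP_4ddf81_pr.P.Dual2

/-!
# MP_4ddf81_pr, stage 3 : the index of `MS`   (helper13)
-/

namespace NilCut

namespace MSiP

open scoped commutatorElement

theorem zpow_ap {M N : Type} [Group M] [CommGroup N] (f : M →* N) (n : ℤ) (x : M) :
    (f ^ n) x = f x ^ n := by
  cases n with
  | ofNat n => simp
  | negSucc n => simp

theorem comm_bot {A : Type} [CommGroup A] (B : Subgroup A) : commutator A ≤ B := by
  rw [commutator_def, Subgroup.commutator_le]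
  intro g _ h _
  have : ⁅g, h⁆ = 1 := by
    rw [commutatorElement_eq_one_iff_mul_comm]
    exact mul_comm _ _
  rw [this]
  exact B.one_mem

theorem phi_ap {G : Type} [Group G] (K : Subgroup G) [K.Normal] [Fintype (G ⧸ K)]
    (δ : G ⧸ K → ℤ) (lam : K →* ℂˣ) (κ : K) :
    Abelianization.lift lam (phiH K δ κ) =
      ∏ a : G ⧸ K, (lam (MulAut.conjNormal (Quotient.out a) κ)) ^ (δ a) := by
  rw [phiH, MonoidHom.finsetProd_apply, map_prod]
  refine Finset.prod_congr rfl fun a _ => ?_
  rw [zpow_ap, map_zpow]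
  rfl

end MSiP

open MSiP in
theorem p_MSi (_hF : S_FinC) : S_MSi := by
  intro G _ _ K _ _ C S hS
  classical
  have hd := (p_Dual2 (Abelianization K) (MS K S) (comm_bot _)).2
  rw [← hd]
  have : Finite (Abelianization K →* ℂˣ) := (_hF (Abelianization K)).1
  have key : ∀ lam : K →* ℂˣ, CF K lam = C → ∀ a ∈ MS K S, Abelianization.lift lam a = 1 := by
    intro lam hlam a ha
    have h1 : MS K S ≤ (Abelianization.lift lam).ker := by
      unfold MS
      refine iSup₂_le fun δ hδ => ?_
      rintro _ ⟨κ, rfl⟩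
      rw [MonoidHom.mem_ker, phi_ap]
      have h2 : cf K lam κ ∈ C := by
        rw [← hlam, CF, Set.Finite.mem_toFinset]
        exact ⟨κ, rfl⟩
      have h3 := hS δ hδ _ h2
      ext
      rw [Units.coe_prod, Units.val_one, ← h3]
      refine Finset.prod_congr rfl fun x _ => ?_
      rw [Units.val_zpow_eq_zpow_val]
      rfl
    exact h1 ha
  refine Nat.card_le_card_of_injective
    (fun l : {lam : K →* ℂˣ // CF K lam = C} =>
      (⟨Abelianization.lift l.1, key l.1 l.2⟩ :
        {l : Abelianization K →* ℂˣ // ∀ a ∈ MS K S, l a = 1})) ?_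
  intro l l' h
  have h1 : Abelianization.lift l.1 = Abelianization.lift l'.1 := congrArg Subtype.val h
  exact Subtype.ext (Abelianization.lift.injective h1)

end NilCut
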