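import Pool.Agent.Lib.MP_4ddf81_pr.Stm3

/-!
# MP_4ddf81_pr, stage 3 : the theorem
-/

namespace NilCut

open Filter Topology

namespace Main3P

open Main2

/-- Stage 2 in terms of the expected distance and the mixing time. -/
theorem stage2 (hM : S_Main) (hA : S_Anti) (hT2 : S_T2) (hP1 : S_P1) (hD : S_Dich)
    (hF : S_Fast) (hS : S_Slow) (G : ℕ → Type) [∀ n, Group (G n)] [∀ n, Fintype (G n)]
    (k : ℕ → ℕ) (C₀ δ : ℝ) (hδ : 0 < δ) (hnil : ∀ n, Group.IsNilpotent (G n))
    (hcard : Tendsto (fun n => (Nat.card (G n) : ℝ)) atTop atTop)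
    (hsmall : Tendsto (fun n => Real.log (k n) / Real.log (Nat.card (G n))) atTop (𝓝 0))
    (hlog : ∀ᶠ n in atTop, Real.log (Nat.card (G n)) ≤ C₀ * (k n : ℝ))
    (hgen : ∀ᶠ n in atTop, ∃ S : Finset (G n), Subgroup.closure (S : Set (G n)) = ⊤ ∧
      (S.card : ℝ) ≤ (1 - δ) * (k n : ℝ)) :
    (∀ ε : ℝ, 0 < ε → ε < 1 →
      Tendsto (fun n => Eav (G n) (k n) ((1 - ε) * tMix (G n) (k n))) atTop (𝓝 1)) ∧
    (∀ ε : ℝ, 0 < ε →
      Tendsto (fun n => Eav (G n) (k n) ((1 + ε) * tMix (G n) (k n))) atTop (𝓝 0)) := by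
  classical
  -- a positive constant
  set C : ℝ := max C₀ 1 with hC
  have hC0 : 0 < C := lt_of_lt_of_le one_pos (le_max_right _ _)
  have hlogC : ∀ᶠ n in atTop, Real.log (Nat.card (G n)) ≤ C * (k n : ℝ) := by
    filter_upwards [hlog] with n hn
    refine le_trans hn (mul_le_mul_of_nonneg_right (le_max_left _ _) (Nat.cast_nonneg _))
  have hlogt : Tendsto (fun n => Real.log (Nat.card (G n))) atTop atTop :=
    Real.tendsto_log_atTop.comp hcard
  have hk : Tendsto (fun n => (k n : ℝ)) atTop atTop := by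
    have h1 : Tendsto (fun n => Real.log (Nat.card (G n)) / C) atTop atTop :=
      hlogt.atTop_div_const hC0
    refine tendsto_atTop_mono' atTop ?_ h1
    filter_upwards [hlogC] with n hn
    rw [div_le_iff₀ hC0]
    linarith
  have hkN : Tendsto k atTop atTop := tendsto_natCast_atTop_iff.1 hk
  have hk0 : ∀ᶠ n in atTop, 0 < k n := hkN.eventually (eventually_gt_atTop 0)
  -- the main claim along subsequences
  have key : ∀ ns : ℕ → ℕ, Tendsto ns atTop atTop → ∃ ms : ℕ → ℕ,
      (∀ ε : ℝ, 0 < ε → ε < 1 → Tendsto (fun n => Eav (G (ns (ms n))) (k (ns (ms n)))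
        ((1 - ε) * tMix (G (ns (ms n))) (k (ns (ms n))))) atTop (𝓝 1)) ∧
      (∀ ε : ℝ, 0 < ε → Tendsto (fun n => Eav (G (ns (ms n))) (k (ns (ms n)))
        ((1 + ε) * tMix (G (ns (ms n))) (k (ns (ms n))))) atTop (𝓝 0)) := by
    intro ns hns
    by_cases hB : ∃ c : ℝ, 0 < c ∧ ∀ᶠ j in atTop, ∀ m : ℕ, (m : ℝ) ≤ c * (k (ns j) : ℝ) →
        ¬ good (G (ns j)) (k (ns j)) m
    · obtain ⟨c, hc, hgood⟩ := hB
      refine ⟨fun n => n, ?_⟩
      exact caseB hA hT2 hP1 hD hF hS (fun j => G (ns j)) (fun j => k (ns j)) C δ c hC0 hδ hc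
        (fun n => hnil _) (hk.comp hns) (hns.eventually hlogC) (hns.eventually hgen) hgood
    · push Not at hB
      have hex : ∀ i : ℕ, ∃ j : ℕ, i ≤ j ∧ ∃ m : ℕ, (m : ℝ) ≤ 1 / ((i : ℝ) + 1) * (k (ns j) : ℝ) ∧
          good (G (ns j)) (k (ns j)) m := by
        intro i
        have h1 := hB (1 / ((i : ℝ) + 1)) (by positivity)
        obtain ⟨j, hj1, hj2⟩ := (h1.and_eventually (eventually_ge_atTop i)).exists
        exact ⟨j, hj2, hj1⟩
      choose ms hms1 hms2 using hex
      have hmst : Tendsto ms atTop atTop := tendsto_atTop_mono hms1 tendsto_id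
      have hnm : Tendsto (fun i => ns (ms i)) atTop atTop := hns.comp hmst
      refine ⟨ms, ?_⟩
      have hgoodN : ∀ i, good (G (ns (ms i))) (k (ns (ms i)))
          (nStar (G (ns (ms i))) (k (ns (ms i)))) := by
        intro i
        obtain ⟨m, _, hm⟩ := hms2 i
        exact Nat.sInf_mem (s := {n | good (G (ns (ms i))) (k (ns (ms i))) n}) ⟨m, hm⟩
      have hNle : ∀ i, (nStar (G (ns (ms i))) (k (ns (ms i))) : ℝ) ≤
          1 / ((i : ℝ) + 1) * (k (ns (ms i)) : ℝ) := by
        intro i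
        obtain ⟨m, hm1, hm⟩ := hms2 i
        have h1 : nStar (G (ns (ms i))) (k (ns (ms i))) ≤ m :=
          Nat.sInf_le (s := {n | good (G (ns (ms i))) (k (ns (ms i))) n}) hm
        exact le_trans (by exact_mod_cast h1) hm1
      have hNpos : ∀ i, (0 : ℝ) < (nStar (G (ns (ms i))) (k (ns (ms i))) : ℝ) := by
        intro i
        exact_mod_cast (hgoodN i).1
      have hreg : Reg (fun i => G (ns (ms i))) (fun i => k (ns (ms i))) := by
        refine ⟨hcard.comp hnm, hsmall.comp hnm, Eventually.of_forall hgoodN, ?_⟩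
        refine tendsto_atTop_mono (f := fun i : ℕ => (i : ℝ) + 1) ?_
          (tendsto_atTop_add_const_right _ _ tendsto_natCast_atTop_atTop)
        intro i
        rw [le_div_iff₀ (hNpos i)]
        have h1 := hNle i
        have h2 : (0 : ℝ) < (i : ℝ) + 1 := by positivity
        calc ((i : ℝ) + 1) * (nStar (G (ns (ms i))) (k (ns (ms i))) : ℝ) ≤
              ((i : ℝ) + 1) * (1 / ((i : ℝ) + 1) * (k (ns (ms i)) : ℝ)) :=
              mul_le_mul_of_nonneg_left h1 h2.le
          _ = (k (ns (ms i)) : ℝ) := by field_simp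
      obtain ⟨hlow, hup⟩ := hM (fun i => G (ns (ms i))) (fun i => k (ns (ms i)))
        (fun i => hnil _) hreg
      exact caseA hA (fun i => G (ns (ms i))) (fun i => k (ns (ms i)))
        (fun i => (nStar (G (ns (ms i))) (k (ns (ms i))) : ℝ)) (hnm.eventually hk0)
        (Eventually.of_forall hNpos) hlow hup
  refine ⟨fun ε hε hε1 => ?_, fun ε hε => ?_⟩
  · apply tendsto_of_subseq_tendsto
    intro ns hns
    obtain ⟨ms, h2, _⟩ := key ns hns
    exact ⟨ms, h2 ε hε hε1⟩
  · apply tendsto_of_subseq_tendsto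
    intro ns hns
    obtain ⟨ms, _, h2⟩ := key ns hns
    exact ⟨ms, h2 ε hε⟩

/-- From a time to the mixing time. -/
theorem to_tMix (hA : S_Anti) {G : Type} [Group G] [Fintype G] {k : ℕ} (hk : 0 < k)
    (s ε η : ℝ) (hs : 0 ≤ s) (hε : 0 < ε) (hε1 : ε < 1) (hη : η ≤ 1 / 4)
    (h1 : 1 - η ≤ Eav G k ((1 - ε / 4) * s)) (h2 : Eav G k ((1 + ε / 4) * s) ≤ η) :
    1 - η ≤ Eav G k ((1 - ε) * tMix G k) ∧ Eav G k ((1 + ε) * tMix G k) ≤ η := by
  have ht : 0 ≤ (1 + ε / 4) * s := mul_nonneg (by linarith) hs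
  have h3 : (1 - ε / 4) * s ≤ tMix G k := le_tMix hA hk ht (by linarith) (by linarith)
  have h4 : tMix G k ≤ (1 + ε / 4) * s := tMix_le ht (by linarith)
  have h0 : 0 ≤ tMix G k := tMix_nonneg
  constructor
  · refine le_trans h1 (Eav_anti hA hk (mul_nonneg (by linarith) h0) ?_)
    calc (1 - ε) * tMix G k ≤ (1 - ε) * ((1 + ε / 4) * s) :=
          mul_le_mul_of_nonneg_left h4 (by linarith)
      _ = ((1 - ε) * (1 + ε / 4)) * s := by ring
      _ ≤ (1 - ε / 4) * s := mul_le_mul_of_nonneg_right (by nlinarith) hs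
  · refine le_trans (Eav_anti hA hk ht ?_) h2
    calc (1 + ε / 4) * s ≤ ((1 + ε) * (1 - ε / 4)) * s :=
          mul_le_mul_of_nonneg_right (by nlinarith) hs
      _ = (1 + ε) * ((1 - ε / 4) * s) := by ring
      _ ≤ (1 + ε) * tMix G k := mul_le_mul_of_nonneg_left h3 (by linarith)

/-- The prime is two. -/
theorem prime_two (p d k a : ℕ) (hp : p.Prime) (hk : 0 < k) (hd : 3 / 4 * (k : ℝ) < (d : ℝ))
    (ha : p ^ d ≤ a) (hk2 : Real.logb 2 a ≤ (k : ℝ)) : p = 2 := by
  by_contra hne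
  have hp3 : 3 ≤ p := by
    have := hp.two_le
    omega
  have h1 : (3 : ℝ) ^ d ≤ (a : ℝ) := by
    have : 3 ^ d ≤ a := le_trans (Nat.pow_le_pow_left hp3 d) ha
    exact_mod_cast this
  have ha0 : (0 : ℝ) < (a : ℝ) := lt_of_lt_of_le (by positivity) h1
  have h2 : (d : ℝ) * Real.log 3 ≤ (k : ℝ) * Real.log 2 := by
    have h3 := Real.log_le_log (by positivity) h1
    rw [Real.log_pow] at h3
    have h4 : Real.log a ≤ (k : ℝ) * Real.log 2 := by
      rw [Real.logb, div_le_iff₀ (Real.log_pos (by norm_num))] at hk2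
      exact hk2
    linarith
  have h5 : 4 * Real.log 2 < 3 * Real.log 3 := by
    have h6 : Real.log ((2 : ℝ) ^ 4) < Real.log ((3 : ℝ) ^ 3) :=
      Real.log_lt_log (by norm_num) (by norm_num)
    rw [Real.log_pow, Real.log_pow] at h6
    push_cast at h6
    exact h6
  have hk0 : (0 : ℝ) < (k : ℝ) := by exact_mod_cast hk
  have h7 : 0 < Real.log 3 := Real.log_pos (by norm_num)
  nlinarith [mul_lt_mul_of_pos_right hd h7, mul_lt_mul_of_pos_left h5 hk0]

end Main3P

open Main2 Main3P in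
/-- The theorem of stage 3. -/
theorem p_Main3 (hM : S_Main) (hA : S_Anti) (hT2 : S_T2) (hP1 : S_P1) (hD : S_Dich)
    (hF : S_Fast) (hSl : S_Slow) (hSat : S_Sat) (hR : S_Rank) : S_Main3 := by
  classical
  intro G _ _ k C₀ hnil hcard hsmall hlogb hlog
  -- a positive constant
  set C : ℝ := max C₀ 1 with hC
  have hC0 : 0 < C := lt_of_lt_of_le one_pos (le_max_right _ _)
  have hlogC : ∀ᶠ n in atTop, Real.log (Nat.card (G n)) ≤ C * (k n : ℝ) := by
    filter_upwards [hlog] with n hn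
    refine le_trans hn (mul_le_mul_of_nonneg_right (le_max_left _ _) (Nat.cast_nonneg _))
  have hab : ∀ n, 0 ≤ Real.logb 2 (Nat.card (Abelianization (G n))) := by
    intro n
    apply Real.logb_nonneg (by norm_num)
    have : Finite (Abelianization (G n)) := inferInstance
    exact_mod_cast Nat.card_pos
  have hk : Tendsto (fun n => (k n : ℝ)) atTop atTop := by
    refine tendsto_atTop_mono (fun n => ?_) hlogb
    linarith [hab n]
  have hkN : Tendsto k atTop atTop := tendsto_natCast_atTop_iff.1 hk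
  have hk0 : ∀ᶠ n in atTop, 0 < k n := hkN.eventually (eventually_gt_atTop 0)
  -- the claim
  have key : ∀ ε : ℝ, 0 < ε → ε < 1 → ∀ η : ℝ, 0 < η → ∀ᶠ n in atTop,
      1 - η ≤ Eav (G n) (k n) ((1 - ε) * tMix (G n) (k n)) ∧
        Eav (G n) (k n) ((1 + ε) * tMix (G n) (k n)) ≤ η := by
    intro ε hε hε1 η hη
    set η' : ℝ := min η (1 / 4) with hη'
    have hη'0 : 0 < η' := lt_min hη (by norm_num)
    have hη'a : η' ≤ η := min_le_left _ _
    have hη'b : η' ≤ 1 / 4 := min_le_right _ _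
    obtain ⟨δ₀, ω₀, k₀, hδ₀, hS⟩ := hSat C (ε / 4) η' hC0 (by positivity) (by linarith) hη'0
    set δ : ℝ := min δ₀ (1 / 4) with hδ
    have hδ0 : 0 < δ := lt_min hδ₀ (by norm_num)
    have hδa : δ ≤ δ₀ := min_le_left _ _
    have hδb : δ ≤ 1 / 4 := min_le_right _ _
    -- the saturated indices
    have hsat : ∀ᶠ n in atTop, (¬ ∃ S : Finset (G n), Subgroup.closure (S : Set (G n)) = ⊤ ∧
        (S.card : ℝ) ≤ (1 - δ) * (k n : ℝ)) →
        1 - η ≤ Eav (G n) (k n) ((1 - ε) * tMix (G n) (k n)) ∧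
          Eav (G n) (k n) ((1 + ε) * tMix (G n) (k n)) ≤ η := by
      filter_upwards [hk0, hkN.eventually (eventually_ge_atTop k₀), hlogC,
        hlogb.eventually (eventually_ge_atTop (ω₀ : ℝ))] with n hkn hkk hlogn hω hno
      obtain ⟨p, S, hp, hS1, hS2, hS3⟩ := hR (G n) (hnil n)
      have hkr : (0 : ℝ) < (k n : ℝ) := by exact_mod_cast hkn
      have hcardS : (1 - δ) * (k n : ℝ) < (S.card : ℝ) := by
        by_contra h
        exact hno ⟨S, hS1, not_lt.1 h⟩
      have hSk : 3 / 4 * (k n : ℝ) < (S.card : ℝ) := by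
        refine lt_of_le_of_lt ?_ hcardS
        apply mul_le_mul_of_nonneg_right _ hkr.le
        linarith
      have hω0 : (0 : ℝ) ≤ (ω₀ : ℝ) := Nat.cast_nonneg _
      have hp2 : p = 2 := prime_two p S.card (k n) _ hp hkn hSk (le_trans hS2 hS3)
        (by linarith)
      subst hp2
      have hSω : S.card + ω₀ ≤ k n := by
        have h1 : (2 : ℝ) ^ S.card ≤ (Nat.card (Abelianization (G n)) : ℝ) := by
          exact_mod_cast le_trans hS2 hS3
        have h2 := Real.log_le_log (by positivity) h1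
        rw [Real.log_pow] at h2
        have hl2 : 0 < Real.log 2 := Real.log_pos (by norm_num)
        have h3 : Real.log (Nat.card (Abelianization (G n))) ≤
            ((k n : ℝ) - ω₀) * Real.log 2 := by
          have h4 : Real.logb 2 (Nat.card (Abelianization (G n))) ≤ (k n : ℝ) - ω₀ := by
            linarith
          rw [Real.logb, div_le_iff₀ hl2] at h4
          exact h4
        have h5 : (S.card : ℝ) ≤ (k n : ℝ) - ω₀ := le_of_mul_le_mul_right (le_trans h2 h3) hl2
        have h6 : (S.card : ℝ) + (ω₀ : ℝ) ≤ (k n : ℝ) := by linarith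
        exact_mod_cast h6
      obtain ⟨s, hs0, hs1, hs2⟩ := hS (k n) hkk (G n) (hnil n) hlogn S hS1 hS2 hSω (by
        refine le_trans ?_ hcardS.le
        apply mul_le_mul_of_nonneg_right _ hkr.le
        linarith)
      have h1 : 1 - η' ≤ Eav (G n) (k n) ((1 - ε / 4) * s) := by
        unfold Eav
        rw [le_div_iff₀ (card_pos' _)]
        exact hs1
      have h2 : Eav (G n) (k n) ((1 + ε / 4) * s) ≤ η' := by
        unfold Eav
        rw [div_le_iff₀ (card_pos' _)]
        exact hs2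
      have h3 := to_tMix hA hkn s ε η' hs0 hε hε1 hη'b h1 h2
      exact ⟨le_trans (by linarith) h3.1, le_trans h3.2 hη'a⟩
    by_contra hcon
    have hfr : ∃ᶠ n in atTop, ¬ (1 - η ≤ Eav (G n) (k n) ((1 - ε) * tMix (G n) (k n)) ∧
        Eav (G n) (k n) ((1 + ε) * tMix (G n) (k n)) ≤ η) := not_eventually.1 hcon
    obtain ⟨φ, hφ, hφP⟩ := extraction_of_frequently_atTop (hfr.and_eventually hsat)
    have hφt := hφ.tendsto_atTop
    have hgen : ∀ j, ∃ S : Finset (G (φ j)), Subgroup.closure (S : Set (G (φ j))) = ⊤ ∧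
        (S.card : ℝ) ≤ (1 - δ) * (k (φ j) : ℝ) := by
      intro j
      by_contra h
      exact (hφP j).1 ((hφP j).2 h)
    obtain ⟨h1, h2⟩ := stage2 hM hA hT2 hP1 hD hF hSl (fun j => G (φ j)) (fun j => k (φ j)) C δ
      hδ0 (fun j => hnil _) (hcard.comp hφt) (hsmall.comp hφt) (hφt.eventually hlogC)
      (Eventually.of_forall hgen)
    have h3 := (tendsto_order.1 (h1 ε hε hε1)).1 (1 - η) (by linarith)
    have h4 := (tendsto_order.1 (h2 ε hε)).2 η hη
    obtain ⟨j, hj1, hj2⟩ := (h3.and h4).exists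
    exact (hφP j).1 ⟨hj1.le, hj2.le⟩
  refine ⟨fun n => tMix (G n) (k n), ?_, ?_⟩
  · intro ε hε hε1 δ' hδ'
    apply tends_one
    · exact Eventually.of_forall fun n => prob_le_one _ _
    · intro η hη
      filter_upwards [key ε hε hε1 (η * δ') (by positivity), hk0] with n hn hkn
      have h4 := prob_low (G := G n) hA hkn
        (show 0 ≤ (1 - ε) * tMix (G n) (k n) from mul_nonneg (by linarith) tMix_nonneg) hδ'
      refine le_trans ?_ h4
      have h5 : (1 - Eav (G n) (k n) ((1 - ε) * tMix (G n) (k n))) / δ' ≤ η := by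
        rw [div_le_iff₀ hδ']
        linarith [hn.1]
      linarith
  · intro ε hε δ' hδ'
    apply tends_one
    · exact Eventually.of_forall fun n => prob_le_one _ _
    · intro η hη
      have hε' : 0 < min ε (1 / 2) := lt_min hε (by norm_num)
      filter_upwards [key (min ε (1 / 2)) hε' (lt_of_le_of_lt (min_le_right _ _) (by norm_num))
        (η * δ') (by positivity), hk0] with n hn hkn
      have h4 := prob_up (G := G n) hA hkn
        (show 0 ≤ (1 + ε) * tMix (G n) (k n) from mul_nonneg (by linarith) tMix_nonneg) hδ'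
      refine le_trans ?_ h4
      have h5 : Eav (G n) (k n) ((1 + ε) * tMix (G n) (k n)) / δ' ≤ η := by
        rw [div_le_iff₀ hδ']
        refine le_trans (Eav_anti hA hkn (mul_nonneg (by linarith) tMix_nonneg) ?_) hn.2
        exact mul_le_mul_of_nonneg_right (by linarith [min_le_left ε (1 / 2)]) tMix_nonneg
      linarith

end NilCut
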