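import Pool.Agent.Lib.MP_4ddf81_pr.Stm3

/-! # MP_4ddf81_pr, stage 3, piece MaxNL (helper15): a maximal subgroup not containing
`[K, K]`. -/

namespace NilCut

namespace MaxNLP

/-- a root of unity of order `p` -/
theorem exists_root (p : ℕ) (hp : p.Prime) : ∃ ζ : ℂˣ, orderOf ζ = p := by
  have h := Complex.isPrimitiveRoot_exp p hp.ne_zero
  refine ⟨Units.mk0 _ (Complex.exp_ne_zero (2 * Real.pi * Complex.I / p)), ?_⟩
  rw [← orderOf_units, Units.val_mk0]
  exact h.eq_orderOf.symm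

/-- a faithful linear character of a cyclic subgroup -/
theorem exists_faithful {Q : Type} [Group Q] (x : Q) (p : ℕ) (hp : p.Prime)
    (hx : orderOf x = p) :
    ∃ m : Subgroup.zpowers x →* ℂˣ, Function.Injective m := by
  obtain ⟨ζ, hζ⟩ := exists_root p hp
  have hg : ∀ y : Subgroup.zpowers x, y ∈ Subgroup.zpowers
      (⟨x, Subgroup.mem_zpowers x⟩ : Subgroup.zpowers x) := by
    rintro ⟨y, hy⟩
    obtain ⟨n, rfl⟩ := Subgroup.mem_zpowers_iff.1 hy
    exact Subgroup.mem_zpowers_iff.2 ⟨n, Subtype.ext (by simp)⟩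
  have hg' : ∀ y : Subgroup.zpowers ζ, y ∈ Subgroup.zpowers
      (⟨ζ, Subgroup.mem_zpowers ζ⟩ : Subgroup.zpowers ζ) := by
    rintro ⟨y, hy⟩
    obtain ⟨n, rfl⟩ := Subgroup.mem_zpowers_iff.1 hy
    exact Subgroup.mem_zpowers_iff.2 ⟨n, Subtype.ext (by simp)⟩
  have ho : orderOf (⟨x, Subgroup.mem_zpowers x⟩ : Subgroup.zpowers x) =
      orderOf (⟨ζ, Subgroup.mem_zpowers ζ⟩ : Subgroup.zpowers ζ) := by
    rw [Subgroup.orderOf_mk, Subgroup.orderOf_mk, hx, hζ]
  refine ⟨(Subgroup.zpowers ζ).subtype.comp (mulEquivOfOrderOfEq hg hg' ho).toMonoidHom, ?_⟩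
  exact (Subgroup.subtype_injective _).comp (mulEquivOfOrderOfEq hg hg' ho).injective

/-- an overgroup of prime index in the normalizer with a linear character -/
theorem exists_over {G : Type} [Group G] [Finite G] (P : Subgroup G)
    (hP : P < Subgroup.normalizer (P : Set G)) :
    ∃ (P₁ : Subgroup G) (lam : P₁ →* ℂˣ) (p : ℕ), p.Prime ∧ P < P₁ ∧ lam ^ p = 1 ∧
      (∀ x : P₁, (x : G) ∈ P ↔ lam x = 1) ∧ P.index = p * P₁.index := by
  classical
  set N := Subgroup.normalizer (P : Set G) with hN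
  have hPN : P ≤ N := hP.le
  have hnorm : (P.subgroupOf N).Normal := Subgroup.normal_in_normalizer
  set Q := N ⧸ P.subgroupOf N with hQ
  have hnt : Nontrivial Q := by
    rw [hQ, QuotientGroup.nontrivial_iff]
    intro h
    rw [Subgroup.subgroupOf_eq_top] at h
    exact absurd h (not_le_of_gt hP)
  have hcard : Nat.card Q ≠ 1 := by
    intro h
    have := Finite.one_lt_card (α := Q)
    omega
  obtain ⟨p, hp, hpd⟩ := Nat.exists_prime_and_dvd hcard
  haveI : Fact p.Prime := ⟨hp⟩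
  obtain ⟨x, hx⟩ := exists_prime_orderOf_dvd_card' p hpd
  obtain ⟨m, hm⟩ := exists_faithful x p hp hx
  let π : N →* Q := QuotientGroup.mk' (P.subgroupOf N)
  let P₁' : Subgroup N := (Subgroup.zpowers x).comap π
  let P₁ : Subgroup G := P₁'.map N.subtype
  have hP₁N : P₁ ≤ N := by
    rintro _ ⟨n, -, rfl⟩
    exact n.2
  have hmem : ∀ (g : G) (hg : g ∈ N), g ∈ P₁ ↔ π ⟨g, hg⟩ ∈ Subgroup.zpowers x := by
    intro g hg
    constructor
    · rintro ⟨n, hn, hng⟩
      have : (⟨g, hg⟩ : N) = n := Subtype.ext hng.symm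
      rw [this]
      exact hn
    · intro h
      exact ⟨⟨g, hg⟩, h, rfl⟩
  let φ : P₁ →* Q := π.comp (Subgroup.inclusion hP₁N)
  have hφr : ∀ y, φ y ∈ Subgroup.zpowers x := fun y => (hmem y (hP₁N y.2)).1 y.2
  have hφ1 : ∀ y : P₁, (y : G) ∈ P ↔ φ y = 1 := by
    intro y
    change _ ↔ (QuotientGroup.mk' (P.subgroupOf N)) (Subgroup.inclusion hP₁N y) = 1
    rw [QuotientGroup.mk'_apply, QuotientGroup.eq_one_iff, Subgroup.mem_subgroupOf]
    rfl
  let lam : P₁ →* ℂˣ := m.comp (φ.codRestrict (Subgroup.zpowers x) hφr)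
  have hlam1 : ∀ y : P₁, lam y = 1 ↔ φ y = 1 := by
    intro y
    change m (φ.codRestrict (Subgroup.zpowers x) hφr y) = 1 ↔ _
    rw [← map_one m, hm.eq_iff, ← Subtype.coe_inj]
    rfl
  have hrange : φ.range = Subgroup.zpowers x := by
    apply le_antisymm
    · rintro _ ⟨y, rfl⟩
      exact hφr y
    · rw [Subgroup.zpowers_le]
      obtain ⟨n, hn⟩ := QuotientGroup.mk'_surjective (P.subgroupOf N) x
      have hnP : (n : G) ∈ P₁ := (hmem n n.2).2 (by
        change (QuotientGroup.mk' (P.subgroupOf N)) n ∈ _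
        rw [hn]
        exact Subgroup.mem_zpowers x)
      exact ⟨⟨n, hnP⟩, hn⟩
  have hPP : P ≤ P₁ := by
    intro g hg
    rw [hmem g (hPN hg)]
    have : π ⟨g, hPN hg⟩ = 1 := by
      change (QuotientGroup.mk' (P.subgroupOf N)) ⟨g, hPN hg⟩ = 1
      rw [QuotientGroup.mk'_apply, QuotientGroup.eq_one_iff, Subgroup.mem_subgroupOf]
      exact hg
    rw [this]
    exact Subgroup.one_mem _
  have hker : φ.ker = P.subgroupOf P₁ := by
    ext y
    rw [MonoidHom.mem_ker, Subgroup.mem_subgroupOf]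
    exact (hφ1 y).symm
  have hidx : P.relIndex P₁ = p := by
    unfold Subgroup.relIndex
    rw [← hker, Subgroup.index_ker, hrange, Nat.card_zpowers, hx]
  refine ⟨P₁, lam, p, hp, ?_, ?_, ?_, ?_⟩
  · refine lt_of_le_of_ne hPP ?_
    intro h
    rw [← h, Subgroup.relIndex_self] at hidx
    exact hp.ne_one hidx.symm
  · ext1 y
    have h1 : (φ y) ^ p = 1 := by
      obtain ⟨n, hn⟩ := Subgroup.mem_zpowers_iff.1 (hφr y)
      rw [← hn, ← zpow_natCast, ← zpow_mul, mul_comm, zpow_mul, zpow_natCast, ← hx,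
        pow_orderOf_eq_one, one_zpow]
    rw [MonoidHom.pow_apply, ← map_pow, MonoidHom.one_apply, hlam1, map_pow, h1]
  · intro y
    rw [hφ1, hlam1]
  · rw [← Subgroup.relIndex_mul_index hPP, hidx]

end MaxNLP

open MaxNLP in
theorem p_MaxNL : S_MaxNL := by
  intro G _ _ hnil K P hK hPK hKP
  obtain ⟨P', hPP', hmax⟩ := Finite.exists_le_maximal (p := fun Q : Subgroup G => ¬ ⁅K, K⁆ ≤ Q)
    hKP
  have htop : P' < ⊤ := by
    rw [lt_top_iff_ne_top]
    intro h
    apply hmax.prop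
    rw [h]
    exact le_top
  have hn : P' < Subgroup.normalizer (P' : Set G) :=
    Group.normalizerCondition_of_isNilpotent P' htop
  obtain ⟨P₁, lam, p, hp, hlt, h1, h2, h3⟩ := exists_over P' hn
  refine ⟨P', hPP', hmax.prop, ?_, P₁, lam, p, hp, hlt.le, ?_, h1, h2, h3⟩
  · rw [eq_top_iff, ← hPK]
    exact sup_le_sup_right hPP' K
  · by_contra hc
    exact absurd (hmax.le_of_ge hc hlt.le) (not_le_of_gt hlt)

end NilCut
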