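import Pool.Agent.Lib.MP_4ddf81_pr.Stm3

/-!
# MP_4ddf81_pr : piece MuA

Every induced character contains an irreducible character of small degree.
-/

namespace NilCut

open Matrix

namespace MuAP

section

variable {G : Type} [Group G] [Fintype G]

theorem conj_unit {H : Type} [Group H] [Finite H] (lam : H →* ℂˣ) (u : H) :
    (starRingEnd ℂ) ((lam u : ℂˣ) : ℂ) = (((lam u)⁻¹ : ℂˣ) : ℂ) := by
  have h : ((lam u : ℂˣ) : ℂ) ^ Nat.card H = 1 := by
    rw [← Units.val_pow_eq_pow_val, ← map_pow, pow_card_eq_one', map_one, Units.val_one]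
  have h1 : ‖((lam u : ℂˣ) : ℂ)‖ = 1 := Complex.norm_eq_one_of_pow_eq_one h Nat.card_pos.ne'
  rw [Units.val_inv_eq_inv_val, Complex.inv_eq_conj h1]

open Classical in
/-- the extension of a linear character by zero -/
noncomputable def ez (U : Subgroup G) (lam : U →* ℂˣ) (g : G) : ℂ :=
  if h : g ∈ U then ((lam ⟨g, h⟩ : ℂˣ) : ℂ) else 0

theorem ind_sum (U : Subgroup G) (lam : U →* ℂˣ) (χ : G → ℂ) (hχ : ∀ g y, χ (y * g * y⁻¹) = χ g) :
    ∑ g : G, indL U lam g * (starRingEnd ℂ) (χ g) =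
      ((Nat.card G : ℂ) / (Nat.card U : ℂ)) * ∑ g : G, ez U lam g * (starRingEnd ℂ) (χ g) := by
  classical
  have h1 : ∀ g : G, indL U lam g = (1 / (Nat.card U : ℂ)) * ∑ y : G, ez U lam (y⁻¹ * g * y) :=
    fun g => rfl
  have h2 : ∀ y : G, ∑ g : G, ez U lam (y⁻¹ * g * y) * (starRingEnd ℂ) (χ g) =
      ∑ g : G, ez U lam g * (starRingEnd ℂ) (χ g) := by
    intro y
    refine Fintype.sum_equiv (MulAut.conj y⁻¹).toEquiv _ _ fun g => ?_
    have e : (MulAut.conj y⁻¹).toEquiv g = y⁻¹ * g * y := by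
      change MulAut.conj y⁻¹ g = _
      rw [MulAut.conj_apply, inv_inv]
    rw [e]
    have e2 : χ (y⁻¹ * g * y) = χ g := by
      have := hχ g y⁻¹
      rwa [inv_inv] at this
    rw [e2]
  calc ∑ g : G, indL U lam g * (starRingEnd ℂ) (χ g)
      = ∑ g : G, ∑ y : G, (1 / (Nat.card U : ℂ)) *
          (ez U lam (y⁻¹ * g * y) * (starRingEnd ℂ) (χ g)) := by
        refine Finset.sum_congr rfl fun g _ => ?_
        rw [h1, mul_assoc, Finset.sum_mul, Finset.mul_sum]
    _ = ∑ y : G, ∑ g : G, (1 / (Nat.card U : ℂ)) *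
          (ez U lam (y⁻¹ * g * y) * (starRingEnd ℂ) (χ g)) := Finset.sum_comm
    _ = ∑ _y : G, (1 / (Nat.card U : ℂ)) * ∑ g : G, ez U lam g * (starRingEnd ℂ) (χ g) := by
        refine Finset.sum_congr rfl fun y _ => ?_
        rw [← Finset.mul_sum, h2]
    _ = _ := by
        rw [Finset.sum_const, Finset.card_univ, nsmul_eq_mul, ← Nat.card_eq_fintype_card]
        ring

theorem ind_one (U : Subgroup G) (lam : U →* ℂˣ) : indL U lam 1 ≠ 0 := by
  classical
  have h1 : indL U lam 1 = (1 / (Nat.card U : ℂ)) * ∑ y : G, ez U lam (y⁻¹ * 1 * y) := rfl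
  have h2 : ∀ y : G, ez U lam (y⁻¹ * 1 * y) = 1 := by
    intro y
    have e : y⁻¹ * 1 * y = 1 := by group
    rw [e]
    unfold ez
    rw [dif_pos U.one_mem]
    have : (⟨1, U.one_mem⟩ : U) = 1 := rfl
    rw [this, map_one, Units.val_one]
  rw [h1, Finset.sum_congr rfl fun y _ => h2 y]
  simp only [Finset.sum_const, Finset.card_univ, nsmul_eq_mul, mul_one]
  refine mul_ne_zero (one_div_ne_zero (Nat.cast_ne_zero.2 Nat.card_pos.ne')) ?_
  exact Nat.cast_ne_zero.2 Fintype.card_pos.ne'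

theorem deg_le (U : Subgroup G) (lam : U →* ℂˣ) {d : ℕ} (ρ : G →* Matrix (Fin d) (Fin d) ℂ)
    (hρ : IsIrr ρ) (h : ∑ g : G, ez U lam g * (starRingEnd ℂ) ((ρ g).trace) ≠ 0) :
    d ≤ U.index := by
  classical
  let f : G → ℂ := fun g => (starRingEnd ℂ) (ez U lam g)
  let A : Matrix (Fin d) (Fin d) ℂ := ∑ g : G, f g • ρ g
  have hA : A ≠ 0 := by
    intro hA
    apply h
    have h1 : A.trace = 0 := by rw [hA, Matrix.trace_zero]
    have h2 : A.trace = ∑ g : G, f g * (ρ g).trace := by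
      simp only [A, Matrix.trace_sum, Matrix.trace_smul, smul_eq_mul]
    have h3 : (starRingEnd ℂ) (∑ g : G, f g * (ρ g).trace) =
        ∑ g : G, ez U lam g * (starRingEnd ℂ) ((ρ g).trace) := by
      rw [map_sum]
      refine Finset.sum_congr rfl fun g _ => ?_
      rw [map_mul, Complex.conj_conj]
    rw [← h3, ← h2, h1, map_zero]
  -- `ρ u A = lam u A`
  have hf : ∀ (u : U) (g : G), f ((u : G)⁻¹ * g) = ((lam u : ℂˣ) : ℂ) * f g := by
    intro u g
    change (starRingEnd ℂ) (ez U lam ((u : G)⁻¹ * g)) =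
      ((lam u : ℂˣ) : ℂ) * (starRingEnd ℂ) (ez U lam g)
    unfold ez
    by_cases hg : g ∈ U
    · have hg' : (u : G)⁻¹ * g ∈ U := U.mul_mem (U.inv_mem u.2) hg
      rw [dif_pos hg, dif_pos hg', conj_unit, conj_unit]
      have e : (⟨(u : G)⁻¹ * g, hg'⟩ : U) = u⁻¹ * ⟨g, hg⟩ := rfl
      rw [e, map_mul, map_inv, mul_inv, inv_inv, Units.val_mul]
    · have hg' : (u : G)⁻¹ * g ∉ U := by
        intro h'
        apply hg
        have := U.mul_mem u.2 h'
        rwa [mul_inv_cancel_left] at this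
      rw [dif_neg hg, dif_neg hg', map_zero, mul_zero]
  have hu : ∀ u : U, ρ (u : G) * A = ((lam u : ℂˣ) : ℂ) • A := by
    intro u
    simp only [A]
    rw [Finset.mul_sum, Finset.smul_sum]
    refine Fintype.sum_equiv (Equiv.mulLeft (u : G)) _ _ fun g => ?_
    have e : (Equiv.mulLeft (u : G)) g = (u : G) * g := rfl
    rw [e, Matrix.mul_smul, ← map_mul, smul_smul, ← hf u ((u : G) * g), inv_mul_cancel_left]
  -- the vector
  obtain ⟨w₀, hw₀⟩ : ∃ w₀ : Fin d → ℂ, A *ᵥ w₀ ≠ 0 := by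
    by_contra hcon
    push Not at hcon
    apply hA
    ext i j
    have := congrFun (hcon (Pi.single j 1)) i
    rw [Matrix.mulVec_single_one] at this
    exact this
  set w : Fin d → ℂ := A *ᵥ w₀ with hw
  have hwu : ∀ u : U, ρ (u : G) *ᵥ w = ((lam u : ℂˣ) : ℂ) • w := by
    intro u
    rw [hw, Matrix.mulVec_mulVec, hu, Matrix.smul_mulVec]
  let b : G ⧸ U → (Fin d → ℂ) := fun x => ρ (Quotient.out x) *ᵥ w
  have hg : ∀ g : G, ρ g *ᵥ w ∈ Submodule.span ℂ (Set.range b) := by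
    intro g
    have h1 : (Quotient.out (g : G ⧸ U))⁻¹ * g ∈ U := by
      rw [← QuotientGroup.eq]
      exact Quotient.out_eq' _
    have h2 : g = Quotient.out (g : G ⧸ U) * ((⟨_, h1⟩ : U) : G) := by
      change g = Quotient.out (g : G ⧸ U) * ((Quotient.out (g : G ⧸ U))⁻¹ * g)
      rw [mul_inv_cancel_left]
    have h3 : ρ g *ᵥ w = ((lam ⟨_, h1⟩ : ℂˣ) : ℂ) • b (g : G ⧸ U) := by
      conv_lhs => rw [h2]
      rw [map_mul, ← Matrix.mulVec_mulVec, hwu, Matrix.mulVec_smul]
    rw [h3]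
    exact Submodule.smul_mem _ _ (Submodule.subset_span ⟨_, rfl⟩)
  have hM : ∀ M : Matrix (Fin d) (Fin d) ℂ, M *ᵥ w ∈ Submodule.span ℂ (Set.range b) := by
    intro M
    have hMs : M ∈ Submodule.span ℂ (Set.range ρ) := by
      have h' : Submodule.span ℂ (Set.range ρ) = ⊤ := hρ
      rw [h']
      exact Submodule.mem_top
    induction hMs using Submodule.span_induction with
    | mem x hx => obtain ⟨g, rfl⟩ := hx; exact hg g
    | zero => rw [Matrix.zero_mulVec]; exact Submodule.zero_mem _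
    | add x y _ _ hx hy => rw [Matrix.add_mulVec]; exact Submodule.add_mem _ hx hy
    | smul c x _ hx => rw [Matrix.smul_mulVec]; exact Submodule.smul_mem _ _ hx
  have htop : Submodule.span ℂ (Set.range b) = ⊤ := by
    rw [eq_top_iff]
    intro v _
    obtain ⟨i, hi⟩ : ∃ i, w i ≠ 0 := by
      by_contra hcon
      push Not at hcon
      exact hw₀ (funext hcon)
    have h1 : (Matrix.of fun a c => v a * (Pi.single i (w i)⁻¹ : Fin d → ℂ) c) *ᵥ w = v := by
      funext a
      rw [Matrix.mulVec, dotProduct, Finset.sum_eq_single i]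
      · rw [Matrix.of_apply, Pi.single_eq_same, mul_assoc, inv_mul_cancel₀ hi, mul_one]
      · intro c _ hc
        rw [Matrix.of_apply, Pi.single_eq_of_ne hc]
        simp
      · intro h'
        exact absurd (Finset.mem_univ i) h'
    rw [← h1]
    exact hM _
  have hfr := finrank_range_le_card (R := ℂ) b
  rw [Set.finrank, htop, finrank_top, Module.finrank_fin_fun] at hfr
  rwa [← Nat.card_eq_fintype_card] at hfr

end

end MuAP

open MuAP in
theorem p_MuA : S_MuA := by
  classical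
  intro G _ _ P U lam
  have hcl : ∀ (i : P.ι) (g y : G), (P.ρ i (y * g * y⁻¹)).trace = (P.ρ i g).trace := by
    intro i g y
    rw [map_mul, Matrix.trace_mul_comm, ← map_mul]
    congr 2
    group
  have hpl : ∀ g : G, ∑ i, (P.d i : ℂ) * (starRingEnd ℂ) ((P.ρ i g).trace) =
      if g = 1 then (Nat.card G : ℂ) else 0 := by
    intro g
    have h1 := congrArg (starRingEnd ℂ) (P.planch g)
    rw [map_sum] at h1
    have h2 : ∀ i, (starRingEnd ℂ) ((P.d i : ℂ) * (P.ρ i g).trace) =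
        (P.d i : ℂ) * (starRingEnd ℂ) ((P.ρ i g).trace) := by
      intro i
      rw [map_mul, Complex.conj_natCast]
    rw [Finset.sum_congr rfl fun i _ => h2 i] at h1
    rw [h1]
    split_ifs
    · exact Complex.conj_natCast _
    · exact map_zero _
  have htot : ∑ i, (P.d i : ℂ) * ∑ g : G, indL U lam g * (starRingEnd ℂ) ((P.ρ i g).trace) ≠
      0 := by
    have h1 : ∑ i, (P.d i : ℂ) * ∑ g : G, indL U lam g * (starRingEnd ℂ) ((P.ρ i g).trace) =
        ∑ g : G, indL U lam g * ∑ i, (P.d i : ℂ) * (starRingEnd ℂ) ((P.ρ i g).trace) := by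
      simp only [Finset.mul_sum]
      rw [Finset.sum_comm]
      refine Finset.sum_congr rfl fun g _ => Finset.sum_congr rfl fun i _ => ?_
      ring
    rw [h1, Finset.sum_congr rfl fun g _ => by rw [hpl g]]
    simp only [mul_ite, mul_zero, Finset.sum_ite_eq', Finset.mem_univ, if_true]
    exact mul_ne_zero (ind_one U lam) (Nat.cast_ne_zero.2 Nat.card_pos.ne')
  obtain ⟨i, -, hi⟩ := Finset.exists_ne_zero_of_sum_ne_zero htot
  have hi' := right_ne_zero_of_mul hi
  refine ⟨i, ?_, hi'⟩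
  have h3 := ind_sum U lam (fun g => (P.ρ i g).trace) (hcl i)
  rw [h3] at hi'
  exact deg_le U lam (P.ρ i) (P.irr i) (right_ne_zero_of_mul hi')

end NilCut
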