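import Pool.Agent.Lib.MP_4ddf81_pr.Stm3

namespace NilCut

namespace MuBP

variable {G : Type} [Group G]

open Classical in
/-- Extension by zero. -/
noncomputable def ez (U : Subgroup G) (lam : U →* ℂˣ) (g : G) : ℂ :=
  if h : g ∈ U then ((lam ⟨g, h⟩ : ℂˣ) : ℂ) else 0

lemma ez_mul (U : Subgroup G) (lam : U →* ℂˣ) (g₀ g : G) (h₀ : g₀ ∈ U) :
    ez U lam (g₀ * g) = ((lam ⟨g₀, h₀⟩ : ℂˣ) : ℂ) * ez U lam g := by
  unfold ez
  by_cases h : g ∈ U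
  · rw [dif_pos h, dif_pos (U.mul_mem h₀ h), ← Units.val_mul, ← map_mul]
    rfl
  · rw [dif_neg h, dif_neg (by rwa [U.mul_mem_cancel_left h₀]), mul_zero]

lemma norm_one [Fintype G] (U : Subgroup G) (lam : U →* ℂˣ) (u : U) :
    ‖((lam u : ℂˣ) : ℂ)‖ = 1 := by
  have h1 : (lam u) ^ Nat.card U = 1 := by
    rw [← map_pow, pow_card_eq_one', map_one]
  have h2 : ((lam u : ℂˣ) : ℂ) ^ Nat.card U = 1 := by
    rw [← Units.val_pow_eq_pow_val, h1, Units.val_one]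
  exact Complex.norm_eq_one_of_pow_eq_one h2 Nat.card_pos.ne'

lemma sum_zero [Fintype G] (U H : Subgroup G) (lam : U →* ℂˣ) (nu : H →* ℂˣ) (x g₀ : G)
    (hU : g₀ ∈ U) (hH : x⁻¹ * g₀ * x ∈ H) (hne : lam ⟨g₀, hU⟩ ≠ nu ⟨x⁻¹ * g₀ * x, hH⟩) :
    ∑ g : G, ez U lam g * (starRingEnd ℂ) (ez H nu (x⁻¹ * g * x)) = 0 := by
  set F : G → ℂ := fun g => ez U lam g * (starRingEnd ℂ) (ez H nu (x⁻¹ * g * x)) with hF
  set c : ℂ := ((lam ⟨g₀, hU⟩ : ℂˣ) : ℂ) *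
    (starRingEnd ℂ) ((nu ⟨x⁻¹ * g₀ * x, hH⟩ : ℂˣ) : ℂ) with hc
  have h1 : ∀ g, F (g₀ * g) = c * F g := by
    intro g
    have e : x⁻¹ * (g₀ * g) * x = (x⁻¹ * g₀ * x) * (x⁻¹ * g * x) := by group
    simp only [hF, hc]
    rw [e, ez_mul U lam g₀ g hU, ez_mul H nu _ _ hH, map_mul]
    ring
  have h2 : ∑ g : G, F g = c * ∑ g : G, F g := by
    rw [Finset.mul_sum, ← Equiv.sum_comp (Equiv.mulLeft g₀)]
    exact Finset.sum_congr rfl fun g _ => h1 g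
  have h3 : c ≠ 1 := by
    intro h
    apply hne
    have h4 : (starRingEnd ℂ) ((nu ⟨x⁻¹ * g₀ * x, hH⟩ : ℂˣ) : ℂ) =
        (((nu ⟨x⁻¹ * g₀ * x, hH⟩ : ℂˣ) : ℂ))⁻¹ :=
      (Complex.inv_eq_conj (norm_one H nu _)).symm
    rw [hc, h4] at h
    apply Units.ext
    exact (mul_inv_eq_one₀ (Units.ne_zero _)).1 h
  have h5 : (1 - c) * ∑ g : G, F g = 0 := by
    rw [sub_mul, one_mul, ← h2, sub_self]
  rcases mul_eq_zero.1 h5 with h | h
  · exact absurd (sub_eq_zero.1 h).symm h3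
  · exact h

lemma indL_ez [Fintype G] (U : Subgroup G) (lam : U →* ℂˣ) (g : G) :
    indL U lam g = (1 / (Nat.card U : ℂ)) * ∑ y : G, ez U lam (y⁻¹ * g * y) := rfl

end MuBP

open MuBP in
theorem p_MuB : S_MuB := by
  intro G _ _ U H lam nu hne
  by_contra hcon
  push Not at hcon
  apply hne
  have key : ∀ y y' : G, ∑ g : G, ez U lam (y⁻¹ * g * y) *
      (starRingEnd ℂ) (ez H nu (y'⁻¹ * g * y')) = 0 := by
    intro y y'
    obtain ⟨g₀, hU, hH, h⟩ := hcon (y⁻¹ * y')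
    have h0 := sum_zero U H lam nu (y⁻¹ * y') g₀ hU hH h
    rw [← h0, ← (MulAut.conj y).toEquiv.sum_comp]
    refine Finset.sum_congr rfl fun g _ => ?_
    have e1 : y⁻¹ * (MulAut.conj y).toEquiv g * y = g := by
      simp [MulAut.conj_apply]; group
    have e2 : y'⁻¹ * (MulAut.conj y).toEquiv g * y' = (y⁻¹ * y')⁻¹ * g * (y⁻¹ * y') := by
      simp [MulAut.conj_apply]; group
    rw [e1, e2]
  have h1 : ∀ g : G, indL U lam g * (starRingEnd ℂ) (indL H nu g) =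
      (1 / (Nat.card U : ℂ)) * (1 / (Nat.card H : ℂ)) * ∑ y : G, ∑ y' : G,
        ez U lam (y⁻¹ * g * y) * (starRingEnd ℂ) (ez H nu (y'⁻¹ * g * y')) := by
    intro g
    rw [indL_ez, indL_ez, map_mul, map_sum]
    have e : (starRingEnd ℂ) (1 / (Nat.card H : ℂ)) = 1 / (Nat.card H : ℂ) := by simp
    rw [e, ← Finset.sum_mul_sum]
    ring
  simp only [h1]
  rw [← Finset.mul_sum, Finset.sum_comm]
  have h2 : ∀ y : G, ∑ g : G, ∑ y' : G,
        ez U lam (y⁻¹ * g * y) * (starRingEnd ℂ) (ez H nu (y'⁻¹ * g * y')) = 0 := by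
    intro y
    rw [Finset.sum_comm]
    exact Finset.sum_eq_zero fun y' _ => key y y'
  rw [Finset.sum_eq_zero fun y _ => h2 y, mul_zero]

end NilCut
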