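import Pool.Agent.Lib.MP_4ddf81_pr.Stm3
import Pool.Agent.Lib.MP_4ddf81_pr.P.Dual2

/-!
# MP_4ddf81_pr: the number of the linear characters of the commutator subgroup which extend to a
subgroup of small index
-/

namespace NilCut

namespace MuCP

variable {G : Type} [Group G]

/-- The characters of `[G, G]` which agree with a conjugate of a character of `H` where both are
defined. -/
def SH (H : Subgroup G) (x : G) : Set (commutator G →* ℂˣ) :=
  {μ | ∃ nu : H →* ℂˣ, ∀ (g : G) (hg : g ∈ commutator G) (hH : x⁻¹ * g * x ∈ H),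
    μ ⟨g, hg⟩ = nu ⟨x⁻¹ * g * x, hH⟩}

/-- restriction to `[G, G] ∩ H` -/
def R1 (H : Subgroup G) : (commutator G →* ℂˣ) →* ((commutator G ⊓ H : Subgroup G) →* ℂˣ) :=
  MonoidHom.compHom' (Subgroup.inclusion (inf_le_left : commutator G ⊓ H ≤ commutator G))

/-- restriction to `[G, G] ∩ H` -/
def R2 (H : Subgroup G) : (H →* ℂˣ) →* ((commutator G ⊓ H : Subgroup G) →* ℂˣ) :=
  MonoidHom.compHom' (Subgroup.inclusion (inf_le_right : commutator G ⊓ H ≤ H))

theorem R1_apply (H : Subgroup G) (μ : commutator G →* ℂˣ) (g : G) (h1 : g ∈ commutator G)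
    (h2 : g ∈ commutator G ⊓ H) : R1 H μ ⟨g, h2⟩ = μ ⟨g, h1⟩ := rfl

theorem R2_apply (H : Subgroup G) (μ : H →* ℂˣ) (g : G) (h1 : g ∈ H)
    (h2 : g ∈ commutator G ⊓ H) : R2 H μ ⟨g, h2⟩ = μ ⟨g, h1⟩ := rfl

theorem index_anti [Finite G] {H K : Subgroup G} (h : H ≤ K) : K.index ≤ H.index :=
  Nat.le_of_dvd (Nat.pos_of_ne_zero Subgroup.index_ne_zero_of_finite) (Subgroup.index_dvd_of_le h)

/-- the kernel of the first restriction -/
theorem card_ker1 [Finite G] (H : Subgroup G) : Nat.card (R1 H).ker ≤ H.index := by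
  classical
  set M : Subgroup (commutator G) := (commutator G ⊓ H).subgroupOf (commutator G) with hM
  set A : Subgroup (commutator G) := M ⊔ commutator (commutator G) with hA
  have h1 := (p_Dual2 (commutator G) A le_sup_right).2
  have h2 : Nat.card (R1 H).ker = Nat.card {l : commutator G →* ℂˣ // ∀ a ∈ A, l a = 1} := by
    refine Nat.card_congr (Equiv.subtypeEquivRight fun l => ?_)
    rw [MonoidHom.mem_ker]
    constructor
    · intro h a ha
      have h3 : A ≤ l.ker := by
        refine sup_le ?_ (Abelianization.commutator_subset_ker l)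
        intro b hb
        rw [MonoidHom.mem_ker]
        have h4 : (b : G) ∈ commutator G ⊓ H := hb
        have h5 := DFunLike.congr_fun h ⟨b, h4⟩
        exact h5
      exact h3 ha
    · intro h
      apply MonoidHom.ext
      rintro ⟨g, hg⟩
      exact h ⟨g, hg.1⟩ ((le_sup_left : M ≤ A) hg)
  rw [h2, h1]
  have h3 : A.index ≤ M.index := index_anti le_sup_left
  refine h3.trans ?_
  have h4 : M.index = H.relIndex (commutator G) := by
    rw [← Subgroup.inf_relIndex_left]
    rfl
  rw [h4, ← Subgroup.relIndex_top_right H]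
  exact Subgroup.relIndex_le_of_le_right le_top (by
    rw [Subgroup.relIndex_top_right]; exact Subgroup.index_ne_zero_of_finite)

/-- the kernel of the second restriction -/
theorem card_ker2 [Finite G] (H : Subgroup G) :
    Nat.card (R2 H).ker = (commutator G).relIndex H := by
  classical
  set M : Subgroup H := (commutator G ⊓ H).subgroupOf H with hM
  have hcom : commutator H ≤ M := by
    have h1 : (commutator H).map H.subtype ≤ commutator G := by
      have : (commutator H).map H.subtype = ⁅H, H⁆ := by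
        rw [commutator_def, Subgroup.map_commutator, ← MonoidHom.range_eq_map, Subgroup.range_subtype]
      rw [this, commutator_def]
      exact Subgroup.commutator_mono le_top le_top
    intro a ha
    exact ⟨h1 (Subgroup.mem_map_of_mem _ ha), a.2⟩
  have h1 := (p_Dual2 H M hcom).2
  have h2 : Nat.card (R2 H).ker = Nat.card {l : H →* ℂˣ // ∀ a ∈ M, l a = 1} := by
    refine Nat.card_congr (Equiv.subtypeEquivRight fun l => ?_)
    rw [MonoidHom.mem_ker]
    constructor
    · intro h a ha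
      have h4 : (a : G) ∈ commutator G ⊓ H := ha
      exact DFunLike.congr_fun h ⟨a, h4⟩
    · intro h
      apply MonoidHom.ext
      rintro ⟨g, hg⟩
      exact h ⟨g, hg.2⟩ hg
  rw [h2, h1, ← Subgroup.inf_relIndex_right]
  rfl

theorem card_range2 (hF : S_FinC) [Finite G] (H : Subgroup G) (B : ℕ) (τ : ℝ)
    (hB : H.index ≤ B) (hτ : (Nat.card (Abelianization H) : ℝ) ≤
      τ * (Nat.card (Abelianization G) : ℝ)) : (Nat.card (R2 H).range : ℝ) ≤ τ * B := by
  have hFH := hF H
  have := hFH.1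
  have h1 : Nat.card (R2 H).ker * Nat.card (R2 H).range = Nat.card (Abelianization H) := by
    rw [← Subgroup.index_ker, Subgroup.card_mul_index, hFH.2.1]
  rw [card_ker2] at h1
  have h2 : Nat.card (Abelianization G) ≤ (commutator G).relIndex H * B := by
    have h3 : (commutator G).index ≤ (commutator G ⊓ H).index := index_anti inf_le_left
    have h4 : (commutator G ⊓ H).relIndex H * H.index = (commutator G ⊓ H).index :=
      Subgroup.relIndex_mul_index inf_le_right
    rw [Subgroup.inf_relIndex_right] at h4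
    have h5 : Nat.card (Abelianization G) = (commutator G).index := rfl
    rw [h5]
    refine h3.trans (h4 ▸ Nat.mul_le_mul_left _ hB)
  have hpos : 0 < Nat.card (Abelianization G) := Nat.card_pos
  have hposR : (0 : ℝ) < (Nat.card (Abelianization G) : ℝ) := by exact_mod_cast hpos
  have h2R : (Nat.card (Abelianization G) : ℝ) ≤ ((commutator G).relIndex H : ℝ) * B := by
    exact_mod_cast h2
  have h1R : ((commutator G).relIndex H : ℝ) * (Nat.card (R2 H).range : ℝ) =
      (Nat.card (Abelianization H) : ℝ) := by exact_mod_cast h1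
  have hr : (0 : ℝ) ≤ (Nat.card (R2 H).range : ℝ) := Nat.cast_nonneg _
  have hB0 : (0 : ℝ) ≤ (B : ℝ) := Nat.cast_nonneg _
  have h6 : (Nat.card (R2 H).range : ℝ) * (Nat.card (Abelianization G) : ℝ) ≤
      (τ * B) * (Nat.card (Abelianization G) : ℝ) := by
    calc (Nat.card (R2 H).range : ℝ) * (Nat.card (Abelianization G) : ℝ)
        ≤ (Nat.card (R2 H).range : ℝ) * (((commutator G).relIndex H : ℝ) * B) :=
          mul_le_mul_of_nonneg_left h2R hr
      _ = (Nat.card (Abelianization H) : ℝ) * B := by rw [← h1R]; ring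
      _ ≤ (τ * (Nat.card (Abelianization G) : ℝ)) * B := mul_le_mul_of_nonneg_right hτ hB0
      _ = (τ * B) * (Nat.card (Abelianization G) : ℝ) := by ring
  exact le_of_mul_le_mul_right h6 hposR

/-- the characters of `[G, G]` whose restriction extends to `H` -/
theorem card_Y (hF : S_FinC) [Finite G] (H : Subgroup G) :
    Nat.card (Subgroup.comap (R1 H) (R2 H).range) ≤ Nat.card (R1 H).ker * Nat.card (R2 H).range := by
  have hf1 := (hF (commutator G)).1
  have hf2 := (hF H).1
  have hf3 := (hF (commutator G ⊓ H : Subgroup G)).1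
  set Y := Subgroup.comap (R1 H) (R2 H).range with hY
  set f : Y →* ((commutator G ⊓ H : Subgroup G) →* ℂˣ) := (R1 H).comp Y.subtype with hf
  have h1 : Nat.card f.ker * Nat.card f.range = Nat.card Y := by
    rw [← Subgroup.index_ker, Subgroup.card_mul_index]
  rw [← h1]
  refine Nat.mul_le_mul ?_ ?_
  · refine Nat.card_le_card_of_injective (fun y : f.ker => (⟨((y : Y) : commutator G →* ℂˣ), y.2⟩ :
      (R1 H).ker)) ?_
    intro y y' hyy'
    have h2 := Subtype.ext_iff.1 hyy'
    exact Subtype.ext (Subtype.ext h2)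
  · refine Nat.card_le_card_of_injective (fun y : f.range => (⟨(y : _), by
      obtain ⟨z, hz⟩ := y.2
      rw [← hz]
      exact z.2⟩ : (R2 H).range)) ?_
    intro y y' hyy'
    have h2 := Subtype.ext_iff.1 hyy'
    exact Subtype.ext h2

theorem card_SH (hF : S_FinC) [Finite G] (H : Subgroup G) (x : G) (B : ℕ) (τ : ℝ)
    (hB : H.index ≤ B) (hτ : (Nat.card (Abelianization H) : ℝ) ≤
      τ * (Nat.card (Abelianization G) : ℝ)) : (Nat.card (SH H x) : ℝ) ≤ τ * B * B := by
  have hf1 := (hF (commutator G)).1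
  have h1 : Nat.card (SH H x) ≤ Nat.card (Subgroup.comap (R1 H) (R2 H).range) := by
    refine Nat.card_le_card_of_injective (fun μ : SH H x =>
      (⟨(μ : commutator G →* ℂˣ).comp (MulAut.conjNormal x).toMonoidHom, ?_⟩ :
        Subgroup.comap (R1 H) (R2 H).range)) ?_
    · obtain ⟨nu, hnu⟩ := μ.2
      refine Subgroup.mem_comap.2 ⟨nu, ?_⟩
      apply MonoidHom.ext
      rintro ⟨g, hg⟩
      rw [R2_apply H nu g hg.2, R1_apply H _ g hg.1]
      have hc : x * g * x⁻¹ ∈ commutator G :=
        (inferInstance : (commutator G).Normal).conj_mem g hg.1 x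
      have e : x⁻¹ * (x * g * x⁻¹) * x = g := by group
      have h2 := hnu (x * g * x⁻¹) hc (by rw [e]; exact hg.2)
      have h3 : (MulAut.conjNormal x : MulAut (commutator G)) ⟨g, hg.1⟩ = ⟨x * g * x⁻¹, hc⟩ := by
        apply Subtype.ext
        exact MulAut.conjNormal_apply x _
      change nu ⟨g, hg.2⟩ = (μ : commutator G →* ℂˣ) ((MulAut.conjNormal x) ⟨g, hg.1⟩)
      rw [h3, h2]
      congr 1
      exact Subtype.ext e.symm
    · intro μ μ' hμ
      apply Subtype.ext
      apply MonoidHom.ext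
      intro g
      have h2 := DFunLike.congr_fun (congrArg Subtype.val hμ) ((MulAut.conjNormal x)⁻¹ g)
      simpa using h2
  have h2 := h1.trans (card_Y hF H)
  have h3 : Nat.card (R1 H).ker ≤ B := (card_ker1 H).trans hB
  have h4 := card_range2 hF H B τ hB hτ
  have h5 : (Nat.card (SH H x) : ℝ) ≤ (Nat.card (R1 H).ker : ℝ) * (Nat.card (R2 H).range : ℝ) := by
    exact_mod_cast h2
  have h6 : (Nat.card (R1 H).ker : ℝ) ≤ (B : ℝ) := by exact_mod_cast h3
  refine h5.trans ?_
  have h7 : (0 : ℝ) ≤ (Nat.card (R2 H).range : ℝ) := Nat.cast_nonneg _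
  have h8 : (0 : ℝ) ≤ (B : ℝ) := Nat.cast_nonneg _
  calc (Nat.card (R1 H).ker : ℝ) * (Nat.card (R2 H).range : ℝ)
      ≤ (B : ℝ) * (Nat.card (R2 H).range : ℝ) := mul_le_mul_of_nonneg_right h6 h7
    _ ≤ (B : ℝ) * (τ * B) := mul_le_mul_of_nonneg_left h4 h8
    _ = τ * B * B := by ring

end MuCP

open MuCP in
theorem p_MuC (hW : S_Wed) (hC : S_Cover) (hA : S_MuA) (hB : S_MuB) (hF : S_FinC) : S_MuC := by
  classical
  intro G _ _ hnil B τ hB1 hτ0 hτ
  obtain ⟨P⟩ := hW G
  obtain ⟨T, hT1, hT2, hT3⟩ := hC G hnil P B hB1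
  have hf1 := (hF (commutator G)).1
  have : Fintype (commutator G →* ℂˣ) := Fintype.ofFinite _
  set X : Finset (commutator G →* ℂˣ) := Finset.univ.filter (fun μ => ∃ (U : Subgroup G)
    (lam : U →* ℂˣ), U.index ≤ B ∧ commutator G ≤ U ∧
      ∀ (x : G) (hx : x ∈ commutator G) (hU : x ∈ U), lam ⟨x, hU⟩ = μ ⟨x, hx⟩) with hX
  have hcard : Nat.card {μ : commutator G →* ℂˣ // ∃ (U : Subgroup G) (lam : U →* ℂˣ),
      U.index ≤ B ∧ commutator G ≤ U ∧ ∀ (x : G) (hx : x ∈ commutator G) (hU : x ∈ U),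
      lam ⟨x, hU⟩ = μ ⟨x, hx⟩} = X.card := by
    rw [hX, Nat.card_eq_fintype_card, Fintype.card_subtype]
  rw [hcard]
  -- the covering
  have hsub : X ⊆ T.biUnion (fun H => (Finset.univ : Finset (G ⧸ H)).biUnion
      (fun c => Finset.univ.filter (fun μ => μ ∈ SH H (Quotient.out c)))) := by
    intro μ hμ
    obtain ⟨U, lam, hU1, hU2, hU3⟩ := (Finset.mem_filter.1 hμ).2
    obtain ⟨i, hi, hne⟩ := hA G P U lam
    obtain ⟨H, hH, nu, hnu⟩ := hT3 i (hi.trans hU1)
    have hne' : ∑ g : G, indL U lam g * (starRingEnd ℂ) (indL H nu g) ≠ 0 := by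
      intro h0
      apply hne
      rw [← h0]
      exact Finset.sum_congr rfl fun g _ => by rw [hnu g]
    obtain ⟨x, hx⟩ := hB G U H lam nu hne'
    refine Finset.mem_biUnion.2 ⟨H, hH, Finset.mem_biUnion.2 ⟨(x : G ⧸ H), Finset.mem_univ _,
      Finset.mem_filter.2 ⟨Finset.mem_univ _, nu, ?_⟩⟩⟩
    intro g hg hH'
    obtain ⟨h, hh⟩ := QuotientGroup.mk_out_eq_mul H x
    have hh' : Quotient.out (x : G ⧸ H) = x * h := hh
    have e1 : x⁻¹ * g * x = (h : G) * ((Quotient.out (x : G ⧸ H))⁻¹ * g *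
        Quotient.out (x : G ⧸ H)) * (h : G)⁻¹ := by
      rw [hh']; group
    have hmem : x⁻¹ * g * x ∈ H := by
      rw [e1]
      exact H.mul_mem (H.mul_mem h.2 hH') (H.inv_mem h.2)
    have h1 := hx g (hU2 hg) hmem
    rw [hU3 g hg (hU2 hg)] at h1
    rw [h1]
    have e2 : (⟨x⁻¹ * g * x, hmem⟩ : H) = h * ⟨_, hH'⟩ * h⁻¹ := Subtype.ext e1
    rw [e2, map_mul, map_mul, map_inv, mul_comm (nu h), mul_inv_cancel_right]
  have hB0 : (0 : ℝ) ≤ (B : ℝ) := Nat.cast_nonneg _
  have h1 : ∀ H ∈ T, ∀ c : G ⧸ H, ((Finset.univ.filter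
      (fun μ => μ ∈ SH H (Quotient.out c))).card : ℝ) ≤ τ * B * B := by
    intro H hH c
    have h2 := card_SH hF H (Quotient.out c) B τ (hT1 H hH) (hτ H (hT1 H hH))
    have h3 : Nat.card (SH H (Quotient.out c)) =
        (Finset.univ.filter (fun μ => μ ∈ SH H (Quotient.out c))).card := by
      rw [Nat.card_eq_fintype_card, ← Fintype.card_subtype]
    rw [h3] at h2
    exact h2
  have h2 : (X.card : ℝ) ≤ ∑ H ∈ T, ∑ c : G ⧸ H, (τ * B * B) := by
    calc (X.card : ℝ) ≤ ((T.biUnion (fun H => (Finset.univ : Finset (G ⧸ H)).biUnion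
        (fun c => Finset.univ.filter (fun μ => μ ∈ SH H (Quotient.out c))))).card : ℝ) := by
          exact_mod_cast Finset.card_le_card hsub
      _ ≤ ∑ H ∈ T, (((Finset.univ : Finset (G ⧸ H)).biUnion
        (fun c => Finset.univ.filter (fun μ => μ ∈ SH H (Quotient.out c)))).card : ℝ) := by
          exact_mod_cast Finset.card_biUnion_le
      _ ≤ ∑ H ∈ T, ∑ c : G ⧸ H, (τ * B * B) := by
          refine Finset.sum_le_sum fun H hH => ?_
          refine le_trans ?_ (Finset.sum_le_sum fun c _ => h1 H hH c)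
          exact_mod_cast Finset.card_biUnion_le
  refine h2.trans ?_
  have h3 : ∑ H ∈ T, ∑ c : G ⧸ H, (τ * B * B) ≤ ∑ H ∈ T, (B : ℝ) * (τ * B * B) := by
    refine Finset.sum_le_sum fun H hH => ?_
    rw [Finset.sum_const, Finset.card_univ, nsmul_eq_mul]
    refine mul_le_mul_of_nonneg_right ?_ (by positivity)
    have h4 : Fintype.card (G ⧸ H) = H.index := by
      rw [Subgroup.index, Nat.card_eq_fintype_card]
    rw [h4]
    exact_mod_cast hT1 H hH
  refine h3.trans ?_
  rw [Finset.sum_const, nsmul_eq_mul]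
  calc (T.card : ℝ) * ((B : ℝ) * (τ * B * B))
      ≤ ((B : ℝ) * (Real.exp (12 * (1 + Real.sqrt (Real.log (Nat.card G))) *
      Real.log B ^ 2) * (Real.log (Nat.card G) + 1) + 1)) * ((B : ℝ) * (τ * B * B)) :=
        mul_le_mul_of_nonneg_right hT2 (by positivity)
    _ = _ := by ring

end NilCut
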