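import Pool.Agent.Lib.MP_4ddf81_pr.Stm3

/-!
# MP_4ddf81_pr, stage 3, piece MuK (helper75)
-/

namespace NilCut

namespace MuKP

variable {G : Type} [Group G]

/-- an element of the commutator subgroup of `K`, as an element of `⁅K, K⁆` -/
def jK (K : Subgroup G) : commutator K →* (⁅K, K⁆ : Subgroup G) where
  toFun x := ⟨((x : K) : G), by
    rw [← Subgroup.map_subtype_commutator]
    exact ⟨x, x.2, rfl⟩⟩
  map_one' := rfl
  map_mul' _ _ := rfl

theorem jK_surj (K : Subgroup G) : Function.Surjective (jK K) := by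
  rintro ⟨y, hy⟩
  have hy' := hy
  rw [← Subgroup.map_subtype_commutator] at hy'
  obtain ⟨x, hx, rfl⟩ := hy'
  exact ⟨⟨x, hx⟩, rfl⟩

/-- restriction of a character of `U` to `U.subgroupOf K` -/
def rU (K U : Subgroup G) : U.subgroupOf K →* U where
  toFun x := ⟨((x : K) : G), x.2⟩
  map_one' := rfl
  map_mul' _ _ := rfl

end MuKP

open MuKP in
theorem p_MuK (hC : S_MuC) (hF : S_FinC) : S_MuK := by
  classical
  intro G _ _ hnil K B τ hB hτ hT
  have : Finite ((⁅K, K⁆ : Subgroup G) →* ℂˣ) := (hF (⁅K, K⁆ : Subgroup G)).1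
  have : Finite (commutator K →* ℂˣ) := (hF (commutator K)).1
  refine ⟨inferInstance, ?_⟩
  have : Fintype K := Fintype.ofFinite K
  have : Group.IsNilpotent G := hnil
  have hK : Group.IsNilpotent K := inferInstance
  have hyp : ∀ H : Subgroup K, H.index ≤ B →
      (Nat.card (Abelianization H) : ℝ) ≤ τ * (Nat.card (Abelianization K) : ℝ) := by
    intro H hH
    have e1 : (H.map K.subtype).relIndex K = H.index := by
      unfold Subgroup.relIndex Subgroup.subgroupOf
      rw [Subgroup.comap_map_eq_self_of_injective K.subtype_injective]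
    have e2 : Nat.card (Abelianization H) = Nat.card (Abelianization (H.map K.subtype)) :=
      Nat.card_congr (H.equivMapOfInjective K.subtype K.subtype_injective).abelianizationCongr.toEquiv
    rw [e2]
    exact hT (H.map K.subtype) (Subgroup.map_subtype_le H) (by rw [e1]; exact hH)
  have hmain := hC K hK B τ hB hτ hyp
  -- the injection
  let Φ : MuS K B → {μ : commutator K →* ℂˣ // ∃ (U : Subgroup K) (lam : U →* ℂˣ),
      U.index ≤ B ∧ commutator K ≤ U ∧ ∀ (x : K) (hx : x ∈ commutator K) (hU : x ∈ U),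
        lam ⟨x, hU⟩ = μ ⟨x, hx⟩} := fun μ => ⟨μ.1.comp (jK K), by
    obtain ⟨μ, U, hKU, hUK, hUB, lam, hlam⟩ := μ
    refine ⟨U.subgroupOf K, lam.comp (rU K U), hUB, ?_, ?_⟩
    · intro x hx
      exact hKU (jK K ⟨x, hx⟩).2
    · intro x hx hU
      exact hlam (x : G) (jK K ⟨x, hx⟩).2 hU⟩
  have hΦ : Function.Injective Φ := by
    intro μ ν h
    apply Subtype.ext
    have h' : μ.1.comp (jK K) = ν.1.comp (jK K) := congrArg (fun t => t.1) h
    ext y
    obtain ⟨x, rfl⟩ := jK_surj K y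
    exact congrArg (fun t : commutator K →* ℂˣ => ((t x : ℂˣ) : ℂ)) h'
  have hle : (Nat.card (MuS K B) : ℝ) ≤ (Nat.card {μ : commutator K →* ℂˣ //
      ∃ (U : Subgroup K) (lam : U →* ℂˣ), U.index ≤ B ∧ commutator K ≤ U ∧
        ∀ (x : K) (hx : x ∈ commutator K) (hU : x ∈ U), lam ⟨x, hU⟩ = μ ⟨x, hx⟩} : ℝ) := by
    exact_mod_cast Nat.card_le_card_of_injective Φ hΦ
  refine hle.trans (hmain.trans ?_)
  have hcard : (Nat.card K : ℝ) ≤ (Nat.card G : ℝ) := by
    exact_mod_cast Subgroup.card_le_card_group K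
  have hpos : (0 : ℝ) < (Nat.card K : ℝ) := by exact_mod_cast Nat.card_pos
  have hone : (1 : ℝ) ≤ (Nat.card K : ℝ) := by exact_mod_cast Nat.card_pos
  have hlog : Real.log (Nat.card K) ≤ Real.log (Nat.card G) := Real.log_le_log hpos hcard
  have hlog0 : 0 ≤ Real.log (Nat.card K) := Real.log_nonneg hone
  have hsq : Real.sqrt (Real.log (Nat.card K)) ≤ Real.sqrt (Real.log (Nat.card G)) :=
    Real.sqrt_le_sqrt hlog
  gcongr

end NilCut
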