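import Pool.Agent.Lib.MP_4ddf81_pr.Stm3
import Pool.Agent.Lib.MP_4ddf81_pr.P.Dual2

/-!
# MP_4ddf81_pr, stage 3, piece MuR
-/

namespace NilCut

open scoped commutatorElement

namespace MuRP

variable {G : Type} [Group G] (K : Subgroup G) (μ : (⁅K, K⁆ : Subgroup G) →* ℂˣ)

open Classical in
/-- the character extended by `1` -/
noncomputable def m (x : G) : ℂˣ := if hx : x ∈ (⁅K, K⁆ : Subgroup G) then μ ⟨x, hx⟩ else 1

lemma m_mem {x : G} (hx : x ∈ (⁅K, K⁆ : Subgroup G)) : m K μ x = μ ⟨x, hx⟩ := dif_pos hx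

lemma m_mul {x y : G} (hx : x ∈ (⁅K, K⁆ : Subgroup G)) (hy : y ∈ (⁅K, K⁆ : Subgroup G)) :
    m K μ (x * y) = m K μ x * m K μ y := by
  rw [m_mem K μ hx, m_mem K μ hy, m_mem K μ (mul_mem hx hy), ← map_mul]
  rfl

lemma m_one : m K μ 1 = 1 := by
  rw [m_mem K μ (one_mem _)]
  exact map_one μ

lemma m_inv {x : G} (hx : x ∈ (⁅K, K⁆ : Subgroup G)) : m K μ x⁻¹ = (m K μ x)⁻¹ := by
  rw [m_mem K μ hx, m_mem K μ (inv_mem hx), ← map_inv]
  rfl

lemma comm_mem {x y : G} (hx : x ∈ K) (hy : y ∈ K) : ⁅x, y⁆ ∈ (⁅K, K⁆ : Subgroup G) :=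
  Subgroup.commutator_mem_commutator hx hy

variable {K} in
lemma conj_mem [K.Normal] {x : G} (g : G) (hx : x ∈ (⁅K, K⁆ : Subgroup G)) :
    g * x * g⁻¹ ∈ (⁅K, K⁆ : Subgroup G) :=
  (Subgroup.commutator_normal K K).conj_mem x hx g

/-- the stabiliser of the character in `K` -/
def stab [K.Normal] : Subgroup G where
  carrier := {k | k ∈ K ∧ ∀ x ∈ (⁅K, K⁆ : Subgroup G), m K μ (k * x * k⁻¹) = m K μ x}
  mul_mem' := by
    rintro a b ⟨ha, ha'⟩ ⟨hb, hb'⟩
    refine ⟨mul_mem ha hb, fun x hx => ?_⟩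
    have e : a * b * x * (a * b)⁻¹ = a * (b * x * b⁻¹) * a⁻¹ := by group
    rw [e, ha' _ (conj_mem b hx), hb' x hx]
  one_mem' := ⟨one_mem _, fun x _ => by simp⟩
  inv_mem' := by
    rintro a ⟨ha, ha'⟩
    refine ⟨inv_mem ha, fun x hx => ?_⟩
    have h := ha' _ (conj_mem a⁻¹ hx)
    have e : a * (a⁻¹ * x * a⁻¹⁻¹) * a⁻¹ = x := by group
    rw [e] at h
    exact h.symm

lemma stab_le [K.Normal] : stab K μ ≤ K := fun _ hx => hx.1

/-- an extension shows that `U` is contained in the stabiliser -/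
lemma le_stab [K.Normal] {U : Subgroup G} (hUK : U ≤ K) (hKU : (⁅K, K⁆ : Subgroup G) ≤ U)
    (hext : ExtU K U μ) : U ≤ stab K μ := by
  obtain ⟨lam, hlam⟩ := hext
  intro u hu
  refine ⟨hUK hu, fun x hx => ?_⟩
  have hc := conj_mem (K := K) u hx
  rw [m_mem K μ hc, m_mem K μ hx, ← hlam x hx (hKU hx), ← hlam _ hc (hKU hc)]
  have e : (⟨u * x * u⁻¹, hKU hc⟩ : U) = ⟨u, hu⟩ * ⟨x, hKU hx⟩ * (⟨u, hu⟩ : U)⁻¹ := rfl
  rw [e, map_mul, map_mul, map_inv, mul_comm (lam ⟨u, hu⟩), mul_assoc, mul_inv_cancel, mul_one]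

section inv

variable (hst : ∀ k ∈ K, ∀ x ∈ (⁅K, K⁆ : Subgroup G), m K μ (k * x * k⁻¹) = m K μ x)
include hst

lemma b_mul {x x' y : G} (hx : x ∈ K) (hx' : x' ∈ K) (hy : y ∈ K) :
    m K μ ⁅x * x', y⁆ = m K μ ⁅x, y⁆ * m K μ ⁅x', y⁆ := by
  have e : ⁅x * x', y⁆ = (x * ⁅x', y⁆ * x⁻¹) * ⁅x, y⁆ := by
    rw [commutatorElement_def, commutatorElement_def, commutatorElement_def]
    group
  have h1 := comm_mem K hx' hy
  have h2 := comm_mem K hx hy
  have h3 : x * ⁅x', y⁆ * x⁻¹ ∈ (⁅K, K⁆ : Subgroup G) := by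
    have e2 : x * ⁅x', y⁆ * x⁻¹ = ⁅x * x', y⁆ * ⁅x, y⁆⁻¹ := by
      rw [e]
      group
    rw [e2]
    exact mul_mem (comm_mem K (mul_mem hx hx') hy) (inv_mem h2)
  rw [e, m_mul K μ h3 h2, hst x hx _ h1, mul_comm]

omit hst in
lemma b_symm {x y : G} (hx : x ∈ K) (hy : y ∈ K) : m K μ ⁅y, x⁆ = (m K μ ⁅x, y⁆)⁻¹ := by
  rw [← m_inv K μ (comm_mem K hx hy), commutatorElement_inv]

lemma b_mul' {x y y' : G} (hx : x ∈ K) (hy : y ∈ K) (hy' : y' ∈ K) :
    m K μ ⁅x, y * y'⁆ = m K μ ⁅x, y⁆ * m K μ ⁅x, y'⁆ := by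
  rw [b_symm K μ (mul_mem hy hy') hx, b_mul K μ hst hy hy' hx, b_symm K μ hy hx,
    b_symm K μ hy' hx, mul_inv]

omit hst in
lemma b_one (y : G) : m K μ ⁅(1 : G), y⁆ = 1 := by
  rw [commutatorElement_one_left, m_one]

/-- the radical -/
def rad : Subgroup G where
  carrier := {x | x ∈ K ∧ ∀ y ∈ K, m K μ ⁅x, y⁆ = 1}
  mul_mem' := by
    rintro a b ⟨ha, ha'⟩ ⟨hb, hb'⟩
    refine ⟨mul_mem ha hb, fun y hy => ?_⟩
    rw [b_mul K μ hst ha hb hy, ha' y hy, hb' y hy, mul_one]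
  one_mem' := ⟨one_mem _, fun y _ => b_one K μ y⟩
  inv_mem' := by
    rintro a ⟨ha, ha'⟩
    refine ⟨inv_mem ha, fun y hy => ?_⟩
    have h := b_mul K μ hst (inv_mem ha) ha hy
    rw [inv_mul_cancel, b_one, ha' y hy, mul_one] at h
    exact h.symm

lemma comm_le_rad [K.Normal] : (⁅K, K⁆ : Subgroup G) ≤ rad K μ hst := by
  intro x hx
  have hKK : (⁅K, K⁆ : Subgroup G) ≤ K := Subgroup.commutator_le_left K K
  refine ⟨hKK hx, fun y hy => ?_⟩
  have e : ⁅x, y⁆ = x * (y * x⁻¹ * y⁻¹) := by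
    rw [commutatorElement_def]
    group
  rw [e, m_mul K μ hx (conj_mem y (inv_mem hx)), hst y hy _ (inv_mem hx), m_inv K μ hx,
    mul_inv_cancel]

lemma rad_relIndex [Finite G] [K.Normal] {U : Subgroup G} (B : ℕ) (hUK : U ≤ K)
    (hKU : (⁅K, K⁆ : Subgroup G) ≤ U) (hB : U.relIndex K ≤ B) (hext : ExtU K U μ) :
    (rad K μ hst).relIndex K ≤ B ^ 2 := by
  obtain ⟨lam, hlam⟩ := hext
  have hUU : ∀ u ∈ U, ∀ v ∈ U, m K μ ⁅u, v⁆ = 1 := by
    intro u hu v hv
    have hc := comm_mem K (hUK hu) (hUK hv)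
    rw [m_mem K μ hc, ← hlam _ hc (hKU hc)]
    have e : (⟨⁅u, v⁆, hKU hc⟩ : U) = ⁅(⟨u, hu⟩ : U), ⟨v, hv⟩⁆ := rfl
    rw [e, map_commutatorElement, commutatorElement_eq_one_iff_mul_comm]
    exact mul_comm _ _
  let φ : U →* (K →* ℂˣ) :=
    { toFun := fun u =>
        { toFun := fun y => m K μ ⁅u.1, y.1⁆
          map_one' := by
            rw [Subgroup.coe_one, commutatorElement_one_right, m_one]
          map_mul' := fun y y' => by
            rw [Subgroup.coe_mul, b_mul' K μ hst (hUK u.2) y.2 y'.2] }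
      map_one' := by
        ext y
        simp only [MonoidHom.coe_mk, OneHom.coe_mk, OneMemClass.coe_one, MonoidHom.one_apply]
        rw [b_one]
      map_mul' := fun u v => by
        ext y
        simp only [MonoidHom.coe_mk, OneHom.coe_mk, Subgroup.coe_mul, MonoidHom.mul_apply]
        rw [b_mul K μ hst (hUK u.2) (hUK v.2) y.2] }
  have hker : φ.ker = (rad K μ hst).subgroupOf U := by
    ext u
    rw [MonoidHom.mem_ker, Subgroup.mem_subgroupOf]
    constructor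
    · intro h
      refine ⟨hUK u.2, fun y hy => ?_⟩
      have := congrArg (fun f => f ⟨y, hy⟩) h
      exact this
    · intro h
      ext y
      have := h.2 y.1 y.2
      change ((m K μ ⁅u.1, y.1⁆ : ℂˣ) : ℂ) = ((1 : ℂˣ) : ℂ)
      rw [this]
  have h1 : (rad K μ hst).relIndex U = Nat.card φ.range := by
    rw [← Subgroup.index_ker, hker]
    rfl
  have hcomm : commutator K ≤ U.subgroupOf K := by
    have : (commutator K).map K.subtype ≤ U := by
      rw [Subgroup.map_subtype_commutator]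
      exact hKU
    exact Subgroup.map_le_iff_le_comap.1 this
  have h2 := (p_Dual2 K (U.subgroupOf K) hcomm).2
  have h3 : Nat.card φ.range ≤ Nat.card {l : K →* ℂˣ // ∀ a ∈ U.subgroupOf K, l a = 1} := by
    have hfin : Finite {l : K →* ℂˣ // ∀ a ∈ U.subgroupOf K, l a = 1} := by
      refine Nat.finite_of_card_ne_zero ?_
      rw [h2]
      exact Subgroup.index_ne_zero_of_finite
    refine Nat.card_le_card_of_injective (fun l => ⟨l.1, ?_⟩) ?_
    · obtain ⟨l, u, rfl⟩ := l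
      intro a ha
      exact hUU u.1 u.2 a.1 (Subgroup.mem_subgroupOf.1 ha)
    · intro l l' h
      have h' := congrArg (fun x => x.1) h
      exact Subtype.ext h'
  have h4 : (rad K μ hst).relIndex U ≤ B := by
    rw [h1]
    refine h3.trans ?_
    rw [h2]
    exact hB
  have h5 : ((rad K μ hst) ⊓ U).relIndex U * U.relIndex K = ((rad K μ hst) ⊓ U).relIndex K :=
    Subgroup.relIndex_mul_relIndex _ _ _ inf_le_right hUK
  rw [Subgroup.inf_relIndex_right] at h5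
  have h6 : (rad K μ hst).relIndex K ≤ ((rad K μ hst) ⊓ U).relIndex K :=
    Nat.le_of_dvd (Nat.pos_of_ne_zero (Subgroup.index_ne_zero_of_finite
      (H := ((rad K μ hst) ⊓ U).subgroupOf K)))
      (Subgroup.relIndex_dvd_of_le_left K inf_le_left)
  rw [← h5] at h6
  refine h6.trans ?_
  rw [sq]
  exact Nat.mul_le_mul h4 hB

end inv

/-- the subgroups between `H` and `K` -/
lemma between (G : Type) [Group G] [Finite G] (H K : Subgroup G) :
    Nat.card {R : Subgroup G // H ≤ R ∧ R ≤ K} ≤ 2 ^ (H.relIndex K) := by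
  classical
  have e : Nat.card (Set (K ⧸ H.subgroupOf K)) = 2 ^ (H.relIndex K) := by
    have := Fintype.ofFinite (K ⧸ H.subgroupOf K)
    rw [Nat.card_eq_fintype_card, Fintype.card_set, ← Nat.card_eq_fintype_card]
    rfl
  rw [← e]
  refine Nat.card_le_card_of_injective
    (fun R => {q | ∃ x : K, x.1 ∈ R.1 ∧ (x : K ⧸ H.subgroupOf K) = q}) ?_
  have key : ∀ R R' : {R : Subgroup G // H ≤ R ∧ R ≤ K},
      {q | ∃ x : K, x.1 ∈ R.1 ∧ (x : K ⧸ H.subgroupOf K) = q} =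
        {q | ∃ x : K, x.1 ∈ R'.1 ∧ (x : K ⧸ H.subgroupOf K) = q} → R.1 ≤ R'.1 := by
    intro R R' h x hx
    have hxK : x ∈ K := R.2.2 hx
    have h1 : ((⟨x, hxK⟩ : K) : K ⧸ H.subgroupOf K) ∈
        {q | ∃ x : K, x.1 ∈ R'.1 ∧ (x : K ⧸ H.subgroupOf K) = q} := by
      rw [← h]
      exact ⟨⟨x, hxK⟩, hx, rfl⟩
    obtain ⟨y, hy, hyx⟩ := h1
    rw [QuotientGroup.eq, Subgroup.mem_subgroupOf] at hyx
    have h2 : (y.1)⁻¹ * x ∈ R'.1 := R'.2.1 hyx
    have h3 := mul_mem hy h2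
    rwa [mul_inv_cancel_left] at h3
  intro R R' h
  exact Subtype.ext (le_antisymm (key R R' h) (key R' R h.symm))

end MuRP

open MuRP in
theorem p_MuR : S_MuR := by
  classical
  intro G _ _ K hK B μ hμ
  have := hK
  by_cases hst : stab K μ = K
  swap
  · refine ⟨{(stab K μ).normalCore}, ?_, ?_, ?_⟩
    · rw [Finset.card_singleton]
      exact Nat.le_add_left _ _
    · intro R hR
      rw [Finset.mem_singleton] at hR
      subst hR
      refine ⟨inferInstance, lt_of_le_of_lt (Subgroup.normalCore_le _) ?_⟩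
      exact lt_of_le_of_ne (stab_le K μ) hst
    · intro U hU hUK hKU _ hext
      refine ⟨_, Finset.mem_singleton_self _, ?_⟩
      exact Subgroup.normal_le_normalCore.2 (le_stab K μ hUK hKU hext)
  have hst' : ∀ k ∈ K, ∀ x ∈ (⁅K, K⁆ : Subgroup G), m K μ (k * x * k⁻¹) = m K μ x := by
    intro k hk
    rw [← hst] at hk
    exact hk.2
  by_cases hex : ∃ U : Subgroup G, U.Normal ∧ U ≤ K ∧ (⁅K, K⁆ : Subgroup G) ≤ U ∧
      U.relIndex K ≤ B ∧ ExtU K U μ
  swap
  · refine ⟨∅, by simp, by simp, ?_⟩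
    intro U h1 h2 h3 h4 h5
    exact absurd ⟨U, h1, h2, h3, h4, h5⟩ hex
  obtain ⟨U₀, -, h2, h3, h4, h5⟩ := hex
  have hrad := rad_relIndex K μ hst' B h2 h3 h4 h5
  have : Fintype (Subgroup G) := Fintype.ofFinite _
  set T₀ : Finset (Subgroup G) :=
    Finset.univ.filter (fun R => rad K μ hst' ≤ R ∧ R < K) with hT₀
  refine ⟨T₀.image Subgroup.normalCore, ?_, ?_, ?_⟩
  · have h6 : T₀.card ≤ Nat.card {R : Subgroup G // rad K μ hst' ≤ R ∧ R ≤ K} := by
      rw [Nat.card_eq_fintype_card, Fintype.card_subtype]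
      refine Finset.card_le_card ?_
      intro R hR
      rw [hT₀, Finset.mem_filter] at hR
      rw [Finset.mem_filter]
      exact ⟨hR.1, hR.2.1, hR.2.2.le⟩
    have h7 := between G (rad K μ hst') K
    have h8 : 2 ^ ((rad K μ hst').relIndex K) ≤ 2 ^ (B ^ 2) :=
      Nat.pow_le_pow_right (by norm_num) hrad
    have h9 := Finset.card_image_le (s := T₀) (f := Subgroup.normalCore)
    omega
  · intro R hR
    rw [Finset.mem_image] at hR
    obtain ⟨R', hR', rfl⟩ := hR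
    rw [hT₀, Finset.mem_filter] at hR'
    exact ⟨inferInstance, lt_of_le_of_lt (Subgroup.normalCore_le _) hR'.2.2⟩
  · intro U hU hUK hKU _ hext
    have := hU
    refine ⟨(U ⊔ rad K μ hst').normalCore, ?_, ?_⟩
    · rw [Finset.mem_image]
      refine ⟨U ⊔ rad K μ hst', ?_, rfl⟩
      rw [hT₀, Finset.mem_filter]
      refine ⟨Finset.mem_univ _, le_sup_right, lt_of_le_of_ne ?_ ?_⟩
      · exact sup_le hUK (fun x hx => hx.1)
      · intro hsup
        apply hμ
        obtain ⟨lam, hlam⟩ := hext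
        have hUU : ∀ u ∈ U, ∀ v ∈ U, m K μ ⁅u, v⁆ = 1 := by
          intro u hu v hv
          have hc := comm_mem K (hUK hu) (hUK hv)
          rw [m_mem K μ hc, ← hlam _ hc (hKU hc)]
          have e : (⟨⁅u, v⁆, hKU hc⟩ : U) = ⁅(⟨u, hu⟩ : U), ⟨v, hv⟩⁆ := rfl
          rw [e, map_commutatorElement, commutatorElement_eq_one_iff_mul_comm]
          exact mul_comm _ _
        have hall : ∀ x ∈ K, ∀ y ∈ K, m K μ ⁅x, y⁆ = 1 := by
          intro x hx y hy
          rw [← hsup] at hx hy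
          obtain ⟨u, hu, r, hr, rfl⟩ := Subgroup.mem_sup_of_normal_left.1 hx
          obtain ⟨u', hu', r', hr', rfl⟩ := Subgroup.mem_sup_of_normal_left.1 hy
          have hyK : u' * r' ∈ K := mul_mem (hUK hu') hr'.1
          rw [b_mul K μ hst' (hUK hu) hr.1 hyK, hr.2 _ hyK, mul_one,
            b_mul' K μ hst' (hUK hu) (hUK hu') hr'.1, hUU u hu u' hu', one_mul,
            b_symm K μ hr'.1 (hUK hu), hr'.2 u (hUK hu), inv_one]
        have hle : (⁅K, K⁆ : Subgroup G) ≤ μ.ker.map (⁅K, K⁆ : Subgroup G).subtype := by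
          rw [Subgroup.commutator_le]
          intro x hx y hy
          have hc := comm_mem K hx hy
          refine ⟨⟨⁅x, y⁆, hc⟩, ?_, rfl⟩
          have := hall x hx y hy
          rw [m_mem K μ hc] at this
          exact this
        ext z
        obtain ⟨w, hw, hwz⟩ := hle z.2
        have hwz' : w = z := Subtype.ext hwz
        rw [← hwz']
        have : μ w = 1 := hw
        rw [this]
        rfl
    · exact Subgroup.normal_le_normalCore.2 le_sup_left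

end NilCut
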