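import Pool.Agent.Lib.MP_4ddf81_pr.Stm3

/-!
# MP_4ddf81_pr : piece NCb

The number of the pairs `(P, lam)` with a given set of functions.
-/

namespace NilCut

namespace NCbP

section

variable {G : Type} [Group G] {K : Subgroup G} [K.Normal] {lam : K →* ℂˣ}

theorem lam_coset (g : G) (k κ : K) :
    lam (MulAut.conjNormal (g * (k : G)) κ) = lam (MulAut.conjNormal g κ) := by
  have e : MulAut.conjNormal (k : G) κ = k * κ * k⁻¹ := by
    apply Subtype.ext
    rw [MulAut.conjNormal_apply]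
    rfl
  rw [map_mul, MulAut.mul_apply, e, map_mul, map_mul, map_mul, map_mul, map_inv, map_inv,
    mul_comm (lam (MulAut.conjNormal g k)) (lam (MulAut.conjNormal g κ)), mul_assoc,
    mul_inv_cancel, mul_one]

theorem cf_eq (κ : K) (g : G) :
    cf K lam κ (g : G ⧸ K) = ((lam (MulAut.conjNormal g κ) : ℂˣ) : ℂ) := by
  unfold cf
  obtain ⟨k, hk⟩ := QuotientGroup.mk_out_eq_mul K g
  rw [hk, lam_coset]

theorem cf_mul (κ κ' : K) (x : G ⧸ K) :
    cf K lam (κ * κ') x = cf K lam κ x * cf K lam κ' x := by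
  unfold cf
  rw [map_mul, map_mul, Units.val_mul]

theorem cf_one (x : G ⧸ K) : cf K lam 1 x = 1 := by
  unfold cf
  rw [map_one, map_one, Units.val_one]

theorem cf_ne (κ : K) (x : G ⧸ K) : cf K lam κ x ≠ 0 := by
  unfold cf
  exact Units.ne_zero _

theorem cf_conj (κ : K) (p : G) (x : G ⧸ K) :
    cf K lam (MulAut.conjNormal p κ) x = cf K lam κ (x * (p : G ⧸ K)) := by
  induction x using QuotientGroup.induction_on with
  | H g =>
    rw [cf_eq, ← QuotientGroup.mk_mul, cf_eq, map_mul, MulAut.mul_apply]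

/-- well defined -/
theorem wd {P : Subgroup G} (h : Cpl P K lam) {κ κ' : K} {z : G} (h1 : (κ : G)⁻¹ * z ∈ P)
    (h2 : (κ' : G)⁻¹ * z ∈ P) : cf K lam κ = cf K lam κ' := by
  have h3 : ((κ'⁻¹ * κ : K) : G) ∈ P := by
    have e : ((κ'⁻¹ * κ : K) : G) = ((κ' : G)⁻¹ * z) * ((κ : G)⁻¹ * z)⁻¹ := by
      rw [Subgroup.coe_mul, Subgroup.coe_inv]
      group
    rw [e]
    exact P.mul_mem h2 (P.inv_mem h1)
  have h4 := (h.2 _).1 h3
  funext x
  have e : κ = κ' * (κ'⁻¹ * κ) := by group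
  conv_lhs => rw [e]
  rw [cf_mul]
  have h5 : cf K lam (κ'⁻¹ * κ) x = 1 := by
    unfold cf
    rw [h4 (Quotient.out x), Units.val_one]
  rw [h5, mul_one]

theorem ex {P : Subgroup G} (h : Cpl P K lam) (z : G) : ∃ κ : K, (κ : G)⁻¹ * z ∈ P := by
  have hz : z ∈ K ⊔ P := by
    rw [sup_comm, h.1]
    exact Subgroup.mem_top z
  obtain ⟨y, hy, w, hw, rfl⟩ := Subgroup.mem_sup_of_normal_left.1 hz
  refine ⟨⟨y, hy⟩, ?_⟩
  have e : y⁻¹ * (y * w) = w := by group
  change y⁻¹ * (y * w) ∈ P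
  rw [e]
  exact hw

theorem crossed {P : Subgroup G} (h : Cpl P K lam) {κ κ' κ'' : K} {z z' : G}
    (h1 : (κ : G)⁻¹ * z ∈ P) (h2 : (κ' : G)⁻¹ * z' ∈ P) (h3 : (κ'' : G)⁻¹ * (z * z') ∈ P)
    (x : G ⧸ K) : cf K lam κ'' x = cf K lam κ x * cf K lam κ' (x * (z : G ⧸ K)) := by
  set p : G := (κ : G)⁻¹ * z with hp
  have hz : z = (κ : G) * p := by rw [hp]; group
  have h4 : ((κ * MulAut.conjNormal p κ' : K) : G)⁻¹ * (z * z') ∈ P := by
    have e : ((κ * MulAut.conjNormal p κ' : K) : G)⁻¹ * (z * z') = p * ((κ' : G)⁻¹ * z') := by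
      rw [Subgroup.coe_mul, MulAut.conjNormal_apply, hz]
      group
    rw [e]
    exact P.mul_mem h1 h2
  rw [wd h h3 h4, cf_mul, cf_conj]
  have h5 : (z : G ⧸ K) = (p : G ⧸ K) := by
    rw [hz, QuotientGroup.mk_mul]
    have : ((κ : G) : G ⧸ K) = 1 := (QuotientGroup.eq_one_iff _).2 κ.2
    rw [this, one_mul]
  rw [h5]

end

end NCbP

open NCbP in
theorem p_NCb : S_NCb := by
  classical
  intro G _ _ K _ r C S hS
  unfold NC
  set T := {p : Subgroup G × (K →* ℂˣ) //
    Cpl p.1 K p.2 ∧ p.2 ≠ 1 ∧ Nat.card p.2.range ≤ r ∧ CF K p.2 = C} with hT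
  have hex : ∀ (t : T) (z : G), ∃ κ : K, (κ : G)⁻¹ * z ∈ t.1.1 := fun t z => ex t.2.1 z
  choose κ hκ using hex
  let a : T → G → (G ⧸ K → ℂ) := fun t z => cf K t.1.2 (κ t z)
  have ha1 : ∀ (t : T) (κ' : K) (z : G), (κ' : G)⁻¹ * z ∈ t.1.1 → a t z = cf K t.1.2 κ' :=
    fun t κ' z h => wd t.2.1 (hκ t z) h
  have hmul : ∀ (t : T) (z z' : G) (x : G ⧸ K),
      a t (z * z') x = a t z x * a t z' (x * (z : G ⧸ K)) :=
    fun t z z' x => crossed t.2.1 (hκ t z) (hκ t z') (hκ t (z * z')) x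
  have hone : ∀ (t : T) (x : G ⧸ K), a t 1 x = 1 := by
    intro t x
    rw [ha1 t 1 1 (by simp)]
    exact cf_one x
  have hC : ∀ (t : T) (z : G), a t z ∈ C := by
    intro t z
    have h := t.2.2.2.2
    rw [← h]
    unfold CF
    rw [Set.Finite.mem_toFinset]
    exact ⟨κ t z, rfl⟩
  let F : T → (S → C) := fun t s => ⟨a t s, hC t s⟩
  have hF : Function.Injective F := by
    intro t t' h
    have hs : ∀ s ∈ S, a t s = a t' s := fun s hs =>
      congrArg Subtype.val (congrFun h ⟨s, hs⟩)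
    have hall : ∀ z : G, a t z = a t' z := by
      intro z
      have hz : z ∈ Subgroup.closure (S : Set G) := by rw [hS]; exact Subgroup.mem_top z
      induction hz using Subgroup.closure_induction with
      | mem x hx => exact hs x (Finset.mem_coe.1 hx)
      | one => funext x; rw [hone, hone]
      | mul x y _ _ hx hy => funext q; rw [hmul, hmul, hx, hy]
      | inv x _ hx =>
        have key : ∀ (u : T) (q : G ⧸ K),
            a u x⁻¹ q = (a u x (q * (x : G ⧸ K)⁻¹))⁻¹ := by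
          intro u q
          have h1 := hmul u x x⁻¹ (q * (x : G ⧸ K)⁻¹)
          rw [mul_inv_cancel, hone, inv_mul_cancel_right] at h1
          exact eq_inv_of_mul_eq_one_right h1.symm
        funext q
        rw [key, key, hx]
    have hP : ∀ (u : T) (z : G), z ∈ u.1.1 ↔ a u z = fun _ => 1 := by
      intro u z
      constructor
      · intro hz
        rw [ha1 u 1 z (by simpa using hz)]
        funext x
        exact cf_one x
      · intro hz
        have h1 : ((κ u z : K) : G) ∈ u.1.1 := by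
          refine (u.2.1.2 _).2 fun x => ?_
          have h2 := congrFun hz (x : G ⧸ K)
          have h3 : cf K u.1.2 (κ u z) (x : G ⧸ K) = 1 := h2
          rw [cf_eq] at h3
          exact Units.ext h3
        have e : z = ((κ u z : K) : G) * (((κ u z : K) : G)⁻¹ * z) := by group
        rw [e]
        exact u.1.1.mul_mem h1 (hκ u z)
    apply Subtype.ext
    apply Prod.ext
    · ext z
      rw [hP t z, hP t' z, hall z]
    · refine MonoidHom.ext fun k => ?_
      have h1 : ∀ u : T, ((u.1.2 k : ℂˣ) : ℂ) = a u k ((1 : G) : G ⧸ K) := by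
        intro u
        rw [ha1 u k (k : G) (by simp), cf_eq, map_one, MulAut.one_apply]
      apply Units.ext
      rw [h1 t, h1 t', hall]
  have h := Nat.card_le_card_of_injective F hF
  have h1 : Nat.card (S → C) = C.card ^ S.card := by
    rw [Nat.card_eq_fintype_card, Fintype.card_fun, Fintype.card_coe, Fintype.card_coe]
  rwa [h1] at h

end NilCut
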