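import Pool.Agent.Lib.MP_4ddf81_pr.Stm3

/-! # MP_4ddf81_pr, stage 3, piece NCp (helper15): the number of the complements for a given
linear character. -/

namespace NilCut

namespace NCpP

variable {G : Type} [Group G] (K : Subgroup G) [K.Normal] (lam : K →* ℂˣ)

/-- the values depend on the coset only -/
theorem conj_dep (g h : G) (κ : K) (hgh : g⁻¹ * h ∈ K) :
    lam (MulAut.conjNormal g κ) = lam (MulAut.conjNormal h κ) := by
  have h1 : h = g * ((⟨g⁻¹ * h, hgh⟩ : K) : G) := by
    rw [mul_inv_cancel_left]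
  generalize (⟨g⁻¹ * h, hgh⟩ : K) = y at h1
  subst h1
  rw [map_mul, MulAut.mul_apply, MulAut.conjNormal_val, MulAut.conj_apply, map_mul, map_mul,
    map_mul, map_mul, map_inv, map_inv, mul_right_comm, mul_inv_cancel, one_mul]

/-- all the conjugates of `lam` -/
noncomputable def Phi : K →* (G ⧸ K → ℂˣ) where
  toFun κ x := lam (MulAut.conjNormal (Quotient.out x) κ)
  map_one' := by
    funext x
    rw [map_one, map_one, Pi.one_apply]
  map_mul' a b := by
    funext x
    rw [map_mul, map_mul, Pi.mul_apply]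

theorem mem_ker (κ : K) : κ ∈ (Phi K lam).ker ↔ ∀ x : G, lam (MulAut.conjNormal x κ) = 1 := by
  rw [MonoidHom.mem_ker]
  constructor
  · intro h x
    have h1 := congrFun h (x : G ⧸ K)
    rw [Pi.one_apply] at h1
    rw [← h1]
    refine (conj_dep K lam _ x κ ?_).symm
    rw [← QuotientGroup.eq]
    exact Quotient.out_eq' _
  · intro h
    funext x
    exact h _

theorem card_CF [Finite G] : (CF K lam).card = Nat.card (Phi K lam).range := by
  let j : (G ⧸ K → ℂˣ) → (G ⧸ K → ℂ) := fun f x => ((f x : ℂˣ) : ℂ)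
  have hj : Function.Injective j := fun f f' h => funext fun x => Units.ext (congrFun h x)
  have h1 : Set.range (cf K lam) = j '' ((Phi K lam).range : Set (G ⧸ K → ℂˣ)) := by
    rw [MonoidHom.coe_range, ← Set.range_comp]
    rfl
  unfold CF
  rw [← Set.ncard_eq_toFinset_card _ (Set.finite_range (cf K lam)), h1,
    Set.ncard_image_of_injective _ hj]
  rfl

end NCpP

open NCpP in
theorem p_NCp (hC : S_Compl) : S_NCp := by
  intro G _ _ K _ lam
  set U : Subgroup G := (Phi K lam).ker.map K.subtype with hU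
  have hUK : U.subgroupOf K = (Phi K lam).ker := by
    unfold Subgroup.subgroupOf
    exact Subgroup.comap_map_eq_self_of_injective K.subtype_injective _
  have hidx : U.relIndex K = (CF K lam).card := by
    unfold Subgroup.relIndex
    rw [hUK, Subgroup.index_ker, card_CF]
  have h1 := hC G K U inferInstance
  rw [hidx] at h1
  refine le_trans ?_ h1
  have hP : ∀ P : Subgroup G, Cpl P K lam → P ⊔ K = ⊤ ∧ P ⊓ K = U := by
    rintro P ⟨hP1, hP2⟩
    refine ⟨hP1, ?_⟩
    ext g
    constructor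
    · rintro ⟨hgP, hgK⟩
      exact ⟨⟨g, hgK⟩, (mem_ker K lam _).2 ((hP2 ⟨g, hgK⟩).1 hgP), rfl⟩
    · rintro ⟨κ, hκ, rfl⟩
      exact ⟨(hP2 κ).2 ((mem_ker K lam _).1 hκ), κ.2⟩
  apply Nat.card_le_card_of_injective (fun P : {P : Subgroup G // Cpl P K lam} =>
    (⟨P.1, hP P.1 P.2⟩ : {P : Subgroup G // P ⊔ K = ⊤ ∧ P ⊓ K = U}))
  intro P P' h
  exact Subtype.ext (congrArg (fun x => x.1) h)

end NilCut
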