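import Pool.Agent.Lib.MP_4ddf81_pr.Stm3

/-!
# MP_4ddf81_pr, stage 3 : a normal subgroup with an invariant vector acts trivially
-/

namespace NilCut

namespace NinvP

/-- A matrix which commutes with a spanning set is scalar. -/
lemma scalar_of_irr {G : Type} [Group G] {d : ℕ} (ρ : G →* Matrix (Fin d) (Fin d) ℂ)
    (h : IsIrr ρ) (X : Matrix (Fin d) (Fin d) ℂ) (hX : ∀ g, ρ g * X = X * ρ g) :
    ∃ x : ℂ, X = x • (1 : Matrix (Fin d) (Fin d) ℂ) := by
  have h0 : ∀ M : Matrix (Fin d) (Fin d) ℂ, M * X = X * M := by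
    intro M
    have hM : M ∈ Submodule.span ℂ (Set.range ρ) := by
      rw [h]
      exact Submodule.mem_top
    induction hM using Submodule.span_induction with
    | mem x hx =>
      obtain ⟨g, rfl⟩ := hx
      exact hX g
    | zero => simp
    | add x y _ _ hx hy => rw [add_mul, mul_add, hx, hy]
    | smul a x _ hx => rw [Matrix.smul_mul, Matrix.mul_smul, hx]
  have h1 : X ∈ Set.range (Matrix.scalar (Fin d)) := by
    apply Matrix.mem_range_scalar_of_commute_single
    intro i j _
    exact h0 _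
  obtain ⟨x, hx⟩ := h1
  refine ⟨x, ?_⟩
  rw [← hx, Matrix.scalar_apply, Matrix.smul_one_eq_diagonal]

end NinvP

open NinvP in
theorem p_Ninv (h1 : S_QF1) : S_Ninv := by
  classical
  intro G _ _ d ρ hρ H lam htr N hN v' hcov hne hinv
  have := hN
  -- the sum over `N`
  set E : Matrix (Fin d) (Fin d) ℂ := ∑ n : N, ρ (n : G) with hE
  have hcomm : ∀ g, ρ g * E = E * ρ g := by
    intro g
    rw [hE, Finset.mul_sum, Finset.sum_mul]
    refine Fintype.sum_equiv (MulAut.conjNormal g).toEquiv _ _ fun n => ?_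
    rw [← map_mul, ← map_mul]
    congr 1
    change g * (n : G) = ((MulAut.conjNormal g n : N) : G) * g
    rw [MulAut.conjNormal_apply]
    group
  obtain ⟨c, hc⟩ := scalar_of_irr ρ hρ E hcomm
  have hfix : ∀ x ∈ N, ρ x * E = E := by
    intro x hx
    rw [hE, Finset.mul_sum]
    refine Fintype.sum_equiv (Equiv.mulLeft (⟨x, hx⟩ : N)) _ _ fun n => ?_
    rw [← map_mul]
    rfl
  by_cases hc0 : c = 0
  · exfalso
    rw [hc0, zero_smul] at hc
    apply hne
    -- the sum of the character over `N` is zero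
    have hchi : ∑ n : N, indL H lam (n : G) = 0 := by
      have h2 : ∑ n : N, (ρ (n : G)).trace = 0 := by
        rw [← Matrix.trace_sum, ← hE, hc, Matrix.trace_zero]
      rw [← h2]
      exact Finset.sum_congr rfl fun n _ => (htr n).symm
    let μ : G → ℝ := fun g => if g ∈ N then 1 else 0
    have hsumN : ∀ f : G → ℂ, ∑ a : G, ((μ a : ℝ) : ℂ) * f a = ∑ n : N, f (n : G) := by
      intro f
      rw [← Finset.sum_subtype (Finset.univ.filter fun a : G => a ∈ N) (by simp) f,
        Finset.sum_filter]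
      refine Finset.sum_congr rfl fun a _ => ?_
      by_cases ha : a ∈ N
      · simp [μ, ha]
      · simp [μ, ha]
    have hQF : QF (indL H lam) μ = 0 := by
      unfold QF
      have h2 : ∑ a : G, ∑ b : G, (μ a : ℂ) * (μ b : ℂ) * indL H lam (b⁻¹ * a) = 0 := by
        rw [Finset.sum_comm]
        have h3 : ∀ b : G, ∑ a : G, (μ a : ℂ) * (μ b : ℂ) * indL H lam (b⁻¹ * a) = 0 := by
          intro b
          by_cases hb : b ∈ N
          · have h4 : ∑ a : G, (μ a : ℂ) * (μ b : ℂ) * indL H lam (b⁻¹ * a)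
                = ∑ a : G, (μ a : ℂ) * ((μ b : ℂ) * indL H lam (b⁻¹ * a)) :=
              Finset.sum_congr rfl fun a _ => mul_assoc _ _ _
            rw [h4, hsumN, ← Finset.mul_sum]
            have h5 : ∑ n : N, indL H lam (b⁻¹ * (n : G)) = ∑ n : N, indL H lam (n : G) := by
              refine Fintype.sum_equiv (Equiv.mulLeft (⟨b, hb⟩ : N)⁻¹) _ _ fun n => ?_
              rfl
            rw [h5, hchi, mul_zero]
          · have h4 : μ b = 0 := by simp [μ, hb]
            simp [h4]
        exact Finset.sum_eq_zero fun b _ => h3 b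
      rw [h2, Complex.zero_re]
    have hVV : ∀ y g, VV H lam μ y g = 0 := by
      have h2 := h1 G H lam μ
      rw [hQF] at h2
      have hH : (0 : ℝ) < 1 / (Nat.card H : ℝ) ^ 2 := by
        have : (0 : ℝ) < (Nat.card H : ℝ) := by exact_mod_cast Nat.card_pos
        positivity
      have h3 : ∑ y : G, ∑ g : G, ‖VV H lam μ y g‖ ^ 2 = 0 := by
        rcases mul_eq_zero.mp h2.symm with h | h
        · exact absurd h hH.ne'
        · exact h
      intro y g
      have h4 : ∑ g : G, ‖VV H lam μ y g‖ ^ 2 = 0 :=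
        (Finset.sum_eq_zero_iff_of_nonneg
          (fun y _ => Finset.sum_nonneg fun g _ => by positivity)).mp h3 y (Finset.mem_univ _)
      have h5 : ‖VV H lam μ y g‖ ^ 2 = 0 :=
        (Finset.sum_eq_zero_iff_of_nonneg (fun g _ => by positivity)).mp h4 g
          (Finset.mem_univ _)
      have h6 : ‖VV H lam μ y g‖ = 0 := by
        rwa [pow_eq_zero_iff (two_ne_zero)] at h5
      exact norm_eq_zero.mp h6
    funext g
    have h2 : ∑ y : G, v' y * VV H lam μ y g = 0 := by
      refine Finset.sum_eq_zero fun y _ => ?_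
      rw [hVV, mul_zero]
    have h3 : ∑ y : G, v' y * VV H lam μ y g =
        ∑ x : H, ((lam x : ℂˣ) : ℂ) * ∑ y : G, ((μ (g * x * y⁻¹) : ℝ) : ℂ) * v' y := by
      unfold VV
      simp_rw [Finset.mul_sum]
      rw [Finset.sum_comm]
      refine Finset.sum_congr rfl fun x _ => Finset.sum_congr rfl fun y _ => ?_
      ring
    have h4 : ∀ x : H, ∑ y : G, ((μ (g * x * y⁻¹) : ℝ) : ℂ) * v' y
        = (Fintype.card N : ℂ) * ((((lam x)⁻¹ : ℂˣ) : ℂ) * v' g) := by
      intro x
      have h5 : ∑ y : G, ((μ (g * x * y⁻¹) : ℝ) : ℂ) * v' y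
          = ∑ n : G, ((μ n : ℝ) : ℂ) * v' (n⁻¹ * (g * x)) := by
        refine Fintype.sum_equiv ((Equiv.inv G).trans (Equiv.mulLeft (g * (x : G)))) _ _
          fun y => ?_
        change ((μ (g * x * y⁻¹) : ℝ) : ℂ) * v' y
          = ((μ (g * (x : G) * y⁻¹) : ℝ) : ℂ) * v' ((g * (x : G) * y⁻¹)⁻¹ * (g * x))
        congr 2
        group
      rw [h5, hsumN]
      have h6 : ∀ n : N, v' ((n : G)⁻¹ * (g * x)) = (((lam x)⁻¹ : ℂˣ) : ℂ) * v' g := by
        intro n
        rw [hinv n n.2, hcov]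
      rw [Finset.sum_congr rfl fun n _ => h6 n, Finset.sum_const, Finset.card_univ,
        nsmul_eq_mul]
    rw [h3] at h2
    have h7 : ∑ x : H, ((lam x : ℂˣ) : ℂ) * ∑ y : G, ((μ (g * x * y⁻¹) : ℝ) : ℂ) * v' y
        = (Fintype.card H : ℂ) * ((Fintype.card N : ℂ) * v' g) := by
      have h8 : ∀ x : H, ((lam x : ℂˣ) : ℂ) * ∑ y : G, ((μ (g * x * y⁻¹) : ℝ) : ℂ) * v' y
          = (Fintype.card N : ℂ) * v' g := by
        intro x
        rw [h4 x, Units.val_inv_eq_inv_val]
        have h9 : ((lam x : ℂˣ) : ℂ) ≠ 0 := Units.ne_zero _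
        field_simp
      rw [Finset.sum_congr rfl fun x _ => h8 x, Finset.sum_const, Finset.card_univ,
        nsmul_eq_mul]
    rw [h7] at h2
    have hH0 : (Fintype.card H : ℂ) ≠ 0 := by exact_mod_cast Fintype.card_ne_zero
    have hN0 : (Fintype.card N : ℂ) ≠ 0 := by exact_mod_cast Fintype.card_ne_zero
    have h10 := (mul_eq_zero.mp h2).resolve_left hH0
    exact (mul_eq_zero.mp h10).resolve_left hN0
  · intro x hx
    have h2 := hfix x hx
    rw [hc, Matrix.mul_smul, Matrix.mul_one] at h2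
    exact smul_right_injective _ hc0 h2

end NilCut
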