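import Pool.Agent.Lib.MP_4ddf81_pr.Stm3
import Pool.Agent.Lib.MP_4ddf81_pr.P2.UBasy

/-!
# MP_4ddf81_pr, stage 3 : no large family of letters in a proper subgroup not containing `[K, K]`
-/

namespace NilCut

open Filter Topology

namespace NonLP

/-- The choice of `γ₀`. -/
theorem gam (B : ℕ) (hB : 1 ≤ B) : ∃ γ₀ : ℝ, 0 < γ₀ ∧ γ₀ ≤ 1 ∧ ∀ γ : ℝ, 0 < γ → γ ≤ γ₀ →
    γ * Real.log ((Real.exp 1 / γ) * (B : ℝ)) ≤ Real.log 2 / 4 := by
  have hB0 : (0 : ℝ) < (B : ℝ) := by exact_mod_cast hB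
  have hcont : Continuous fun x : ℝ => x * (1 + Real.log (B : ℝ)) - x * Real.log x :=
    (continuous_id.mul continuous_const).sub Real.continuous_mul_log
  have h0 : Tendsto (fun x : ℝ => x * (1 + Real.log (B : ℝ)) - x * Real.log x) (𝓝 0) (𝓝 0) := by
    have h1 := hcont.tendsto 0
    simpa using h1
  have hl2 : 0 < Real.log 2 / 4 := by
    have := Real.log_pos (by norm_num : (1 : ℝ) < 2)
    linarith
  have h2 := (h0.eventually (gt_mem_nhds hl2))
  rw [Metric.eventually_nhds_iff] at h2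
  obtain ⟨δ, hδ, h3⟩ := h2
  refine ⟨min 1 (δ / 2), lt_min one_pos (by positivity), min_le_left _ _, ?_⟩
  intro γ hγ hγ'
  have h4 : dist γ 0 < δ := by
    rw [Real.dist_eq, sub_zero, abs_of_pos hγ]
    have := hγ'.trans (min_le_right _ _)
    linarith
  have h5 := h3 h4
  have h6 : Real.log ((Real.exp 1 / γ) * (B : ℝ)) = 1 - Real.log γ + Real.log (B : ℝ) := by
    rw [Real.log_mul (by positivity) hB0.ne', Real.log_div (Real.exp_pos 1).ne' hγ.ne',
      Real.log_exp]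
  rw [h6]
  nlinarith

/-- The letters are mostly in `P`. -/
def LP {G : Type} [Group G] (k : ℕ) (γ : ℝ) (P : Subgroup G) (Z : Fin k → G) : Prop :=
  ∃ I : Finset (Fin k), (1 - γ) * (k : ℝ) ≤ (I.card : ℝ) ∧ ∀ i ∈ I, Z i ∈ P

/-- The union bound. -/
theorem union (hM : S_MaxNL) (G : Type) [Group G] [Fintype G] (hG : Group.IsNilpotent G)
    (K : Subgroup G) (hK : K.Normal) (k B : ℕ) (γ : ℝ) :
    Nat.card {Z : Fin k → G // ∃ P : Subgroup G, P.index ≤ B ∧ P ⊔ K = ⊤ ∧ ¬ ⁅K, K⁆ ≤ P ∧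
      ∃ I : Finset (Fin k), (1 - γ) * (k : ℝ) ≤ (I.card : ℝ) ∧ ∀ i ∈ I, Z i ∈ P} ≤
    ∑ j ∈ Finset.Icc 2 B, ∑ᶠ P : {P : Subgroup G // P.index = j ∧ BadT K P},
      Nat.card {Z : Fin k → G // LP k γ P.1 Z} := by
  classical
  have : Fintype (Subgroup G) := Fintype.ofFinite _
  have h1 : ∀ j, ∑ᶠ P : {P : Subgroup G // P.index = j ∧ BadT K P},
      Nat.card {Z : Fin k → G // LP k γ P.1 Z} =
      ∑ P ∈ Finset.univ.filter (fun P : Subgroup G => P.index = j ∧ BadT K P),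
        (Finset.univ.filter (fun Z : Fin k → G => LP k γ P Z)).card := by
    intro j
    rw [finsum_eq_sum_of_fintype, Finset.sum_subtype (p := fun P : Subgroup G =>
      P.index = j ∧ BadT K P) _ (fun P => by simp)]
    refine Finset.sum_congr rfl fun P _ => ?_
    rw [Nat.card_eq_fintype_card, Fintype.card_subtype]
  rw [Finset.sum_congr rfl fun j _ => h1 j, Nat.card_eq_fintype_card, Fintype.card_subtype]
  refine le_trans (Finset.card_le_card (t := (Finset.Icc 2 B).biUnion fun j =>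
    (Finset.univ.filter (fun P : Subgroup G => P.index = j ∧ BadT K P)).biUnion fun P =>
      Finset.univ.filter (fun Z : Fin k → G => LP k γ P Z)) ?_) ?_
  · intro Z hZ
    rw [Finset.mem_filter] at hZ
    obtain ⟨-, P, hPB, hPK, hKP, I, hI, hIP⟩ := hZ
    obtain ⟨P', hPP', hbad⟩ := hM G hG K P hK hPK hKP
    have h2 : P'.index ≤ B := by
      refine le_trans (Nat.le_of_dvd ?_ (Subgroup.index_dvd_of_le hPP')) hPB
      exact Nat.pos_of_ne_zero Subgroup.index_ne_zero_of_finite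
    have h3 : 2 ≤ P'.index := by
      obtain ⟨-, -, P₁, lam, p, hp, -, -, -, -, hidx⟩ := hbad
      rw [hidx]
      have h4 : 1 ≤ P₁.index := Nat.pos_of_ne_zero Subgroup.index_ne_zero_of_finite
      calc 2 = 2 * 1 := rfl
        _ ≤ p * P₁.index := Nat.mul_le_mul hp.two_le h4
    rw [Finset.mem_biUnion]
    refine ⟨P'.index, Finset.mem_Icc.2 ⟨h3, h2⟩, ?_⟩
    rw [Finset.mem_biUnion]
    refine ⟨P', Finset.mem_filter.2 ⟨Finset.mem_univ _, rfl, hbad⟩, ?_⟩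
    rw [Finset.mem_filter]
    exact ⟨Finset.mem_univ _, I, hI, fun i hi => hPP' (hIP i hi)⟩
  · refine le_trans Finset.card_biUnion_le ?_
    exact Finset.sum_le_sum fun j _ => Finset.card_biUnion_le

end NonLP

open NonLP in
theorem p_NonL (hM : S_MaxNL) (hB : S_BadC) (hK : S_MuK) (hP : S_PrP) : S_NonL := by
  classical
  intro C₀ η Jm B hC hη hB1
  obtain ⟨γ₀, hγ₀, hγ₀1, hγ₀2⟩ := gam B hB1
  refine ⟨γ₀, hγ₀, ?_⟩
  intro γ hγ hγγ
  obtain ⟨c, hc⟩ := hB B Jm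
  have hl2 : 0 < Real.log 2 := Real.log_pos (by norm_num)
  have hBr : (1 : ℝ) ≤ (B : ℝ) := by exact_mod_cast hB1
  have hev := (UBasy.ev_sub C₀ (Real.log (B : ℝ) ^ 2) (Real.log 2 / 8) hC.le (by positivity)
    (by positivity)).and
    (UBasy.ev_exp ((B : ℝ) * ((c : ℝ) * (B : ℝ) ^ 4)) (3 / 8 * Real.log 2) η (by positivity) hη)
  obtain ⟨k₀, hk₀⟩ := eventually_atTop.1 hev
  refine ⟨k₀, ?_⟩
  intro k hk G _ _ hG hlog S hS hSk K hKn hKJ hT
  obtain ⟨e1, e2⟩ := hk₀ k hk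
  have hγ1 : γ ≤ 1 := hγγ.trans hγ₀1
  have hk0 : (0 : ℝ) ≤ (k : ℝ) := Nat.cast_nonneg k
  obtain ⟨hfin, hMu⟩ := hK G hG K B (Real.exp (Real.log 2 / 4 * (k : ℝ))) hB1
    (Real.exp_pos _).le hT
  set M : ℝ := (Nat.card (MuS K B) : ℝ) with hMdef
  set GG : ℝ := (Nat.card G : ℝ) ^ k with hGG
  have hGG0 : 0 ≤ GG := by positivity
  have hM0 : 0 ≤ M := Nat.cast_nonneg _
  set E : ℝ := ((Real.exp 1 / γ) * (B : ℝ)) ^ (γ * (k : ℝ)) with hE
  have hbase : 0 < (Real.exp 1 / γ) * (B : ℝ) := by positivity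
  -- the factor `E`
  have hE1 : E ≤ Real.exp (Real.log 2 / 4 * (k : ℝ)) := by
    rw [hE, Real.rpow_def_of_pos hbase]
    apply Real.exp_le_exp.2
    have := mul_le_mul_of_nonneg_right (hγ₀2 γ hγ hγγ) hk0
    linarith
  have hE0 : 0 ≤ E := by positivity
  -- one subgroup
  have hone : ∀ (P : Subgroup G) (j : ℕ), P.index = j → 2 ≤ j → j ≤ B →
      (Nat.card {Z : Fin k → G // LP k γ P Z} : ℝ) ≤ E * GG / (j : ℝ) ^ k := by
    intro P j hPj hj2 hjB
    have hj0 : (0 : ℝ) < (j : ℝ) := by exact_mod_cast (by omega : 0 < j)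
    have h1 := hP G P k γ hγ hγ1
    rw [hPj] at h1
    rw [le_div_iff₀ (by positivity)]
    refine le_trans h1 (mul_le_mul_of_nonneg_right ?_ hGG0)
    refine Real.rpow_le_rpow (by positivity) ?_ (by positivity)
    refine mul_le_mul_of_nonneg_left (by exact_mod_cast hjB) (by positivity)
  -- the number of the subgroups
  have hnum : ∀ j : ℕ, 2 ≤ j → j ≤ B →
      (Nat.card {P : Subgroup G // P.index = j ∧ BadT K P} : ℝ) ≤
        (c : ℝ) * M * ((j : ℝ) ^ k / 2 ^ k) := by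
    intro j hj2 hjB
    have h1 := hc G S hS K hKn hKJ hfin j (by omega) hjB
    have h2 : (Nat.card {P : Subgroup G // P.index = j ∧ BadT K P} : ℝ) * 2 ^ S.card ≤
        (c : ℝ) * M * (j : ℝ) ^ S.card := by
      rw [hMdef]
      exact_mod_cast h1
    have h3 : (Nat.card {P : Subgroup G // P.index = j ∧ BadT K P} : ℝ) ≤
        (c : ℝ) * M * ((j : ℝ) / 2) ^ S.card := by
      rw [div_pow, ← mul_div_assoc, le_div_iff₀ (by positivity)]
      exact h2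
    refine h3.trans ?_
    rw [← div_pow]
    refine mul_le_mul_of_nonneg_left ?_ (by positivity)
    refine pow_le_pow_right₀ ?_ hSk
    rw [le_div_iff₀ two_pos, one_mul]
    exact_mod_cast hj2
  -- one index
  have hj : ∀ j ∈ Finset.Icc 2 B, ((∑ᶠ P : {P : Subgroup G // P.index = j ∧ BadT K P},
      Nat.card {Z : Fin k → G // LP k γ P.1 Z} : ℕ) : ℝ) ≤ (c : ℝ) * M / 2 ^ k * (E * GG) := by
    intro j hj
    rw [Finset.mem_Icc] at hj
    have : Fintype {P : Subgroup G // P.index = j ∧ BadT K P} := Fintype.ofFinite _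
    have hj0 : (0 : ℝ) < (j : ℝ) := by exact_mod_cast (by omega : 0 < j)
    rw [finsum_eq_sum_of_fintype, Nat.cast_sum]
    calc ∑ P : {P : Subgroup G // P.index = j ∧ BadT K P},
          (Nat.card {Z : Fin k → G // LP k γ P.1 Z} : ℝ)
        ≤ ∑ _P : {P : Subgroup G // P.index = j ∧ BadT K P}, E * GG / (j : ℝ) ^ k :=
          Finset.sum_le_sum fun P _ => hone P.1 j P.2.1 hj.1 hj.2
      _ = (Nat.card {P : Subgroup G // P.index = j ∧ BadT K P} : ℝ) *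
            (E * GG / (j : ℝ) ^ k) := by
          rw [Finset.sum_const, nsmul_eq_mul, Finset.card_univ, Nat.card_eq_fintype_card]
      _ ≤ (c : ℝ) * M * ((j : ℝ) ^ k / 2 ^ k) * (E * GG / (j : ℝ) ^ k) :=
          mul_le_mul_of_nonneg_right (hnum j hj.1 hj.2) (by positivity)
      _ = (c : ℝ) * M / 2 ^ k * (E * GG) := by
          field_simp
  -- the bound for `M`
  have hM1 : M ≤ (B : ℝ) ^ 4 * Real.exp (Real.log 2 / 8 * (k : ℝ)) *
      Real.exp (Real.log 2 / 4 * (k : ℝ)) := by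
    refine hMu.trans ?_
    refine mul_le_mul_of_nonneg_right ?_ (Real.exp_pos _).le
    refine mul_le_mul_of_nonneg_left ?_ (by positivity)
    refine le_trans ?_ e1
    have hlog0 : 0 ≤ Real.log (Nat.card G) :=
      Real.log_nonneg (by exact_mod_cast (Nat.card_pos : 0 < Nat.card G))
    have h5 : Real.sqrt (Real.log (Nat.card G)) ≤ Real.sqrt (C₀ * (k : ℝ)) :=
      Real.sqrt_le_sqrt hlog
    gcongr
  have h2k : Real.exp (-(Real.log 2 * (k : ℝ))) = 1 / 2 ^ k := by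
    rw [Real.exp_neg, mul_comm, Real.exp_nat_mul, Real.exp_log two_pos, one_div]
  have hU := union hM G hG K hKn k B γ
  have hU' : (Nat.card {Z : Fin k → G // ∃ P : Subgroup G, P.index ≤ B ∧ P ⊔ K = ⊤ ∧
      ¬ ⁅K, K⁆ ≤ P ∧ ∃ I : Finset (Fin k), (1 - γ) * (k : ℝ) ≤ (I.card : ℝ) ∧
        ∀ i ∈ I, Z i ∈ P} : ℝ) ≤
      ∑ j ∈ Finset.Icc 2 B, ((∑ᶠ P : {P : Subgroup G // P.index = j ∧ BadT K P},
        Nat.card {Z : Fin k → G // LP k γ P.1 Z} : ℕ) : ℝ) := by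
    exact_mod_cast hU
  calc (Nat.card {Z : Fin k → G // ∃ P : Subgroup G, P.index ≤ B ∧ P ⊔ K = ⊤ ∧
      ¬ ⁅K, K⁆ ≤ P ∧ ∃ I : Finset (Fin k), (1 - γ) * (k : ℝ) ≤ (I.card : ℝ) ∧
        ∀ i ∈ I, Z i ∈ P} : ℝ)
      ≤ ∑ j ∈ Finset.Icc 2 B, ((∑ᶠ P : {P : Subgroup G // P.index = j ∧ BadT K P},
        Nat.card {Z : Fin k → G // LP k γ P.1 Z} : ℕ) : ℝ) := hU'
    _ ≤ ∑ _j ∈ Finset.Icc 2 B, (c : ℝ) * M / 2 ^ k * (E * GG) := Finset.sum_le_sum hj
    _ = ((Finset.Icc 2 B).card : ℝ) * ((c : ℝ) * M / 2 ^ k * (E * GG)) := by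
        rw [Finset.sum_const, nsmul_eq_mul]
    _ ≤ (B : ℝ) * ((c : ℝ) * M / 2 ^ k * (E * GG)) := by
        refine mul_le_mul_of_nonneg_right ?_ (by positivity)
        rw [Nat.card_Icc]
        exact_mod_cast (by omega : B + 1 - 2 ≤ B)
    _ ≤ (B : ℝ) * ((c : ℝ) * ((B : ℝ) ^ 4 * Real.exp (Real.log 2 / 8 * (k : ℝ)) *
          Real.exp (Real.log 2 / 4 * (k : ℝ))) / 2 ^ k *
          (Real.exp (Real.log 2 / 4 * (k : ℝ)) * GG)) := by
        gcongr
    _ = (B : ℝ) * ((c : ℝ) * (B : ℝ) ^ 4) * (Real.exp (Real.log 2 / 8 * (k : ℝ)) *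
          Real.exp (Real.log 2 / 4 * (k : ℝ)) * Real.exp (Real.log 2 / 4 * (k : ℝ)) *
          (1 / 2 ^ k)) * GG := by ring
    _ = (B : ℝ) * ((c : ℝ) * (B : ℝ) ^ 4) * Real.exp (-(3 / 8 * Real.log 2 * (k : ℝ))) * GG := by
        rw [← h2k, ← Real.exp_add, ← Real.exp_add, ← Real.exp_add]
        congr 3
        ring
    _ ≤ η * GG := mul_le_mul_of_nonneg_right e2 hGG0

end NilCut
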