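import Pool.Agent.Lib.MP_4ddf81_pr.Stm3

/-!
# MP_4ddf81_pr, stage 3, piece NormC
-/

namespace NilCut

namespace NormCP

lemma emb {α : Type} [Finite α] (N : ℕ) (h : Nat.card α ≤ N) :
    ∃ e : α → Fin (N + 1), Function.Injective e :=
  ⟨fun a => Fin.castLE (by omega) (Finite.equivFin α a), fun a b hab => by
    exact (Finite.equivFin α).injective (Fin.castLE_injective _ hab)⟩

lemma fib_card (G : Type) [Group G] [Finite G] (U R : Subgroup G) [U.Normal] [R.Normal]
    (h : U ≤ R.comap (MonoidHom.id G)) (s : G) :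
    Nat.card {a : G ⧸ U // QuotientGroup.map U R (MonoidHom.id G) h a = (s : G ⧸ R)} =
      U.relIndex R := by
  set q := QuotientGroup.map U R (MonoidHom.id G) h with hq
  have hqs : ∀ g : G, q (g : G ⧸ U) = (g : G ⧸ R) := fun g => rfl
  have e : {a : G ⧸ U // q a = (s : G ⧸ R)} ≃ q.ker :=
    { toFun := fun a => ⟨(s : G ⧸ U)⁻¹ * a.1, by
        rw [MonoidHom.mem_ker, map_mul, map_inv, a.2, hqs, inv_mul_cancel]⟩
      invFun := fun a => ⟨(s : G ⧸ U) * a.1, by
        have ha := (MonoidHom.mem_ker).1 a.2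
        rw [map_mul, ha, hqs, mul_one]⟩
      left_inv := fun a => by
        ext
        simp
      right_inv := fun a => by
        ext
        simp }
  rw [Nat.card_congr e]
  have hsurj : Function.Surjective q := by
    intro b
    obtain ⟨g, rfl⟩ := QuotientGroup.mk_surjective b
    exact ⟨(g : G ⧸ U), rfl⟩
  have h1 : q.ker.index = R.index := by
    rw [Subgroup.index_ker, MonoidHom.range_eq_top.2 hsurj]
    rw [Subgroup.card_top]
    rfl
  have h2 := q.ker.card_mul_index
  have h3 : Nat.card (G ⧸ U) = U.index := rfl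
  have h4 := Subgroup.relIndex_mul_index (H := U) (K := R) h
  rw [h1, h3, ← h4] at h2
  exact Nat.eq_of_mul_eq_mul_right (Nat.pos_of_ne_zero Subgroup.index_ne_zero_of_finite) h2

/-- the rank in a finset -/
def rk {N : ℕ} (A : Finset (Fin N)) (j : Fin N) : ℕ := (A.filter (· < j)).card

lemma rk_lt {N : ℕ} (A : Finset (Fin N)) {j : Fin N} (hj : j ∈ A) : rk A j < A.card := by
  refine Finset.card_lt_card (Finset.filter_ssubset.2 ⟨j, hj, lt_irrefl j⟩)

lemma rk_mono {N : ℕ} (A : Finset (Fin N)) {i j : Fin N} (hi : i ∈ A) (hij : i < j) :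
    rk A i < rk A j := by
  refine Finset.card_lt_card ?_
  rw [Finset.ssubset_iff_of_subset]
  · exact ⟨i, by simp [hi, hij], by simp⟩
  · intro x hx
    rw [Finset.mem_filter] at hx ⊢
    exact ⟨hx.1, hx.2.trans hij⟩

lemma rk_inj {N : ℕ} (A : Finset (Fin N)) {i j : Fin N} (hi : i ∈ A) (hj : j ∈ A)
    (h : rk A i = rk A j) : i = j := by
  rcases lt_trichotomy i j with h1 | h1 | h1
  · have := rk_mono A hi h1
    omega
  · exact h1
  · have := rk_mono A hj h1
    omega

end NormCP

open NormCP in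
theorem p_NormC : S_NormC := by
  classical
  intro N₀
  refine ⟨Fintype.card ((Fin (N₀ + 1) × Fin (N₀ + 1) → Fin (N₀ + 1)) ×
    (Fin (N₀ + 1) → Option (Fin (N₀ + 1))) × Fin (N₀ + 1)), ?_⟩
  intro G _ _ S hS R hR m
  have := hR
  by_cases hRN : R.index ≤ N₀
  swap
  · have hemp : IsEmpty {U : Subgroup G // U.Normal ∧ U ≤ R ∧ U.relIndex R = m ∧
        U.index ≤ N₀} := by
      refine ⟨fun U => hRN ?_⟩
      obtain ⟨U, -, h2, -, h4⟩ := U
      have h5 : R.index ≤ U.index :=
        Nat.le_of_dvd (Nat.pos_of_ne_zero Subgroup.index_ne_zero_of_finite)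
          (Subgroup.index_dvd_of_le h2)
      omega
    rw [Nat.card_of_isEmpty]
    exact Nat.zero_le _
  obtain ⟨eR, heR⟩ := emb (α := G ⧸ R) N₀ hRN
  set T := {U : Subgroup G // U.Normal ∧ U ≤ R ∧ U.relIndex R = m ∧ U.index ≤ N₀} with hT
  have hN : ∀ U : T, (U.1).Normal := fun U => U.2.1
  have hle : ∀ U : T, U.1 ≤ R.comap (MonoidHom.id G) := fun U => U.2.2.1
  have hex : ∀ U : T, ∃ e : G ⧸ U.1 → Fin (N₀ + 1), Function.Injective e := fun U =>
    emb (α := G ⧸ U.1) N₀ U.2.2.2.2
  choose e he using hex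
  -- the code
  let q : ∀ U : T, G ⧸ U.1 → G ⧸ R := fun U =>
    haveI := hN U
    QuotientGroup.map U.1 R (MonoidHom.id G) (hle U)
  have hq : ∀ (U : T) (g : G), q U (g : G ⧸ U.1) = (g : G ⧸ R) := fun U g => rfl
  let tab : ∀ U : T, (Fin (N₀ + 1) × Fin (N₀ + 1) → Fin (N₀ + 1)) := fun U =>
    haveI := hN U
    Function.extend (fun p : (G ⧸ U.1) × (G ⧸ U.1) => (e U p.1, e U p.2))
      (fun p => e U (p.1 * p.2)) (fun _ => 0)
  let prj : ∀ U : T, Fin (N₀ + 1) → Option (Fin (N₀ + 1)) := fun U =>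
    Function.extend (e U) (fun a => some (eR (q U a))) (fun _ => none)
  let one : ∀ U : T, Fin (N₀ + 1) := fun U =>
    haveI := hN U
    e U 1
  let A : (Fin (N₀ + 1) → Option (Fin (N₀ + 1))) → G → Finset (Fin (N₀ + 1)) := fun π s =>
    Finset.univ.filter (fun j => π j = some (eR (s : G ⧸ R)))
  have hprj : ∀ (U : T) (a : G ⧸ U.1), prj U (e U a) = some (eR (q U a)) := fun U a =>
    (he U).extend_apply _ _ a
  have htab : ∀ (U : T) (g h : G), tab U (e U (g : G ⧸ U.1), e U (h : G ⧸ U.1)) =
      e U ((g * h : G) : G ⧸ U.1) := by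
    intro U g h
    haveI := hN U
    have hinj : Function.Injective (fun p : (G ⧸ U.1) × (G ⧸ U.1) => (e U p.1, e U p.2)) := by
      rintro ⟨a, b⟩ ⟨c, d⟩ hab
      simp only [Prod.mk.injEq] at hab
      exact Prod.ext (he U hab.1) (he U hab.2)
    exact hinj.extend_apply _ _ ((g : G ⧸ U.1), (h : G ⧸ U.1))
  have hmem : ∀ (U : T) (s : G), e U (s : G ⧸ U.1) ∈ A (prj U) s := by
    intro U s
    simp only [A, Finset.mem_filter, Finset.mem_univ, true_and]
    rw [hprj, hq]
  have hcard : ∀ (U : T) (s : G), (A (prj U) s).card = m := by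
    intro U s
    haveI := hN U
    have h1 : ((A (prj U) s : Finset (Fin (N₀ + 1))) : Set (Fin (N₀ + 1))) =
        e U '' {a | q U a = (s : G ⧸ R)} := by
      ext j
      simp only [A, Finset.coe_filter, Finset.mem_univ, true_and, Set.mem_setOf_eq, Set.mem_image]
      constructor
      · intro hj
        by_cases hx : ∃ a, e U a = j
        · obtain ⟨a, rfl⟩ := hx
          rw [hprj] at hj
          exact ⟨a, heR (Option.some.inj hj), rfl⟩
        · exfalso
          have : prj U j = none := Function.extend_apply' _ _ _ hx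
          rw [this] at hj
          exact absurd hj (by simp)
      · rintro ⟨a, ha, rfl⟩
        rw [hprj, ha]
    have h2 := Set.ncard_coe_finset (A (prj U) s)
    rw [← h2, h1, Set.ncard_image_of_injective _ (he U)]
    have h3 := fib_card G U.1 R (hle U) s
    exact Eq.trans (show _ = _ from rfl) (h3.trans U.2.2.2.1)
  let Ψ : T → ((Fin (N₀ + 1) × Fin (N₀ + 1) → Fin (N₀ + 1)) ×
    (Fin (N₀ + 1) → Option (Fin (N₀ + 1))) × Fin (N₀ + 1)) × (S → Fin m) := fun U =>
    ((tab U, prj U, one U), fun s => ⟨rk (A (prj U) s.1) (e U ((s.1 : G) : G ⧸ U.1)), by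
      have := rk_lt (A (prj U) s.1) (hmem U s.1)
      rw [hcard] at this
      exact this⟩)
  have hΨ : Function.Injective Ψ := by
    intro U U' hUU
    have h1 : tab U = tab U' := congrArg (fun x => x.1.1) hUU
    have h2 : prj U = prj U' := congrArg (fun x => x.1.2.1) hUU
    have h3 : one U = one U' := congrArg (fun x => x.1.2.2) hUU
    have h4 : ∀ s : S, rk (A (prj U) s.1) (e U ((s.1 : G) : G ⧸ U.1)) =
        rk (A (prj U') s.1) (e U' ((s.1 : G) : G ⧸ U'.1)) := by
      intro s
      have := congrArg (fun x => (x.2 s).1) hUU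
      exact this
    have h5 : ∀ s ∈ S, e U (s : G ⧸ U.1) = e U' (s : G ⧸ U'.1) := by
      intro s hs
      have h6 := h4 ⟨s, hs⟩
      have h7 := hmem U s
      have h8 := hmem U' s
      rw [h2] at h7 h6
      exact rk_inj _ h7 h8 h6
    have h6 : ∀ g : G, e U (g : G ⧸ U.1) = e U' (g : G ⧸ U'.1) := by
      intro g
      have hg : g ∈ Submonoid.closure (S : Set G) := by
        rw [← Subgroup.closure_toSubmonoid_of_finite, hS]
        exact Subgroup.mem_top g
      induction hg using Submonoid.closure_induction with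
      | mem x hx => exact h5 x hx
      | one => exact h3
      | mul x y _ _ hx hy =>
        rw [← htab, ← htab, hx, hy, h1]
    apply Subtype.ext
    ext g
    have k1 : g ∈ U.1 ↔ e U (g : G ⧸ U.1) = one U := by
      haveI := hN U
      constructor
      · intro hg
        have : (g : G ⧸ U.1) = 1 := (QuotientGroup.eq_one_iff g).2 hg
        rw [this]
      · intro hg
        exact (QuotientGroup.eq_one_iff g).1 (he U hg)
    have k2 : g ∈ U'.1 ↔ e U' (g : G ⧸ U'.1) = one U' := by
      haveI := hN U'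
      constructor
      · intro hg
        have : (g : G ⧸ U'.1) = 1 := (QuotientGroup.eq_one_iff g).2 hg
        rw [this]
      · intro hg
        exact (QuotientGroup.eq_one_iff g).1 (he U' hg)
    rw [k1, k2, h6 g, h3]
  have hfin := Nat.card_le_card_of_injective Ψ hΨ
  refine hfin.trans (le_of_eq ?_)
  rw [Nat.card_prod, Nat.card_eq_fintype_card, Nat.card_eq_fintype_card, Fintype.card_fun,
    Fintype.card_fin, Fintype.card_coe]

end NilCut
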