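import Pool.Agent.Lib.MP_4ddf81_pr.Stm3

/-!
# Words with given increments: one letter
-/

set_option autoImplicit false

namespace NilCut

namespace PathEP

theorem st_eq {Q : Type} [Group Q] {k n : ℕ} {z : Fin k → Q} {q : Fin n → Q}
    {w : Fin n → Fin k} (h : ∀ j, z (w j) = q j) (j : ℕ) : st z w j = pst q j := by
  have : (fun i => z (w i)) = q := funext h
  unfold st pst
  rw [this]

open Classical in
theorem evc_eq {Q : Type} [Group Q] [Fintype Q] {k n : ℕ} {z : Fin k → Q} {q : Fin n → Q}
    {w : Fin n → Fin k} (h : ∀ j, z (w j) = q j) (c : Q → ℂ) (i : Fin k) :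
    evc c (cnt z w i) = ∏ j : Fin n, if w j = i then c (pst q j) else 1 := by
  have h1 : ∀ x : Q, c x ^ cnt z w i x =
      ∏ j : Fin n, if w j = i ∧ st z w j = x then c x else 1 := by
    intro x
    rw [Finset.prod_ite, Finset.prod_const, Finset.prod_const_one, mul_one]
    rfl
  unfold evc
  rw [Finset.prod_congr rfl fun x _ => h1 x, Finset.prod_comm]
  refine Finset.prod_congr rfl fun j _ => ?_
  by_cases hj : w j = i
  · rw [if_pos hj, ← st_eq h j]
    have : ∀ x : Q, (if w j = i ∧ st z w j = x then c x else 1) =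
        if x = st z w j then c x else 1 := by
      intro x
      by_cases hx : x = st z w j
      · rw [if_pos ⟨hj, hx.symm⟩, if_pos hx]
      · rw [if_neg (fun h' => hx h'.2.symm), if_neg hx]
    rw [Finset.prod_congr rfl fun x _ => this x, Finset.prod_ite_eq' Finset.univ (st z w j) c,
      if_pos (Finset.mem_univ _)]
  · rw [if_neg hj]
    exact Finset.prod_eq_one fun x _ => if_neg fun h' => hj h'.1

open Classical in
theorem words_eq {Q : Type} [Group Q] [Fintype Q] {k n : ℕ} (z : Fin k → Q) (q : Fin n → Q) :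
    (Finset.univ.filter fun w : Fin n → Fin k => ∀ j, z (w j) = q j) =
      Fintype.piFinset fun j => Finset.univ.filter fun l => z l = q j := by
  ext w
  simp [Fintype.mem_piFinset]

open Classical in
theorem sum_prod {Q : Type} [Group Q] [Fintype Q] {k n : ℕ} (z : Fin k → Q) (q : Fin n → Q)
    (g : Fin n → Fin k → ℂ) :
    ∑ w ∈ (Finset.univ.filter fun w : Fin n → Fin k => ∀ j, z (w j) = q j), ∏ j, g j (w j) =
      ∏ j, ∑ l ∈ Finset.univ.filter (fun l => z l = q j), g j l := by
  rw [Finset.prod_univ_sum, words_eq]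

open Classical in
theorem kq_eq {Q : Type} [Group Q] [Fintype Q] {k : ℕ} (z : Fin k → Q) (x : Q) :
    (kq z x : ℂ) = ∑ l ∈ Finset.univ.filter (fun l => z l = x), (1 : ℂ) := by
  rw [Finset.sum_const, nsmul_eq_mul, mul_one]
  unfold kq
  rw [Nat.card_eq_fintype_card, Fintype.card_subtype]

open Classical in
theorem filt_ite {Q : Type} {k : ℕ} (z : Fin k → Q) (i : Fin k) (x : Q) (y : ℂ) :
    (if i ∈ Finset.univ.filter (fun l => z l = x) then y else 0) = if x = z i then y else 0 := by
  have : (i ∈ Finset.univ.filter fun l => z l = x) ↔ x = z i := by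
    rw [Finset.mem_filter]
    exact ⟨fun h => h.2.symm, fun h => ⟨Finset.mem_univ _, h.symm⟩⟩
  by_cases h : x = z i
  · rw [if_pos (this.2 h), if_pos h]
  · rw [if_neg (fun h' => h (this.1 h')), if_neg h]

end PathEP

open PathEP

theorem p_PathE : S_PathE := by
  classical
  intro Q _ _ k n z q c i
  have h1 : ∀ w ∈ (Finset.univ.filter fun w : Fin n → Fin k => ∀ j, z (w j) = q j),
      evc c (cnt z w i) = ∏ j : Fin n, (fun (j : Fin n) l => if l = i then c (pst q j) else 1) j (w j) := by
    intro w hw
    exact evc_eq (Finset.mem_filter.1 hw).2 c i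
  rw [Finset.sum_congr rfl h1, sum_prod z q fun (j : Fin n) l => if l = i then c (pst q j) else 1]
  refine Finset.prod_congr rfl fun j _ => ?_
  rw [kq_eq]
  have h2 : ∀ l : Fin k, (if l = i then c (pst q j) else 1) =
      1 + if l = i then c (pst q j) - 1 else 0 := by
    intro l
    split_ifs <;> ring
  rw [Finset.sum_congr rfl fun l _ => h2 l, Finset.sum_add_distrib, Finset.sum_ite_eq']
  congr 1
  exact filt_ite z i (q j) _

end NilCut
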