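import Pool.Agent.Lib.MP_4ddf81_pr.P3.PathE

/-!
# Words with given increments: two letters
-/

set_option autoImplicit false

namespace NilCut

open PathEP

theorem p_PathP : S_PathP := by
  classical
  intro Q _ _ k n z q c i i' hne
  have h1 : ∀ w ∈ (Finset.univ.filter fun w : Fin n → Fin k => ∀ j, z (w j) = q j),
      evc c (cnt z w i) * (starRingEnd ℂ) (evc c (cnt z w i')) =
        ∏ j : Fin n, (fun (j : Fin n) l => (if l = i then c (pst q j) else 1) *
          if l = i' then (starRingEnd ℂ) (c (pst q j)) else 1) j (w j) := by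
    intro w hw
    rw [evc_eq (Finset.mem_filter.1 hw).2 c i, evc_eq (Finset.mem_filter.1 hw).2 c i', map_prod,
      ← Finset.prod_mul_distrib]
    refine Finset.prod_congr rfl fun j _ => ?_
    congr 1
    split_ifs
    · rfl
    · exact map_one _
  rw [Finset.sum_congr rfl h1, sum_prod z q fun (j : Fin n) l =>
    (if l = i then c (pst q j) else 1) * if l = i' then (starRingEnd ℂ) (c (pst q j)) else 1]
  refine Finset.prod_congr rfl fun j _ => ?_
  rw [kq_eq]
  have h2 : ∀ l : Fin k, (if l = i then c (pst q j) else 1) *
      (if l = i' then (starRingEnd ℂ) (c (pst q j)) else 1) =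
      1 + (if l = i then c (pst q j) - 1 else 0) +
        if l = i' then (starRingEnd ℂ) (c (pst q j)) - 1 else 0 := by
    intro l
    by_cases h : l = i
    · have h' : l ≠ i' := fun h' => hne (h.symm.trans h')
      rw [if_pos h, if_neg h', if_pos h, if_neg h']
      ring
    · rw [if_neg h, if_neg h]
      split_ifs <;> ring
  rw [Finset.sum_congr rfl fun l _ => h2 l, Finset.sum_add_distrib, Finset.sum_add_distrib,
    Finset.sum_ite_eq', Finset.sum_ite_eq']
  congr 1
  · congr 1
    exact filt_ite z i (q j) _
  · exact filt_ite z i' (q j) _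

end NilCut
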