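import Pool.Agent.Lib.MP_4ddf81_pr.Stm3

namespace NilCut

namespace PathVP

open ComplexConjugate

theorem term {ι : Type} (W : Finset ι) (e e' : ι → ℂ) (m m' : ℂ)
    (h1 : ∑ w ∈ W, e w = W.card * m) (h1' : ∑ w ∈ W, e' w = W.card * m') :
    ∑ w ∈ W, (e w - m) * conj (e' w - m') =
      ∑ w ∈ W, e w * conj (e' w) - W.card * (m * conj m') := by
  have h2 : ∑ w ∈ W, conj (e' w) = W.card * conj m' := by
    rw [← map_sum, h1', map_mul, Complex.conj_natCast]
  have h3 : ∀ w ∈ W, (e w - m) * conj (e' w - m') =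
      e w * conj (e' w) - m * conj (e' w) - conj m' * e w + m * conj m' := by
    intro w _
    rw [map_sub]
    ring
  rw [Finset.sum_congr rfl h3, Finset.sum_add_distrib, Finset.sum_sub_distrib,
    Finset.sum_sub_distrib, ← Finset.mul_sum, ← Finset.mul_sum, h1, h2, Finset.sum_const,
    nsmul_eq_mul]
  ring

theorem core {k : ℕ} {ι : Type} (W : Finset ι) (e : Fin k → ι → ℂ) (m : Fin k → ℂ)
    (he : ∀ i w, ‖e i w‖ = 1) (h1 : ∀ i, ∑ w ∈ W, e i w = W.card * m i)
    (h2 : ∀ i i', i ≠ i' →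
      (∑ w ∈ W, e i w * conj (e i' w) - W.card * (m i * conj (m i'))).re ≤ 0) :
    ∑ w ∈ W, ‖∑ i, e i w - ∑ i, m i‖ ^ 2 ≤ (k : ℝ) * (W.card : ℝ) := by
  have h3 : ∀ w ∈ W, ‖∑ i, e i w - ∑ i, m i‖ ^ 2 =
      ∑ i, ∑ i', ((e i w - m i) * conj (e i' w - m i')).re := by
    intro w _
    rw [← Finset.sum_sub_distrib]
    have h4 : ((‖∑ i, (e i w - m i)‖ ^ 2 : ℝ) : ℂ) =
        ∑ i, ∑ i', (e i w - m i) * conj (e i' w - m i') := by
      rw [← Finset.sum_mul_sum, ← map_sum, Complex.mul_conj, Complex.normSq_eq_norm_sq]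
    have h5 := congrArg Complex.re h4
    rw [Complex.ofReal_re, Complex.re_sum] at h5
    rw [h5]
    exact Finset.sum_congr rfl fun i _ => Complex.re_sum _ _
  rw [Finset.sum_congr rfl h3, Finset.sum_comm]
  have h6 : ∀ i, ∑ w ∈ W, ∑ i', ((e i w - m i) * conj (e i' w - m i')).re ≤ (W.card : ℝ) := by
    intro i
    rw [Finset.sum_comm]
    have h7 : ∀ i' ∈ (Finset.univ : Finset (Fin k)),
        ∑ w ∈ W, ((e i w - m i) * conj (e i' w - m i')).re ≤
          if i' = i then (W.card : ℝ) else 0 := by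
      intro i' _
      rw [← Complex.re_sum, term W (e i) (e i') (m i) (m i') (h1 i) (h1 i')]
      split_ifs with h8
      · subst h8
        have h9 : ∀ w ∈ W, e i' w * conj (e i' w) = 1 := by
          intro w _
          rw [Complex.mul_conj, Complex.normSq_eq_norm_sq, he]
          norm_num
        rw [Finset.sum_congr rfl h9, Finset.sum_const, nsmul_eq_mul, mul_one, Complex.mul_conj,
          Complex.normSq_eq_norm_sq, Complex.sub_re, Complex.natCast_re]
        have h10 : ((W.card : ℂ) * ((‖m i'‖ ^ 2 : ℝ) : ℂ)).re = (W.card : ℝ) * ‖m i'‖ ^ 2 := by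
          rw [Complex.re_mul_ofReal, Complex.natCast_re]
        rw [h10]
        have h11 : 0 ≤ (W.card : ℝ) * ‖m i'‖ ^ 2 := by positivity
        linarith
      · exact h2 i i' (Ne.symm h8)
    refine (Finset.sum_le_sum h7).trans ?_
    rw [Finset.sum_ite_eq' Finset.univ i, if_pos (Finset.mem_univ i)]
  refine (Finset.sum_le_sum fun i _ => h6 i).trans ?_
  rw [Finset.sum_const, Finset.card_univ, Fintype.card_fin, nsmul_eq_mul]

theorem prodmul {n : ℕ} (κ : Fin n → ℝ) (hκ : ∀ j, 4 ≤ κ j) (A : Fin n → ℂ) :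
    ∏ j, ((κ j : ℂ) + A j) = (∏ j, (κ j : ℂ)) * ∏ j, (1 + A j / (κ j : ℂ)) := by
  rw [← Finset.prod_mul_distrib]
  refine Finset.prod_congr rfl fun j _ => ?_
  have : (κ j : ℂ) ≠ 0 := by
    have := hκ j
    exact_mod_cast (by linarith : (κ j : ℝ) ≠ 0)
  field_simp

theorem offd {n : ℕ} (κ : Fin n → ℝ) (hκ : ∀ j, 4 ≤ κ j) (A B : Fin n → ℂ)
    (h : (∀ j, A j * conj (B j) = 0) ∨ (∀ j, A j = B j ∧ -2 ≤ (A j).re)) :
    (∏ j, ((κ j : ℂ) + A j + conj (B j)) - (∏ j, (κ j : ℂ)) *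
      ((∏ j, (1 + A j / (κ j : ℂ))) * conj (∏ j, (1 + B j / (κ j : ℂ))))).re ≤ 0 := by
  have h0 : ∀ j, (κ j : ℂ) ≠ 0 := fun j => by
    have := hκ j
    exact_mod_cast (by linarith : (κ j : ℝ) ≠ 0)
  have h1 : (∏ j, (κ j : ℂ)) *
      ((∏ j, (1 + A j / (κ j : ℂ))) * conj (∏ j, (1 + B j / (κ j : ℂ)))) =
      ∏ j, ((κ j : ℂ) + A j + conj (B j) + A j * conj (B j) / (κ j : ℂ)) := by
    rw [map_prod, ← Finset.prod_mul_distrib, ← Finset.prod_mul_distrib]
    refine Finset.prod_congr rfl fun j _ => ?_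
    rw [map_add, map_one, map_div₀, Complex.conj_ofReal]
    have := h0 j
    field_simp
    ring
  rw [h1]
  rcases h with h | h
  · have h2 : ∀ j ∈ (Finset.univ : Finset (Fin n)),
        ((κ j : ℂ) + A j + conj (B j) + A j * conj (B j) / (κ j : ℂ)) =
        (κ j : ℂ) + A j + conj (B j) := by
      intro j _
      rw [h j, zero_div, add_zero]
    rw [Finset.prod_congr rfl h2, sub_self, Complex.zero_re]
  · have h2 : ∀ j ∈ (Finset.univ : Finset (Fin n)), (κ j : ℂ) + A j + conj (B j) =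
        ((κ j + 2 * (A j).re : ℝ) : ℂ) := by
      intro j _
      rw [← (h j).1, add_assoc, Complex.add_conj]
      push_cast
      ring
    have h3 : ∀ j ∈ (Finset.univ : Finset (Fin n)),
        ((κ j : ℂ) + A j + conj (B j) + A j * conj (B j) / (κ j : ℂ)) =
        ((κ j + 2 * (A j).re + ‖A j‖ ^ 2 / κ j : ℝ) : ℂ) := by
      intro j hj
      rw [h2 j hj, ← (h j).1, Complex.mul_conj, Complex.normSq_eq_norm_sq]
      push_cast
      ring
    rw [Finset.prod_congr rfl h2, Finset.prod_congr rfl h3, ← Complex.ofReal_prod,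
      ← Complex.ofReal_prod, ← Complex.ofReal_sub, Complex.ofReal_re, sub_nonpos]
    refine Finset.prod_le_prod (fun j _ => ?_) (fun j _ => ?_)
    · have := hκ j
      have := (h j).2
      linarith
    · have h4 : 0 ≤ ‖A j‖ ^ 2 / κ j := div_nonneg (sq_nonneg _) (by have := hκ j; linarith)
      linarith

theorem evc_norm {Q : Type} [Fintype Q] (c : Q → ℂ) (hc : ∀ x, ‖c x‖ = 1) (N : Q → ℕ) :
    ‖evc c N‖ = 1 := by
  unfold evc
  rw [norm_prod]
  refine Finset.prod_eq_one fun x _ => ?_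
  rw [norm_pow, hc, one_pow]

end PathVP

open PathVP ComplexConjugate in
open Classical in
theorem p_PathV (h1 : S_PathE) (h2 : S_PathP) : S_PathV := by
  intro Q _ _ k n z q c hc hκ
  obtain ⟨κ, hκd⟩ : ∃ κ : Fin n → ℝ, ∀ j, κ j = (kq z (q j) : ℝ) := ⟨_, fun _ => rfl⟩
  have hκc : ∀ j, (κ j : ℂ) = (kq z (q j) : ℂ) := fun j => by rw [hκd]; push_cast; rfl
  have hκ4 : ∀ j, 4 ≤ κ j := fun j => by
    rw [hκd]
    exact_mod_cast hκ (q j)
  obtain ⟨A, hA⟩ : ∃ A : Fin k → Fin n → ℂ, ∀ i j, A i j =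
      if q j = z i then c (pst q j) - 1 else 0 := ⟨_, fun _ _ => rfl⟩
  have hm : ∀ i, mPath z q c i = ∏ j, (1 + A i j / (κ j : ℂ)) := by
    intro i
    unfold mPath
    refine Finset.prod_congr rfl fun j _ => ?_
    rw [hA, hκc]
    split_ifs
    · rfl
    · rw [zero_div]
  obtain ⟨W, hW⟩ : ∃ W : Finset (Fin n → Fin k),
      W = Finset.univ.filter fun w : Fin n → Fin k => ∀ j, z (w j) = q j := ⟨_, rfl⟩
  have hE : ∀ i, ∑ w ∈ W, evc c (cnt z w i) = ∏ j, ((κ j : ℂ) + A i j) := by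
    intro i
    rw [hW, h1 Q k n z q c i]
    exact Finset.prod_congr rfl fun j _ => by rw [hA, hκc]
  have hP : ∀ i i', i ≠ i' → ∑ w ∈ W, evc c (cnt z w i) * conj (evc c (cnt z w i')) =
      ∏ j, ((κ j : ℂ) + A i j + conj (A i' j)) := by
    intro i i' hi
    rw [hW, h2 Q k n z q c i i' hi]
    refine Finset.prod_congr rfl fun j _ => ?_
    rw [hA, hA, hκc]
    congr 1
    split_ifs
    · rw [map_sub, map_one]
    · rw [map_zero]
  have hcard : ∀ _ : Fin k, (W.card : ℂ) = ∏ j, (κ j : ℂ) := by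
    intro i
    have h3 := h1 Q k n z q (fun _ => 1) i
    rw [← hW] at h3
    have h4 : ∀ w ∈ W, evc (fun _ : Q => (1 : ℂ)) (cnt z w i) = 1 := by
      intro w _
      unfold evc
      exact Finset.prod_eq_one fun x _ => one_pow _
    rw [Finset.sum_congr rfl h4, Finset.sum_const, nsmul_eq_mul, mul_one] at h3
    rw [h3]
    refine Finset.prod_congr rfl fun j _ => ?_
    rw [hκc, sub_self, ite_self, add_zero]
  rw [← hW]
  refine core W (fun i w => evc c (cnt z w i)) (fun i => mPath z q c i)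
    (fun i w => evc_norm c hc _) (fun i => ?_) (fun i i' hi => ?_)
  · beta_reduce
    rw [hE, hm, hcard i, prodmul κ hκ4]
  · beta_reduce
    rw [hP i i' hi, hm, hm, hcard i]
    refine offd κ hκ4 (A i) (A i') ?_
    by_cases hz : z i = z i'
    · right
      intro j
      refine ⟨by rw [hA, hA, hz], ?_⟩
      rw [hA]
      split_ifs
      · have h5 := Complex.abs_re_le_norm (c (pst q j))
        rw [hc] at h5
        have h6 := (abs_le.1 h5).1
        rw [Complex.sub_re, Complex.one_re]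
        linarith
      · simp
    · left
      intro j
      rw [hA, hA]
      by_cases h5 : q j = z i
      · rw [if_neg (fun h6 : q j = z i' => hz (h5.symm.trans h6)), map_zero, mul_zero]
      · rw [if_neg h5, zero_mul]

end NilCut
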