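import Pool.Agent.Lib.MP_4ddf81_pr.Stm3

/-!
# MP_4ddf81_pr, stage 3 : a product of factors close to one
-/

namespace NilCut

open Filter Topology

theorem p_PrExp : S_PrExp := by
  intro n u L a b hu ha hb hab
  have hne : ∀ j, (1 : ℂ) + u j ≠ 0 := by
    intro j h
    have h1 : u j = -1 := by linear_combination h
    have h2 := hu j
    rw [h1, norm_neg, norm_one] at h2
    norm_num at h2
  have hlog : ∀ j, ‖Complex.log (1 + u j) - u j‖ ≤ ‖u j‖ ^ 2 := by
    intro j
    have h1 : ‖u j‖ < 1 := lt_of_le_of_lt (hu j) (by norm_num)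
    refine (Complex.norm_log_one_add_sub_self_le h1).trans ?_
    have h2 : (1 - ‖u j‖)⁻¹ ≤ 2 := by
      rw [inv_le_comm₀ (by linarith) two_pos]
      have := hu j
      linarith
    have h3 : 0 ≤ ‖u j‖ ^ 2 := by positivity
    nlinarith
  have hprod : ∏ j, (1 + u j) = Complex.exp (∑ j, Complex.log (1 + u j)) := by
    rw [Complex.exp_sum]
    exact Finset.prod_congr rfl fun j _ => (Complex.exp_log (hne j)).symm
  set e : ℂ := ∑ j, Complex.log (1 + u j) - L with he
  have he1 : ‖e‖ ≤ 1 / 4 := by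
    have h1 : e = (∑ j, (Complex.log (1 + u j) - u j)) + (∑ j, u j - L) := by
      rw [he, Finset.sum_sub_distrib]
      ring
    rw [h1]
    calc ‖(∑ j, (Complex.log (1 + u j) - u j)) + (∑ j, u j - L)‖
        ≤ ‖∑ j, (Complex.log (1 + u j) - u j)‖ + ‖∑ j, u j - L‖ := norm_add_le _ _
      _ ≤ ∑ j, ‖u j‖ ^ 2 + b := by
          refine add_le_add ((norm_sum_le _ _).trans ?_) hb
          exact Finset.sum_le_sum fun j _ => hlog j
      _ ≤ 1 / 4 := by linarith
  have h2 : Complex.exp (∑ j, Complex.log (1 + u j)) - Complex.exp L =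
      Complex.exp L * (Complex.exp e - 1) := by
    rw [mul_sub, ← Complex.exp_add, mul_one]
    congr 2
    rw [he]
    ring
  have h3 : ‖Complex.exp e - 1‖ ≤ 1 / 3 := by
    have h4 := Complex.norm_exp_sub_one_sub_id_le (x := e) (by linarith)
    have h5 : Complex.exp e - 1 = (Complex.exp e - 1 - e) + e := by ring
    rw [h5]
    have h6 := norm_add_le (Complex.exp e - 1 - e) e
    have h7 : 0 ≤ ‖e‖ := norm_nonneg e
    nlinarith
  rw [hprod, h2, norm_mul, Complex.norm_exp, mul_comm]
  exact mul_le_mul_of_nonneg_right h3 (Real.exp_pos _).le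

end NilCut
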