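import Pool.Agent.Lib.MP_4ddf81_pr.Stm3

namespace NilCut

namespace PrPP

theorem prod_ge {G : Type} [Group G] (P : Subgroup G) [DecidablePred (· ∈ P)] (k : ℕ)
    (θ : ℝ) (hθ : 0 < θ) (hθ1 : θ ≤ 1) (Z : Fin k → G) (I : Finset (Fin k))
    (hI : ∀ i ∈ I, Z i ∈ P) (x : ℝ) (hx : (k : ℝ) - I.card ≤ x) :
    θ ^ x ≤ ∏ i, (if Z i ∈ P then (1 : ℝ) else θ) := by
  classical
  have h1 : ∏ i : Fin k, (if i ∈ I then (1 : ℝ) else θ) ≤ ∏ i, (if Z i ∈ P then (1 : ℝ) else θ) := by
    apply Finset.prod_le_prod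
    · intro i _
      split_ifs
      · exact zero_le_one
      · exact hθ.le
    · intro i _
      by_cases h : i ∈ I
      · rw [if_pos h, if_pos (hI i h)]
      · rw [if_neg h]
        split_ifs
        · exact hθ1
        · exact le_rfl
  have h2 : ∏ i : Fin k, (if i ∈ I then (1 : ℝ) else θ) = θ ^ (k - I.card) := by
    rw [Finset.prod_ite, Finset.prod_const_one, one_mul, Finset.prod_const]
    congr 1
    have h3 : (Finset.univ.filter (fun i : Fin k => i ∉ I)) = Iᶜ := by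
      ext i
      simp
    rw [h3, Finset.card_compl, Fintype.card_fin]
  have hIk : I.card ≤ k := by
    have := Finset.card_le_univ I
    rwa [Fintype.card_fin] at this
  refine le_trans ?_ (h2 ▸ h1)
  rw [← Real.rpow_natCast θ (k - I.card), Nat.cast_sub hIk]
  exact Real.rpow_le_rpow_of_exponent_ge hθ hθ1 hx

end PrPP

theorem p_PrP : S_PrP := by
  classical
  intro G _ _ P k γ hγ hγ1
  have hJ0 : P.index ≠ 0 := P.index_ne_zero_of_finite
  have hJ1 : (1 : ℝ) ≤ (P.index : ℝ) := by exact_mod_cast Nat.one_le_iff_ne_zero.mpr hJ0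
  set J : ℝ := (P.index : ℝ) with hJ
  have hJpos : 0 < J := by linarith
  set θ : ℝ := γ / J with hθdef
  have hθ : 0 < θ := div_pos hγ hJpos
  have hθ1 : θ ≤ 1 := by
    rw [hθdef, div_le_one hJpos]
    linarith
  have hcardP : (Nat.card P : ℝ) * J = (Nat.card G : ℝ) := by
    rw [hJ]
    exact_mod_cast P.card_mul_index
  have hsumf : ∑ g : G, (if g ∈ P then (1 : ℝ) else θ) ≤ (Nat.card P : ℝ) + θ * (Nat.card G : ℝ) := by
    calc ∑ g : G, (if g ∈ P then (1 : ℝ) else θ) ≤ ∑ g : G, ((if g ∈ P then (1 : ℝ) else 0) + θ) := by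
          apply Finset.sum_le_sum
          intro g _
          split_ifs
          · linarith
          · linarith
      _ = (Nat.card P : ℝ) + θ * (Nat.card G : ℝ) := by
          rw [Finset.sum_add_distrib, Finset.sum_const, Finset.card_univ, nsmul_eq_mul,
            Finset.sum_boole, Nat.card_eq_fintype_card (α := G)]
          have : ((Finset.univ.filter (fun g : G => g ∈ P)).card : ℝ) = (Nat.card P : ℝ) := by
            rw [Nat.card_eq_fintype_card]
            norm_cast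
            exact (Fintype.card_subtype _).symm
          rw [this]
          ring
  have hcount : (Nat.card {Z : Fin k → G // ∃ I : Finset (Fin k), (1 - γ) * (k : ℝ) ≤ (I.card : ℝ) ∧
      ∀ i ∈ I, Z i ∈ P} : ℝ) ≤ (θ ^ (γ * (k : ℝ)))⁻¹ *
        ∑ Z : Fin k → G, ∏ i, (if Z i ∈ P then (1 : ℝ) else θ) := by
    rw [Nat.card_eq_fintype_card, Fintype.card_subtype, Finset.card_eq_sum_ones, Nat.cast_sum,
      Finset.mul_sum]
    have hpos : 0 < θ ^ (γ * (k : ℝ)) := Real.rpow_pos_of_pos hθ _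
    have hprodnn : ∀ Z : Fin k → G, 0 ≤ ∏ i, (if Z i ∈ P then (1 : ℝ) else θ) := by
      intro Z
      apply Finset.prod_nonneg
      intro i _
      split_ifs
      · exact zero_le_one
      · exact hθ.le
    calc _ ≤ ∑ Z ∈ Finset.univ.filter (fun Z : Fin k → G => ∃ I : Finset (Fin k),
            (1 - γ) * (k : ℝ) ≤ (I.card : ℝ) ∧ ∀ i ∈ I, Z i ∈ P),
            (θ ^ (γ * (k : ℝ)))⁻¹ * ∏ i, (if Z i ∈ P then (1 : ℝ) else θ) := by
          apply Finset.sum_le_sum
          intro Z hZ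
          rw [Finset.mem_filter] at hZ
          obtain ⟨-, I, hI1, hI2⟩ := hZ
          have h1 := PrPP.prod_ge P k θ hθ hθ1 Z I hI2 (γ * (k : ℝ)) (by linarith)
          rw [Nat.cast_one, inv_mul_eq_div, one_le_div hpos]
          exact h1
      _ ≤ _ := by
          apply Finset.sum_le_sum_of_subset_of_nonneg (Finset.filter_subset _ _)
          intro Z _ _
          exact mul_nonneg (inv_nonneg.mpr hpos.le) (hprodnn Z)
  have hsp : ∑ Z : Fin k → G, ∏ i, (if Z i ∈ P then (1 : ℝ) else θ) =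
      (∑ g : G, (if g ∈ P then (1 : ℝ) else θ)) ^ k :=
    (Fintype.sum_pow (fun g : G => if g ∈ P then (1 : ℝ) else θ) k).symm
  rw [hsp] at hcount
  have hGnn : (0 : ℝ) ≤ (Nat.card G : ℝ) := Nat.cast_nonneg _
  have hsumnn : 0 ≤ ∑ g : G, (if g ∈ P then (1 : ℝ) else θ) := by
    apply Finset.sum_nonneg
    intro g _
    split_ifs
    · exact zero_le_one
    · exact hθ.le
  have hpos : 0 < θ ^ (γ * (k : ℝ)) := Real.rpow_pos_of_pos hθ _
  have hpow : (∑ g : G, (if g ∈ P then (1 : ℝ) else θ)) ^ k * J ^ k ≤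
      (Nat.card G : ℝ) ^ k * Real.exp (γ * (k : ℝ)) := by
    rw [← mul_pow]
    have h1 : (∑ g : G, (if g ∈ P then (1 : ℝ) else θ)) * J ≤ (Nat.card G : ℝ) * Real.exp γ := by
      calc (∑ g : G, (if g ∈ P then (1 : ℝ) else θ)) * J
          ≤ ((Nat.card P : ℝ) + θ * (Nat.card G : ℝ)) * J := mul_le_mul_of_nonneg_right hsumf hJpos.le
        _ = (Nat.card G : ℝ) * (γ + 1) := by
            have h2 : θ * J = γ := by
              rw [hθdef]
              field_simp
            calc ((Nat.card P : ℝ) + θ * (Nat.card G : ℝ)) * J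
                = (Nat.card P : ℝ) * J + (θ * J) * (Nat.card G : ℝ) := by ring
              _ = (Nat.card G : ℝ) * (γ + 1) := by rw [hcardP, h2]; ring
        _ ≤ (Nat.card G : ℝ) * Real.exp γ := mul_le_mul_of_nonneg_left (Real.add_one_le_exp γ) hGnn
    calc ((∑ g : G, (if g ∈ P then (1 : ℝ) else θ)) * J) ^ k
        ≤ ((Nat.card G : ℝ) * Real.exp γ) ^ k :=
          pow_le_pow_left₀ (mul_nonneg hsumnn hJpos.le) h1 k
      _ = (Nat.card G : ℝ) ^ k * Real.exp (γ * (k : ℝ)) := by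
          rw [mul_pow, ← Real.exp_nat_mul, mul_comm (k : ℝ) γ]
  have hfin : ((Real.exp 1 / γ) * J) ^ (γ * (k : ℝ)) =
      (θ ^ (γ * (k : ℝ)))⁻¹ * Real.exp (γ * (k : ℝ)) := by
    have h1 : (Real.exp 1 / γ) * J = θ⁻¹ * Real.exp 1 := by
      rw [hθdef]
      field_simp
    rw [h1, Real.mul_rpow (inv_nonneg.mpr hθ.le) (Real.exp_pos 1).le, Real.inv_rpow hθ.le,
      Real.exp_one_rpow]
  rw [hfin]
  calc _ ≤ (θ ^ (γ * (k : ℝ)))⁻¹ * (∑ g : G, (if g ∈ P then (1 : ℝ) else θ)) ^ k * J ^ k :=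
        mul_le_mul_of_nonneg_right hcount (pow_nonneg hJpos.le k)
    _ = (θ ^ (γ * (k : ℝ)))⁻¹ * ((∑ g : G, (if g ∈ P then (1 : ℝ) else θ)) ^ k * J ^ k) := by ring
    _ ≤ (θ ^ (γ * (k : ℝ)))⁻¹ * ((Nat.card G : ℝ) ^ k * Real.exp (γ * (k : ℝ))) :=
        mul_le_mul_of_nonneg_left hpow (inv_nonneg.mpr hpos.le)
    _ = _ := by ring

end NilCut
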