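import Pool.Agent.Lib.MP_4ddf81_pr.Stm3
import Pool.Agent.Lib.MP_4ddf81_pr.P2.QF2
import Pool.Agent.Lib.MP_4ddf81_pr.P2.QF4
import Pool.Agent.Lib.MP_4ddf81_pr.P2.Anti

/-! # MP_4ddf81_pr, stage 3, piece QF5: decay in continuous time. -/

namespace NilCut

namespace QF5P

open Filter Topology

variable {G : Type} [Group G] [Fintype G]

/-- The step operator as a real continuous linear map. -/
noncomputable def Tc {k : ℕ} (Z : Fin k → G) : (G → ℂ) →L[ℝ] (G → ℂ) :=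
  LinearMap.toContinuousLinearMap
    { toFun := fun v => TZ Z v
      map_add' := by
        intro v w
        funext g
        simp only [TZ, Pi.add_apply, Finset.sum_add_distrib, mul_add]
      map_smul' := by
        intro c v
        funext g
        simp only [TZ, Pi.smul_apply, RingHom.id_apply, Finset.mul_sum, Complex.real_smul]
        refine Finset.sum_congr rfl fun i _ => ?_
        ring }

theorem Tc_apply {k : ℕ} (Z : Fin k → G) (v : G → ℂ) (g : G) : Tc Z v g = TZ Z v g := rfl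

/-- The semigroup applied to `v`. -/
noncomputable def U {k : ℕ} (Z : Fin k → G) (v : G → ℂ) (s : ℝ) : G → ℂ :=
  Real.exp (-s) • (NormedSpace.exp (s • Tc Z)) v

theorem U_deriv {k : ℕ} (Z : Fin k → G) (v : G → ℂ) (s : ℝ) :
    HasDerivAt (U Z v) (Tc Z (U Z v s) - U Z v s) s := by
  have h1 : HasDerivAt (fun x : ℝ => NormedSpace.exp (x • Tc Z))
      (Tc Z * NormedSpace.exp (s • Tc Z)) s := hasDerivAt_exp_smul_const' (Tc Z) s
  have h2 : HasDerivAt (fun x : ℝ => (NormedSpace.exp (x • Tc Z)) v)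
      ((Tc Z * NormedSpace.exp (s • Tc Z)) v) s := by
    have := h1.clm_apply (hasDerivAt_const s v)
    simpa using this
  have h3 : HasDerivAt (fun x : ℝ => Real.exp (-x)) (-Real.exp (-s)) s := by
    simpa using (hasDerivAt_neg s).exp
  have h4 := h3.smul h2
  have e : (Tc Z (U Z v s) - U Z v s) = Real.exp (-s) • (Tc Z * NormedSpace.exp (s • Tc Z)) v +
      (-Real.exp (-s)) • (NormedSpace.exp (s • Tc Z)) v := by
    unfold U
    rw [map_smul, neg_smul, ← sub_eq_add_neg]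
    rfl
  rw [e]
  exact h4

theorem pow_smul_apply {k : ℕ} (Z : Fin k → G) (v : G → ℂ) (s : ℝ) (n : ℕ) :
    ((s • Tc Z) ^ n) v = s ^ n • (((Tc Z) ^ n) v) := by
  induction n with
  | zero => rw [pow_zero, pow_zero, pow_zero, one_smul]
  | succ n ih =>
    have e1 : ((s • Tc Z) ^ (n + 1)) v = s • Tc Z (((s • Tc Z) ^ n) v) := by
      rw [pow_succ']
      rfl
    have e2 : ((Tc Z) ^ (n + 1)) v = Tc Z (((Tc Z) ^ n) v) := by
      rw [pow_succ']
      rfl
    rw [e1, e2, ih, map_smul, smul_smul, ← pow_succ']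

theorem U_hasSum {k : ℕ} (Z : Fin k → G) (v : G → ℂ) (s : ℝ) (g : G) :
    HasSum (fun n : ℕ => (pois s n : ℂ) * (((Tc Z) ^ n) v) g) (U Z v s g) := by
  have h1 := NormedSpace.exp_series_hasSum_exp' (𝕂 := ℝ) (s • Tc Z)
  have h2 : HasSum (fun n : ℕ => (((n.factorial : ℝ)⁻¹ • (s • Tc Z) ^ n) v) g)
      ((NormedSpace.exp (s • Tc Z)) v g) := by
    have h3 := h1.mapL ((ContinuousLinearMap.proj (R := ℝ) (φ := fun _ : G => ℂ) g).comp
      (ContinuousLinearMap.apply ℝ (G → ℂ) v))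
    simpa using h3
  have h4 := h2.mul_left ((Real.exp (-s) : ℝ) : ℂ)
  have e : U Z v s g = ((Real.exp (-s) : ℝ) : ℂ) * (NormedSpace.exp (s • Tc Z)) v g := by
    unfold U
    rw [Pi.smul_apply, Complex.real_smul]
  rw [e]
  have e2 : (fun n : ℕ => (pois s n : ℂ) * (((Tc Z) ^ n) v) g) =
      fun n : ℕ => ((Real.exp (-s) : ℝ) : ℂ) *
        (((n.factorial : ℝ)⁻¹ • (s • Tc Z) ^ n) v) g := by
    funext n
    have e3 : (((n.factorial : ℝ)⁻¹ • (s • Tc Z) ^ n) v) g =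
        (((n.factorial : ℝ)⁻¹ * s ^ n : ℝ) : ℂ) * (((Tc Z) ^ n) v) g := by
      have e4 : (((n.factorial : ℝ)⁻¹ • (s • Tc Z) ^ n) v) =
          (n.factorial : ℝ)⁻¹ • (((s • Tc Z) ^ n) v) := rfl
      rw [e4, pow_smul_apply, smul_smul, Pi.smul_apply, Complex.real_smul]
    rw [e3, ← mul_assoc, ← Complex.ofReal_mul]
    congr 2
    unfold pois
    ring
  rw [e2]
  exact h4

/-- The vector of the law at time `s`. -/
theorem VV_law {k : ℕ} (hk : 0 < k) (Z : Fin k → G) (H : Subgroup G) (lam : H →* ℂˣ)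
    (μ : G → ℝ) (y : G) {s : ℝ} (hs : 0 ≤ s) :
    VV H lam (conv (law Z s) μ) y = U Z (VV H lam μ y) s := by
  funext g
  have h1 : HasSum (fun n : ℕ => ∑ h : G, (((pois s n * stepLaw Z n h : ℝ)) : ℂ) *
      VV H lam μ y (h⁻¹ * g)) (∑ h : G, ((law Z s h : ℝ) : ℂ) * VV H lam μ y (h⁻¹ * g)) := by
    refine hasSum_sum fun h _ => ?_
    refine HasSum.mul_right _ ?_
    exact Complex.hasSum_ofReal.2 (T2.law_hasSum hk Z hs h)
  rw [QF2.vv_left]
  refine h1.unique ?_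
  have h2 : ∀ n : ℕ, ((Tc Z) ^ n) (VV H lam μ y) = VV H lam (conv (stepLaw Z n) μ) y := by
    intro n
    induction n with
    | zero => rw [QF4.conv_zero, pow_zero]; rfl
    | succ n ih =>
      rw [pow_succ']
      funext g
      rw [QF4.VV_succ, ← ih]
      rfl
  have h3 : ∀ n : ℕ, ∑ h : G, (((pois s n * stepLaw Z n h : ℝ)) : ℂ) * VV H lam μ y (h⁻¹ * g) =
      (pois s n : ℂ) * (((Tc Z) ^ n) (VV H lam μ y)) g := by
    intro n
    rw [h2, QF2.vv_left, Finset.mul_sum]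
    refine Finset.sum_congr rfl fun h _ => ?_
    push_cast
    ring
  simp only [h3]
  exact U_hasSum Z _ s g

/-- The energy identity. -/
theorem energy {k : ℕ} (hk : 0 < k) (Z : Fin k → G) (v : G → ℂ) :
    ∑ g : G, 2 * inner ℝ (v g) (TZ Z v g - v g) =
      -((1 / (k : ℝ)) * ∑ i : Fin k, ∑ g : G, ‖v ((Z i)⁻¹ * g) - v g‖ ^ 2) := by
  have hk' : (k : ℝ) ≠ 0 := by exact_mod_cast hk.ne'
  have h1 : ∀ g : G, TZ Z v g - v g = (1 / (k : ℝ)) • ∑ i : Fin k, (v ((Z i)⁻¹ * g) - v g) := by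
    intro g
    rw [Finset.sum_sub_distrib, Finset.sum_const, Finset.card_univ, Fintype.card_fin, smul_sub]
    unfold TZ
    rw [Complex.real_smul, Complex.real_smul, nsmul_eq_mul]
    push_cast
    have hk2 : (k : ℂ) ≠ 0 := by exact_mod_cast hk.ne'
    field_simp
  have h2 : ∀ a b : ℂ, 2 * inner ℝ a (b - a) = ‖b‖ ^ 2 - ‖a‖ ^ 2 - ‖b - a‖ ^ 2 := by
    intro a b
    rw [inner_sub_right, real_inner_self_eq_norm_sq, @norm_sub_sq_real, real_inner_comm a b]
    ring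
  have h3 : ∀ g : G, 2 * inner ℝ (v g) (TZ Z v g - v g) =
      (1 / (k : ℝ)) * ∑ i : Fin k, (‖v ((Z i)⁻¹ * g)‖ ^ 2 - ‖v g‖ ^ 2 -
        ‖v ((Z i)⁻¹ * g) - v g‖ ^ 2) := by
    intro g
    rw [h1, inner_smul_right, inner_sum]
    rw [← mul_assoc, mul_comm 2, mul_assoc, Finset.mul_sum]
    congr 1
    exact Finset.sum_congr rfl fun i _ => h2 _ _
  rw [Finset.sum_congr rfl fun g _ => h3 g, ← Finset.mul_sum, Finset.sum_comm, ← mul_neg,
    ← Finset.sum_neg_distrib]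
  congr 1
  refine Finset.sum_congr rfl fun i _ => ?_
  rw [Finset.sum_sub_distrib, Finset.sum_sub_distrib]
  have h4 : ∑ g : G, ‖v ((Z i)⁻¹ * g)‖ ^ 2 = ∑ g : G, ‖v g‖ ^ 2 :=
    Fintype.sum_equiv (Equiv.mulLeft (Z i)⁻¹) _ _ fun g => rfl
  rw [h4]
  ring

theorem decay {k : ℕ} (hk : 0 < k) (Z : Fin k → G) (H : Subgroup G) (lam : H →* ℂˣ)
    (r : ℝ) (hgap : DGap Z H lam r) (v : G → ℂ) (hc : ∀ s : ℝ, 0 ≤ s → Cov H lam (U Z v s))
    {t : ℝ} (ht : 0 ≤ t) :
    ∑ g : G, ‖U Z v t g‖ ^ 2 ≤ Real.exp (-(2 * r * t)) * ∑ g : G, ‖v g‖ ^ 2 := by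
  have hk' : (0 : ℝ) < k := by exact_mod_cast hk
  set F : ℝ → ℝ := fun s => ∑ g : G, ‖U Z v s g‖ ^ 2 with hF
  have hd : ∀ s, HasDerivAt F
      (∑ g : G, 2 * inner ℝ (U Z v s g) (TZ Z (U Z v s) g - U Z v s g)) s := by
    intro s
    have h1 := U_deriv Z v s
    rw [hasDerivAt_pi] at h1
    have h2 := HasDerivAt.fun_sum (u := Finset.univ) fun g (_ : g ∈ Finset.univ) => (h1 g).norm_sq
    exact h2
  set K : ℝ → ℝ := fun s => Real.exp (2 * r * s) * F s with hK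
  have hKd : ∀ s, HasDerivAt K (Real.exp (2 * r * s) * (2 * r) * F s + Real.exp (2 * r * s) *
      (∑ g : G, 2 * inner ℝ (U Z v s g) (TZ Z (U Z v s) g - U Z v s g))) s := by
    intro s
    have h1 : HasDerivAt (fun s : ℝ => Real.exp (2 * r * s)) (Real.exp (2 * r * s) * (2 * r)) s := by
      have := ((hasDerivAt_id s).const_mul (2 * r)).exp
      simpa using this
    exact h1.mul (hd s)
  have hanti : AntitoneOn K (Set.Ici 0) := by
    refine antitoneOn_of_deriv_nonpos (convex_Ici 0)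
      (fun s _ => (hKd s).continuousAt.continuousWithinAt)
      (fun s _ => (hKd s).differentiableAt.differentiableWithinAt) ?_
    intro s hs
    rw [interior_Ici] at hs
    rw [(hKd s).deriv, energy hk]
    have h1 := hgap _ (hc s (le_of_lt hs))
    have h2 : 2 * r * F s ≤
        (1 / (k : ℝ)) * ∑ i : Fin k, ∑ g : G, ‖U Z v s ((Z i)⁻¹ * g) - U Z v s g‖ ^ 2 := by
      rw [one_div, inv_mul_eq_div, le_div_iff₀ hk']
      calc 2 * r * F s * k = 2 * r * k * ∑ g : G, ‖U Z v s g‖ ^ 2 := by rw [hF]; ring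
        _ ≤ _ := h1
    have h3 := Real.exp_pos (2 * r * s)
    nlinarith
  have h0 : K 0 = ∑ g : G, ‖v g‖ ^ 2 := by
    have h1 : U Z v 0 = v := by
      unfold U
      have e0 : (0 : ℝ) • Tc Z = 0 := by
        ext w g
        simp
      rw [e0, NormedSpace.exp_zero, neg_zero, Real.exp_zero, one_smul]
      rfl
    rw [hK]
    simp only [mul_zero, Real.exp_zero, one_mul, hF, h1]
  have h1 := hanti (Set.mem_Ici.2 le_rfl) (Set.mem_Ici.2 ht) ht
  rw [h0] at h1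
  have h2 : F t = Real.exp (-(2 * r * t)) * K t := by
    rw [hK]
    simp only
    rw [← mul_assoc, ← Real.exp_add]
    simp
  calc ∑ g : G, ‖U Z v t g‖ ^ 2 = Real.exp (-(2 * r * t)) * K t := h2
    _ ≤ _ := mul_le_mul_of_nonneg_left h1 (Real.exp_pos _).le

end QF5P

open QF5P in
theorem p_QF5 (h1 : S_QF1) : S_QF5 := by
  intro G _ _ H lam k Z r t μ hk _ ht hgap
  rw [h1, h1]
  have h3 : ∀ y : G, ∑ g : G, ‖VV H lam (conv (law Z t) μ) y g‖ ^ 2 ≤
      Real.exp (-(2 * r * t)) * ∑ g : G, ‖VV H lam μ y g‖ ^ 2 := by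
    intro y
    rw [VV_law hk Z H lam μ y ht]
    refine decay hk Z H lam r hgap _ (fun s hs => ?_) ht
    rw [← VV_law hk Z H lam μ y hs]
    exact QF4.VV_cov _ H lam y
  have h5 := Finset.sum_le_sum fun y (_ : y ∈ (Finset.univ : Finset G)) => h3 y
  rw [← Finset.mul_sum] at h5
  have h6 : 0 ≤ 1 / (Nat.card H : ℝ) ^ 2 := by positivity
  calc (1 / (Nat.card H : ℝ) ^ 2) *
        ∑ y : G, ∑ g : G, ‖VV H lam (conv (law Z t) μ) y g‖ ^ 2
      ≤ (1 / (Nat.card H : ℝ) ^ 2) * (Real.exp (-(2 * r * t)) *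
        ∑ y : G, ∑ g : G, ‖VV H lam μ y g‖ ^ 2) :=
        mul_le_mul_of_nonneg_left h5 h6
    _ = _ := by ring

end NilCut
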