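import Pool.Agent.Lib.MP_4ddf81_pr.Stm3

/-!
# MP_4ddf81_pr, stage 3 : the rate of decay
-/

namespace NilCut

open Filter Topology

namespace RateP

variable {G : Type} [Group G] [Fintype G]

/-- The energy of one letter, not normalised. -/
noncomputable def DD (h : G → ℂ) (z : G) : ℝ := ∑ g : G, ‖h (z⁻¹ * g) - h g‖ ^ 2

theorem DD_nonneg (h : G → ℂ) (z : G) : 0 ≤ DD h z :=
  Finset.sum_nonneg fun _ _ => sq_nonneg _

theorem sum_shift (h : G → ℂ) (z : G) : ∑ g : G, ‖h (z⁻¹ * g)‖ ^ 2 = ∑ g : G, ‖h g‖ ^ 2 :=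
  Fintype.sum_equiv (Equiv.mulLeft z⁻¹) _ _ fun _ => rfl

theorem norm_sub_sq' (x y : ℂ) :
    ‖x - y‖ ^ 2 = ‖x‖ ^ 2 + ‖y‖ ^ 2 - 2 * (x * (starRingEnd ℂ) y).re := by
  rw [Complex.sq_norm, Complex.sq_norm, Complex.sq_norm, Complex.normSq_sub]

theorem sum_norm_sub (h : G → ℂ) (a : ℂ) (N : ℝ) (hN : N = (Fintype.card G : ℝ)) :
    ∑ y : G, ‖h y - a‖ ^ 2 =
      ∑ y : G, ‖h y‖ ^ 2 + N * ‖a‖ ^ 2 - 2 * ((∑ y : G, h y) * (starRingEnd ℂ) a).re := by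
  simp only [norm_sub_sq']
  rw [Finset.sum_sub_distrib, Finset.sum_add_distrib, Finset.sum_const, Finset.card_univ,
    nsmul_eq_mul, hN, Finset.sum_mul, Complex.re_sum, Finset.mul_sum]

theorem sum_DD (h : G → ℂ) (h0 : ∑ g : G, h g = 0) :
    ∑ z : G, DD h z = 2 * (Fintype.card G : ℝ) * ∑ g : G, ‖h g‖ ^ 2 := by
  unfold DD
  rw [Finset.sum_comm]
  have h1 : ∀ g : G, ∑ z : G, ‖h (z⁻¹ * g) - h g‖ ^ 2 =
      ∑ y : G, ‖h y‖ ^ 2 + (Fintype.card G : ℝ) * ‖h g‖ ^ 2 := by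
    intro g
    have h2 : ∑ z : G, ‖h (z⁻¹ * g) - h g‖ ^ 2 = ∑ y : G, ‖h y - h g‖ ^ 2 :=
      Fintype.sum_equiv ((Equiv.inv G).trans (Equiv.mulRight g)) _ _ fun _ => rfl
    rw [h2, sum_norm_sub h (h g) _ rfl, h0]
    simp
  rw [Finset.sum_congr rfl fun g _ => h1 g, Finset.sum_add_distrib, Finset.sum_const,
    Finset.card_univ, nsmul_eq_mul, ← Finset.mul_sum]
  ring

theorem DD_mul {K : Subgroup G} [K.Normal] {h : G → ℂ} (hK : ∀ κ ∈ K, ∀ g, h (g * κ) = h g)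
    (z κ : G) (hκ : κ ∈ K) : DD h (z * κ) = DD h z := by
  unfold DD
  refine Finset.sum_congr rfl fun g _ => ?_
  have h1 : (z * κ)⁻¹ * g = (z⁻¹ * g) * ((z⁻¹ * g)⁻¹ * κ⁻¹ * (z⁻¹ * g)) := by group
  have h2 : (z⁻¹ * g)⁻¹ * κ⁻¹ * (z⁻¹ * g) ∈ K := by
    have h3 := Subgroup.Normal.conj_mem (H := K) inferInstance κ⁻¹ (K.inv_mem hκ) (z⁻¹ * g)⁻¹
    rw [inv_inv] at h3
    exact h3
  rw [h1, hK _ h2]

open Classical in
theorem sum_coset {K : Subgroup G} {F : G → ℝ} (hF : ∀ κ ∈ K, ∀ z, F (z * κ) = F z) (w : G) :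
    ∑ z : G, (if w⁻¹ * z ∈ K then F z else 0) = (Nat.card K : ℝ) * F w := by
  have h1 : ∑ z : G, (if w⁻¹ * z ∈ K then F z else 0) = ∑ y : G, if y ∈ K then F w else 0 := by
    symm
    refine Fintype.sum_equiv (Equiv.mulLeft w) _ _ fun y => ?_
    simp only [Equiv.coe_mulLeft, inv_mul_cancel_left]
    by_cases hy : y ∈ K
    · rw [if_pos hy, if_pos hy, hF y hy]
    · rw [if_neg hy, if_neg hy]
  rw [h1, ← Finset.sum_filter, Finset.sum_const, nsmul_eq_mul]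
  congr 2
  rw [Nat.card_eq_fintype_card, Fintype.card_subtype]

open Classical in
theorem count_ge {k : ℕ} (K : Subgroup G) [K.Normal] (Z : Fin k → G) (I : Finset (Fin k))
    (z : G) : (kq (fun i => (Z i : G ⧸ K)) (z : G ⧸ K) : ℝ) - ((k : ℝ) - (I.card : ℝ)) ≤
      ((I.filter fun i => (Z i)⁻¹ * z ∈ K).card : ℝ) := by
  have h1 : kq (fun i => (Z i : G ⧸ K)) (z : G ⧸ K) =
      (Finset.univ.filter fun i : Fin k => (Z i)⁻¹ * z ∈ K).card := by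
    unfold kq
    rw [Nat.card_eq_fintype_card, Fintype.card_subtype]
    congr 1
    ext i
    rw [Finset.mem_filter, Finset.mem_filter, QuotientGroup.eq]
  have h2 : (Finset.univ.filter fun i : Fin k => (Z i)⁻¹ * z ∈ K).card ≤
      (I.filter fun i => (Z i)⁻¹ * z ∈ K).card + (Finset.univ \ I).card := by
    refine (Finset.card_le_card ?_).trans (Finset.card_union_le _ _)
    intro i hi
    rw [Finset.mem_filter] at hi
    rw [Finset.mem_union, Finset.mem_filter, Finset.mem_sdiff]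
    by_cases h : i ∈ I
    · exact Or.inl ⟨h, hi.2⟩
    · exact Or.inr ⟨Finset.mem_univ _, h⟩
  have h3 : (Finset.univ \ I).card = k - I.card := by
    rw [Finset.card_sdiff_of_subset (Finset.subset_univ _), Finset.card_univ, Fintype.card_fin]
  have h4 : I.card ≤ k := by
    have := Finset.card_le_univ I
    rwa [Fintype.card_fin] at this
  rw [h3, ← h1] at h2
  have h5 : (kq (fun i => (Z i : G ⧸ K)) (z : G ⧸ K) : ℝ) ≤
      ((I.filter fun i => (Z i)⁻¹ * z ∈ K).card : ℝ) + ((k - I.card : ℕ) : ℝ) := by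
    exact_mod_cast h2
  rw [Nat.cast_sub h4] at h5
  linarith

theorem main_I {k : ℕ} (K : Subgroup G) [K.Normal] (Z : Fin k → G) (I : Finset (Fin k))
    (hq : ∀ x : G ⧸ K, (k : ℝ) / (2 * (K.index : ℝ)) ≤ (kq (fun i => (Z i : G ⧸ K)) x : ℝ))
    (h4 : 4 * (K.index : ℝ) * ((k : ℝ) - (I.card : ℝ)) ≤ (k : ℝ))
    {h : G → ℂ} (hK : ∀ κ ∈ K, ∀ g, h (g * κ) = h g) (h0 : ∑ g : G, h g = 0) :
    (k : ℝ) / 2 * ∑ g : G, ‖h g‖ ^ 2 ≤ ∑ i ∈ I, DD h (Z i) := by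
  classical
  have hF : ∀ κ ∈ K, ∀ z, DD h (z * κ) = DD h z := fun κ hκ z => DD_mul hK z κ hκ
  have hJ : (0 : ℝ) < (K.index : ℝ) := by
    exact_mod_cast Nat.pos_of_ne_zero K.index_ne_zero_of_finite
  have hKc : (0 : ℝ) < (Nat.card K : ℝ) := by
    exact_mod_cast Nat.card_pos
  have hcard : (Nat.card K : ℝ) * (K.index : ℝ) = (Fintype.card G : ℝ) := by
    rw [← Nat.card_eq_fintype_card]
    exact_mod_cast K.card_mul_index
  have e1 : (Nat.card K : ℝ) * ∑ i ∈ I, DD h (Z i) =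
      ∑ z : G, ((I.filter fun i => (Z i)⁻¹ * z ∈ K).card : ℝ) * DD h z := by
    rw [Finset.mul_sum, Finset.sum_congr rfl fun i _ => (sum_coset hF (Z i)).symm,
      Finset.sum_comm]
    refine Finset.sum_congr rfl fun z _ => ?_
    rw [← Finset.sum_filter, Finset.sum_const, nsmul_eq_mul]
  have e2 : ∀ z : G, (k : ℝ) / (4 * (K.index : ℝ)) ≤
      ((I.filter fun i => (Z i)⁻¹ * z ∈ K).card : ℝ) := by
    intro z
    have h1 := count_ge K Z I z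
    have h2 := hq (z : G ⧸ K)
    have h3 : ((k : ℝ) - (I.card : ℝ)) ≤ (k : ℝ) / (4 * (K.index : ℝ)) := by
      rw [le_div_iff₀ (by positivity)]
      linarith
    have h5 : (k : ℝ) / (2 * (K.index : ℝ)) =
        (k : ℝ) / (4 * (K.index : ℝ)) + (k : ℝ) / (4 * (K.index : ℝ)) := by
      field_simp
      ring
    linarith
  have e3 : (k : ℝ) / (4 * (K.index : ℝ)) * (2 * (Fintype.card G : ℝ) * ∑ g : G, ‖h g‖ ^ 2) ≤
      (Nat.card K : ℝ) * ∑ i ∈ I, DD h (Z i) := by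
    rw [e1, ← sum_DD h h0, Finset.mul_sum]
    exact Finset.sum_le_sum fun z _ => mul_le_mul_of_nonneg_right (e2 z) (DD_nonneg h z)
  rw [← hcard] at e3
  have e4 : (k : ℝ) / (4 * (K.index : ℝ)) *
      (2 * ((Nat.card K : ℝ) * (K.index : ℝ)) * ∑ g : G, ‖h g‖ ^ 2) =
      (Nat.card K : ℝ) * ((k : ℝ) / 2 * ∑ g : G, ‖h g‖ ^ 2) := by
    field_simp
    ring
  rw [e4] at e3
  exact le_of_mul_le_mul_left e3 hKc

/-- `‖x + y‖² ≥ (1-ε)‖x‖² - ‖y‖²/ε` -/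
theorem norm_add_ge (x y : ℂ) {ε : ℝ} (h0 : 0 < ε) :
    (1 - ε) * ‖x‖ ^ 2 - (1 / ε) * ‖y‖ ^ 2 ≤ ‖x + y‖ ^ 2 := by
  have h1 : ‖x‖ ≤ ‖x + y‖ + ‖y‖ := by
    have := norm_sub_le (x + y) y
    rwa [add_sub_cancel_right] at this
  have hx := norm_nonneg x
  have hy := norm_nonneg y
  have hs := norm_nonneg (x + y)
  have h2 : (1 - ε) * ‖x‖ ^ 2 - (1 / ε) * ‖y‖ ^ 2 ≤ (‖x‖ - ‖y‖) ^ 2 := by
    have h3 : (‖x‖ - ‖y‖) ^ 2 - ((1 - ε) * ‖x‖ ^ 2 - (1 / ε) * ‖y‖ ^ 2) =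
        (1 / ε) * (ε * ‖x‖ - ‖y‖) ^ 2 + ‖y‖ ^ 2 := by
      field_simp
      ring
    have h4 : 0 ≤ (1 / ε) * (ε * ‖x‖ - ‖y‖) ^ 2 + ‖y‖ ^ 2 := by positivity
    linarith
  by_cases h5 : ‖y‖ ≤ ‖x‖
  · refine h2.trans ?_
    exact pow_le_pow_left₀ (by linarith) (by linarith) 2
  · have h6 : (1 - ε) * ‖x‖ ^ 2 - (1 / ε) * ‖y‖ ^ 2 ≤ 0 := by
      push Not at h5
      by_cases h7 : 1 ≤ ε
      · have h8 : (1 - ε) * ‖x‖ ^ 2 ≤ 0 := mul_nonpos_of_nonpos_of_nonneg (by linarith) (sq_nonneg _)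
        have h9 : 0 ≤ (1 / ε) * ‖y‖ ^ 2 := by positivity
        linarith
      · push Not at h7
        have h8 : ‖x‖ ^ 2 ≤ ‖y‖ ^ 2 := pow_le_pow_left₀ hx h5.le 2
        have h9 : ‖y‖ ^ 2 ≤ (1 / ε) * ‖y‖ ^ 2 := by
          have : 1 ≤ 1 / ε := by
            rw [le_div_iff₀ h0]
            linarith
          nlinarith [sq_nonneg ‖y‖]
        nlinarith [sq_nonneg ‖x‖]
    exact h6.trans (sq_nonneg _)

end RateP

open RateP

theorem p_Rate : S_Rate := by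
  intro G _ _ K _ lam k Z ε₁ v' I hk hε hε1 hv' hn' hI hq h32 h4 v hv
  classical
  have hk' : (0 : ℝ) < (k : ℝ) := by exact_mod_cast hk
  -- the norms of `lam`
  have hlam : ∀ κ : K, ‖(((lam κ)⁻¹ : ℂˣ) : ℂ)‖ = 1 := by
    intro κ
    have h1 := hv' 1 κ
    have h2 := congrArg norm h1
    rw [norm_mul, hn', hn', mul_one] at h2
    exact h2.symm
  -- the function `f`
  obtain ⟨f, hf⟩ : ∃ f : G → ℂ, ∀ g, f g = v g * (starRingEnd ℂ) (v' g) := ⟨_, fun _ => rfl⟩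
  have hvv : ∀ g, (starRingEnd ℂ) (v' g) * v' g = 1 := by
    intro g
    rw [mul_comm, Complex.mul_conj, Complex.normSq_eq_norm_sq, hn' g]
    norm_num
  have hfv : ∀ g, v g = f g * v' g := by
    intro g
    rw [hf, mul_assoc, hvv, mul_one]
  have hfK : ∀ κ ∈ K, ∀ g, f (g * κ) = f g := by
    intro κ hκ g
    rw [hf, hf, hv g ⟨κ, hκ⟩, hv' g ⟨κ, hκ⟩, map_mul]
    have h1 : (((lam ⟨κ, hκ⟩)⁻¹ : ℂˣ) : ℂ) * (starRingEnd ℂ) (((lam ⟨κ, hκ⟩)⁻¹ : ℂˣ) : ℂ) = 1 := by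
      rw [Complex.mul_conj, Complex.normSq_eq_norm_sq, hlam]
      norm_num
    calc (((lam ⟨κ, hκ⟩)⁻¹ : ℂˣ) : ℂ) * v g *
          ((starRingEnd ℂ) (((lam ⟨κ, hκ⟩)⁻¹ : ℂˣ) : ℂ) * (starRingEnd ℂ) (v' g))
        = ((((lam ⟨κ, hκ⟩)⁻¹ : ℂˣ) : ℂ) * (starRingEnd ℂ) (((lam ⟨κ, hκ⟩)⁻¹ : ℂˣ) : ℂ)) *
          (v g * (starRingEnd ℂ) (v' g)) := by ring
      _ = v g * (starRingEnd ℂ) (v' g) := by rw [h1, one_mul]
  have hnf : ∀ g, ‖v g‖ = ‖f g‖ := by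
    intro g
    rw [hfv g, norm_mul, hn', mul_one]
  -- the mean
  obtain ⟨N, hN⟩ : ∃ N : ℝ, N = (Fintype.card G : ℝ) := ⟨_, rfl⟩
  have hN0 : 0 < N := by
    rw [hN]
    exact_mod_cast Fintype.card_pos
  obtain ⟨a, ha⟩ : ∃ a : ℂ, a = (∑ g : G, f g) / (N : ℂ) := ⟨_, rfl⟩
  obtain ⟨h, hh⟩ : ∃ h : G → ℂ, ∀ g, h g = f g - a := ⟨_, fun _ => rfl⟩
  have hNC : (N : ℂ) ≠ 0 := by exact_mod_cast hN0.ne'
  have hsum : ∑ g : G, f g = (N : ℂ) * a := by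
    rw [ha]
    field_simp
  have hsum0 : ∑ g : G, h g = 0 := by
    simp only [hh]
    rw [Finset.sum_sub_distrib, hsum, Finset.sum_const, Finset.card_univ, nsmul_eq_mul, hN]
    push_cast
    ring
  have hhK : ∀ κ ∈ K, ∀ g, h (g * κ) = h g := by
    intro κ hκ g
    rw [hh, hh, hfK κ hκ]
  obtain ⟨S, hS⟩ : ∃ S : ℝ, S = ∑ g : G, ‖h g‖ ^ 2 := ⟨_, rfl⟩
  have hS0 : 0 ≤ S := by
    rw [hS]
    exact Finset.sum_nonneg fun _ _ => sq_nonneg _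
  have hvS : ∑ g : G, ‖v g‖ ^ 2 = N * ‖a‖ ^ 2 + S := by
    have h1 : ∑ g : G, ‖v g‖ ^ 2 = ∑ g : G, ‖h g - (-a)‖ ^ 2 := by
      refine Finset.sum_congr rfl fun g _ => ?_
      rw [hnf, hh, sub_neg_eq_add, sub_add_cancel]
    rw [h1, sum_norm_sub h (-a) N hN, hsum0, norm_neg, ← hS]
    simp
    ring
  -- the letters in `I`
  have hIn : ∀ i ∈ I, ∑ g : G, ‖v ((Z i)⁻¹ * g) - v g‖ ^ 2 = DD h (Z i) := by
    intro i hi
    unfold DD
    refine Finset.sum_congr rfl fun g _ => ?_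
    have h1 : v ((Z i)⁻¹ * g) - v g = (h ((Z i)⁻¹ * g) - h g) * v' g := by
      rw [hfv ((Z i)⁻¹ * g), hfv g, hI i hi g, hh, hh]
      ring
    rw [h1, norm_mul, hn', mul_one]
  have hIE : ∀ i ∈ I, Ez v' (Z i) = 0 := by
    intro i hi
    unfold Ez
    have h1 : ∑ g : G, ‖v' ((Z i)⁻¹ * g) - v' g‖ ^ 2 = 0 := by
      refine Finset.sum_eq_zero fun g _ => ?_
      rw [hI i hi g, sub_self, norm_zero]
      norm_num
    rw [h1, zero_div]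
  have hE0 : ∀ z, 0 ≤ Ez v' z := by
    intro z
    unfold Ez
    refine div_nonneg (Finset.sum_nonneg fun _ _ => sq_nonneg _) ?_
    positivity
  -- the other letters
  have hOut : ∀ z : G, (1 - ε₁) * ‖a‖ ^ 2 * (2 * N * Ez v' z) - 4 / ε₁ * S ≤
      ∑ g : G, ‖v (z⁻¹ * g) - v g‖ ^ 2 := by
    intro z
    have h1 : 2 * N * Ez v' z = ∑ g : G, ‖v' (z⁻¹ * g) - v' g‖ ^ 2 := by
      unfold Ez
      rw [Nat.card_eq_fintype_card, ← hN]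
      field_simp
    have h2 : ∑ g : G, ‖h (z⁻¹ * g) * v' (z⁻¹ * g) - h g * v' g‖ ^ 2 ≤ 4 * S := by
      have h3 : ∀ g : G, ‖h (z⁻¹ * g) * v' (z⁻¹ * g) - h g * v' g‖ ^ 2 ≤
          2 * ‖h (z⁻¹ * g)‖ ^ 2 + 2 * ‖h g‖ ^ 2 := by
        intro g
        have h4 := norm_sub_le (h (z⁻¹ * g) * v' (z⁻¹ * g)) (h g * v' g)
        rw [norm_mul, norm_mul, hn', hn', mul_one, mul_one] at h4
        have h5 := norm_nonneg (h (z⁻¹ * g) * v' (z⁻¹ * g) - h g * v' g)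
        nlinarith [sq_nonneg (‖h (z⁻¹ * g)‖ - ‖h g‖), norm_nonneg (h (z⁻¹ * g)),
          norm_nonneg (h g)]
      refine (Finset.sum_le_sum fun g _ => h3 g).trans ?_
      rw [Finset.sum_add_distrib, ← Finset.mul_sum, ← Finset.mul_sum, sum_shift, ← hS]
      linarith
    have h3 : ∀ g : G, (1 - ε₁) * ‖a‖ ^ 2 * ‖v' (z⁻¹ * g) - v' g‖ ^ 2 -
        (1 / ε₁) * ‖h (z⁻¹ * g) * v' (z⁻¹ * g) - h g * v' g‖ ^ 2 ≤
        ‖v (z⁻¹ * g) - v g‖ ^ 2 := by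
      intro g
      have h5 : v (z⁻¹ * g) - v g = a * (v' (z⁻¹ * g) - v' g) +
          (h (z⁻¹ * g) * v' (z⁻¹ * g) - h g * v' g) := by
        rw [hfv (z⁻¹ * g), hfv g, hh, hh]
        ring
      have h6 := norm_add_ge (a * (v' (z⁻¹ * g) - v' g))
        (h (z⁻¹ * g) * v' (z⁻¹ * g) - h g * v' g) hε
      rw [← h5, norm_mul, mul_pow] at h6
      linarith
    have h7 := Finset.sum_le_sum fun g (_ : g ∈ Finset.univ) => h3 g
    rw [Finset.sum_sub_distrib, ← Finset.mul_sum, ← Finset.mul_sum, ← h1] at h7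
    refine le_trans ?_ h7
    have h8 : 1 / ε₁ * ∑ g : G, ‖h (z⁻¹ * g) * v' (z⁻¹ * g) - h g * v' g‖ ^ 2 ≤
        4 / ε₁ * S := by
      have h9 : 4 / ε₁ * S = 1 / ε₁ * (4 * S) := by ring
      rw [h9]
      exact mul_le_mul_of_nonneg_left h2 (by positivity)
    linarith
  -- the sum
  obtain ⟨E, hE⟩ : ∃ E : ℝ, E = ∑ i, Ez v' (Z i) := ⟨_, rfl⟩
  have hEnn : 0 ≤ E := by
    rw [hE]
    exact Finset.sum_nonneg fun _ _ => hE0 _
  have hcardI : I.card ≤ k := by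
    have := Finset.card_le_univ I
    rwa [Fintype.card_fin] at this
  have hIcc : ((Finset.univ \ I).card : ℝ) = (k : ℝ) - (I.card : ℝ) := by
    rw [Finset.card_sdiff_of_subset (Finset.subset_univ _), Finset.card_univ, Fintype.card_fin,
      Nat.cast_sub hcardI]
  have hEsum : ∑ i ∈ Finset.univ \ I, Ez v' (Z i) = E := by
    rw [hE, ← Finset.sum_sdiff (Finset.subset_univ I), Finset.sum_eq_zero hIE, add_zero]
  have t1 : (k : ℝ) / 2 * S ≤ ∑ i ∈ I, ∑ g : G, ‖v ((Z i)⁻¹ * g) - v g‖ ^ 2 := by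
    rw [Finset.sum_congr rfl hIn, hS]
    exact main_I K Z I hq h4 hhK hsum0
  have t2 : (1 - ε₁) * ‖a‖ ^ 2 * (2 * N * E) - (k : ℝ) / 8 * S ≤
      ∑ i ∈ Finset.univ \ I, ∑ g : G, ‖v ((Z i)⁻¹ * g) - v g‖ ^ 2 := by
    have h1 := Finset.sum_le_sum fun i (_ : i ∈ Finset.univ \ I) => hOut (Z i)
    refine le_trans ?_ h1
    rw [Finset.sum_sub_distrib, ← Finset.mul_sum, ← Finset.mul_sum, hEsum, Finset.sum_const,
      nsmul_eq_mul, hIcc]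
    have h2 : ((k : ℝ) - (I.card : ℝ)) * (4 / ε₁ * S) ≤ (k : ℝ) / 8 * S := by
      have h3 : ((k : ℝ) - (I.card : ℝ)) * (4 / ε₁) ≤ (k : ℝ) / 8 := by
        have h5 : ((k : ℝ) - (I.card : ℝ)) * (4 / ε₁) =
            (32 * ((k : ℝ) - (I.card : ℝ))) / (8 * ε₁) := by
          field_simp
          ring
        rw [h5, div_le_iff₀ (by positivity)]
        linarith
      have h6 := mul_le_mul_of_nonneg_right h3 hS0
      linarith
    linarith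
  have t3 : ∑ i : Fin k, ∑ g : G, ‖v ((Z i)⁻¹ * g) - v g‖ ^ 2 =
      ∑ i ∈ Finset.univ \ I, ∑ g : G, ‖v ((Z i)⁻¹ * g) - v g‖ ^ 2 +
        ∑ i ∈ I, ∑ g : G, ‖v ((Z i)⁻¹ * g) - v g‖ ^ 2 :=
    (Finset.sum_sdiff (Finset.subset_univ I)).symm
  rw [t3, hvS, ← hE]
  obtain ⟨r, hr⟩ : ∃ r : ℝ, r = min ((1 - ε₁) * E / (k : ℝ)) (1 / 8) := ⟨_, rfl⟩
  rw [← hr]
  have hr1 : r * (k : ℝ) ≤ (1 - ε₁) * E := by
    have h1 : r ≤ (1 - ε₁) * E / (k : ℝ) := by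
      rw [hr]
      exact min_le_left _ _
    rwa [le_div_iff₀ hk'] at h1
  have hr2 : r ≤ 1 / 8 := by
    rw [hr]
    exact min_le_right _ _
  have ha0 : 0 ≤ N * ‖a‖ ^ 2 := by positivity
  have u1 : 2 * r * (k : ℝ) * (N * ‖a‖ ^ 2) ≤ (1 - ε₁) * ‖a‖ ^ 2 * (2 * N * E) := by
    have := mul_le_mul_of_nonneg_right hr1 ha0
    nlinarith
  have u2 : 2 * r * (k : ℝ) * S ≤ (k : ℝ) / 4 * S := by
    have h1 : r * ((k : ℝ) * S) ≤ 1 / 8 * ((k : ℝ) * S) :=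
      mul_le_mul_of_nonneg_right hr2 (by positivity)
    nlinarith
  have u3 : 0 ≤ (k : ℝ) * S := by positivity
  nlinarith

end NilCut
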