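import Pool.Agent.Lib.MP_4ddf81_pr.Stm3

/-!
# MP_4ddf81_pr, stage 3 : the saturated case (helper45)
-/

namespace NilCut

open Filter Topology

namespace SatP

theorem ev_log (m : ℝ) (hm : 0 < m) (c : ℝ) (hc : 0 < c) :
    ∀ᶠ x : ℝ in atTop, Real.log x ^ 3 ≤ c * x ^ m := by
  have h1 := (isLittleO_log_rpow_rpow_atTop (3 : ℝ) hm).def hc
  filter_upwards [h1, eventually_ge_atTop (1 : ℝ)] with x hx hx1
  have h2 : 0 ≤ Real.log x := Real.log_nonneg hx1
  rw [Real.norm_of_nonneg (Real.rpow_nonneg h2 _),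
    Real.norm_of_nonneg (Real.rpow_nonneg (by linarith) _)] at hx
  have h3 : Real.log x ^ (3 : ℝ) = Real.log x ^ 3 := by
    have := Real.rpow_natCast (Real.log x) 3
    push_cast at this
    exact this
  rw [h3] at hx
  exact hx

/-- the growth of the threshold in the extreme case -/
theorem ev_main (a : ℝ) (ha : 0 < a) :
    ∀ᶠ x : ℝ in atTop, 4 * (Real.log x ^ 3 + 1) ≤ x ∧
      Real.log x ^ 3 ≤ Real.exp (a * ((1 / 4) * Real.log (x / (4 * (Real.log x ^ 3 + 1))))) := by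
  have h1 := ev_log (1 / 2) (by norm_num) (1 / 8) (by norm_num)
  have h2 := ev_log (a / 8) (by positivity) 1 one_pos
  filter_upwards [h1, h2, eventually_ge_atTop (100 : ℝ)] with x hx1 hx2 hx
  have hx0 : 0 < x := by linarith
  have hs : x ^ (1 / 2 : ℝ) = Real.sqrt x := (Real.sqrt_eq_rpow x).symm
  have hs10 : 10 ≤ Real.sqrt x := by
    apply Real.le_sqrt_of_sq_le
    linarith
  have hss : Real.sqrt x * Real.sqrt x = x := Real.mul_self_sqrt hx0.le
  have hl0 : 0 ≤ Real.log x := Real.log_nonneg (by linarith)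
  have hl3 : 0 ≤ Real.log x ^ 3 := pow_nonneg hl0 3
  rw [hs] at hx1
  have h4L : 4 * (Real.log x ^ 3 + 1) ≤ Real.sqrt x := by linarith
  have h4L0 : 0 < 4 * (Real.log x ^ 3 + 1) := by linarith
  refine ⟨?_, ?_⟩
  · nlinarith
  · have h5 : Real.sqrt x ≤ x / (4 * (Real.log x ^ 3 + 1)) := by
      rw [le_div_iff₀ h4L0]
      calc Real.sqrt x * (4 * (Real.log x ^ 3 + 1)) ≤ Real.sqrt x * Real.sqrt x :=
            mul_le_mul_of_nonneg_left h4L (Real.sqrt_nonneg _)
        _ = x := hss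
    have h6 : (1 / 2) * Real.log x ≤ Real.log (x / (4 * (Real.log x ^ 3 + 1))) := by
      have h7 : Real.log (Real.sqrt x) = (1 / 2) * Real.log x := by
        rw [Real.log_sqrt hx0.le]; ring
      rw [← h7]
      exact Real.log_le_log (by linarith) h5
    have h8 : x ^ (a / 8) = Real.exp (a * ((1 / 4) * ((1 / 2) * Real.log x))) := by
      rw [Real.rpow_def_of_pos hx0]
      congr 1; ring
    calc Real.log x ^ 3 ≤ 1 * x ^ (a / 8) := hx2
      _ = Real.exp (a * ((1 / 4) * ((1 / 2) * Real.log x))) := by rw [one_mul, h8]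
      _ ≤ _ := by
        apply Real.exp_le_exp.2
        apply mul_le_mul_of_nonneg_left _ ha.le
        linarith

end SatP

theorem p_Sat (hU : S_Up3) (hL : S_Low3) (hT : S_Term) (hI : S_StInf) (hS : S_Star) : S_Sat := by
  intro C₀ ε η hC₀ hε hε1 hη
  obtain ⟨B, hB1, hB⟩ := hU C₀ ε η hC₀ hε hε1.le hη
  obtain ⟨Jm, k₁, hT'⟩ := hT B (Real.log 2 / 4) C₀ hB1
    (div_pos (Real.log_pos (by norm_num)) (by norm_num)) hC₀
  obtain ⟨r, σ₁, ω₁, k₂, hr, hUp⟩ := hB (Jm + 1)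
  obtain ⟨σ₂, k₃, hLow⟩ := hL (Jm + 1) r ε η hr hε hε1 hη
  set σ := max (max σ₁ σ₂) 0 with hσ
  have hσ0 : 0 ≤ σ := le_max_right _ _
  have hσ1 : σ₁ ≤ σ := (le_max_left _ _).trans (le_max_left _ _)
  have hσ2 : σ₂ ≤ σ := (le_max_right _ _).trans (le_max_left _ _)
  set e₁ : ℝ := 8 / ((r : ℝ) ^ 2 * ((Jm + 1 : ℕ) : ℝ)) with he₁
  have hr0 : (0 : ℝ) < r := by
    have : 0 < r := by omega
    exact_mod_cast this
  have hJ0 : (0 : ℝ) < ((Jm + 1 : ℕ) : ℝ) := by positivity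
  have he₁0 : 0 < e₁ := by positivity
  have hev := (tendsto_natCast_atTop_atTop (R := ℝ)).eventually
    (SatP.ev_main (ε * e₁) (mul_pos hε he₁0))
  obtain ⟨k₄, hk₄⟩ := eventually_atTop.1 hev
  obtain ⟨k₅, hk₅⟩ := exists_nat_gt (8 * Real.exp (4 * σ))
  refine ⟨min (Real.exp (-(4 * σ)) / 8) (1 / 2), max ω₁ 2,
    max (max (max k₁ k₂) (max k₃ k₄)) (max k₅ (4 * (Jm + 1))), ?_, ?_⟩
  · apply lt_min
    · positivity
    · norm_num
  intro k hk G _ _ hnil hlog S hcl hhom hSk hSlow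
  have hk1 : k₁ ≤ k := le_trans (by omega) hk
  have hk2 : k₂ ≤ k := le_trans (by omega) hk
  have hk3 : k₃ ≤ k := le_trans (by omega) hk
  have hk4 : k₄ ≤ k := le_trans (by omega) hk
  have hk5 : k₅ ≤ k := le_trans (by omega) hk
  have hk6 : 4 * (Jm + 1) ≤ k := le_trans (by omega) hk
  have hω1 : S.card + ω₁ ≤ k := by omega
  have hω2 : S.card + 2 ≤ k := by omega
  obtain ⟨K, hKn, hKi, hKT⟩ := hT' k hk1 G hlog
  haveI := hKn
  letI : Fintype (G ⧸ K) := Fintype.ofFinite _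
  have hKi' : K.index ≤ Jm + 1 := by omega
  obtain ⟨hs0, -, -, -⟩ := hS G K k r S hcl (by omega) hω2
  have hkR : (0 : ℝ) < k := by
    have : 0 < k := by omega
    exact_mod_cast this
  -- sizes
  have hSc2 : (k : ℝ) / 2 ≤ S.card := by
    have h1 : min (Real.exp (-(4 * σ)) / 8) (1 / 2) ≤ 1 / 2 := min_le_right _ _
    have h2 : min (Real.exp (-(4 * σ)) / 8) (1 / 2) * k ≤ 1 / 2 * k :=
      mul_le_mul_of_nonneg_right h1 hkR.le
    linarith
  have hindex : 2 * K.index ≤ 2 ^ S.card := by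
    have h1 : k ≤ 2 * S.card := by
      have : (k : ℝ) ≤ 2 * (S.card : ℝ) := by linarith
      exact_mod_cast this
    have h2 : S.card < 2 ^ S.card := Nat.lt_two_pow_self
    omega
  have hkS : (k : ℝ) - S.card ≤ Real.exp (-(4 * σ)) / 8 * k := by
    have h1 : min (Real.exp (-(4 * σ)) / 8) (1 / 2) ≤ Real.exp (-(4 * σ)) / 8 := min_le_left _ _
    have h2 := mul_le_mul_of_nonneg_right h1 hkR.le
    linarith
  have hkS2 : (2 : ℝ) ≤ (k : ℝ) - S.card := by
    have : ((S.card + 2 : ℕ) : ℝ) ≤ k := by exact_mod_cast hω2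
    push_cast at this
    linarith
  -- the threshold is large
  have hsσ : σ ≤ sStar K k r := by
    apply hI G K k r S hcl hr hω2 hindex hhom σ hσ0
    have hee : Real.exp (-(4 * σ)) * Real.exp (4 * σ) = 1 := by
      rw [← Real.exp_add]; simp
    have h1 : 2 * ((k : ℝ) - (S.card : ℝ) + 1) * Real.exp (4 * σ) ≤
        2 * (Real.exp (-(4 * σ)) / 8 * k + 1) * Real.exp (4 * σ) :=
      mul_le_mul_of_nonneg_right (by linarith) (Real.exp_pos _).le
    have h2 : 2 * (Real.exp (-(4 * σ)) / 8 * k + 1) * Real.exp (4 * σ) =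
        (Real.exp (-(4 * σ)) * Real.exp (4 * σ)) * k / 4 + 2 * Real.exp (4 * σ) := by ring
    have h3 : (k₅ : ℝ) ≤ k := by exact_mod_cast hk5
    rw [h2, hee] at h1
    linarith
  -- the growth condition
  have hgrow : Real.log k ^ 3 ≤ ((k : ℝ) - (S.card : ℝ)) *
      Real.exp (ε * (8 / ((r : ℝ) ^ 2 * ((Jm + 1 : ℕ) : ℝ))) * sStar K k r) := by
    rw [← he₁]
    by_cases h : Real.log k ^ 3 ≤ (k : ℝ) - S.card
    · have h1 : 1 ≤ Real.exp (ε * e₁ * sStar K k r) :=
        Real.one_le_exp (mul_nonneg (mul_pos hε he₁0).le hs0)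
      calc Real.log k ^ 3 ≤ ((k : ℝ) - S.card) * 1 := by rw [mul_one]; exact h
        _ ≤ _ := mul_le_mul_of_nonneg_left h1 (by linarith)
    · rw [not_le] at h
      obtain ⟨g1, g2⟩ := hk₄ k hk4
      have hl0 : 0 ≤ Real.log (k : ℝ) := Real.log_natCast_nonneg k
      have hl3 : 0 ≤ Real.log (k : ℝ) ^ 3 := pow_nonneg hl0 3
      have hL0 : 0 < 4 * (Real.log (k : ℝ) ^ 3 + 1) := by linarith
      have hq1 : 1 ≤ (k : ℝ) / (4 * (Real.log (k : ℝ) ^ 3 + 1)) := by
        rw [le_div_iff₀ hL0]; linarith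
      have hss : (1 / 4) * Real.log ((k : ℝ) / (4 * (Real.log (k : ℝ) ^ 3 + 1))) ≤
          sStar K k r := by
        apply hI G K k r S hcl hr hω2 hindex hhom
        · exact mul_nonneg (by norm_num) (Real.log_nonneg hq1)
        · have e1 : 4 * ((1 / 4) * Real.log ((k : ℝ) / (4 * (Real.log (k : ℝ) ^ 3 + 1)))) =
              Real.log ((k : ℝ) / (4 * (Real.log (k : ℝ) ^ 3 + 1))) := by ring
          rw [e1, Real.exp_log (by linarith)]
          have e2 : 2 * ((k : ℝ) - (S.card : ℝ) + 1) ≤ 2 * (Real.log (k : ℝ) ^ 3 + 1) := by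
            linarith
          have e3 : 0 ≤ (k : ℝ) / (4 * (Real.log (k : ℝ) ^ 3 + 1)) := by linarith
          calc 2 * ((k : ℝ) - (S.card : ℝ) + 1) * ((k : ℝ) / (4 * (Real.log (k : ℝ) ^ 3 + 1))) ≤
                2 * (Real.log (k : ℝ) ^ 3 + 1) * ((k : ℝ) / (4 * (Real.log (k : ℝ) ^ 3 + 1))) :=
                mul_le_mul_of_nonneg_right e2 e3
            _ = k / 2 := by
                have : Real.log (k : ℝ) ^ 3 + 1 ≠ 0 := by linarith
                field_simp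
                ring
            _ < k := by linarith
      have h2 : Real.log (k : ℝ) ^ 3 ≤ Real.exp (ε * e₁ * sStar K k r) := by
        refine g2.trans (Real.exp_le_exp.2 ?_)
        exact mul_le_mul_of_nonneg_left hss (mul_pos hε he₁0).le
      calc Real.log k ^ 3 ≤ 1 * Real.exp (ε * e₁ * sStar K k r) := by rw [one_mul]; exact h2
        _ ≤ _ := mul_le_mul_of_nonneg_right (by linarith) (Real.exp_pos _).le
  refine ⟨sStar K k r * k, mul_nonneg hs0 hkR.le, ?_, ?_⟩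
  · exact hLow k hk3 G K hKi' S hcl hω2 (hσ2.trans hsσ) hgrow
  · exact hUp k hk2 G hnil hlog S hcl hω1 K hKi' hKT (hσ1.trans hsσ)

end NilCut
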