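import Pool.Agent.Lib.MP_4ddf81_pr.Stm3

/-!
# MP_4ddf81_pr, stage 3 : the threshold is large in the saturated case   (helper54)
-/

namespace NilCut

open Filter Topology

namespace StInfP

private lemma two_vals : ∀ a : Multiplicative (ZMod 2), a = 1 ∨ a = Multiplicative.ofAdd 1 := by
  decide

private lemma ne_one_eq : ∀ a b : Multiplicative (ZMod 2), a ≠ 1 → b ≠ 1 → a * b = 1 := by
  decide

private lemma eq_of_ne : ∀ a b : Multiplicative (ZMod 2), a ≠ 1 → b ≠ 1 → a = b := by
  decide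

/-- the sign -/
private noncomputable def sg : Multiplicative (ZMod 2) →* ℂˣ where
  toFun a := if a = 1 then 1 else -1
  map_one' := if_pos rfl
  map_mul' := by
    intro a b
    by_cases ha : a = 1
    · subst ha
      simp
    · by_cases hb : b = 1
      · subst hb
        simp
      · rw [ne_one_eq a b ha hb, if_pos rfl, if_neg ha, if_neg hb]
        simp

private lemma sg_one_iff (a : Multiplicative (ZMod 2)) : sg a = 1 ↔ a = 1 := by
  constructor
  · intro h
    by_contra ha
    have h1 : sg a = -1 := if_neg ha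
    rw [h1] at h
    have h2 := congrArg (fun u : ℂˣ => (u : ℂ)) h
    simp only [Units.val_neg, Units.val_one] at h2
    norm_num at h2
  · intro h
    rw [h, map_one]

private lemma sg_inj : Function.Injective sg := by
  rw [injective_iff_map_eq_one]
  intro a h
  exact (sg_one_iff a).1 h

private lemma finite_dual (X : Type) [Group X] [Finite X] : Finite (X →* ℂˣ) := by
  have : NeZero (Nat.card X) := ⟨Nat.card_pos.ne'⟩
  let F : (X →* ℂˣ) → (X → rootsOfUnity (Nat.card X) ℂ) := fun f x => ⟨f x, by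
    rw [mem_rootsOfUnity, ← map_pow, pow_card_eq_one', map_one]⟩
  apply Finite.of_injective F
  intro f g h
  ext x
  have h1 := congrFun h x
  have h2 := congrArg (fun u : rootsOfUnity (Nat.card X) ℂ => ((u : ℂˣ) : ℂ)) h1
  exact h2

private lemma finite_hom (X : Type) [Group X] [Finite X] :
    Finite (X →* Multiplicative (ZMod 2)) :=
  Finite.of_injective (fun f => (f : X → Multiplicative (ZMod 2))) DFunLike.coe_injective

/-- the number of the homomorphisms to `Z_2` is at most the order -/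
private lemma hom_le (X : Type) [Group X] [Finite X] :
    Nat.card (X →* Multiplicative (ZMod 2)) ≤ Nat.card X := by
  classical
  have := finite_hom X
  have : Fintype X := Fintype.ofFinite X
  have : Fintype (X →* Multiplicative (ZMod 2)) := Fintype.ofFinite _
  have hli := linearIndependent_monoidHom X ℂ
  let T : (X →* Multiplicative (ZMod 2)) → (X →* ℂ) := fun χ => (Units.coeHom ℂ).comp (sg.comp χ)
  have hT : Function.Injective T := by
    intro χ χ' h
    ext x
    have h1 := DFunLike.congr_fun h x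
    have h2 : ((sg (χ x) : ℂˣ) : ℂ) = ((sg (χ' x) : ℂˣ) : ℂ) := h1
    have h3 := sg_inj (Units.ext h2)
    rw [h3]
  have hli2 := hli.comp T hT
  have h := hli2.fintype_card_le_finrank
  rw [Module.finrank_fintype_fun_eq_card] at h
  rw [Nat.card_eq_fintype_card, Nat.card_eq_fintype_card]
  exact h

section one

variable {G : Type} [Group G] [Finite G] (K : Subgroup G) [K.Normal]

/-- the restriction to `K` -/
private noncomputable def lm (χ : G →* Multiplicative (ZMod 2)) : K →* ℂˣ :=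
  (sg.comp χ).comp K.subtype

private lemma lm_conj (χ : G →* Multiplicative (ZMod 2)) (x : G) (κ : K) :
    lm K χ (MulAut.conjNormal x κ) = sg (χ κ) := by
  have h1 : lm K χ (MulAut.conjNormal x κ) =
      sg (χ ((MulAut.conjNormal x κ : K) : G)) := rfl
  have h2 : χ (x * (κ : G) * x⁻¹) = χ κ := by
    rw [map_mul, map_mul, map_inv, mul_comm (χ x), mul_assoc, mul_inv_cancel, mul_one]
  rw [h1, MulAut.conjNormal_apply, h2]

private lemma lm_cpl (χ : G →* Multiplicative (ZMod 2)) (h : ¬ K ≤ χ.ker) :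
    Cpl χ.ker K (lm K χ) := by
  refine ⟨?_, ?_⟩
  · rw [SetLike.not_le_iff_exists] at h
    obtain ⟨κ₀, hκ, hne⟩ := h
    rw [MonoidHom.mem_ker] at hne
    rw [eq_top_iff]
    intro g _
    by_cases hg : χ g = 1
    · exact Subgroup.mem_sup_left (MonoidHom.mem_ker.2 hg)
    · have h1 : g * κ₀ ∈ χ.ker := by
        rw [MonoidHom.mem_ker, map_mul]
        exact ne_one_eq _ _ hg hne
      have h2 : g = (g * κ₀) * κ₀⁻¹ := by group
      rw [h2]
      exact Subgroup.mul_mem_sup h1 (K.inv_mem hκ)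
  · intro κ
    constructor
    · intro h x
      rw [lm_conj, MonoidHom.mem_ker.1 h, map_one]
    · intro h
      have h1 := h 1
      rw [lm_conj, sg_one_iff] at h1
      exact MonoidHom.mem_ker.2 h1

private lemma lm_ne (χ : G →* Multiplicative (ZMod 2)) (h : ¬ K ≤ χ.ker) : lm K χ ≠ 1 := by
  intro he
  apply h
  intro g hg
  have h1 := DFunLike.congr_fun he ⟨g, hg⟩
  have h2 : sg (χ g) = 1 := h1
  rw [sg_one_iff] at h2
  exact MonoidHom.mem_ker.2 h2

private lemma lm_range (χ : G →* Multiplicative (ZMod 2)) : Nat.card (lm K χ).range ≤ 2 := by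
  have h1 : ((lm K χ).range : Set ℂˣ) ⊆ Set.range sg := by
    rintro _ ⟨κ, rfl⟩
    exact ⟨χ κ, rfl⟩
  have h2 : Nat.card ((lm K χ).range : Set ℂˣ) ≤ Nat.card (Set.range sg) :=
    Nat.card_mono (Set.finite_range sg) h1
  have h3 : Nat.card (Set.range sg) ≤ Nat.card (Multiplicative (ZMod 2)) :=
    Finite.card_range_le sg
  have h4 : Nat.card (Multiplicative (ZMod 2)) = 2 := by
    have : Nat.card (Multiplicative (ZMod 2)) = Nat.card (ZMod 2) := rfl
    rw [this, Nat.card_zmod]
  calc Nat.card (lm K χ).range = Nat.card ((lm K χ).range : Set ℂˣ) := rfl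
    _ ≤ 2 := by omega

/-- the two constant functions -/
private noncomputable def C0 : Finset (G ⧸ K → ℂ) :=
  Finset.cons (fun _ => 1) {(fun _ => -1)} (by
    rw [Finset.mem_singleton]
    intro h
    have h1 := congrFun h (1 : G ⧸ K)
    norm_num at h1)

private lemma lm_CF (χ : G →* Multiplicative (ZMod 2)) (h : ¬ K ≤ χ.ker) :
    CF K (lm K χ) = C0 K := by
  classical
  rw [SetLike.not_le_iff_exists] at h
  obtain ⟨κ₀, hκ, hne⟩ := h
  rw [MonoidHom.mem_ker] at hne
  ext c
  unfold CF C0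
  rw [Set.Finite.mem_toFinset, Finset.mem_cons, Finset.mem_singleton]
  constructor
  · rintro ⟨κ, rfl⟩
    by_cases hκ : χ κ = 1
    · left
      funext x
      unfold cf
      rw [lm_conj, hκ, map_one, Units.val_one]
    · right
      funext x
      unfold cf
      rw [lm_conj]
      have h1 : sg (χ κ) = -1 := if_neg hκ
      rw [h1, Units.val_neg, Units.val_one]
  · rintro (rfl | rfl)
    · refine ⟨1, ?_⟩
      funext x
      unfold cf
      rw [map_one, map_one, Units.val_one]
    · refine ⟨⟨κ₀, hκ⟩, ?_⟩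
      funext x
      unfold cf
      rw [lm_conj]
      have h1 : sg (χ κ₀) = -1 := if_neg hne
      rw [h1, Units.val_neg, Units.val_one]

private lemma card_le_NC (r : ℕ) (hr : 2 ≤ r) :
    Nat.card {χ : G →* Multiplicative (ZMod 2) // ¬ K ≤ χ.ker} ≤ NC K r (C0 K) := by
  have := finite_dual K
  unfold NC
  let F : {χ : G →* Multiplicative (ZMod 2) // ¬ K ≤ χ.ker} →
      {p : Subgroup G × (K →* ℂˣ) //
        Cpl p.1 K p.2 ∧ p.2 ≠ 1 ∧ Nat.card p.2.range ≤ r ∧ CF K p.2 = C0 K} := fun χ =>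
    ⟨(χ.1.ker, lm K χ.1), lm_cpl K χ.1 χ.2, lm_ne K χ.1 χ.2, (lm_range K χ.1).trans hr,
      lm_CF K χ.1 χ.2⟩
  apply Nat.card_le_card_of_injective F
  intro χ χ' h
  have h1 : χ.1.ker = χ'.1.ker := congrArg (fun p => p.1.1) h
  apply Subtype.ext
  ext g
  by_cases hg : χ.1 g = 1
  · have h2 : g ∈ χ'.1.ker := by
      rw [← h1]
      exact MonoidHom.mem_ker.2 hg
    rw [hg, MonoidHom.mem_ker.1 h2]
  · have h2 : χ'.1 g ≠ 1 := by
      intro h3
      apply hg
      have h4 : g ∈ χ.1.ker := by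
        rw [h1]
        exact MonoidHom.mem_ker.2 h3
      exact MonoidHom.mem_ker.1 h4
    rw [eq_of_ne _ _ hg h2]

private lemma card_triv : Nat.card {χ : G →* Multiplicative (ZMod 2) // K ≤ χ.ker} ≤ K.index := by
  have h : Nat.card {χ : G →* Multiplicative (ZMod 2) // K ≤ χ.ker} ≤
      Nat.card ((G ⧸ K) →* Multiplicative (ZMod 2)) := by
    have := finite_hom (G ⧸ K)
    let F : {χ : G →* Multiplicative (ZMod 2) // K ≤ χ.ker} →
      ((G ⧸ K) →* Multiplicative (ZMod 2)) := fun χ =>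
        QuotientGroup.lift K χ.1 (fun x hx => MonoidHom.mem_ker.1 (χ.2 hx))
    apply Nat.card_le_card_of_injective F
    intro χ χ' h
    apply Subtype.ext
    ext g
    have h1 := DFunLike.congr_fun h (g : G ⧸ K)
    have h2 : χ.1 g = χ'.1 g := h1
    rw [h2]
  calc _ ≤ _ := h
    _ ≤ Nat.card (G ⧸ K) := hom_le (G ⧸ K)
    _ = K.index := rfl

private lemma card_split (N : ℕ) (hN : N ≤ Nat.card (G →* Multiplicative (ZMod 2))) :
    N ≤ K.index + Nat.card {χ : G →* Multiplicative (ZMod 2) // ¬ K ≤ χ.ker} := by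
  classical
  have := finite_hom G
  have h1 := Nat.card_congr (Equiv.sumCompl (fun χ : G →* Multiplicative (ZMod 2) => K ≤ χ.ker))
  rw [Nat.card_sum] at h1
  have h2 := card_triv K
  omega

end one

private lemma ph3_C0 {G : Type} [Group G] [Finite G] (K : Subgroup G) [K.Normal]
    [Fintype (G ⧸ K)] (s : ℝ) : ph3 (C0 K) s = (1 + Real.exp (-(4 * s))) / 2 := by
  classical
  have hJ : (0 : ℝ) < (Fintype.card (G ⧸ K) : ℝ) := by exact_mod_cast Fintype.card_pos
  have e1 : En (fun _ : G ⧸ K => (1 : ℂ)) = 0 := by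
    unfold En
    simp
  have e2 : En (fun _ : G ⧸ K => (-1 : ℂ)) = 2 := by
    unfold En
    have h1 : ∀ x : G ⧸ K, (1 : ℝ) - (-1 : ℂ).re = 2 := by
      intro x
      simp
      norm_num
    rw [Finset.sum_congr rfl (fun x _ => h1 x), Finset.sum_const, Finset.card_univ, nsmul_eq_mul]
    field_simp
  unfold ph3 C0
  rw [Finset.sum_cons, Finset.card_cons, Finset.sum_singleton, Finset.card_singleton, e1, e2]
  have h3 : Real.exp (-(2 * s * 0)) = 1 := by simp
  rw [h3]
  have h4 : -(2 * s * 2) = -(4 * s) := by ring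
  rw [h4]
  norm_num

private lemma exp_half (x : ℝ) (h0 : 0 ≤ x) (h1 : x ≤ 1) : Real.exp (x / 2) ≤ 1 + x := by
  have h2 : 1 - x / 2 ≤ Real.exp (-(x / 2)) := by
    have := Real.add_one_le_exp (-(x / 2))
    linarith
  have h3 : Real.exp (x / 2) * Real.exp (-(x / 2)) = 1 := by
    rw [← Real.exp_add]
    simp
  have h4 : 0 < Real.exp (x / 2) := Real.exp_pos _
  have h5 : Real.exp (x / 2) * (1 - x / 2) ≤ 1 := by
    calc Real.exp (x / 2) * (1 - x / 2) ≤ Real.exp (x / 2) * Real.exp (-(x / 2)) :=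
          mul_le_mul_of_nonneg_left h2 h4.le
      _ = 1 := h3
  have h6 : 1 ≤ (1 + x) * (1 - x / 2) := by nlinarith
  have h7 : 0 < 1 - x / 2 := by linarith
  by_contra hcon
  push Not at hcon
  have h8 : (1 + x) * (1 - x / 2) < Real.exp (x / 2) * (1 - x / 2) :=
    mul_lt_mul_of_pos_right hcon h7
  linarith

end StInfP

open StInfP in
theorem p_StInf (hS : S_Star) (_hE : S_EnL) : S_StInf := by
  classical
  intro G _ _ K _ _ k r S hclo hr hSk hJ hcard s hs hks
  by_contra hcon
  push Not at hcon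
  obtain ⟨-, -, h3, -⟩ := hS G K k r S hclo (by omega) hSk
  set d := S.card with hd
  have hsplit := card_split K _ hcard
  have hNC := card_le_NC K r hr
  set X := Nat.card {χ : G →* Multiplicative (ZMod 2) // ¬ K ≤ χ.ker} with hX
  have h2X : 2 ^ d ≤ 2 * X := by omega
  have hXpos : 0 < X := by
    have : 0 < 2 ^ d := by positivity
    omega
  have hne : Nonempty {χ : G →* Multiplicative (ZMod 2) // ¬ K ≤ χ.ker} := by
    by_contra hempty
    rw [not_nonempty_iff] at hempty
    have : X = 0 := by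
      rw [hX]
      exact Nat.card_of_isEmpty
    omega
  obtain ⟨χ, hχ⟩ := hne
  have hmain := h3 s hcon (lm K χ) (lm_ne K χ hχ) ((lm_range K χ).trans hr)
  rw [lm_CF K χ hχ, ph3_C0] at hmain
  set x := Real.exp (-(4 * s)) with hx
  have hx0 : 0 < x := Real.exp_pos _
  have hx1 : x ≤ 1 := by
    rw [hx, Real.exp_le_one_iff]
    linarith
  have hxe : Real.exp (4 * s) * x = 1 := by
    rw [hx, ← Real.exp_add]
    simp
  have hkx : 2 * ((k : ℝ) - (d : ℝ) + 1) < (k : ℝ) * x := by
    have h4 : 2 * ((k : ℝ) - (d : ℝ) + 1) * Real.exp (4 * s) * x < (k : ℝ) * x :=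
      mul_lt_mul_of_pos_right hks hx0
    rw [mul_assoc, hxe, mul_one] at h4
    exact h4
  have hNCr : (2 : ℝ) ^ d ≤ 2 * (NC K r (C0 K) : ℝ) := by
    have h5 : 2 ^ d ≤ 2 * NC K r (C0 K) := by omega
    exact_mod_cast h5
  have hdk : d ≤ k := by omega
  -- the power
  have hpow : Real.exp ((k : ℝ) * x / 2) ≤ (1 + x) ^ k := by
    have h6 : Real.exp ((k : ℝ) * x / 2) = (Real.exp (x / 2)) ^ k := by
      rw [← Real.exp_nat_mul]
      congr 1
      ring
    rw [h6]
    exact pow_le_pow_left₀ (Real.exp_pos _).le (exp_half x hx0.le hx1) k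
  have hexp : (2 : ℝ) ^ (k - d + 1) ≤ Real.exp ((k : ℝ) - (d : ℝ) + 1) := by
    have h7 : (2 : ℝ) ≤ Real.exp 1 := by
      have := Real.add_one_le_exp (1 : ℝ)
      linarith
    calc (2 : ℝ) ^ (k - d + 1) ≤ (Real.exp 1) ^ (k - d + 1) :=
          pow_le_pow_left₀ (by norm_num) h7 _
      _ = Real.exp ((k : ℝ) - (d : ℝ) + 1) := by
          rw [← Real.exp_nat_mul]
          congr 1
          push_cast [Nat.cast_sub hdk]
          ring
  have hlt : (2 : ℝ) ^ (k - d + 1) < (1 + x) ^ k := by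
    calc (2 : ℝ) ^ (k - d + 1) ≤ Real.exp ((k : ℝ) - (d : ℝ) + 1) := hexp
      _ < Real.exp ((k : ℝ) * x / 2) := by
          apply Real.exp_lt_exp.mpr
          linarith
      _ ≤ _ := hpow
  have h8 : (2 : ℝ) ^ d / 2 * (((1 + x) / 2) ^ k) ≤ 1 := by
    calc (2 : ℝ) ^ d / 2 * (((1 + x) / 2) ^ k) ≤
          (NC K r (C0 K) : ℝ) * (((1 + x) / 2) ^ k) := by
          apply mul_le_mul_of_nonneg_right _ (by positivity)
          linarith
      _ ≤ 1 := hmain
  rw [div_pow] at h8
  have h9 : (2 : ℝ) ^ k * 2 = 2 ^ d * 2 ^ (k - d + 1) := by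
    rw [← pow_succ, ← pow_add]
    congr 1
    omega
  have h10 : (2 : ℝ) ^ d * (1 + x) ^ k ≤ 2 ^ k * 2 := by
    have h11 : (2 : ℝ) ^ d / 2 * ((1 + x) ^ k / 2 ^ k) = (2 ^ d * (1 + x) ^ k) / (2 ^ k * 2) := by
      field_simp
    rw [h11, div_le_one (by positivity)] at h8
    exact h8
  rw [h9] at h10
  have h12 : (0 : ℝ) < 2 ^ d := by positivity
  have h13 := le_of_mul_le_mul_left h10 h12
  linarith

end NilCut
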