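import Pool.Agent.Lib.MP_4ddf81_pr.Stm3

/-! # MP_4ddf81_pr, stage 3 : after the threshold (S_StUp) -/

namespace NilCut

namespace StUpP

theorem core (ν : ℝ) (cm : ℕ) (hν : 0 < ν) (M : ℝ) (hM : Real.exp (-(M / (2 * (1 + (cm : ℝ))))) ≤ ν)
    (ω₀ : ℕ) (hω : Real.exp M ≤ ν * 2 ^ ω₀) (k d : ℕ) (N X X' m : ℝ) (hm2 : 2 ≤ m)
    (hN : 0 ≤ N) (hNd : N ≤ m ^ d) (hk : d + ω₀ ≤ k) (hX0 : 0 ≤ X) (hXc : X ≤ cm) (hX'0 : 0 ≤ X')
    (hXX : X' ≤ X / 2) (h1 : N * ((1 + X) / m) ^ k ≤ 1) : N * ((1 + X') / m) ^ k ≤ ν := by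
  have hm0 : 0 < m := by linarith
  have hXp : 0 < 1 + X := by linarith
  have hcm : (0:ℝ) ≤ cm := le_trans hX0 hXc
  have hmk : 0 < m ^ k := pow_pos hm0 k
  rcases le_or_gt M ((k : ℝ) * X) with h | h
  · -- case k X ≥ M
    have e1 : N * ((1 + X') / m) ^ k ≤ N * ((1 + X / 2) / m) ^ k := by
      apply mul_le_mul_of_nonneg_left _ hN
      apply pow_le_pow_left₀ (by positivity)
      apply div_le_div_of_nonneg_right _ hm0.le
      linarith
    have e2 : N * ((1 + X / 2) / m) ^ k = (N * ((1 + X) / m) ^ k) * ((1 + X / 2) / (1 + X)) ^ k := by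
      rw [mul_assoc, ← mul_pow]
      congr 2
      field_simp
    have e3 : (1 + X / 2) / (1 + X) ≤ Real.exp (-(X / (2 * (1 + (cm : ℝ))))) := by
      have q1 : (1 + X / 2) / (1 + X) = 1 - X / (2 * (1 + X)) := by field_simp; ring
      have q2 : X / (2 * (1 + (cm : ℝ))) ≤ X / (2 * (1 + X)) := by
        apply div_le_div_of_nonneg_left hX0 (by positivity)
        linarith
      have q3 := Real.add_one_le_exp (-(X / (2 * (1 + (cm : ℝ)))))
      rw [q1]; linarith
    have e4 : ((1 + X / 2) / (1 + X)) ^ k ≤ ν := by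
      calc ((1 + X / 2) / (1 + X)) ^ k ≤ (Real.exp (-(X / (2 * (1 + (cm : ℝ)))))) ^ k :=
            pow_le_pow_left₀ (by positivity) e3 k
        _ = Real.exp ((k : ℝ) * (-(X / (2 * (1 + (cm : ℝ)))))) := by rw [← Real.exp_nat_mul]
        _ ≤ Real.exp (-(M / (2 * (1 + (cm : ℝ))))) := by
            apply Real.exp_le_exp.mpr
            have : M / (2 * (1 + (cm : ℝ))) ≤ ((k : ℝ) * X) / (2 * (1 + (cm : ℝ))) :=
              div_le_div_of_nonneg_right h (by positivity)
            have q : (k : ℝ) * (-(X / (2 * (1 + (cm : ℝ))))) = -(((k : ℝ) * X) / (2 * (1 + (cm : ℝ)))) := by ring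
            rw [q]; linarith
        _ ≤ ν := hM
    calc N * ((1 + X') / m) ^ k ≤ (N * ((1 + X) / m) ^ k) * ((1 + X / 2) / (1 + X)) ^ k := by
          rw [← e2]; exact e1
      _ ≤ 1 * ν := by
          apply mul_le_mul h1 e4 (by positivity) (by norm_num)
      _ = ν := one_mul ν
  · -- case k X < M
    have hkX : (k : ℝ) * X' ≤ M := by
      have : (k : ℝ) * X' ≤ (k : ℝ) * X := mul_le_mul_of_nonneg_left (by linarith) (Nat.cast_nonneg k)
      linarith
    have e1 : (1 + X') ^ k ≤ Real.exp M := by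
      calc (1 + X') ^ k ≤ (Real.exp X') ^ k := by
            apply pow_le_pow_left₀ (by positivity)
            have := Real.add_one_le_exp X'; linarith
        _ = Real.exp ((k : ℝ) * X') := by rw [← Real.exp_nat_mul]
        _ ≤ Real.exp M := Real.exp_le_exp.mpr hkX
    rw [div_pow, ← mul_div_assoc, div_le_iff₀ hmk]
    have e2 : m ^ d * 2 ^ ω₀ ≤ m ^ k := by
      calc m ^ d * 2 ^ ω₀ ≤ m ^ d * m ^ ω₀ := by
            apply mul_le_mul_of_nonneg_left _ (by positivity)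
            exact pow_le_pow_left₀ (by norm_num) hm2 _
        _ = m ^ (d + ω₀) := (pow_add _ _ _).symm
        _ ≤ m ^ k := pow_le_pow_right₀ (by linarith) hk
    calc N * (1 + X') ^ k ≤ m ^ d * Real.exp M :=
          mul_le_mul hNd e1 (by positivity) (by positivity)
      _ ≤ m ^ d * (ν * 2 ^ ω₀) := mul_le_mul_of_nonneg_left hω (by positivity)
      _ = ν * (m ^ d * 2 ^ ω₀) := by ring
      _ ≤ ν * m ^ k := mul_le_mul_of_nonneg_left e2 hν.le

theorem ph_eq {Q : Type} [Fintype Q] [DecidableEq (Q → ℂ)] (C : Finset (Q → ℂ)) (h1 : 1 ∈ C) (s : ℝ) :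
    ph3 C s = (1 + ∑ c ∈ C.erase 1, Real.exp (-(2 * s * En c))) / (C.card : ℝ) := by
  unfold ph3
  congr 1
  rw [← Finset.add_sum_erase C _ h1]
  congr 1
  have : En (1 : Q → ℂ) = 0 := by simp [En]
  simp [this]

end StUpP

open Classical in
theorem p_StUp : S_StUp := by
  intro ν e₀ cm hν he
  obtain ⟨ω₀, hω₀⟩ : ∃ n : ℕ, Real.exp (2 * (1 + (cm : ℝ)) * |Real.log ν|) / ν < 2 ^ n :=
    pow_unbounded_of_one_lt _ (by norm_num)
  refine ⟨ω₀, 1 / e₀, by positivity, ?_⟩
  intro Q _ C k d N s₁ s' h1 hC2 hCm hE0 hE hN hNd hk hs hs' hph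
  set X := ∑ c ∈ C.erase 1, Real.exp (-(2 * s₁ * En c)) with hX
  set X' := ∑ c ∈ C.erase 1, Real.exp (-(2 * s' * En c)) with hX'
  rw [StUpP.ph_eq C h1] at hph ⊢
  rw [← hX] at hph
  rw [← hX']
  have hsp : 0 ≤ s' - s₁ := by
    have : 0 < 1 / e₀ := by positivity
    linarith
  apply StUpP.core ν cm hν (2 * (1 + (cm : ℝ)) * |Real.log ν|) _ ω₀ _ k d N X X' (C.card : ℝ)
    (by exact_mod_cast hC2) hN hNd hk (Finset.sum_nonneg fun _ _ => (Real.exp_pos _).le) _
    (Finset.sum_nonneg fun _ _ => (Real.exp_pos _).le) _ hph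
  · have q : 2 * (1 + (cm : ℝ)) * |Real.log ν| / (2 * (1 + (cm : ℝ))) = |Real.log ν| := by
      field_simp
    rw [q]
    calc Real.exp (-|Real.log ν|) ≤ Real.exp (Real.log ν) :=
          Real.exp_le_exp.mpr (neg_abs_le _)
      _ = ν := Real.exp_log hν
  · rw [div_lt_iff₀ hν] at hω₀
    linarith
  · calc X ≤ ∑ c ∈ C.erase 1, (1:ℝ) := by
          apply Finset.sum_le_sum
          intro c hc
          rw [Real.exp_le_one_iff]
          have := hE0 c (Finset.mem_of_mem_erase hc)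
          have : 0 ≤ 2 * s₁ * En c := by positivity
          linarith
      _ = ((C.erase 1).card : ℝ) := by simp
      _ ≤ (cm : ℝ) := by
          have : (C.erase 1).card ≤ cm := le_trans (Finset.card_erase_le) hCm
          exact_mod_cast this
  · rw [hX, hX', Finset.sum_div]
    apply Finset.sum_le_sum
    intro c hc
    have hc1 : c ≠ 1 := Finset.ne_of_mem_erase hc
    have hcC := Finset.mem_of_mem_erase hc
    have hEc := hE c hcC hc1
    have q : -(2 * s' * En c) = -(2 * s₁ * En c) + (-(2 * (s' - s₁) * En c)) := by ring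
    rw [q, Real.exp_add, div_eq_mul_inv]
    apply mul_le_mul_of_nonneg_left _ (Real.exp_pos _).le
    have hs2 : 1 / e₀ ≤ s' - s₁ := by linarith
    have r1 : 1 ≤ (s' - s₁) * En c := by
      calc (1:ℝ) = 1 / e₀ * e₀ := by field_simp
        _ ≤ (s' - s₁) * En c := mul_le_mul hs2 hEc he.le hsp
    have r2 : Real.exp (-(2 * (s' - s₁) * En c)) ≤ Real.exp (-1) := by
      apply Real.exp_le_exp.mpr
      nlinarith
    have r3 : Real.exp (-1) ≤ 2⁻¹ := by
      rw [Real.exp_neg]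
      apply inv_anti₀ (by norm_num)
      have := Real.add_one_le_exp (1:ℝ)
      linarith
    linarith

end NilCut
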