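import Pool.Agent.Lib.MP_4ddf81_pr.Stm3

/-!
# MP_4ddf81_pr, stage 3 : elementary facts on the threshold
-/

namespace NilCut

open Filter Topology

namespace StarP

theorem ph3_nonneg {Q : Type} [Fintype Q] (C : Finset (Q → ℂ)) (s : ℝ) : 0 ≤ ph3 C s := by
  unfold ph3
  exact div_nonneg (Finset.sum_nonneg fun _ _ => (Real.exp_pos _).le) (Nat.cast_nonneg _)

theorem ph3_anti {Q : Type} [Fintype Q] (C : Finset (Q → ℂ)) (hC : ∀ c ∈ C, 0 ≤ En c) {s s' : ℝ}
    (h : s ≤ s') : ph3 C s' ≤ ph3 C s := by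
  unfold ph3
  apply div_le_div_of_nonneg_right _ (Nat.cast_nonneg _)
  apply Finset.sum_le_sum
  intro c hc
  apply Real.exp_le_exp.2
  have h1 := mul_le_mul_of_nonneg_right h (hC c hc)
  linarith

/-- the value at the upper bound -/
theorem ph3_top {Q : Type} [Fintype Q] (C : Finset (Q → ℂ)) (h1 : (1 : Q → ℂ) ∈ C)
    (hC : ∀ c ∈ C, 0 ≤ En c) {e₀ s : ℝ} (hs : 0 ≤ s) (hE : ∀ c ∈ C, c ≠ 1 → e₀ ≤ En c) (k : ℕ)
    (hk : 0 < k) (b : ℝ) (hb : (C.card : ℝ) ≤ b) (hexp : Real.exp (-(2 * s * e₀)) ≤ 1 / (k * b)) :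
    ph3 C s ≤ (1 + 1 / (k : ℝ)) / (C.card : ℝ) := by
  classical
  have hcard : 0 < (C.card : ℝ) := by exact_mod_cast Finset.card_pos.2 ⟨_, h1⟩
  have hb0 : 0 < b := lt_of_lt_of_le hcard hb
  have hk0 : (0 : ℝ) < k := by exact_mod_cast hk
  unfold ph3
  apply div_le_div_of_nonneg_right _ hcard.le
  rw [← Finset.add_sum_erase C _ h1]
  have e1 : Real.exp (-(2 * s * En (1 : Q → ℂ))) ≤ 1 := by
    rw [Real.exp_le_one_iff]
    have := mul_nonneg (mul_nonneg zero_le_two hs) (hC 1 h1)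
    linarith
  have e2 : ∑ c ∈ C.erase 1, Real.exp (-(2 * s * En c)) ≤ 1 / (k : ℝ) := by
    calc ∑ c ∈ C.erase 1, Real.exp (-(2 * s * En c))
        ≤ ∑ c ∈ C.erase 1, (1 / ((k : ℝ) * b)) := by
          apply Finset.sum_le_sum
          intro c hc
          rw [Finset.mem_erase] at hc
          refine le_trans (Real.exp_le_exp.2 ?_) hexp
          have := mul_le_mul_of_nonneg_left (hE c hc.2 hc.1) (mul_nonneg zero_le_two hs)
          linarith
      _ = ((C.erase 1).card : ℝ) * (1 / ((k : ℝ) * b)) := by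
          rw [Finset.sum_const, nsmul_eq_mul]
      _ ≤ b * (1 / ((k : ℝ) * b)) := by
          apply mul_le_mul_of_nonneg_right _ (by positivity)
          refine le_trans ?_ hb
          exact_mod_cast Finset.card_erase_le
      _ = 1 / (k : ℝ) := by
          field_simp
  linarith

end StarP

open StarP

theorem p_Star (hN : S_NCb) (hC : S_CFg) (hE : S_EnL) : S_Star := by
  intro G _ _ K _ _ k r S hS hr hk
  classical
  have hJ0 : 0 < K.index := Nat.pos_of_ne_zero Subgroup.FiniteIndex.index_ne_zero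
  have hr0 : (0 : ℝ) < r := by exact_mod_cast hr
  have hJr : (0 : ℝ) < K.index := by exact_mod_cast hJ0
  have hk0 : 0 < k := by omega
  have hkr : (0 : ℝ) < k := by exact_mod_cast hk0
  set e₀ : ℝ := 8 / ((r : ℝ) ^ 2 * (K.index : ℝ)) with he₀
  have he₀0 : 0 < e₀ := by positivity
  set A : Set ℝ := {s : ℝ | 0 ≤ s ∧ ∀ lam : K →* ℂˣ, lam ≠ 1 → Nat.card lam.range ≤ r →
    (NC K r (CF K lam) : ℝ) * ph3 (CF K lam) s ^ k ≤ 1} with hA
  have hstar : sStar K k r = sInf A := rfl
  have hEn0 : ∀ lam : K →* ℂˣ, Nat.card lam.range ≤ r → ∀ c ∈ CF K lam, 0 ≤ En c :=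
    fun lam hl c hc => (hE G K lam r hl c hc).1
  have hup : ∀ s ∈ A, ∀ s', s ≤ s' → s' ∈ A := by
    rintro s ⟨hs0, hs⟩ s' hss'
    refine ⟨hs0.trans hss', fun lam hlam hl => ?_⟩
    refine le_trans ?_ (hs lam hlam hl)
    apply mul_le_mul_of_nonneg_left _ (Nat.cast_nonneg _)
    exact pow_le_pow_left₀ (ph3_nonneg _ _) (ph3_anti _ (hEn0 lam hl) hss') k
  have hb1 : (1 : ℝ) ≤ (k : ℝ) * (r : ℝ) ^ K.index := by
    have h1 : (1 : ℝ) ≤ k := by exact_mod_cast hk0
    have h2 : (1 : ℝ) ≤ (r : ℝ) ^ K.index := one_le_pow₀ (by exact_mod_cast hr)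
    nlinarith
  set smax : ℝ := Real.log ((k : ℝ) * (r : ℝ) ^ K.index) / (2 * e₀) with hsmax
  have hsmax0 : 0 ≤ smax := div_nonneg (Real.log_nonneg hb1) (by positivity)
  have hmem : smax ∈ A := by
    refine ⟨hsmax0, fun lam hlam hl => ?_⟩
    obtain ⟨c1, -, -, -, -, c6, c7⟩ := hC G K lam
    set m : ℕ := (CF K lam).card with hm
    have hm2 : 2 ≤ m := c6 hlam
    have hmb : (m : ℝ) ≤ (r : ℝ) ^ K.index := by
      have : m ≤ r ^ K.index := c7.trans (Nat.pow_le_pow_left hl _)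
      exact_mod_cast this
    have hexp : Real.exp (-(2 * smax * e₀)) ≤ 1 / ((k : ℝ) * (r : ℝ) ^ K.index) := by
      have h1 : 2 * smax * e₀ = Real.log ((k : ℝ) * (r : ℝ) ^ K.index) := by
        rw [hsmax]
        field_simp
      rw [h1, Real.exp_neg, Real.exp_log (by positivity), one_div]
    have h1 := ph3_top (CF K lam) c1 (hEn0 lam hl) hsmax0
      (fun c hc hc1 => (hE G K lam r hl c hc).2.2 hc1) k hk0 _ hmb hexp
    have hm0 : (0 : ℝ) < m := by
      have : 0 < m := by omega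
      exact_mod_cast this
    have h2 : ph3 (CF K lam) smax ^ k ≤ Real.exp 1 / (m : ℝ) ^ k := by
      calc ph3 (CF K lam) smax ^ k ≤ ((1 + 1 / (k : ℝ)) / (m : ℝ)) ^ k :=
            pow_le_pow_left₀ (ph3_nonneg _ _) h1 k
        _ = (1 + 1 / (k : ℝ)) ^ k / (m : ℝ) ^ k := by rw [div_pow]
        _ ≤ Real.exp 1 / (m : ℝ) ^ k := by
            apply div_le_div_of_nonneg_right _ (by positivity)
            calc (1 + 1 / (k : ℝ)) ^ k ≤ (Real.exp (1 / (k : ℝ))) ^ k := by
                  apply pow_le_pow_left₀ (by positivity)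
                  have := Real.add_one_le_exp (1 / (k : ℝ))
                  linarith
              _ = Real.exp 1 := by
                  rw [← Real.exp_nat_mul]
                  congr 1
                  field_simp
    have h3 : (NC K r (CF K lam) : ℝ) ≤ (m : ℝ) ^ S.card := by
      exact_mod_cast hN G K r (CF K lam) S hS
    have h4 : Real.exp 1 ≤ 4 := by
      have := Real.exp_one_lt_d9
      linarith
    calc (NC K r (CF K lam) : ℝ) * ph3 (CF K lam) smax ^ k
        ≤ (m : ℝ) ^ S.card * (Real.exp 1 / (m : ℝ) ^ k) :=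
          mul_le_mul h3 h2 (pow_nonneg (ph3_nonneg _ _) _) (by positivity)
      _ ≤ 1 := by
          rw [← mul_div_assoc, div_le_one (by positivity)]
          calc (m : ℝ) ^ S.card * Real.exp 1 ≤ (m : ℝ) ^ S.card * (m : ℝ) ^ 2 := by
                apply mul_le_mul_of_nonneg_left _ (by positivity)
                have h5 : (2 : ℝ) ≤ m := by exact_mod_cast hm2
                nlinarith
            _ = (m : ℝ) ^ (S.card + 2) := by rw [pow_add]
            _ ≤ (m : ℝ) ^ k := by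
                apply pow_le_pow_right₀ _ hk
                have h5 : (2 : ℝ) ≤ m := by exact_mod_cast hm2
                linarith
  have hbdd : BddBelow A := ⟨0, fun s hs => hs.1⟩
  have hne : A.Nonempty := ⟨smax, hmem⟩
  rw [hstar]
  refine ⟨?_, ?_, ?_, ?_⟩
  · exact le_csInf hne fun s hs => hs.1
  · exact csInf_le hbdd hmem
  · intro s hs
    obtain ⟨s', hs', hlt⟩ := exists_lt_of_csInf_lt hne hs
    exact (hup s' hs' s hlt.le).2
  · intro s hs0 hs
    by_contra hno
    have h1 : s ∈ A := by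
      refine ⟨hs0, fun lam hlam hl => ?_⟩
      by_contra h2
      exact hno ⟨lam, hlam, hl, not_le.1 h2⟩
    exact absurd (csInf_le hbdd h1) (not_le.2 hs)

end NilCut
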