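import Pool.Agent.Lib.MP_4ddf81_pr.Stm3

/-!
# MP_4ddf81_pr, stage 3 : the structure of a slow representation
-/

namespace NilCut

open Filter Topology

namespace StructP

theorem norm_lam {G : Type} [Group G] [Finite G] {H : Subgroup G} (lam : H →* ℂˣ) (h : H) :
    ‖((lam h : ℂˣ) : ℂ)‖ = 1 := by
  have h1 : ((lam h : ℂˣ) : ℂ) ^ Nat.card H = 1 := by
    rw [← Units.val_pow_eq_pow_val, ← map_pow, pow_card_eq_one', map_one, Units.val_one]
  exact Complex.norm_eq_one_of_pow_eq_one h1 Nat.card_pos.ne'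

theorem eq_one_of_re {z : ℂ} (h : ‖z‖ ≤ 1) (hre : 1 ≤ z.re) : z = 1 := by
  have h1 : z.re ≤ ‖z‖ := Complex.re_le_norm z
  have h2 : z.re = 1 := le_antisymm (h1.trans h) hre
  have h3 : z.re ^ 2 + z.im ^ 2 ≤ 1 := by
    have h4 : ‖z‖ ^ 2 = z.re ^ 2 + z.im ^ 2 := by
      rw [← Complex.normSq_eq_norm_sq, Complex.normSq_apply]
      ring
    rw [← h4]
    have : 0 ≤ ‖z‖ := norm_nonneg z
    nlinarith
  have h5 : z.im = 0 := by
    rw [h2] at h3
    have h6 : z.im ^ 2 = 0 := le_antisymm (by linarith) (sq_nonneg _)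
    exact pow_eq_zero_iff (two_ne_zero) |>.1 h6
  exact Complex.ext (by rw [h2, Complex.one_re]) (by rw [h5, Complex.one_im])

/-- an element with the maximal value of the induced character -/
theorem max_indL {G : Type} [Group G] [Fintype G] (H : Subgroup G) (lam : H →* ℂˣ) (x : G)
    (hx : indL H lam x = (H.index : ℂ)) (y : G) :
    ∃ h : y⁻¹ * x * y ∈ H, lam ⟨y⁻¹ * x * y, h⟩ = 1 := by
  classical
  set T : G → ℂ := fun y => if h : y⁻¹ * x * y ∈ H then ((lam ⟨y⁻¹ * x * y, h⟩ : ℂˣ) : ℂ) else 0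
    with hT
  have hH : (Nat.card H : ℂ) ≠ 0 := by
    exact_mod_cast (Nat.card_pos (α := H)).ne'
  have hsum : ∑ y : G, T y = (Nat.card G : ℂ) := by
    have h1 : indL H lam x = (1 / (Nat.card H : ℂ)) * ∑ y : G, T y := by
      unfold indL
      congr 1
    rw [hx] at h1
    have h2 : (Nat.card H : ℂ) * (H.index : ℂ) = (Nat.card G : ℂ) := by
      exact_mod_cast H.card_mul_index
    rw [← h2, h1, ← mul_assoc, mul_one_div_cancel hH, one_mul]
  have hnorm : ∀ y, ‖T y‖ ≤ 1 := by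
    intro y
    rw [hT]
    beta_reduce
    split_ifs with h
    · rw [norm_lam]
    · rw [norm_zero]
      exact zero_le_one
  have hre : ∑ y : G, (1 - (T y).re) = 0 := by
    rw [Finset.sum_sub_distrib, ← Complex.re_sum, hsum, Finset.sum_const, Finset.card_univ,
      Complex.natCast_re, Nat.card_eq_fintype_card, nsmul_eq_mul, mul_one, sub_self]
  have hall := (Finset.sum_eq_zero_iff_of_nonneg (fun y _ => by
    have h1 := Complex.re_le_norm (T y)
    have h2 := hnorm y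
    linarith)).1 hre y (Finset.mem_univ y)
  have hTy : T y = 1 := eq_one_of_re (hnorm y) (by linarith)
  rw [hT] at hTy
  beta_reduce at hTy
  by_cases h : y⁻¹ * x * y ∈ H
  · rw [dif_pos h] at hTy
    exact ⟨h, Units.ext (by rw [hTy, Units.val_one])⟩
  · rw [dif_neg h] at hTy
    exact absurd hTy.symm one_ne_zero

theorem one_dim {G : Type} [Group G] (d : ℕ) (hd : 0 < d) (ρ : G →* Matrix (Fin d) (Fin d) ℂ)
    (hirr : IsIrr ρ) (h1 : ∀ x, ρ x = 1) : d = 1 := by
  by_contra hne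
  have h2 : 1 < d := by omega
  have hr : Set.range ρ = {1} := by
    ext A
    rw [Set.mem_singleton_iff]
    constructor
    · rintro ⟨x, rfl⟩
      exact h1 x
    · rintro rfl
      exact ⟨1, map_one ρ⟩
  unfold IsIrr at hirr
  rw [hr] at hirr
  have h3 : Matrix.single (⟨0, hd⟩ : Fin d) ⟨0, hd⟩ (1 : ℂ) ∈
      Submodule.span ℂ ({1} : Set (Matrix (Fin d) (Fin d) ℂ)) := by
    rw [hirr]
    exact Submodule.mem_top
  obtain ⟨c, hc⟩ := Submodule.mem_span_singleton.1 h3
  have e0 := congrFun (congrFun hc ⟨0, hd⟩) ⟨0, hd⟩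
  have e1 := congrFun (congrFun hc ⟨1, h2⟩) ⟨1, h2⟩
  rw [Matrix.smul_apply, Matrix.one_apply_eq, smul_eq_mul, mul_one,
    Matrix.single_apply_same] at e0
  rw [Matrix.smul_apply, Matrix.one_apply_eq, smul_eq_mul, mul_one,
    Matrix.single_apply_of_ne] at e1
  · rw [e0] at e1
    exact one_ne_zero e1
  · rintro ⟨h, -⟩
    have := congrArg Fin.val h
    simp at this

end StructP

open StructP

theorem p_Struct (h1 : S_DPt) (h2 : S_Inv) (h3 : S_Ninv) : S_Struct := by
  intro G _ _ P M k D r₀ Z γ i hk hγ hγ1 hnt hiD hr₀ hfac hgap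
  have hidx : (M.H i).index ≤ D := by
    rw [M.idx]
    exact hiD
  obtain ⟨v, vm, I, hcov, hvm, hb, hex, hI, hinv⟩ :=
    h1 G (M.H i) (M.lam i) k D Z γ hk hγ hγ1 hidx hgap
  obtain ⟨v', P', hcov', hne, hP', hIP, hidx'⟩ :=
    h2 G (M.H i) (M.lam i) k (D * r₀) Z (Real.sqrt (γ * (D : ℝ))) vm v I
      (Nat.mul_le_mul hidx hr₀) (Real.sqrt_nonneg _) hfac hcov hvm hb hex hinv
  refine ⟨P', I, hidx', hI, hIP, ?_⟩
  intro K hK hPK hKK
  refine ⟨?_, ?_⟩
  · have hn : (⁅K, K⁆ : Subgroup G).Normal := by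
      have := hK
      exact Subgroup.commutator_normal K K
    exact h3 G (P.d i) (P.ρ i) (P.irr i) (M.H i) (M.lam i) (M.tr i) ⁅K, K⁆ hn v' hcov' hne
      (fun x hx g => (hP' x).1 (hKK hx) g)
  · by_contra hno
    have hKρ : ∀ x ∈ K, P.ρ i x = 1 := by
      intro x hx
      by_contra h
      exact hno ⟨x, hx, h⟩
    have hKP : K ≤ P' := by
      intro x hx
      rw [hP']
      intro g
      have hxi : x⁻¹ ∈ K := K.inv_mem hx
      have htr : indL (M.H i) (M.lam i) x⁻¹ = ((M.H i).index : ℂ) := by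
        rw [← M.tr i, hKρ _ hxi, Matrix.trace_one, M.idx, Fintype.card_fin]
      obtain ⟨hm, hl⟩ := max_indL (M.H i) (M.lam i) x⁻¹ htr g
      have h4 := hcov' g ⟨g⁻¹ * x⁻¹ * g, hm⟩
      rw [hl, inv_one, Units.val_one, one_mul] at h4
      rw [← h4]
      congr 1
      change x⁻¹ * g = g * (g⁻¹ * x⁻¹ * g)
      group
    have htop : P' = ⊤ := by
      rw [← hPK]
      exact (sup_eq_left.2 hKP).symm
    have hall : ∀ x : G, P.ρ i x = 1 := by
      intro x
      exact h3 G (P.d i) (P.ρ i) (P.irr i) (M.H i) (M.lam i) (M.tr i) ⊤ inferInstance v' hcov' hne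
        (fun x _ g => (hP' x).1 (by rw [htop]; exact Subgroup.mem_top x) g) x
        (Subgroup.mem_top x)
    have hd1 := one_dim (P.d i) (P.pos i) (P.ρ i) (P.irr i) hall
    obtain ⟨g, hg⟩ := hnt
    apply hg
    rw [hall g, Matrix.trace_one, Fintype.card_fin, hd1, Nat.cast_one]

end NilCut
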