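import Pool.Agent.Lib.MP_4ddf81_pr.Stm3
import Pool.Agent.Lib.MP_4ddf81_pr.P.T2
import Pool.Agent.Lib.MP_4ddf81_pr.P2.Anti
import Pool.Agent.Lib.MP_4ddf81_pr.P2.UBdet

/-! From the mixed time to the continuous time. -/

namespace NilCut

namespace T4P

variable {G : Type} [Group G] [Fintype G]

/-- distance of `μ` to the uniform distribution -/
noncomputable def tv (μ : G → ℝ) : ℝ := (1 / 2) * ∑ g : G, |μ g - 1 / (Nat.card G : ℝ)|

omit [Group G] in
theorem tv_nonneg (μ : G → ℝ) : 0 ≤ tv μ := by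
  unfold tv
  exact mul_nonneg (by norm_num) (Finset.sum_nonneg fun _ _ => abs_nonneg _)

omit [Group G] in
theorem le_one {μ : G → ℝ} (h0 : ∀ g, 0 ≤ μ g) (h1 : ∑ g, μ g = 1) (g : G) : μ g ≤ 1 := by
  rw [← h1]
  exact Finset.single_le_sum (fun x _ => h0 x) (Finset.mem_univ g)

theorem tv_le_one {μ : G → ℝ} (h0 : ∀ g, 0 ≤ μ g) (h1 : ∑ g, μ g = 1) : tv μ ≤ 1 := by
  unfold tv
  have hG : (0 : ℝ) < (Nat.card G : ℝ) := by exact_mod_cast Nat.card_pos
  have h2 : ∑ g : G, |μ g - 1 / (Nat.card G : ℝ)| ≤ ∑ g : G, (μ g + 1 / (Nat.card G : ℝ)) := by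
    refine Finset.sum_le_sum fun g _ => ?_
    have h2 := h0 g
    have h3 : (0 : ℝ) ≤ 1 / (Nat.card G : ℝ) := by positivity
    rw [abs_le]
    constructor <;> linarith
  have h4 : ∑ g : G, (μ g + 1 / (Nat.card G : ℝ)) = 2 := by
    rw [Finset.sum_add_distrib, h1, Finset.sum_const, Finset.card_univ,
      nsmul_eq_mul, ← Nat.card_eq_fintype_card, mul_one_div_cancel hG.ne']
    norm_num
  linarith

theorem tv_conv {μ κ : G → ℝ} (h0 : ∀ g, 0 ≤ κ g) (h1 : ∑ g, κ g = 1) :
    tv (conv μ κ) ≤ tv μ := by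
  unfold tv
  apply mul_le_mul_of_nonneg_left _ (by norm_num)
  set c : ℝ := 1 / (Nat.card G : ℝ) with hc
  have hk : ∀ h : G, ∑ g : G, κ (h⁻¹ * g) = 1 := by
    intro h
    rw [← h1]
    exact Fintype.sum_equiv (Equiv.mulLeft h⁻¹) _ _ (fun x => rfl)
  have hk' : ∀ g : G, ∑ h : G, κ (h⁻¹ * g) = 1 := by
    intro g
    rw [← h1]
    exact Fintype.sum_equiv ((Equiv.inv G).trans (Equiv.mulRight g)) _ _ (fun x => rfl)
  have h2 : ∀ g : G, |conv μ κ g - c| ≤ ∑ h : G, |μ h - c| * κ (h⁻¹ * g) := by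
    intro g
    have h3 : conv μ κ g - c = ∑ h : G, (μ h - c) * κ (h⁻¹ * g) := by
      unfold conv
      simp_rw [sub_mul]
      rw [Finset.sum_sub_distrib, ← Finset.mul_sum, hk' g, mul_one]
    rw [h3]
    refine (Finset.abs_sum_le_sum_abs _ _).trans (Finset.sum_le_sum fun h _ => ?_)
    rw [abs_mul, abs_of_nonneg (h0 _)]
  refine (Finset.sum_le_sum fun g _ => h2 g).trans ?_
  rw [Finset.sum_comm]
  refine Finset.sum_le_sum fun h _ => ?_
  rw [← Finset.mul_sum, hk h, mul_one]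

theorem main {L : G → ℝ} {μ : ℕ → G → ℝ} {t : ℝ} (ht : 0 ≤ t) (h0 : ∀ i g, 0 ≤ μ i g)
    (h1 : ∀ i, ∑ g, μ i g = 1) (hL : ∀ g, HasSum (fun i => pois t i * μ i g) (L g)) (n : ℕ)
    (hn : ∀ i, n ≤ i → tv (μ i) ≤ tv (μ n)) :
    tv L ≤ ∑ i ∈ Finset.range n, pois t i + tv (μ n) := by
  classical
  have hG : (0 : ℝ) < (Nat.card G : ℝ) := by exact_mod_cast Nat.card_pos
  -- every term
  have hs : ∀ g : G, Summable fun i => pois t i * |μ i g - 1 / (Nat.card G : ℝ)| := by
    intro g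
    refine Summable.of_nonneg_of_le (fun i => mul_nonneg (T2.pois_nonneg ht i) (abs_nonneg _))
      (fun i => ?_) (T2.pois_hasSum t).summable
    refine mul_le_of_le_one_right (T2.pois_nonneg ht i) ?_
    have h2 := h0 i g
    have h3 : (0 : ℝ) ≤ 1 / (Nat.card G : ℝ) := by positivity
    have h4 := le_one (h0 i) (h1 i) g
    have h5 : 1 / (Nat.card G : ℝ) ≤ 1 := by
      rw [div_le_one hG]
      exact_mod_cast Nat.card_pos
    rw [abs_le]
    constructor <;> linarith
  have h2 : ∀ g : G, |L g - 1 / (Nat.card G : ℝ)| ≤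
      ∑' i, pois t i * |μ i g - 1 / (Nat.card G : ℝ)| := by
    intro g
    have h2 : HasSum (fun i => pois t i * (μ i g - 1 / (Nat.card G : ℝ)))
        (L g - 1 / (Nat.card G : ℝ)) := by
      have h3 := (hL g).sub ((T2.pois_hasSum t).mul_right (1 / (Nat.card G : ℝ)))
      rw [one_mul] at h3
      have h7 : (fun i => pois t i * μ i g - pois t i * (1 / (Nat.card G : ℝ))) =
          fun i => pois t i * (μ i g - 1 / (Nat.card G : ℝ)) := by
        funext i
        ring
      rwa [h7] at h3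
    rw [← h2.tsum_eq]
    have h4 : Summable fun i => ‖pois t i * (μ i g - 1 / (Nat.card G : ℝ))‖ := by
      refine (hs g).congr fun i => ?_
      rw [Real.norm_eq_abs, abs_mul, abs_of_nonneg (T2.pois_nonneg ht i)]
    have h5 := norm_tsum_le_tsum_norm h4
    rw [Real.norm_eq_abs] at h5
    refine h5.trans (le_of_eq (tsum_congr fun i => ?_))
    rw [Real.norm_eq_abs, abs_mul, abs_of_nonneg (T2.pois_nonneg ht i)]
  have h3 : HasSum (fun i => pois t i * tv (μ i))
      ((1 / 2) * ∑ g : G, ∑' i, pois t i * |μ i g - 1 / (Nat.card G : ℝ)|) := by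
    have h3 : HasSum (fun i => ∑ g : G, pois t i * |μ i g - 1 / (Nat.card G : ℝ)|)
        (∑ g : G, ∑' i, pois t i * |μ i g - 1 / (Nat.card G : ℝ)|) :=
      hasSum_sum fun g _ => (hs g).hasSum
    have h4 := h3.mul_left (1 / 2)
    have h5 : (fun i => (1 / 2 : ℝ) *
        ∑ g : G, pois t i * |μ i g - 1 / (Nat.card G : ℝ)|) =
        fun i => pois t i * tv (μ i) := by
      funext i
      unfold tv
      rw [← Finset.mul_sum]
      ring
    rwa [h5] at h4
  have h4 : tv L ≤ ∑' i, pois t i * tv (μ i) := by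
    rw [h3.tsum_eq]
    change (1 / 2) * ∑ g : G, |L g - 1 / (Nat.card G : ℝ)| ≤ _
    gcongr with g _
    exact h2 g
  refine h4.trans ?_
  -- comparison
  have h5 : HasSum (fun i => (if i ∈ Finset.range n then pois t i else 0) +
      pois t i * tv (μ n)) (∑ i ∈ Finset.range n, pois t i + tv (μ n)) := by
    have h5 : HasSum (fun i => if i ∈ Finset.range n then pois t i else 0)
        (∑ i ∈ Finset.range n, pois t i) := by
      have h6 : HasSum (fun i => if i ∈ Finset.range n then pois t i else 0)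
          (∑ i ∈ Finset.range n, if i ∈ Finset.range n then pois t i else 0) :=
        hasSum_sum_of_ne_finset_zero (fun b hb => if_neg hb)
      rwa [Finset.sum_congr rfl (fun i hi => if_pos hi)] at h6
    have h7 := (T2.pois_hasSum t).mul_right (tv (μ n))
    rw [one_mul] at h7
    exact h5.add h7
  rw [← h5.tsum_eq]
  refine Summable.tsum_le_tsum (fun i => ?_) h3.summable h5.summable
  have hp := T2.pois_nonneg ht i
  have ht1 := tv_le_one (h0 i) (h1 i)
  have ht0 := tv_nonneg (μ n)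
  by_cases hi : i ∈ Finset.range n
  · rw [if_pos hi]
    nlinarith [mul_nonneg hp ht0, mul_le_of_le_one_right hp ht1]
  · rw [if_neg hi, zero_add]
    have hni : n ≤ i := by simpa using hi
    exact mul_le_mul_of_nonneg_left (hn i hni) hp

end T4P

theorem p_T4 : S_T4 := by
  intro G _ _ k Z t t₁ n hk ht ht₁
  have h0 : ∀ i g, 0 ≤ conv (law Z t) (stepLaw Z i) g := fun i g =>
    UBdet.conv_nonneg _ _ (Anti.law_nonneg hk Z ht) (T2.stepLaw_nonneg Z i) g
  have h1 : ∀ i, ∑ g, conv (law Z t) (stepLaw Z i) g = 1 := by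
    intro i
    rw [UBdet.conv_sum, Anti.law_sum hk Z ht, T2.stepLaw_sum hk, mul_one]
  have h2 := T4P.main (L := law Z (t + t₁)) (μ := fun i => conv (law Z t) (stepLaw Z i)) ht₁
    h0 h1 ?_ n ?_
  · exact h2
  · intro g
    have h3 : HasSum (fun i => ∑ h : G, law Z t h * (pois t₁ i * stepLaw Z i (h⁻¹ * g)))
        (∑ h : G, law Z t h * law Z t₁ (h⁻¹ * g)) :=
      hasSum_sum fun h _ => (T2.law_hasSum hk Z ht₁ (h⁻¹ * g)).mul_left _
    rw [← Anti.law_add hk Z ht ht₁] at h3
    have h4 : (fun i => ∑ h : G, law Z t h * (pois t₁ i * stepLaw Z i (h⁻¹ * g))) =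
        fun i => pois t₁ i * conv (law Z t) (stepLaw Z i) g := by
      funext i
      unfold conv
      rw [Finset.mul_sum]
      exact Finset.sum_congr rfl fun h _ => by ring
    rwa [h4] at h3
  · intro i hi
    obtain ⟨j, rfl⟩ := Nat.exists_eq_add_of_le hi
    have h5 : conv (stepLaw Z n) (stepLaw Z j) = stepLaw Z (n + j) := by
      funext g
      exact Anti.stepLaw_add Z n j g
    have h6 : conv (law Z t) (stepLaw Z (n + j)) =
        conv (conv (law Z t) (stepLaw Z n)) (stepLaw Z j) := by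
      rw [UBdet.conv_assoc, h5]
    change T4P.tv (conv (law Z t) (stepLaw Z (n + j))) ≤ T4P.tv (conv (law Z t) (stepLaw Z n))
    rw [h6]
    exact T4P.tv_conv (T2.stepLaw_nonneg Z j) (T2.stepLaw_sum hk Z j)

end NilCut
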