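import Pool.Agent.Lib.MP_4ddf81_pr.Stm3

/-!
# MP_4ddf81_pr, stage 3 : the numbers of the transitions   (helper54; the lemmas on the
occupation numbers are copied from P2/Occ.lean, helper42)
-/

namespace NilCut

open Filter Topology

namespace TrsP

variable {Q : Type} [Group Q]

private lemma st_snoc {k n : ℕ} (z : Fin k → Q) (u : Fin n → Fin k) (l : Fin k) (j : ℕ)
    (hj : j ≤ n) : st z (Fin.snoc u l : Fin (n + 1) → Fin k) j = st z u j := by
  unfold st
  rw [List.ofFn_succ']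
  simp only [Fin.snoc_castSucc, Fin.snoc_last, List.concat_eq_append]
  rw [List.take_append_of_le_length (by simpa using hj)]

private lemma st_snoc_last {k n : ℕ} (z : Fin k → Q) (u : Fin n → Fin k) (l : Fin k) :
    st z (Fin.snoc u l : Fin (n + 1) → Fin k) (n + 1) = st z u n * z l := by
  unfold st
  rw [List.ofFn_succ']
  simp only [Fin.snoc_castSucc, Fin.snoc_last, List.concat_eq_append]
  rw [List.take_of_length_le (by simp), List.take_of_length_le (by simp), List.prod_append]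
  simp

open Classical in
/-- empirical frequency -/
private noncomputable def nu {k : ℕ} (z : Fin k → Q) (q : Q) : ℝ :=
  (∑ i, if z i = q then (1 : ℝ) else 0) / k

open Classical in
private noncomputable def xi {k n : ℕ} (z : Fin k → Q) (a : Q) (w : Fin n → Fin k) (j : ℕ) : ℝ :=
  (if st z w (j + 1) = a then 1 else 0) - nu z ((st z w j)⁻¹ * a)

private noncomputable def BB {k n : ℕ} (z : Fin k → Q) (a : Q) (w : Fin n → Fin k) : ℝ :=
  ∑ j ∈ Finset.range n, xi z a w j

omit [Group Q] in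
private lemma nu_nonneg {k : ℕ} (z : Fin k → Q) (q : Q) : 0 ≤ nu z q := by
  unfold nu
  exact div_nonneg (Finset.sum_nonneg fun i _ => by split_ifs <;> norm_num) (Nat.cast_nonneg _)

omit [Group Q] in
private lemma nu_le_one {k : ℕ} (hk : 0 < k) (z : Fin k → Q) (q : Q) : nu z q ≤ 1 := by
  classical
  unfold nu
  rw [div_le_one (by exact_mod_cast hk)]
  calc ∑ i : Fin k, (if z i = q then (1 : ℝ) else 0) ≤ ∑ _i : Fin k, (1 : ℝ) :=
        Finset.sum_le_sum fun i _ => by split_ifs <;> norm_num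
    _ = k := by simp

open Classical in
private lemma BB_snoc {k n : ℕ} (z : Fin k → Q) (a : Q) (u : Fin n → Fin k) (l : Fin k) :
    BB z a (Fin.snoc u l : Fin (n + 1) → Fin k) =
      BB z a u + ((if z l = (st z u n)⁻¹ * a then 1 else 0) - nu z ((st z u n)⁻¹ * a)) := by
  unfold BB
  rw [Finset.sum_range_succ]
  congr 1
  · apply Finset.sum_congr rfl
    intro j hj
    rw [Finset.mem_range] at hj
    unfold xi
    rw [st_snoc z u l (j + 1) hj, st_snoc z u l j hj.le]
  · unfold xi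
    rw [st_snoc_last, st_snoc z u l n le_rfl]
    congr 1
    by_cases h : z l = (st z u n)⁻¹ * a
    · rw [if_pos h, if_pos (by rw [h]; group)]
    · rw [if_neg h, if_neg (fun h' => h (by rw [← h']; group))]

private lemma sum_snoc {k n : ℕ} (F : (Fin (n + 1) → Fin k) → ℝ) :
    ∑ w, F w = ∑ u : Fin n → Fin k, ∑ l : Fin k, F (Fin.snoc u l : Fin (n + 1) → Fin k) := by
  rw [← (Fin.snocEquiv (fun _ : Fin (n + 1) => Fin k)).sum_comp F, Fintype.sum_prod_type_right]
  rfl

private lemma sum_sq {k : ℕ} (hk : 0 < k) (z : Fin k → Q) (a : Q) : ∀ n : ℕ,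
    ∑ w : Fin n → Fin k, (BB z a w) ^ 2 ≤ (n : ℝ) * (k : ℝ) ^ n := by
  classical
  intro n
  induction n with
  | zero => simp [BB]
  | succ n ih =>
      rw [sum_snoc]
      have hk0 : (0 : ℝ) < k := by exact_mod_cast hk
      have h : ∀ u : Fin n → Fin k, ∑ l : Fin k,
          (BB z a (Fin.snoc u l : Fin (n + 1) → Fin k)) ^ 2 ≤ k * (BB z a u) ^ 2 + k := by
        intro u
        simp only [BB_snoc]
        set q := (st z u n)⁻¹ * a with hq
        have h0 : ∑ l : Fin k, (((if z l = q then 1 else 0) : ℝ) - nu z q) = 0 := by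
          rw [Finset.sum_sub_distrib, Finset.sum_const, Finset.card_univ, Fintype.card_fin,
            nsmul_eq_mul]
          unfold nu
          field_simp
          simp
        have h1 : ∀ l : Fin k, (((if z l = q then 1 else 0) : ℝ) - nu z q) ^ 2 ≤ 1 := by
          intro l
          have := nu_nonneg z q
          have := nu_le_one hk z q
          split_ifs <;> nlinarith
        calc ∑ l : Fin k, (BB z a u + (((if z l = q then 1 else 0) : ℝ) - nu z q)) ^ 2
            = ∑ l : Fin k, ((BB z a u) ^ 2 + 2 * BB z a u *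
                (((if z l = q then 1 else 0) : ℝ) - nu z q) +
                (((if z l = q then 1 else 0) : ℝ) - nu z q) ^ 2) :=
              Finset.sum_congr rfl fun l _ => by ring
          _ = k * (BB z a u) ^ 2 + ∑ l : Fin k, (((if z l = q then 1 else 0) : ℝ) - nu z q) ^ 2 := by
              rw [Finset.sum_add_distrib, Finset.sum_add_distrib, ← Finset.mul_sum, h0,
                Finset.sum_const, Finset.card_univ, Fintype.card_fin, nsmul_eq_mul]
              ring
          _ ≤ k * (BB z a u) ^ 2 + ∑ _l : Fin k, (1 : ℝ) := by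
              gcongr with l _
              exact h1 l
          _ = k * (BB z a u) ^ 2 + k := by simp
      calc ∑ u : Fin n → Fin k, ∑ l : Fin k, (BB z a (Fin.snoc u l : Fin (n + 1) → Fin k)) ^ 2
          ≤ ∑ u : Fin n → Fin k, (k * (BB z a u) ^ 2 + k) := Finset.sum_le_sum fun u _ => h u
        _ = k * ∑ u : Fin n → Fin k, (BB z a u) ^ 2 + (k : ℝ) ^ n * k := by
            rw [Finset.sum_add_distrib, ← Finset.mul_sum, Finset.sum_const, Finset.card_univ,
              nsmul_eq_mul]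
            simp
        _ ≤ k * ((n : ℝ) * (k : ℝ) ^ n) + (k : ℝ) ^ n * k := by gcongr
        _ = ((n + 1 : ℕ) : ℝ) * (k : ℝ) ^ (n + 1) := by push_cast; ring

private lemma sum_cons {X : Type} [Fintype X] {k : ℕ} (F : (Fin (k + 1) → X) → ℝ) :
    ∑ w, F w = ∑ x : X, ∑ u : Fin k → X, F (Fin.cons x u : Fin (k + 1) → X) := by
  rw [← (Fin.consEquiv (fun _ : Fin (k + 1) => X)).sum_comp F, Fintype.sum_prod_type]
  rfl

private lemma var_sum {X : Type} [Fintype X] (y : X → ℝ) (hy : ∑ x, y x = 0) : ∀ k : ℕ,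
    (Fintype.card X : ℝ) * ∑ z : Fin k → X, (∑ i, y (z i)) ^ 2 =
      (k : ℝ) * (Fintype.card X : ℝ) ^ k * ∑ x, y x ^ 2 := by
  intro k
  induction k with
  | zero => simp
  | succ k ih =>
      rw [sum_cons]
      have h : ∑ x : X, ∑ u : Fin k → X, (∑ i, y ((Fin.cons x u : Fin (k + 1) → X) i)) ^ 2 =
          (Fintype.card X : ℝ) ^ k * ∑ x, y x ^ 2 +
            (Fintype.card X : ℝ) * ∑ u : Fin k → X, (∑ i, y (u i)) ^ 2 := by
        have e : ∀ (x : X) (u : Fin k → X),
            (∑ i, y ((Fin.cons x u : Fin (k + 1) → X) i)) ^ 2 =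
            y x ^ 2 + 2 * y x * (∑ i, y (u i)) + (∑ i, y (u i)) ^ 2 := by
          intro x u
          rw [Fin.sum_univ_succ]
          simp only [Fin.cons_zero, Fin.cons_succ]
          ring
        simp only [e, Finset.sum_add_distrib]
        have e1 : ∑ x : X, ∑ _u : Fin k → X, y x ^ 2 = (Fintype.card X : ℝ) ^ k * ∑ x, y x ^ 2 := by
          simp only [Finset.sum_const, Finset.card_univ, nsmul_eq_mul, ← Finset.mul_sum]
          simp
        have e2 : ∑ x : X, ∑ u : Fin k → X, 2 * y x * (∑ i, y (u i)) = 0 := by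
          simp only [← Finset.mul_sum]
          rw [← Finset.sum_mul, ← Finset.mul_sum, hy]
          ring
        have e3 : ∑ _x : X, ∑ u : Fin k → X, (∑ i, y (u i)) ^ 2 =
            (Fintype.card X : ℝ) * ∑ u : Fin k → X, (∑ i, y (u i)) ^ 2 := by
          rw [Finset.sum_const, Finset.card_univ, nsmul_eq_mul]
        rw [e1, e2, e3]
        ring
      rw [h, ih]
      push_cast
      ring

private lemma nu_var [Fintype Q] {k : ℕ} (hk : 0 < k) :
    ∑ z : Fin k → Q, ∑ q : Q, (nu z q - 1 / (Fintype.card Q : ℝ)) ^ 2 ≤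
      (Fintype.card Q : ℝ) ^ k / k := by
  classical
  have hk0 : (0 : ℝ) < k := by exact_mod_cast hk
  have hJ : (0 : ℝ) < Fintype.card Q := by exact_mod_cast Fintype.card_pos
  rw [Finset.sum_comm]
  have h : ∀ q : Q, ∑ z : Fin k → Q, (nu z q - 1 / (Fintype.card Q : ℝ)) ^ 2 ≤
      (Fintype.card Q : ℝ) ^ k / k / (Fintype.card Q : ℝ) := by
    intro q
    set y : Q → ℝ := fun x => (if x = q then 1 else 0) - 1 / (Fintype.card Q : ℝ) with hy
    have hy0 : ∑ x, y x = 0 := by
      simp only [hy]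
      rw [Finset.sum_sub_distrib, Finset.sum_const, Finset.card_univ, nsmul_eq_mul]
      simp
    have hy2 : ∑ x, y x ^ 2 ≤ 1 := by
      have e : ∀ x, y x ^ 2 = (if x = q then 1 else 0) - 2 / (Fintype.card Q : ℝ) *
          (if x = q then 1 else 0) + 1 / (Fintype.card Q : ℝ) ^ 2 := by
        intro x
        simp only [hy]
        split_ifs <;> ring
      simp only [e]
      rw [Finset.sum_add_distrib, Finset.sum_sub_distrib, ← Finset.mul_sum, Finset.sum_const,
        Finset.card_univ, nsmul_eq_mul]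
      simp only [Finset.sum_ite_eq', Finset.mem_univ, if_true]
      have h1 : (Fintype.card Q : ℝ) * (1 / (Fintype.card Q : ℝ) ^ 2) =
          1 / (Fintype.card Q : ℝ) := by field_simp
      rw [h1]
      have h2 : 0 < 1 / (Fintype.card Q : ℝ) := by positivity
      have h3 : 2 / (Fintype.card Q : ℝ) * 1 = 2 * (1 / (Fintype.card Q : ℝ)) := by ring
      rw [h3]
      linarith
    have hv := var_sum y hy0 k
    have e2 : ∀ z : Fin k → Q, nu z q - 1 / (Fintype.card Q : ℝ) = (∑ i, y (z i)) / k := by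
      intro z
      simp only [hy]
      rw [Finset.sum_sub_distrib, Finset.sum_const, Finset.card_univ, Fintype.card_fin,
        nsmul_eq_mul]
      unfold nu
      field_simp
    simp only [e2, div_pow]
    rw [← Finset.sum_div]
    have h4 : ∑ z : Fin k → Q, (∑ i, y (z i)) ^ 2 ≤
        (k : ℝ) * (Fintype.card Q : ℝ) ^ k / (Fintype.card Q : ℝ) := by
      rw [le_div_iff₀ hJ, mul_comm, hv]
      calc (k : ℝ) * (Fintype.card Q : ℝ) ^ k * ∑ x, y x ^ 2 ≤
            (k : ℝ) * (Fintype.card Q : ℝ) ^ k * 1 := by gcongr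
        _ = _ := mul_one _
    calc (∑ z : Fin k → Q, (∑ i, y (z i)) ^ 2) / (k : ℝ) ^ 2 ≤
          ((k : ℝ) * (Fintype.card Q : ℝ) ^ k / (Fintype.card Q : ℝ)) / (k : ℝ) ^ 2 := by gcongr
      _ = (Fintype.card Q : ℝ) ^ k / k / (Fintype.card Q : ℝ) := by field_simp
  calc ∑ q : Q, ∑ z : Fin k → Q, (nu z q - 1 / (Fintype.card Q : ℝ)) ^ 2 ≤
        ∑ _q : Q, (Fintype.card Q : ℝ) ^ k / k / (Fintype.card Q : ℝ) :=
        Finset.sum_le_sum fun q _ => h q
    _ = (Fintype.card Q : ℝ) ^ k / k := by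
        rw [Finset.sum_const, Finset.card_univ, nsmul_eq_mul]
        field_simp

open Classical in
private lemma occ_eq {k n : ℕ} (z : Fin k → Q) (w : Fin n → Fin k) (a : Q) :
    (occ z w a : ℝ) = ∑ j ∈ Finset.range n, (if st z w j = a then (1 : ℝ) else 0) := by
  unfold occ
  rw [Finset.card_filter]
  push_cast
  rw [← Fin.sum_univ_eq_sum_range (fun j => if st z w j = a then (1 : ℝ) else 0) n]

private lemma occ_abs {k n : ℕ} (z : Fin k → Q) (w : Fin n → Fin k) (a : Q) :
    |(occ z w a : ℝ) - BB z a w - ∑ j ∈ Finset.range n, nu z ((st z w j)⁻¹ * a)| ≤ 1 := by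
  classical
  rw [occ_eq]
  unfold BB xi
  rw [Finset.sum_sub_distrib]
  have h := Finset.sum_range_succ (fun j => if st z w j = a then (1 : ℝ) else 0) n
  have h' := Finset.sum_range_succ' (fun j => if st z w j = a then (1 : ℝ) else 0) n
  have h1 : (if st z w 0 = a then (1 : ℝ) else 0) ≤ 1 := by split_ifs <;> norm_num
  have h2 : (0 : ℝ) ≤ (if st z w n = a then (1 : ℝ) else 0) := by split_ifs <;> norm_num
  have h3 : (0 : ℝ) ≤ (if st z w 0 = a then (1 : ℝ) else 0) := by split_ifs <;> norm_num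
  have h4 : (if st z w n = a then (1 : ℝ) else 0) ≤ 1 := by split_ifs <;> norm_num
  rw [abs_le]
  constructor <;> linarith

open Classical in
/-- the martingale of the transitions -/
private noncomputable def SS {k n : ℕ} (z : Fin k → Q) (a q : Q) (w : Fin n → Fin k) : ℝ :=
  ∑ j : Fin n, (if st z w j = a then (1 : ℝ) else 0) *
    ((if z (w j) = q then (1 : ℝ) else 0) - nu z q)

open Classical in
private lemma SS_snoc {k n : ℕ} (z : Fin k → Q) (a q : Q) (u : Fin n → Fin k) (l : Fin k) :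
    SS z a q (Fin.snoc u l : Fin (n + 1) → Fin k) =
      SS z a q u + (if st z u n = a then (1 : ℝ) else 0) *
        ((if z l = q then (1 : ℝ) else 0) - nu z q) := by
  unfold SS
  rw [Fin.sum_univ_castSucc]
  congr 1
  · apply Finset.sum_congr rfl
    intro j _
    rw [Fin.snoc_castSucc, Fin.val_castSucc, st_snoc z u l j (le_of_lt j.isLt)]
  · rw [Fin.snoc_last, Fin.val_last, st_snoc z u l n le_rfl]

private lemma SS_sq {k : ℕ} (hk : 0 < k) (z : Fin k → Q) (a q : Q) : ∀ n : ℕ,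
    ∑ w : Fin n → Fin k, (SS z a q w) ^ 2 ≤ (n : ℝ) * (k : ℝ) ^ n := by
  classical
  intro n
  induction n with
  | zero => simp [SS]
  | succ n ih =>
      rw [sum_snoc]
      have hk0 : (0 : ℝ) < k := by exact_mod_cast hk
      have h : ∀ u : Fin n → Fin k, ∑ l : Fin k,
          (SS z a q (Fin.snoc u l : Fin (n + 1) → Fin k)) ^ 2 ≤ k * (SS z a q u) ^ 2 + k := by
        intro u
        simp only [SS_snoc]
        set e : ℝ := (if st z u n = a then (1 : ℝ) else 0) with he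
        have he1 : e ^ 2 ≤ 1 := by
          rw [he]
          split_ifs <;> norm_num
        have h0 : ∑ l : Fin k, (((if z l = q then 1 else 0) : ℝ) - nu z q) = 0 := by
          rw [Finset.sum_sub_distrib, Finset.sum_const, Finset.card_univ, Fintype.card_fin,
            nsmul_eq_mul]
          unfold nu
          field_simp
          simp
        have h1 : ∀ l : Fin k, (((if z l = q then 1 else 0) : ℝ) - nu z q) ^ 2 ≤ 1 := by
          intro l
          have := nu_nonneg z q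
          have := nu_le_one hk z q
          split_ifs <;> nlinarith
        calc ∑ l : Fin k, (SS z a q u + e * (((if z l = q then 1 else 0) : ℝ) - nu z q)) ^ 2
            = ∑ l : Fin k, ((SS z a q u) ^ 2 + 2 * SS z a q u * e *
                (((if z l = q then 1 else 0) : ℝ) - nu z q) +
                e ^ 2 * (((if z l = q then 1 else 0) : ℝ) - nu z q) ^ 2) :=
              Finset.sum_congr rfl fun l _ => by ring
          _ = k * (SS z a q u) ^ 2 +
                ∑ l : Fin k, e ^ 2 * (((if z l = q then 1 else 0) : ℝ) - nu z q) ^ 2 := by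
              rw [Finset.sum_add_distrib, Finset.sum_add_distrib, ← Finset.mul_sum, h0,
                Finset.sum_const, Finset.card_univ, Fintype.card_fin, nsmul_eq_mul]
              ring
          _ ≤ k * (SS z a q u) ^ 2 + ∑ _l : Fin k, (1 : ℝ) := by
              gcongr with l _
              have h2 := h1 l
              have h3 : 0 ≤ (((if z l = q then 1 else 0) : ℝ) - nu z q) ^ 2 := sq_nonneg _
              calc e ^ 2 * (((if z l = q then 1 else 0) : ℝ) - nu z q) ^ 2 ≤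
                    1 * (((if z l = q then 1 else 0) : ℝ) - nu z q) ^ 2 :=
                    mul_le_mul_of_nonneg_right he1 h3
                _ ≤ 1 := by linarith
          _ = k * (SS z a q u) ^ 2 + k := by simp
      calc ∑ u : Fin n → Fin k, ∑ l : Fin k,
            (SS z a q (Fin.snoc u l : Fin (n + 1) → Fin k)) ^ 2
          ≤ ∑ u : Fin n → Fin k, (k * (SS z a q u) ^ 2 + k) := Finset.sum_le_sum fun u _ => h u
        _ = k * ∑ u : Fin n → Fin k, (SS z a q u) ^ 2 + (k : ℝ) ^ n * k := by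
            rw [Finset.sum_add_distrib, ← Finset.mul_sum, Finset.sum_const, Finset.card_univ,
              nsmul_eq_mul]
            simp
        _ ≤ k * ((n : ℝ) * (k : ℝ) ^ n) + (k : ℝ) ^ n * k := by gcongr
        _ = ((n + 1 : ℕ) : ℝ) * (k : ℝ) ^ (n + 1) := by push_cast; ring

open Classical in
private lemma trs_eq {k n : ℕ} (z : Fin k → Q) (w : Fin n → Fin k) (a q : Q) :
    (trs z w a q : ℝ) = SS z a q w + nu z q * (occ z w a : ℝ) := by
  unfold trs SS occ
  rw [Finset.card_filter, Finset.card_filter]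
  push_cast
  rw [Finset.mul_sum, ← Finset.sum_add_distrib]
  apply Finset.sum_congr rfl
  intro j _
  by_cases h1 : st z w j = a <;> by_cases h2 : z (w j) = q <;> simp [h1, h2]

/-- the deterministic estimate -/
private lemma trs_bound [Fintype Q] {k n : ℕ} (hk : 0 < k) (z : Fin k → Q) (w : Fin n → Fin k)
    (a q : Q) (d : ℝ) (hd : ∀ x : Q, |nu z x - 1 / (Fintype.card Q : ℝ)| ≤ d) :
    |(trs z w a q : ℝ) - (n : ℝ) / (Fintype.card Q : ℝ) ^ 2| ≤
      |SS z a q w| + |BB z a w| + 1 + 2 * (n : ℝ) * d := by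
  have hJ1 : (1 : ℝ) ≤ Fintype.card Q := by exact_mod_cast Fintype.card_pos
  have hJ : (0 : ℝ) < Fintype.card Q := by linarith
  set J : ℝ := (Fintype.card Q : ℝ) with hJd
  have hn0 : (0 : ℝ) ≤ n := Nat.cast_nonneg n
  have hd0 : 0 ≤ d := (abs_nonneg _).trans (hd 1)
  have hocc := occ_abs z w a
  have hnu0 := nu_nonneg z q
  have hnu1 := nu_le_one hk z q
  have hsum : |∑ j ∈ Finset.range n, nu z ((st z w j)⁻¹ * a) - (n : ℝ) / J| ≤ n * d := by
    have e : ∑ j ∈ Finset.range n, nu z ((st z w j)⁻¹ * a) - (n : ℝ) / J =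
        ∑ j ∈ Finset.range n, (nu z ((st z w j)⁻¹ * a) - 1 / J) := by
      rw [Finset.sum_sub_distrib, Finset.sum_const, Finset.card_range, nsmul_eq_mul]
      ring
    rw [e]
    calc |∑ j ∈ Finset.range n, (nu z ((st z w j)⁻¹ * a) - 1 / J)| ≤
          ∑ j ∈ Finset.range n, |nu z ((st z w j)⁻¹ * a) - 1 / J| :=
          Finset.abs_sum_le_sum_abs _ _
      _ ≤ ∑ _j ∈ Finset.range n, d := Finset.sum_le_sum fun j _ => hd _
      _ = n * d := by rw [Finset.sum_const, Finset.card_range, nsmul_eq_mul]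
  have hocc2 : |(occ z w a : ℝ) - (n : ℝ) / J| ≤ |BB z a w| + 1 + n * d := by
    have e : (occ z w a : ℝ) - (n : ℝ) / J =
        ((occ z w a : ℝ) - BB z a w - ∑ j ∈ Finset.range n, nu z ((st z w j)⁻¹ * a)) +
          BB z a w + (∑ j ∈ Finset.range n, nu z ((st z w j)⁻¹ * a) - (n : ℝ) / J) := by ring
    rw [e]
    calc _ ≤ |((occ z w a : ℝ) - BB z a w - ∑ j ∈ Finset.range n, nu z ((st z w j)⁻¹ * a)) +
          BB z a w| + |∑ j ∈ Finset.range n, nu z ((st z w j)⁻¹ * a) - (n : ℝ) / J| :=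
          abs_add_le _ _
      _ ≤ (|(occ z w a : ℝ) - BB z a w - ∑ j ∈ Finset.range n, nu z ((st z w j)⁻¹ * a)| +
          |BB z a w|) + n * d := add_le_add (abs_add_le _ _) hsum
      _ ≤ _ := by linarith
  have e : (trs z w a q : ℝ) - (n : ℝ) / J ^ 2 = SS z a q w +
      nu z q * ((occ z w a : ℝ) - (n : ℝ) / J) + (n : ℝ) / J * (nu z q - 1 / J) := by
    rw [trs_eq]
    field_simp
    ring
  rw [e]
  have t1 : |nu z q * ((occ z w a : ℝ) - (n : ℝ) / J)| ≤ |BB z a w| + 1 + n * d := by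
    rw [abs_mul, abs_of_nonneg hnu0]
    calc nu z q * |(occ z w a : ℝ) - (n : ℝ) / J| ≤ 1 * |(occ z w a : ℝ) - (n : ℝ) / J| :=
          mul_le_mul_of_nonneg_right hnu1 (abs_nonneg _)
      _ ≤ _ := by linarith
  have t2 : |(n : ℝ) / J * (nu z q - 1 / J)| ≤ n * d := by
    rw [abs_mul, abs_of_nonneg (by positivity : (0 : ℝ) ≤ (n : ℝ) / J)]
    have h1 : (n : ℝ) / J ≤ n := div_le_self hn0 hJ1
    exact mul_le_mul h1 (hd q) (abs_nonneg _) hn0
  calc |SS z a q w + nu z q * ((occ z w a : ℝ) - (n : ℝ) / J) + (n : ℝ) / J * (nu z q - 1 / J)|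
      ≤ |SS z a q w + nu z q * ((occ z w a : ℝ) - (n : ℝ) / J)| +
        |(n : ℝ) / J * (nu z q - 1 / J)| := abs_add_le _ _
    _ ≤ (|SS z a q w| + |nu z q * ((occ z w a : ℝ) - (n : ℝ) / J)|) + n * d :=
        add_le_add (abs_add_le _ _) t2
    _ ≤ _ := by linarith

end TrsP

open TrsP in
theorem p_Trs : S_Trs := by
  classical
  intro Q _ _ k n ε hε hk8
  have hkr : (0 : ℝ) < k := by
    by_contra h
    have : (k : ℝ) = 0 := le_antisymm (not_lt.1 h) (Nat.cast_nonneg _)
    rw [this] at hk8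
    linarith
  have hk : 0 < k := by exact_mod_cast hkr
  have hJ1 : (1 : ℝ) ≤ Fintype.card Q := by exact_mod_cast Fintype.card_pos
  have hJ : (0 : ℝ) < Fintype.card Q := by linarith
  set J : ℝ := (Fintype.card Q : ℝ) with hJdef
  have hek : 0 < ε * k := by positivity
  have hn0 : (0 : ℝ) ≤ n := Nat.cast_nonneg n
  set g1 : (Fin k → Q) × (Fin n → Fin k) → ℝ := fun p =>
    ∑ b : Q × Q, 16 * (SS p.1 b.1 b.2 p.2) ^ 2 / (ε * k) ^ 2 with hg1
  set g2 : (Fin k → Q) × (Fin n → Fin k) → ℝ := fun p =>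
    ∑ b : Q, 16 * (BB p.1 b p.2) ^ 2 / (ε * k) ^ 2 with hg2
  set g3 : (Fin k → Q) × (Fin n → Fin k) → ℝ := fun p =>
    64 * (n : ℝ) ^ 2 / (ε * k) ^ 2 * ∑ q : Q, (nu p.1 q - 1 / J) ^ 2 with hg3
  have p1 : ∀ p, 0 ≤ g1 p := fun p => Finset.sum_nonneg fun b _ => by positivity
  have p2 : ∀ p, 0 ≤ g2 p := fun p => Finset.sum_nonneg fun b _ => by positivity
  have p3 : ∀ p, 0 ≤ g3 p := fun p =>
    mul_nonneg (by positivity) (Finset.sum_nonneg fun q _ => sq_nonneg _)
  have hone : ∀ p : (Fin k → Q) × (Fin n → Fin k),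
      (∃ a q, ε * (k : ℝ) < |(trs p.1 p.2 a q : ℝ) - (n : ℝ) / J ^ 2|) →
      1 ≤ g1 p + g2 p + g3 p := by
    rintro ⟨z, w⟩ ⟨a, q, hb⟩
    simp only at hb
    by_cases hS : ε * k / 4 < |SS z a q w|
    · have h2 : 1 ≤ 16 * (SS z a q w) ^ 2 / (ε * k) ^ 2 := by
        rw [one_le_div (by positivity), ← sq_abs (SS z a q w)]
        have : (ε * k / 4) ^ 2 ≤ |SS z a q w| ^ 2 := pow_le_pow_left₀ (by positivity) hS.le 2
        nlinarith
      have h3 : 16 * (SS z a q w) ^ 2 / (ε * k) ^ 2 ≤ g1 (z, w) :=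
        Finset.single_le_sum (f := fun b : Q × Q => 16 * (SS z b.1 b.2 w) ^ 2 / (ε * k) ^ 2)
          (fun b _ => by positivity) (Finset.mem_univ (a, q))
      have := p2 (z, w)
      have := p3 (z, w)
      linarith
    · by_cases hB : ε * k / 4 < |BB z a w|
      · have h2 : 1 ≤ 16 * (BB z a w) ^ 2 / (ε * k) ^ 2 := by
          rw [one_le_div (by positivity), ← sq_abs (BB z a w)]
          have : (ε * k / 4) ^ 2 ≤ |BB z a w| ^ 2 := pow_le_pow_left₀ (by positivity) hB.le 2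
          nlinarith
        have h3 : 16 * (BB z a w) ^ 2 / (ε * k) ^ 2 ≤ g2 (z, w) :=
          Finset.single_le_sum (f := fun b : Q => 16 * (BB z b w) ^ 2 / (ε * k) ^ 2)
            (fun b _ => by positivity) (Finset.mem_univ a)
        have := p1 (z, w)
        have := p3 (z, w)
        linarith
      · push Not at hS hB
        -- the largest deviation of the frequencies
        obtain ⟨x₀, -, hx₀⟩ := Finset.exists_max_image Finset.univ
          (fun x : Q => |nu z x - 1 / J|) ⟨1, Finset.mem_univ 1⟩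
        have hd : ∀ x : Q, |nu z x - 1 / J| ≤ |nu z x₀ - 1 / J| :=
          fun x => hx₀ x (Finset.mem_univ x)
        have hmain := trs_bound hk z w a q _ hd
        have hbig : ε * k / 4 < 2 * (n : ℝ) * |nu z x₀ - 1 / J| := by linarith
        have h3 : 1 ≤ 64 * (n : ℝ) ^ 2 / (ε * k) ^ 2 * (nu z x₀ - 1 / J) ^ 2 := by
          have h5 : (ε * k / 4) ^ 2 ≤ (2 * n * |nu z x₀ - 1 / J|) ^ 2 :=
            pow_le_pow_left₀ (by positivity) hbig.le 2
          rw [mul_pow, sq_abs] at h5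
          rw [div_mul_eq_mul_div, one_le_div (by positivity)]
          nlinarith
        have h4 : (nu z x₀ - 1 / J) ^ 2 ≤ ∑ q : Q, (nu z q - 1 / J) ^ 2 :=
          Finset.single_le_sum (f := fun q => (nu z q - 1 / J) ^ 2)
            (fun q _ => sq_nonneg _) (Finset.mem_univ x₀)
        have h5 : 64 * (n : ℝ) ^ 2 / (ε * k) ^ 2 * (nu z x₀ - 1 / J) ^ 2 ≤ g3 (z, w) :=
          mul_le_mul_of_nonneg_left h4 (by positivity)
        have := p1 (z, w)
        have := p2 (z, w)
        linarith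
  -- counting
  have hcard : (Nat.card {p : (Fin k → Q) × (Fin n → Fin k) //
      ∃ a q, ε * (k : ℝ) < |(trs p.1 p.2 a q : ℝ) - (n : ℝ) / J ^ 2|} : ℝ) ≤
      ∑ p, (g1 p + g2 p + g3 p) := by
    rw [Nat.card_eq_fintype_card, Fintype.card_subtype, Finset.card_filter]
    push_cast
    apply Finset.sum_le_sum
    intro p _
    split_ifs with h
    · exact hone p h
    · have := p1 p
      have := p2 p
      have := p3 p
      linarith
  refine hcard.trans ?_
  rw [Finset.sum_add_distrib, Finset.sum_add_distrib]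
  have hA1 : ∑ p, g1 p ≤ J ^ k * (k : ℝ) ^ n * (16 * J ^ 2 * n / (ε * k) ^ 2) := by
    rw [Fintype.sum_prod_type]
    have h : ∀ z : Fin k → Q, ∑ w : Fin n → Fin k, g1 (z, w) ≤
        (k : ℝ) ^ n * (16 * J ^ 2 * n / (ε * k) ^ 2) := by
      intro z
      simp only [hg1]
      rw [Finset.sum_comm]
      have h' : ∀ b : Q × Q, ∑ w : Fin n → Fin k, 16 * (SS z b.1 b.2 w) ^ 2 / (ε * k) ^ 2 ≤
          16 * ((n : ℝ) * (k : ℝ) ^ n) / (ε * k) ^ 2 := by
        intro b
        rw [← Finset.sum_div, ← Finset.mul_sum]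
        have := SS_sq hk z b.1 b.2 n
        gcongr
      calc ∑ b : Q × Q, ∑ w : Fin n → Fin k, 16 * (SS z b.1 b.2 w) ^ 2 / (ε * k) ^ 2 ≤
            ∑ _b : Q × Q, 16 * ((n : ℝ) * (k : ℝ) ^ n) / (ε * k) ^ 2 :=
            Finset.sum_le_sum fun b _ => h' b
        _ = (k : ℝ) ^ n * (16 * J ^ 2 * n / (ε * k) ^ 2) := by
            rw [Finset.sum_const, Finset.card_univ, nsmul_eq_mul, Fintype.card_prod]
            push_cast
            rw [← hJdef]
            ring
    calc ∑ z : Fin k → Q, ∑ w : Fin n → Fin k, g1 (z, w) ≤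
          ∑ _z : Fin k → Q, (k : ℝ) ^ n * (16 * J ^ 2 * n / (ε * k) ^ 2) :=
          Finset.sum_le_sum fun z _ => h z
      _ = J ^ k * (k : ℝ) ^ n * (16 * J ^ 2 * n / (ε * k) ^ 2) := by
          rw [Finset.sum_const, Finset.card_univ, nsmul_eq_mul]
          simp only [Fintype.card_fun, Fintype.card_fin, Nat.cast_pow]
          ring
  have hA2 : ∑ p, g2 p ≤ J ^ k * (k : ℝ) ^ n * (16 * J * n / (ε * k) ^ 2) := by
    rw [Fintype.sum_prod_type]
    have h : ∀ z : Fin k → Q, ∑ w : Fin n → Fin k, g2 (z, w) ≤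
        (k : ℝ) ^ n * (16 * J * n / (ε * k) ^ 2) := by
      intro z
      simp only [hg2]
      rw [Finset.sum_comm]
      have h' : ∀ b : Q, ∑ w : Fin n → Fin k, 16 * (BB z b w) ^ 2 / (ε * k) ^ 2 ≤
          16 * ((n : ℝ) * (k : ℝ) ^ n) / (ε * k) ^ 2 := by
        intro b
        rw [← Finset.sum_div, ← Finset.mul_sum]
        have := sum_sq hk z b n
        gcongr
      calc ∑ b : Q, ∑ w : Fin n → Fin k, 16 * (BB z b w) ^ 2 / (ε * k) ^ 2 ≤
            ∑ _b : Q, 16 * ((n : ℝ) * (k : ℝ) ^ n) / (ε * k) ^ 2 :=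
            Finset.sum_le_sum fun b _ => h' b
        _ = (k : ℝ) ^ n * (16 * J * n / (ε * k) ^ 2) := by
            rw [Finset.sum_const, Finset.card_univ, nsmul_eq_mul]
            ring
    calc ∑ z : Fin k → Q, ∑ w : Fin n → Fin k, g2 (z, w) ≤
          ∑ _z : Fin k → Q, (k : ℝ) ^ n * (16 * J * n / (ε * k) ^ 2) :=
          Finset.sum_le_sum fun z _ => h z
      _ = J ^ k * (k : ℝ) ^ n * (16 * J * n / (ε * k) ^ 2) := by
          rw [Finset.sum_const, Finset.card_univ, nsmul_eq_mul]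
          simp only [Fintype.card_fun, Fintype.card_fin, Nat.cast_pow]
          ring
  have hA3 : ∑ p, g3 p ≤ J ^ k * (k : ℝ) ^ n * (64 * (n : ℝ) ^ 2 / (ε ^ 2 * (k : ℝ) ^ 3)) := by
    rw [Fintype.sum_prod_type]
    simp only [hg3, Finset.sum_const, Finset.card_univ, nsmul_eq_mul, Fintype.card_fun,
      Fintype.card_fin, Nat.cast_pow]
    rw [← Finset.mul_sum, ← Finset.mul_sum]
    have h := nu_var (Q := Q) hk
    calc (k : ℝ) ^ n * (64 * (n : ℝ) ^ 2 / (ε * k) ^ 2 *
          ∑ z : Fin k → Q, ∑ q : Q, (nu z q - 1 / J) ^ 2) ≤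
          (k : ℝ) ^ n * (64 * (n : ℝ) ^ 2 / (ε * k) ^ 2 * (J ^ k / k)) := by gcongr
      _ = _ := by field_simp
  have hX : (0 : ℝ) ≤ (n : ℝ) / (ε * k) ^ 2 := by positivity
  have hY : (0 : ℝ) ≤ (n : ℝ) ^ 2 / (ε ^ 2 * (k : ℝ) ^ 3) := by positivity
  have hJ3 : (1 : ℝ) ≤ J ^ 3 := one_le_pow₀ hJ1
  have hJ23 : J ^ 2 ≤ J ^ 3 := pow_le_pow_right₀ hJ1 (by norm_num)
  have hJ13 : J ≤ J ^ 3 := by
    calc J = J ^ 1 := (pow_one J).symm
      _ ≤ J ^ 3 := pow_le_pow_right₀ hJ1 (by norm_num)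
  have hfin : 16 * J ^ 2 * n / (ε * k) ^ 2 + 16 * J * n / (ε * k) ^ 2 +
      64 * (n : ℝ) ^ 2 / (ε ^ 2 * (k : ℝ) ^ 3) ≤
      1000 * J ^ 3 * ((n : ℝ) / (ε * (k : ℝ)) ^ 2 + (n : ℝ) ^ 2 / (ε ^ 2 * (k : ℝ) ^ 3)) := by
    have e1 : 16 * J ^ 2 * n / (ε * k) ^ 2 = 16 * J ^ 2 * ((n : ℝ) / (ε * k) ^ 2) := by ring
    have e2 : 16 * J * n / (ε * k) ^ 2 = 16 * J * ((n : ℝ) / (ε * k) ^ 2) := by ring
    have e3 : 64 * (n : ℝ) ^ 2 / (ε ^ 2 * (k : ℝ) ^ 3) =
      64 * ((n : ℝ) ^ 2 / (ε ^ 2 * (k : ℝ) ^ 3)) := by ring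
    rw [e1, e2, e3]
    have u1 : 16 * J ^ 2 * ((n : ℝ) / (ε * k) ^ 2) ≤ 16 * J ^ 3 * ((n : ℝ) / (ε * k) ^ 2) := by
      apply mul_le_mul_of_nonneg_right _ hX
      linarith
    have u2 : 16 * J * ((n : ℝ) / (ε * k) ^ 2) ≤ 16 * J ^ 3 * ((n : ℝ) / (ε * k) ^ 2) := by
      apply mul_le_mul_of_nonneg_right _ hX
      linarith
    have u3 : 64 * ((n : ℝ) ^ 2 / (ε ^ 2 * (k : ℝ) ^ 3)) ≤
        1000 * J ^ 3 * ((n : ℝ) ^ 2 / (ε ^ 2 * (k : ℝ) ^ 3)) := by
      apply mul_le_mul_of_nonneg_right _ hY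
      linarith
    have u4 : 0 ≤ J ^ 3 * ((n : ℝ) / (ε * k) ^ 2) := by positivity
    linarith
  have hP : (0 : ℝ) ≤ J ^ k * (k : ℝ) ^ n := by positivity
  calc ∑ p, g1 p + ∑ p, g2 p + ∑ p, g3 p ≤
      J ^ k * (k : ℝ) ^ n * (16 * J ^ 2 * n / (ε * k) ^ 2) +
      J ^ k * (k : ℝ) ^ n * (16 * J * n / (ε * k) ^ 2) +
      J ^ k * (k : ℝ) ^ n * (64 * (n : ℝ) ^ 2 / (ε ^ 2 * (k : ℝ) ^ 3)) := by linarith
    _ = J ^ k * (k : ℝ) ^ n * (16 * J ^ 2 * n / (ε * k) ^ 2 + 16 * J * n / (ε * k) ^ 2 +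
      64 * (n : ℝ) ^ 2 / (ε ^ 2 * (k : ℝ) ^ 3)) := by ring
    _ ≤ _ := mul_le_mul_of_nonneg_left hfin hP

end NilCut
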