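import Pool.Agent.Lib.MP_4ddf81_pr.Stm3

/-! # MP_4ddf81_pr, stage 3 : the number of the types (S_TyN) -/

namespace NilCut

namespace TyNP

open Classical in
theorem box (ι : Type) [Fintype ι] (R : Finset ℂ) (n : ℕ) (hR : R.card ≤ n) :
    ∃ X : Finset (ι → ℂ), X.card ≤ n ^ Fintype.card ι ∧
      ∀ c : ι → ℂ, (∀ x, c x ∈ R) → c ∈ X := by
  refine ⟨Fintype.piFinset fun _ => R, ?_, fun c hc => Fintype.mem_piFinset.mpr hc⟩
  rw [Fintype.card_piFinset, Finset.prod_const, Finset.card_univ]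
  exact Nat.pow_le_pow_left hR _

theorem roots (n : ℕ) (hn : 0 < n) :
    ∃ R : Finset ℂ, R.card ≤ n ∧ ∀ z : ℂ, z ^ n = 1 → z ∈ R := by
  classical
  refine ⟨(Polynomial.nthRoots n (1 : ℂ)).toFinset,
    le_trans (Multiset.toFinset_card_le _) (Polynomial.card_nthRoots _ _), fun z hz => ?_⟩
  rw [Multiset.mem_toFinset, Polynomial.mem_nthRoots hn]
  exact hz

theorem root {G : Type} [Group G] [Finite G] (K : Subgroup G) (lam : K →* ℂˣ) (y : K) (r : ℕ)
    (hr : Nat.card lam.range ≤ r) : ((lam y : ℂˣ) : ℂ) ^ r.factorial = 1 := by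
  have hfin : Finite lam.range :=
    Finite.of_surjective lam.rangeRestrict lam.rangeRestrict_surjective
  have hpos : 0 < Nat.card lam.range := Nat.card_pos
  obtain ⟨q, hq⟩ := Nat.dvd_factorial hpos hr
  have h : (⟨lam y, y, rfl⟩ : lam.range) ^ (Nat.card lam.range) = 1 := pow_card_eq_one'
  have h2 := congrArg (fun z : lam.range => ((z : ℂˣ) : ℂ)) h
  have h3 : ((lam y : ℂˣ) : ℂ) ^ (Nat.card lam.range) = 1 := by simpa using h2
  rw [hq, pow_mul, h3, one_pow]

theorem mainX {G : Type} [Group G] [Finite G] (K : Subgroup G) [K.Normal] (n : ℕ) (hn : 0 < n) :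
    ∃ X : Finset (G ⧸ K → ℂ), X.card ≤ n ^ K.index ∧
      ∀ c : G ⧸ K → ℂ, (∀ x, c x ^ n = 1) → c ∈ X := by
  have ft : Fintype (G ⧸ K) := Fintype.ofFinite _
  obtain ⟨R, hRc, hR⟩ := roots n hn
  obtain ⟨X, hXc, hX⟩ := box (G ⧸ K) R n hRc
  have hidx : Fintype.card (G ⧸ K) = K.index := by
    rw [Subgroup.index_eq_card, Nat.card_eq_fintype_card]
  exact ⟨X, hidx ▸ hXc, fun c hc => hX c fun x => hR _ (hc x)⟩

open Classical in
theorem sub {G : Type} [Group G] [Finite G] (K : Subgroup G) [K.Normal]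
    (F : Finset (K →* ℂˣ)) (X : Finset (G ⧸ K → ℂ)) (h : ∀ lam ∈ F, ∀ κ, cf K lam κ ∈ X) :
    F.image (CF K) ⊆ X.powerset := by
  intro C hC
  obtain ⟨lam, hlam, rfl⟩ := Finset.mem_image.mp hC
  rw [Finset.mem_powerset]
  intro c hc
  unfold CF at hc
  rw [Set.Finite.mem_toFinset] at hc
  obtain ⟨κ, rfl⟩ := hc
  exact h lam hlam κ

theorem fin (α : Type) (A : Finset (Finset α)) (X : Finset α) (h : A ⊆ X.powerset) (c : ℕ)
    (hX : X.card ≤ c) : A.card ≤ 2 ^ c := by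
  have h1 := Finset.card_le_card h
  rw [Finset.card_powerset] at h1
  exact h1.trans (Nat.pow_le_pow_right (by norm_num) hX)

end TyNP

theorem p_TyN : S_TyN := by
  intro G _ _ K _ r F hF
  obtain ⟨X, hXc, hX⟩ := TyNP.mainX K r.factorial (Nat.factorial_pos r)
  generalize hc : r.factorial ^ K.index = c at hXc ⊢
  exact TyNP.fin _ _ X (TyNP.sub K F X fun lam hlam κ =>
    hX _ fun x => TyNP.root K lam _ r (hF lam hlam)) c hXc

end NilCut
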