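import Pool.Agent.Lib.MP_4ddf81_pr.Stm3

/-! # MP_4ddf81_pr, stage 3 : slow linear characters of small order (S_Uni) -/

namespace NilCut

namespace UniP

variable {G : Type} [Group G] [Fintype G]

theorem norm_lam (K : Subgroup G) (lam : K →* ℂˣ) (κ : K) : ‖((lam κ : ℂˣ) : ℂ)‖ = 1 := by
  have h : ((lam κ : ℂˣ) : ℂ) ^ (Nat.card K) = 1 := by
    rw [← Units.val_pow_eq_pow_val, ← map_pow, pow_card_eq_one', map_one, Units.val_one]
  exact Complex.norm_eq_one_of_pow_eq_one h Nat.card_pos.ne'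

theorem norm_const (K : Subgroup G) [K.Normal] (lam : K →* ℂˣ) (v : G → ℂ) (hc : Cov K lam v)
    (P : Subgroup G) (hP : ∀ p ∈ P, ∀ g, v (p⁻¹ * g) = v g) (hf : P ⊔ K = ⊤) (g : G) :
    ‖v g‖ = ‖v 1‖ := by
  have hg : g ∈ ((P ⊔ K : Subgroup G) : Set G) := by rw [hf]; exact Subgroup.mem_top g
  rw [Subgroup.mul_normal] at hg
  obtain ⟨p, hp, κ, hκ, rfl⟩ := Set.mem_mul.mp hg
  have h1 := hP p hp (p * κ)
  rw [inv_mul_cancel_left] at h1
  have h2 := hc 1 ⟨κ, hκ⟩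
  simp only [one_mul] at h2
  rw [← h1, h2, norm_mul, ← map_inv, norm_lam, one_mul]

omit [Fintype G] in
theorem conj_val (K : Subgroup G) [K.Normal] (g : G) (κ : K) :
    ((MulAut.conjNormal g⁻¹ κ : K) : G) = g⁻¹ * κ * g := by
  rw [MulAut.conjNormal_apply, inv_inv]

omit [Fintype G] in
theorem cov_conj (K : Subgroup G) [K.Normal] (lam : K →* ℂˣ) (v : G → ℂ) (hc : Cov K lam v)
    (g : G) (κ : K) : v ((κ : G)⁻¹ * g) = ((lam (MulAut.conjNormal g⁻¹ κ) : ℂˣ) : ℂ) * v g := by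
  have h := hc g (MulAut.conjNormal g⁻¹ κ)⁻¹
  have e : g * (((MulAut.conjNormal g⁻¹ κ)⁻¹ : K) : G) = (κ : G)⁻¹ * g := by
    rw [Subgroup.coe_inv, conj_val]; group
  rw [e, map_inv, inv_inv] at h
  exact h

end UniP

theorem p_Uni (h1 : S_DPt) (h2 : S_Inv) (h3 : S_Full) : S_Uni := by
  intro G _ _ K _ lam k Jm r₁ Z γ hk hγ hγ1 hKJ hlr hfac hkq hnd
  obtain ⟨v, vm, I, hCov, hvm, hvle, hvex, hI, hvi⟩ := h1 G K lam k Jm Z γ hk hγ hγ1 hKJ hnd
  obtain ⟨v', P, hCov', hv'0, hP, hIP, -⟩ := h2 G K lam k (Jm * r₁) Z (Real.sqrt (γ * (Jm : ℝ)))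
    vm v I (Nat.mul_le_mul hKJ hlr) (Real.sqrt_nonneg _) hfac hCov hvm hvle hvex hvi
  have hfull : P ⊔ K = ⊤ := h3 G K k Z γ P I hkq hI hIP
  have hP' : ∀ p ∈ P, ∀ g, v' (p⁻¹ * g) = v' g := fun p hp => (hP p).mp hp
  have hn := UniP.norm_const K lam v' hCov' P hP' hfull
  have hv1 : v' 1 ≠ 0 := by
    intro h0
    apply hv'0
    funext g
    have := hn g
    rw [h0, norm_zero, norm_eq_zero] at this
    exact this
  have hvg : ∀ g, v' g ≠ 0 := by
    intro g h0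
    have := hn g
    rw [h0, norm_zero] at this
    exact hv1 (norm_eq_zero.mp this.symm)
  refine ⟨P, fun g => v' g / v' 1, I, ⟨hfull, ?_⟩, ?_, ?_, ?_, hI, hIP⟩
  · intro κ
    rw [hP]
    constructor
    · intro h x
      have hx := h x⁻¹
      rw [UniP.cov_conj K lam v' hCov' x⁻¹ κ, inv_inv] at hx
      have : ((lam (MulAut.conjNormal x κ) : ℂˣ) : ℂ) = 1 :=
        mul_right_cancel₀ (hvg x⁻¹) (by rw [hx, one_mul])
      exact Units.ext (by rw [this, Units.val_one])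
    · intro h g
      rw [UniP.cov_conj K lam v' hCov' g κ, h g⁻¹, Units.val_one, one_mul]
  · intro g κ
    have := hCov' g κ
    simp only
    rw [this, mul_div_assoc]
  · intro g
    simp only
    rw [norm_div, hn g, div_self (norm_ne_zero_iff.mpr hv1)]
  · intro p hp g
    simp only
    rw [hP' p hp g]

end NilCut
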