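import Pool.Agent.Lib.MP_4ddf81_pr.Stm3
import Pool.Agent.Lib.MP_4ddf81_pr.P2.UBk
import Pool.Agent.Lib.MP_4ddf81_pr.P2.UBdet
import Pool.Agent.Lib.MP_4ddf81_pr.P2.UBasy
import Pool.Agent.Lib.MP_4ddf81_pr.P2.Anti

/-!
# MP_4ddf81_pr, stage 3 : the upper bound in the saturated case
-/

namespace NilCut

open Filter Topology

namespace Up3P

/-- Union bound. -/
theorem card_or {α : Type} [Finite α] (p q : α → Prop) :
    (Nat.card {x : α // p x ∨ q x} : ℝ) ≤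
      (Nat.card {x : α // p x} : ℝ) + (Nat.card {x : α // q x} : ℝ) := by
  classical
  have := Fintype.ofFinite α
  rw [Nat.card_eq_fintype_card, Nat.card_eq_fintype_card, Nat.card_eq_fintype_card,
    Fintype.card_subtype, Fintype.card_subtype, Fintype.card_subtype]
  have h : Finset.univ.filter (fun x => p x ∨ q x) =
      Finset.univ.filter p ∪ Finset.univ.filter q := by
    ext x
    simp
  rw [h]
  exact_mod_cast Finset.card_union_le _ _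

theorem card_mono {α : Type} [Finite α] (p q : α → Prop) (h : ∀ x, p x → q x) :
    (Nat.card {x : α // p x} : ℝ) ≤ (Nat.card {x : α // q x} : ℝ) := by
  exact_mod_cast Nat.card_le_card_of_injective
    (fun x : {x : α // p x} => (⟨x.1, h x.1 x.2⟩ : {x : α // q x}))
    (fun a b hab => Subtype.ext (congrArg (fun y : {x : α // q x} => y.1) hab))

theorem tvMix_le_one {G : Type} [Group G] [Fintype G] {k : ℕ} (hk : 0 < k) (Z : Fin k → G)
    {t : ℝ} (ht : 0 ≤ t) (n : ℕ) : tvMix Z t n ≤ 1 := by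
  unfold tvMix
  have h0 : ∀ g, 0 ≤ conv (law Z t) (stepLaw Z n) g := fun g =>
    UBdet.conv_nonneg _ _ (Anti.law_nonneg hk Z ht) (T2.stepLaw_nonneg Z n) g
  have h1 : ∑ g, conv (law Z t) (stepLaw Z n) g = 1 := by
    rw [UBdet.conv_sum, Anti.law_sum hk Z ht, T2.stepLaw_sum hk, mul_one]
  have hG : (0 : ℝ) < (Nat.card G : ℝ) := by exact_mod_cast Nat.card_pos
  have h2 : ∑ g : G, |conv (law Z t) (stepLaw Z n) g - 1 / (Nat.card G : ℝ)| ≤
      ∑ g : G, (conv (law Z t) (stepLaw Z n) g + 1 / (Nat.card G : ℝ)) := by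
    apply Finset.sum_le_sum
    intro g _
    have h3 : (0 : ℝ) ≤ 1 / (Nat.card G : ℝ) := by positivity
    have h4 := h0 g
    rw [abs_le]
    constructor <;> linarith
  rw [Finset.sum_add_distrib, h1, Finset.sum_const, Finset.card_univ, nsmul_eq_mul,
    ← Nat.card_eq_fintype_card, mul_one_div_cancel hG.ne'] at h2
  linarith

/-- The averaged upper bound. -/
theorem up_avg (hU : S_UB3) (h2 : S_QF2) {G : Type} [Group G] [Fintype G] (P : Planch G)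
    (M : Mono P) (K : Subgroup G) (hK : K.Normal) (F : Finset (K →* ℂˣ))
    (hF : ∀ lam, lam ∈ F ↔ lam ≠ 1) (k n r D : ℕ) (c t ηb X Y b : ℝ)
    (Good : (Fin k → G) → Prop) (hk : 0 < k) (hc : 0 ≤ c) (ht : 0 ≤ t)
    (hbad : (Nat.card {Z : Fin k → G // ¬ Good Z} : ℝ) ≤ ηb * (Nat.card G : ℝ) ^ k)
    (hgood : ∀ Z, Good Z → ∀ i, P.nt i → P.d i ≤ D →
      P.Kl K i ∨ DGap Z (M.H i) (M.lam i) c)
    (hX : (open Classical in ∑ Z : Fin k → G, if Good Z then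
      ∑ lam ∈ F, QF (indL K lam) (law Z t) else 0) ≤ (Nat.card G : ℝ) ^ k * X)
    (hY : ∑ Z : Fin k → G, ∑ i, (open Classical in if D < P.d i then
      (P.d i : ℝ) * QF (fun g => (P.ρ i g).trace) (wlaw Z (fewRep k n r)) else 0) ≤
      (Nat.card G : ℝ) ^ k * Y)
    (hb : 1 - (Nat.card (fewRep k n r) : ℝ) / (k : ℝ) ^ n ≤ b) :
    ∑ Z : Fin k → G, tvMix Z t n ≤ (Nat.card G : ℝ) ^ k *
      (ηb + Real.sqrt ((Nat.card G : ℝ) * Real.exp (-(2 * c * t)) + X + Y) / 2 + b) := by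
  classical
  set N : ℝ := (Nat.card G : ℝ) ^ k with hN
  have hN0 : 0 ≤ N := by positivity
  have hcard : (Fintype.card (Fin k → G) : ℝ) = N := by
    rw [hN, Fintype.card_fun, Fintype.card_fin, Nat.card_eq_fintype_card]
    push_cast
    rfl
  have hQ : ∀ (i : P.ι) (μ : G → ℝ), 0 ≤ QF (fun g => (P.ρ i g).trace) μ := by
    intro i μ
    have h3 : (fun g => (P.ρ i g).trace) = indL (M.H i) (M.lam i) := funext fun g => M.tr i g
    rw [h3]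
    exact (h2 G (M.H i) (M.lam i) μ (fun _ => 0) (fun _ => le_rfl) (by simp)).1
  have hQ' : ∀ (lam : K →* ℂˣ) (μ : G → ℝ), 0 ≤ QF (indL K lam) μ := fun lam μ =>
    (h2 G K lam μ (fun _ => 0) (fun _ => le_rfl) (by simp)).1
  let aZ : (Fin k → G) → ℝ := fun Z => if Good Z then
    ∑ lam ∈ F, QF (indL K lam) (law Z t) else 0
  let bZ : (Fin k → G) → ℝ := fun Z => ∑ i ∈ Finset.univ.filter (fun i => D < P.d i),
    (P.d i : ℝ) * QF (fun g => (P.ρ i g).trace) (wlaw Z (fewRep k n r))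
  have haZ : ∀ Z, 0 ≤ aZ Z := by
    intro Z
    simp only [aZ]
    split_ifs
    · exact Finset.sum_nonneg fun lam _ => hQ' lam _
    · exact le_rfl
  have hbZ : ∀ Z, 0 ≤ bZ Z := fun Z =>
    Finset.sum_nonneg fun i _ => mul_nonneg (Nat.cast_nonneg _) (hQ i _)
  have haS : ∑ Z, aZ Z ≤ N * X := hX
  have hbS : ∑ Z, bZ Z ≤ N * Y := by
    refine le_trans (le_of_eq ?_) hY
    apply Finset.sum_congr rfl
    intro Z _
    simp only [bZ]
    rw [Finset.sum_filter]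
  set e : ℝ := (Nat.card G : ℝ) * Real.exp (-(2 * c * t)) with he
  have he0 : 0 ≤ e := by positivity
  let W : (Fin k → G) → ℝ := fun Z => e + aZ Z + bZ Z
  have hW0 : ∀ Z, 0 ≤ W Z := fun Z => add_nonneg (add_nonneg he0 (haZ Z)) (hbZ Z)
  have hWS : ∑ Z, W Z ≤ N * (e + X + Y) := by
    simp only [W]
    rw [Finset.sum_add_distrib, Finset.sum_add_distrib, Finset.sum_const, Finset.card_univ,
      nsmul_eq_mul, hcard]
    nlinarith
  have hsq := UBk.sum_sqrt_le W hW0 N _ hN0 hcard hWS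
  have hbad' : ∑ Z : Fin k → G, (if Good Z then (0 : ℝ) else 1) ≤ ηb * N := by
    refine le_trans (le_of_eq ?_) hbad
    rw [Nat.card_eq_fintype_card, Fintype.card_subtype]
    have h3 : ∀ Z : Fin k → G, (if Good Z then (0 : ℝ) else 1) =
        if ¬ Good Z then (1 : ℝ) else 0 := fun Z => by split_ifs <;> rfl
    rw [Finset.sum_congr rfl fun Z _ => h3 Z, ← Finset.sum_filter, Finset.sum_const,
      nsmul_eq_mul, mul_one]
  have key : ∀ Z : Fin k → G, tvMix Z t n ≤ (if Good Z then (0 : ℝ) else 1) +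
      Real.sqrt (W Z) / 2 + b := by
    intro Z
    have hs := Real.sqrt_nonneg (W Z)
    have hm1 := UBk.frac_le_one hk (fewRep k n r)
    by_cases hZ : Good Z
    · rw [if_pos hZ]
      have h3 := hU G P M K hK F hF k n D Z (fewRep k n r) c t hk hc ht (hgood Z hZ)
      have h4 : 2 * tvMix Z t n ≤ Real.sqrt (W Z) +
          2 * (1 - (Nat.card (fewRep k n r) : ℝ) / (k : ℝ) ^ n) := by
        refine le_trans h3 (le_of_eq ?_)
        simp only [W, aZ, bZ, if_pos hZ]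
        rw [he]
      linarith
    · rw [if_neg hZ]
      have := tvMix_le_one hk Z ht n
      linarith
  refine (Finset.sum_le_sum fun Z _ => key Z).trans ?_
  rw [Finset.sum_add_distrib, Finset.sum_add_distrib, ← Finset.sum_div,
    Finset.sum_const, Finset.card_univ, nsmul_eq_mul, hcard]
  nlinarith

/-- Only the cosets matter. -/
theorem push1 (hPu : S_Push) {G : Type} [Group G] [Fintype G] (K : Subgroup G) (k : ℕ)
    (B : (Fin k → G ⧸ K) → Prop) :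
    (Nat.card {Z : Fin k → G // B (fun i => (Z i : G ⧸ K))} : ℝ) =
      (Nat.card K : ℝ) ^ k * (Nat.card {z : Fin k → G ⧸ K // B z} : ℝ) := by
  have h1 := hPu G K k Unit (fun z _ => B z)
  have e1 : Nat.card {p : (Fin k → G) × Unit // B (fun i => (p.1 i : G ⧸ K))} =
      Nat.card {Z : Fin k → G // B (fun i => (Z i : G ⧸ K))} :=
    Nat.card_congr ⟨fun p => ⟨p.1.1, p.2⟩, fun Z => ⟨(Z.1, ()), Z.2⟩, fun _ => rfl,
      fun _ => rfl⟩
  have e2 : Nat.card {p : (Fin k → G ⧸ K) × Unit // B p.1} =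
      Nat.card {z : Fin k → G ⧸ K // B z} :=
    Nat.card_congr ⟨fun p => ⟨p.1.1, p.2⟩, fun Z => ⟨(Z.1, ()), Z.2⟩, fun _ => rfl,
      fun _ => rfl⟩
  have h2 : Nat.card {Z : Fin k → G // B (fun i => (Z i : G ⧸ K))} =
      (Nat.card K) ^ k * Nat.card {z : Fin k → G ⧸ K // B z} := by
    rw [← e1, ← e2]
    exact h1
  exact_mod_cast h2

/-- All the cosets contain many letters. -/
theorem few_cosets (hEQ : S_EQ) (hPu : S_Push) {G : Type} [Group G] [Fintype G]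
    (K : Subgroup G) [K.Normal] [Fintype (G ⧸ K)] (k : ℕ) (hk : 0 < k) :
    (Nat.card {Z : Fin k → G // ∃ x : G ⧸ K,
      (kq (fun i => (Z i : G ⧸ K)) x : ℝ) < (k : ℝ) / (2 * (K.index : ℝ))} : ℝ) ≤
      (4 * (K.index : ℝ) ^ 2 / (k : ℝ)) * (Nat.card G : ℝ) ^ k := by
  have hk0 : (0 : ℝ) < (k : ℝ) := by exact_mod_cast hk
  have hJ0 : (0 : ℝ) < (K.index : ℝ) := by
    exact_mod_cast Nat.pos_of_ne_zero Subgroup.index_ne_zero_of_finite
  have hJQ : (Fintype.card (G ⧸ K) : ℝ) = (K.index : ℝ) := by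
    rw [Subgroup.index, Nat.card_eq_fintype_card]
  have hy : 0 < (k : ℝ) / (2 * (K.index : ℝ)) := by positivity
  have h1 := hEQ (G ⧸ K) k _ hy
  rw [hJQ] at h1
  have hprod : (Nat.card K : ℝ) * (K.index : ℝ) = (Nat.card G : ℝ) := by
    exact_mod_cast K.card_mul_index
  calc (Nat.card {Z : Fin k → G // ∃ x : G ⧸ K,
      (kq (fun i => (Z i : G ⧸ K)) x : ℝ) < (k : ℝ) / (2 * (K.index : ℝ))} : ℝ) ≤
      (Nat.card {Z : Fin k → G // ∃ x : G ⧸ K, (k : ℝ) / (2 * (K.index : ℝ)) <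
        |(kq (fun i => (Z i : G ⧸ K)) x : ℝ) - (k : ℝ) / (K.index : ℝ)|} : ℝ) := by
        apply card_mono
        rintro Z ⟨x, hx⟩
        refine ⟨x, ?_⟩
        rw [abs_sub_comm, lt_abs]
        left
        have e : (k : ℝ) / (K.index : ℝ) =
          (k : ℝ) / (2 * (K.index : ℝ)) + (k : ℝ) / (2 * (K.index : ℝ)) := by
          field_simp
          ring
        linarith
    _ = (Nat.card K : ℝ) ^ k * (Nat.card {z : Fin k → G ⧸ K // ∃ x : G ⧸ K,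
        (k : ℝ) / (2 * (K.index : ℝ)) < |(kq z x : ℝ) - (k : ℝ) / (K.index : ℝ)|} : ℝ) :=
        push1 hPu K k (fun z => ∃ x : G ⧸ K,
          (k : ℝ) / (2 * (K.index : ℝ)) < |(kq z x : ℝ) - (k : ℝ) / (K.index : ℝ)|)
    _ ≤ (Nat.card K : ℝ) ^ k * ((k : ℝ) / ((k : ℝ) / (2 * (K.index : ℝ))) ^ 2 *
        (K.index : ℝ) ^ k) := mul_le_mul_of_nonneg_left h1 (by positivity)
    _ = (4 * (K.index : ℝ) ^ 2 / (k : ℝ)) * (Nat.card G : ℝ) ^ k := by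
        rw [← hprod, mul_pow]
        field_simp
        ring

theorem ph3_nonneg {Q : Type} [Fintype Q] (C : Finset (Q → ℂ)) (s : ℝ) : 0 ≤ ph3 C s :=
  div_nonneg (Finset.sum_nonneg fun c _ => (Real.exp_pos _).le) (Nat.cast_nonneg _)

theorem mem_im {α β : Type} (inst : DecidableEq β) (f : α → β) (s : Finset α) (b : β) :
    b ∈ @Finset.image α β inst f s ↔ ∃ a ∈ s, f a = b := Finset.mem_image

/-- The sum over the types after the threshold. -/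
theorem types_sum (hNCs : S_NCs) (hNCb : S_NCb) (hTy : S_TyN) (hCF : S_CFg) (hEn : S_EnL)
    (hStar : S_Star) {G : Type} [Group G] [Fintype G] (K : Subgroup G) [K.Normal]
    [Fintype (G ⧸ K)] (k r Jm : ℕ) (S : Finset G) (hS : Subgroup.closure (S : Set G) = ⊤)
    (hSk : S.card + 2 ≤ k) (hr : 1 ≤ r) (hJ : K.index ≤ Jm) (ν u₀ : ℝ) (ω₀ : ℕ)
    (hν : 0 ≤ ν)
    (hSt : ∀ (Q : Type) [Fintype Q] (C : Finset (Q → ℂ)) (k d : ℕ) (N s₁ s' : ℝ), 1 ∈ C →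
      2 ≤ C.card → C.card ≤ r ^ Jm → (∀ c ∈ C, 0 ≤ En c) →
      (∀ c ∈ C, c ≠ 1 → 8 / ((r : ℝ) ^ 2 * (Jm : ℝ)) ≤ En c) → 0 ≤ N →
      N ≤ (C.card : ℝ) ^ d → d + ω₀ ≤ k → 0 ≤ s₁ → s₁ + u₀ ≤ s' → N * ph3 C s₁ ^ k ≤ 1 →
      N * ph3 C s' ^ k ≤ ν)
    (hω : S.card + ω₀ ≤ k) (s' : ℝ) (hs' : sStar K k r + 1 + u₀ ≤ s')
    (F₁ : Finset (K →* ℂˣ)) (hF₁ : ∀ lam, lam ∈ F₁ ↔ lam ≠ 1 ∧ Nat.card lam.range ≤ r) :
    ∑ lam ∈ F₁, (Nat.card {P : Subgroup G // Cpl P K lam} : ℝ) * ph3 (CF K lam) s' ^ k ≤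
      2 ^ (r.factorial ^ Jm) * ν := by
  classical
  have hJ0 : 0 < K.index := Nat.pos_of_ne_zero Subgroup.index_ne_zero_of_finite
  obtain ⟨hs0, -, hs1, -⟩ := hStar G K k r S hS hr hSk
  obtain ⟨X, hX1, hX2, hX3⟩ : ∃ X : Finset (Finset (G ⧸ K → ℂ)),
      (∀ C ∈ X, ∃ lam ∈ F₁, CF K lam = C) ∧ X.card ≤ 2 ^ (r.factorial ^ K.index) ∧
      ∑ lam ∈ F₁, (Nat.card {P : Subgroup G // Cpl P K lam} : ℝ) * ph3 (CF K lam) s' ^ k =
        ∑ C ∈ X, (NC K r C : ℝ) * ph3 C s' ^ k := by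
    refine ⟨_, ?_, hTy G K r F₁ fun lam hl => ((hF₁ lam).1 hl).2,
      hNCs G K r F₁ hF₁ (fun C => ph3 C s' ^ k)⟩
    intro C hC
    exact (mem_im _ _ _ _).1 hC
  have h2 : ∀ C ∈ X, (NC K r C : ℝ) * ph3 C s' ^ k ≤ ν := by
    intro C hC
    obtain ⟨lam, hlam, rfl⟩ := hX1 C hC
    obtain ⟨hl1, hlr⟩ := (hF₁ lam).1 hlam
    obtain ⟨g1, -, -, -, -, g2, g3⟩ := hCF G K lam
    have hen := hEn G K lam r hlr
    have hr0 : (0 : ℝ) < (r : ℝ) := by exact_mod_cast hr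
    have hJr : (0 : ℝ) < (K.index : ℝ) := by exact_mod_cast hJ0
    have hJm : (K.index : ℝ) ≤ (Jm : ℝ) := by exact_mod_cast hJ
    have e1 : (CF K lam).card ≤ r ^ Jm :=
      le_trans g3 (le_trans (Nat.pow_le_pow_left hlr _) (Nat.pow_le_pow_right hr hJ))
    have e2 : ∀ c ∈ CF K lam, c ≠ 1 → 8 / ((r : ℝ) ^ 2 * (Jm : ℝ)) ≤ En c := by
      intro c hc hc1
      refine le_trans ?_ ((hen c hc).2.2 hc1)
      apply div_le_div_of_nonneg_left (by norm_num) (by positivity)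
      exact mul_le_mul_of_nonneg_left hJm (by positivity)
    have e3 : (NC K r (CF K lam) : ℝ) ≤ ((CF K lam).card : ℝ) ^ S.card := by
      exact_mod_cast hNCb G K r (CF K lam) S hS
    exact hSt (G ⧸ K) (CF K lam) k S.card (NC K r (CF K lam)) (sStar K k r + 1) s' g1 (g2 hl1)
      e1 (fun c hc => (hen c hc).1) e2 (Nat.cast_nonneg _) e3 hω (by linarith) hs'
      (hs1 _ (by linarith) lam hl1 hlr)
  have h3 : (X.card : ℝ) ≤ 2 ^ (r.factorial ^ Jm) := by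
    have h4 : X.card ≤ 2 ^ (r.factorial ^ Jm) := le_trans hX2
      (Nat.pow_le_pow_right (by norm_num) (Nat.pow_le_pow_right (Nat.factorial_pos r) hJ))
    generalize r.factorial ^ Jm = m at h4 ⊢
    exact_mod_cast h4
  rw [hX3]
  calc ∑ C ∈ X, (NC K r C : ℝ) * ph3 C s' ^ k ≤ ∑ _C ∈ X, ν := Finset.sum_le_sum h2
    _ = (X.card : ℝ) * ν := by rw [Finset.sum_const, nsmul_eq_mul]
    _ ≤ 2 ^ (r.factorial ^ Jm) * ν := mul_le_mul_of_nonneg_right h3 hν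

/-- The good families of generators. -/
theorem up_good (hStr : S_Struct) (hFull : S_Full) (hUni : S_Uni) (hRate : S_Rate)
    (hLamE : S_LamE) {G : Type} [Group G] [Fintype G] (P : Planch G) (M : Mono P)
    (K : Subgroup G) [K.Normal] [Fintype (G ⧸ K)] (F F₁ : Finset (K →* ℂˣ))
    (k D r₀ r Jm : ℕ) (γ ε₁ t η₀ : ℝ) (hF₁ : ∀ lam ∈ F, Nat.card lam.range ≤ r → lam ∈ F₁)
    (hk : 0 < k) (hγ0 : 0 < γ) (hγ1 : γ ≤ 1) (hε0 : 0 < ε₁) (hε1 : ε₁ ≤ 1) (ht : 0 ≤ t)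
    (hJ : K.index ≤ Jm)
    (hB : (((D * r₀).factorial : ℕ) : ℝ) * Real.sqrt (γ * (D : ℝ)) < 1)
    (hBm : (((Jm * r).factorial : ℕ) : ℝ) * Real.sqrt (γ * (Jm : ℝ)) < 1)
    (hγε : 32 * γ ≤ ε₁) (hγ4 : 4 * (Jm : ℝ) * γ ≤ 1)
    (h1 : (Nat.card {Z : Fin k → G // ∃ i : {i : P.ι // P.d i ≤ D},
      r₀ < Nat.card (M.lam i.1).range ∧ ¬ DGap Z (M.H i.1) (M.lam i.1) (γ ^ 2 / 2)} : ℝ) ≤
      η₀ * (Nat.card G : ℝ) ^ k)
    (h2 : (Nat.card {Z : Fin k → G // ∃ lam : {lam : K →* ℂˣ // lam ∈ F},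
      r < Nat.card lam.1.range ∧ ¬ DGap Z K lam.1 (γ ^ 2 / 2)} : ℝ) ≤
      η₀ * (Nat.card G : ℝ) ^ k)
    (h3 : (Nat.card {Z : Fin k → G // ∃ x : G ⧸ K,
      (kq (fun i => (Z i : G ⧸ K)) x : ℝ) < (k : ℝ) / (2 * (K.index : ℝ))} : ℝ) ≤
      η₀ * (Nat.card G : ℝ) ^ k)
    (h4 : (Nat.card {Z : Fin k → G // ∃ P : Subgroup G, P.index ≤ (D * r₀).factorial ∧
      P ⊔ K = ⊤ ∧ ¬ ⁅K, K⁆ ≤ P ∧ ∃ I : Finset (Fin k), (1 - γ) * (k : ℝ) ≤ (I.card : ℝ) ∧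
        ∀ i ∈ I, Z i ∈ P} : ℝ) ≤ η₀ * (Nat.card G : ℝ) ^ k) :
    ∃ Good : (Fin k → G) → Prop,
      (Nat.card {Z : Fin k → G // ¬ Good Z} : ℝ) ≤ 4 * η₀ * (Nat.card G : ℝ) ^ k ∧
      (∀ Z, Good Z → ∀ i, P.nt i → P.d i ≤ D →
        P.Kl K i ∨ DGap Z (M.H i) (M.lam i) (γ ^ 2 / 2)) ∧
      (open Classical in ∑ Z : Fin k → G, if Good Z then
        ∑ lam ∈ F, QF (indL K lam) (law Z t) else 0) ≤
      (Nat.card G : ℝ) ^ k * ((K.index : ℝ) *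
        ((F.card : ℝ) * (Real.exp (-(γ ^ 2 * t)) + Real.exp (-(t / 4))) +
          ∑ lam ∈ F₁, (Nat.card {P : Subgroup G // Cpl P K lam} : ℝ) *
            ph3 (CF K lam) ((1 - ε₁) * t / (k : ℝ)) ^ k)) := by
  classical
  have hk0 : (0 : ℝ) < (k : ℝ) := by exact_mod_cast hk
  have hJ0 : (0 : ℝ) < (K.index : ℝ) := by
    exact_mod_cast Nat.pos_of_ne_zero Subgroup.index_ne_zero_of_finite
  have hJm : (K.index : ℝ) ≤ (Jm : ℝ) := by exact_mod_cast hJ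
  set E1 : (Fin k → G) → Prop := fun Z => ∃ i : {i : P.ι // P.d i ≤ D},
      r₀ < Nat.card (M.lam i.1).range ∧ ¬ DGap Z (M.H i.1) (M.lam i.1) (γ ^ 2 / 2) with hE1
  set E2 : (Fin k → G) → Prop := fun Z => ∃ lam : {lam : K →* ℂˣ // lam ∈ F},
      r < Nat.card lam.1.range ∧ ¬ DGap Z K lam.1 (γ ^ 2 / 2) with hE2
  set E3 : (Fin k → G) → Prop := fun Z => ∃ x : G ⧸ K,
      (kq (fun i => (Z i : G ⧸ K)) x : ℝ) < (k : ℝ) / (2 * (K.index : ℝ)) with hE3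
  set E4 : (Fin k → G) → Prop := fun Z => ∃ P : Subgroup G, P.index ≤ (D * r₀).factorial ∧
      P ⊔ K = ⊤ ∧ ¬ ⁅K, K⁆ ≤ P ∧ ∃ I : Finset (Fin k), (1 - γ) * (k : ℝ) ≤ (I.card : ℝ) ∧
        ∀ i ∈ I, Z i ∈ P with hE4
  refine ⟨fun Z => ¬ ((E1 Z ∨ E2 Z) ∨ (E3 Z ∨ E4 Z)), ?_, ?_, ?_⟩
  · have e0 : (Nat.card {Z : Fin k → G // ¬ ¬ ((E1 Z ∨ E2 Z) ∨ (E3 Z ∨ E4 Z))} : ℝ) ≤
        (Nat.card {Z : Fin k → G // (E1 Z ∨ E2 Z) ∨ (E3 Z ∨ E4 Z)} : ℝ) :=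
      card_mono _ _ fun Z hZ => not_not.1 hZ
    have e1 := card_or (α := Fin k → G) (fun Z => E1 Z ∨ E2 Z) (fun Z => E3 Z ∨ E4 Z)
    have e2 := card_or (α := Fin k → G) (fun Z => E1 Z) (fun Z => E2 Z)
    have e3 := card_or (α := Fin k → G) (fun Z => E3 Z) (fun Z => E4 Z)
    linarith
  · intro Z hZ i hi hiD
    have hn1 : ¬ E1 Z := fun h => hZ (Or.inl (Or.inl h))
    have hn3 : ¬ E3 Z := fun h => hZ (Or.inr (Or.inl h))
    have hn4 : ¬ E4 Z := fun h => hZ (Or.inr (Or.inr h))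
    by_contra hcon
    rw [not_or] at hcon
    obtain ⟨hKl, hDG⟩ := hcon
    have hr : Nat.card (M.lam i).range ≤ r₀ := by
      by_contra hr
      exact hn1 ⟨⟨i, hiD⟩, not_le.1 hr, hDG⟩
    obtain ⟨P', I, hi1, hi2, hi3, hi4⟩ := hStr G P M k D r₀ Z γ i hk hγ0 hγ1 hi hiD hr hB hDG
    have hfull : ∀ x : G ⧸ K, γ * (k : ℝ) < (kq (fun i => (Z i : G ⧸ K)) x : ℝ) := by
      intro x
      have h5 : (k : ℝ) / (2 * (K.index : ℝ)) ≤ (kq (fun i => (Z i : G ⧸ K)) x : ℝ) := by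
        by_contra h5
        exact hn3 ⟨x, not_le.1 h5⟩
      refine lt_of_lt_of_le ?_ h5
      rw [lt_div_iff₀ (by positivity)]
      nlinarith [mul_pos hγ0 hk0]
    have hsup := hFull G K k Z γ P' I hfull hi2 hi3
    have hcomm : ⁅K, K⁆ ≤ P' := by
      by_contra h6
      exact hn4 ⟨P', hi1, hsup, h6, I, hi2, hi3⟩
    exact hKl (hi4 K inferInstance hsup hcomm)
  · apply hLamE G K F F₁ k r γ ε₁ t (fun Z => ¬ ((E1 Z ∨ E2 Z) ∨ (E3 Z ∨ E4 Z))) hk hγ0 hε0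
      hε1 ht hF₁
    intro Z hZ lam hlam
    have hn2 : ¬ E2 Z := fun h => hZ (Or.inl (Or.inr h))
    have hn3 : ¬ E3 Z := fun h => hZ (Or.inr (Or.inl h))
    by_cases hDG : DGap Z K lam (γ ^ 2 / 2)
    · exact Or.inl hDG
    right
    have hr : Nat.card lam.range ≤ r := by
      by_contra hr
      exact hn2 ⟨⟨lam, hlam⟩, not_le.1 hr, hDG⟩
    refine ⟨hr, ?_⟩
    have h5 : ∀ x : G ⧸ K, (k : ℝ) / (2 * (K.index : ℝ)) ≤
        (kq (fun i => (Z i : G ⧸ K)) x : ℝ) := by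
      intro x
      by_contra h5
      exact hn3 ⟨x, not_le.1 h5⟩
    have hfull : ∀ x : G ⧸ K, γ * (k : ℝ) < (kq (fun i => (Z i : G ⧸ K)) x : ℝ) := by
      intro x
      refine lt_of_lt_of_le ?_ (h5 x)
      rw [lt_div_iff₀ (by positivity)]
      nlinarith [mul_pos hγ0 hk0]
    obtain ⟨P', v', I, hC, hv, hv1, hvP, hI, hIP⟩ := hUni G K lam k Jm r Z γ hk hγ0 hγ1 hJ hr
      hBm hfull hDG
    refine ⟨P', v', hC, hv, hv1, hvP, ?_⟩
    have h6 : (k : ℝ) - (I.card : ℝ) ≤ γ * (k : ℝ) := by linarith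
    apply hRate G K lam k Z ε₁ v' I hk hε0 hε1 hv hv1 (fun i hi g => hvP _ (hIP i hi) g) h5
    · nlinarith
    · calc 4 * (K.index : ℝ) * ((k : ℝ) - (I.card : ℝ)) ≤
          4 * (K.index : ℝ) * (γ * (k : ℝ)) :=
            mul_le_mul_of_nonneg_left h6 (by positivity)
        _ ≤ 4 * (Jm : ℝ) * (γ * (k : ℝ)) :=
            mul_le_mul_of_nonneg_right (by linarith) (by positivity)
        _ = 4 * (Jm : ℝ) * γ * (k : ℝ) := by ring
        _ ≤ (k : ℝ) := by nlinarith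

end Up3P

open Up3P in
/-- The upper bound. -/
theorem p_Up3 (hW : S_Wed) (hMo : S_Mono) (hU : S_UB3) (hH : S_High) (hD : S_SDb) (h5 : S_W5)
    (hBig : S_Big) (hStr : S_Struct) (hNL : S_NonL) (hEQ : S_EQ) (hPu : S_Push)
    (hFull : S_Full) (hUni : S_Uni) (hRate : S_Rate) (hLamE : S_LamE) (hNCs : S_NCs)
    (hNCb : S_NCb) (hTy : S_TyN) (hCF : S_CFg) (hEn : S_EnL) (hStUp : S_StUp) (hStar : S_Star)
    (hFin : S_FinC) (hT4 : S_T4) (hP1 : S_P1) (h2 : S_QF2) (hSq : S_Sq) : S_Up3 := by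
  classical
  intro C₀ ε η hC hε hε1 hη
  set η₁ : ℝ := min (η / 64) (1 / 4) with hη₁
  have hη₁0 : 0 < η₁ := lt_min (by positivity) (by norm_num)
  have hη₁a : η₁ ≤ η / 64 := min_le_left _ _
  have hη₁c : η₁ ≤ 1 / 4 := min_le_right _ _
  have hhigh := UBasy.high hD C₀ η₁ hC hη₁0 hη₁c
  have hD1 : 1 ≤ ⌈Real.exp (4 * (C₀ + 1) / η₁)⌉₊ := Nat.ceil_pos.2 (Real.exp_pos _)
  generalize ⌈Real.exp (4 * (C₀ + 1) / η₁)⌉₊ = D at hhigh hD1
  obtain ⟨r₀, γa, hγa0, hBa⟩ := hBig D C₀ (η / 16) hD1 hC (by positivity)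
  refine ⟨(D * r₀).factorial, Nat.factorial_pos _, ?_⟩
  intro Jm₀
  obtain ⟨Jm, hJm0, hJm1⟩ : ∃ Jm : ℕ, Jm₀ ≤ Jm ∧ 1 ≤ Jm :=
    ⟨max Jm₀ 1, le_max_left _ _, le_max_right _ _⟩
  have hJmr : (1 : ℝ) ≤ (Jm : ℝ) := by exact_mod_cast hJm1
  obtain ⟨r₁, γb, hγb0, hBb⟩ := hBig Jm C₀ (η / 16) hJm1 hC (by positivity)
  obtain ⟨r, hr1, hr2⟩ : ∃ r : ℕ, r₁ ≤ r ∧ 2 ≤ r :=
    ⟨max r₁ 2, le_max_left _ _, le_max_right _ _⟩
  obtain ⟨γc, hγc0, hNc⟩ := hNL C₀ (η / 16) Jm ((D * r₀).factorial) hC (by positivity)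
    (Nat.factorial_pos _)
  -- the choice of `γ`
  have hsq : ∀ (A : ℕ) (x : ℕ), ∃ γ₀ : ℝ, 0 < γ₀ ∧ ∀ γ : ℝ, 0 < γ → γ ≤ γ₀ →
      (A : ℝ) * Real.sqrt (γ * (x : ℝ)) < 1 := by
    intro A x
    refine ⟨1 / (2 * ((A : ℝ) + 1) ^ 2 * ((x : ℝ) + 1)), by positivity, ?_⟩
    intro γ hγ0 hγ
    have hA : (0 : ℝ) < (A : ℝ) + 1 := by positivity
    have h6 : γ * (x : ℝ) ≤ (1 / ((A : ℝ) + 1)) ^ 2 := by
      calc γ * (x : ℝ) ≤ (1 / (2 * ((A : ℝ) + 1) ^ 2 * ((x : ℝ) + 1))) * ((x : ℝ) + 1) := by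
            apply mul_le_mul hγ (by linarith) (by positivity) (by positivity)
        _ = 1 / (2 * ((A : ℝ) + 1) ^ 2) := by field_simp
        _ ≤ (1 / ((A : ℝ) + 1)) ^ 2 := by
            rw [one_div_pow]
            apply one_div_le_one_div_of_le (by positivity)
            nlinarith [sq_nonneg ((A : ℝ) + 1)]
    have h7 : Real.sqrt (γ * (x : ℝ)) ≤ 1 / ((A : ℝ) + 1) := by
      rw [← Real.sqrt_sq (show (0 : ℝ) ≤ 1 / ((A : ℝ) + 1) by positivity)]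
      exact Real.sqrt_le_sqrt h6
    calc (A : ℝ) * Real.sqrt (γ * (x : ℝ)) ≤ (A : ℝ) * (1 / ((A : ℝ) + 1)) :=
          mul_le_mul_of_nonneg_left h7 (Nat.cast_nonneg _)
      _ < 1 := by
          rw [mul_one_div, div_lt_one hA]
          linarith
  obtain ⟨γd, hγd0, hγd⟩ := hsq ((D * r₀).factorial) D
  obtain ⟨γe, hγe0, hγe⟩ := hsq ((Jm * r).factorial) Jm
  obtain ⟨γ, hγ0, hγa, hγb, hγc, hγd', hγe', hγ1, hγε, hγJ⟩ : ∃ γ : ℝ, 0 < γ ∧ γ ≤ γa ∧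
      γ ≤ γb ∧ γ ≤ γc ∧ γ ≤ γd ∧ γ ≤ γe ∧ γ ≤ 1 ∧ γ ≤ ε / 256 ∧ γ ≤ 1 / (4 * (Jm : ℝ)) := by
    refine ⟨min (min (min γa γb) (min γc γd)) (min (min γe 1)
      (min (ε / 256) (1 / (4 * (Jm : ℝ))))), ?_, ?_, ?_, ?_, ?_, ?_, ?_, ?_, ?_⟩
    · exact lt_min (lt_min (lt_min hγa0 hγb0) (lt_min hγc0 hγd0))
        (lt_min (lt_min hγe0 one_pos) (lt_min (by positivity) (by positivity)))
    · exact le_trans (min_le_left _ _) (le_trans (min_le_left _ _) (min_le_left _ _))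
    · exact le_trans (min_le_left _ _) (le_trans (min_le_left _ _) (min_le_right _ _))
    · exact le_trans (min_le_left _ _) (le_trans (min_le_right _ _) (min_le_left _ _))
    · exact le_trans (min_le_left _ _) (le_trans (min_le_right _ _) (min_le_right _ _))
    · exact le_trans (min_le_right _ _) (le_trans (min_le_left _ _) (min_le_left _ _))
    · exact le_trans (min_le_right _ _) (le_trans (min_le_left _ _) (min_le_right _ _))
    · exact le_trans (min_le_right _ _) (le_trans (min_le_right _ _) (min_le_left _ _))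
    · exact le_trans (min_le_right _ _) (le_trans (min_le_right _ _) (min_le_right _ _))
  have hγ4 : 4 * (Jm : ℝ) * γ ≤ 1 := by
    calc 4 * (Jm : ℝ) * γ ≤ 4 * (Jm : ℝ) * (1 / (4 * (Jm : ℝ))) :=
          mul_le_mul_of_nonneg_left hγJ (by positivity)
      _ = 1 := by field_simp
  obtain ⟨kA, hkA⟩ := hBa γ hγ0 hγa
  obtain ⟨kB, hkB⟩ := hBb γ hγ0 hγb
  obtain ⟨kC, hkC⟩ := hNc γ hγ0 hγc
  -- the threshold
  obtain ⟨TT, hTT, hTT0⟩ : ∃ TT : ℝ, 2 ^ (r.factorial ^ Jm) = TT ∧ 0 < TT :=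
    ⟨2 ^ (r.factorial ^ Jm), rfl, pow_pos (by norm_num) _⟩
  obtain ⟨ν, hν0, hν1⟩ : ∃ ν : ℝ, 0 < ν ∧ (Jm : ℝ) * (TT * ν) = (η / 4) ^ 2 / 4 := by
    refine ⟨(η / 4) ^ 2 / (4 * (Jm : ℝ) * TT), by positivity, ?_⟩
    field_simp
  have hr0 : (0 : ℝ) < (r : ℝ) := by
    have : 0 < r := by omega
    exact_mod_cast this
  obtain ⟨ω', u₀, hu₀, hSt⟩ := hStUp ν (8 / ((r : ℝ) ^ 2 * (Jm : ℝ))) (r ^ Jm) hν0
    (by positivity)
  refine ⟨r, (C₀ + 1) / γ ^ 2 + 4 * (C₀ + 1) + 4 * (1 + u₀) / ε + 1 / ε, max ω' 2, ?_⟩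
  obtain ⟨k₀, hk₀⟩ := eventually_atTop.1 (hhigh.and ((eventually_ge_atTop kA).and
    ((eventually_ge_atTop kB).and ((eventually_ge_atTop kC).and ((eventually_gt_atTop 0).and
    ((UBasy.ev_ge (4 * (Jm : ℝ) ^ 2) (η / 16) (by positivity)).and
    ((UBasy.ev_exp (2 + 2 * (Jm : ℝ)) 1 ((η / 4) ^ 2 / 4) one_pos (by positivity)).and
    (UBasy.ev_exp 1 (η₁ / 8) (η / 16) (by positivity) (by positivity)))))))))
  refine ⟨k₀, hr2, ?_⟩
  intro k hk G _ _ hnil hlog S hS hω K _ _ hJ hTerm hσ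
  obtain ⟨hk1, hkkA, hkkB, hkkC, hkpos, ek1, ek2, ek3⟩ := hk₀ k hk
  have hk0 : (0 : ℝ) < (k : ℝ) := by exact_mod_cast hkpos
  have hJ' : K.index ≤ Jm := le_trans hJ hJm0
  have hω' : S.card + ω' ≤ k := le_trans (Nat.add_le_add_left (le_max_left _ _) _) hω
  have hω2 : S.card + 2 ≤ k := le_trans (Nat.add_le_add_left (le_max_right _ _) _) hω
  obtain ⟨P⟩ := hW G
  obtain ⟨M⟩ := hMo G hnil P
  obtain ⟨hsq1, hsq2⟩ := hSq G P
  have hG1 : (1 : ℝ) ≤ (Nat.card G : ℝ) := by exact_mod_cast Nat.card_pos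
  have hcard : (Nat.card G : ℝ) ≤ Real.exp (C₀ * (k : ℝ)) := by
    rw [← Real.exp_log (show (0 : ℝ) < (Nat.card G : ℝ) by linarith)]
    exact Real.exp_le_exp.2 hlog
  -- the characters of `K`
  obtain ⟨hfinK, hcK1, hcK2⟩ := hFin K
  have := Fintype.ofFinite (K →* ℂˣ)
  set F : Finset (K →* ℂˣ) := Finset.univ.filter (fun lam => lam ≠ 1) with hFdef
  have hF : ∀ lam, lam ∈ F ↔ lam ≠ 1 := by
    intro lam
    simp [hFdef]
  set F₁ : Finset (K →* ℂˣ) := F.filter (fun lam => Nat.card lam.range ≤ r) with hF₁def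
  have hF₁ : ∀ lam, lam ∈ F₁ ↔ lam ≠ 1 ∧ Nat.card lam.range ≤ r := by
    intro lam
    rw [hF₁def, Finset.mem_filter, hF]
  have hFcard : F.card ≤ Nat.card G := by
    calc F.card ≤ (Finset.univ : Finset (K →* ℂˣ)).card := Finset.card_filter_le _ _
      _ = Nat.card (K →* ℂˣ) := by rw [Finset.card_univ, Nat.card_eq_fintype_card]
      _ ≤ Nat.card K := by rw [hcK1]; exact hcK2
      _ ≤ Nat.card G := Nat.card_le_card_of_injective _ Subtype.val_injective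
  -- the four events
  have hev1 : (Nat.card {Z : Fin k → G // ∃ i : {i : P.ι // P.d i ≤ D},
      r₀ < Nat.card (M.lam i.1).range ∧ ¬ DGap Z (M.H i.1) (M.lam i.1) (γ ^ 2 / 2)} : ℝ) ≤
      η / 16 * (Nat.card G : ℝ) ^ k := by
    apply hkA k hkkA G hlog {i : P.ι // P.d i ≤ D} (fun i => M.H i.1) (fun i => M.lam i.1)
    · have e1 : Fintype.card {i : P.ι // P.d i ≤ D} ≤ Fintype.card P.ι :=
        Fintype.card_subtype_le _
      have e2 : Nat.card P.ι ≤ Nat.card G := by exact_mod_cast hsq2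
      rw [Nat.card_eq_fintype_card] at e2
      exact le_trans e1 e2
    · intro i
      rw [M.idx]
      exact i.2
  have hev2 : (Nat.card {Z : Fin k → G // ∃ lam : {lam : K →* ℂˣ // lam ∈ F},
      r < Nat.card lam.1.range ∧ ¬ DGap Z K lam.1 (γ ^ 2 / 2)} : ℝ) ≤
      η / 16 * (Nat.card G : ℝ) ^ k := by
    refine le_trans (card_mono _ _ ?_) (hkB k hkkB G hlog {lam : K →* ℂˣ // lam ∈ F}
      (fun _ => K) (fun lam => lam.1) ?_ (fun _ => hJ'))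
    · rintro Z ⟨lam, h6, h7⟩
      exact ⟨lam, lt_of_le_of_lt hr1 h6, h7⟩
    · rw [Fintype.card_coe]
      exact hFcard
  have hev3 : (Nat.card {Z : Fin k → G // ∃ x : G ⧸ K,
      (kq (fun i => (Z i : G ⧸ K)) x : ℝ) < (k : ℝ) / (2 * (K.index : ℝ))} : ℝ) ≤
      η / 16 * (Nat.card G : ℝ) ^ k := by
    refine le_trans (few_cosets hEQ hPu K k hkpos) ?_
    apply mul_le_mul_of_nonneg_right _ (by positivity)
    rw [div_le_iff₀ hk0]
    refine le_trans ?_ ek1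
    have : (K.index : ℝ) ≤ (Jm : ℝ) := by exact_mod_cast hJ'
    gcongr
  have hev4 : (Nat.card {Z : Fin k → G // ∃ P : Subgroup G, P.index ≤ (D * r₀).factorial ∧
      P ⊔ K = ⊤ ∧ ¬ ⁅K, K⁆ ≤ P ∧ ∃ I : Finset (Fin k), (1 - γ) * (k : ℝ) ≤ (I.card : ℝ) ∧
        ∀ i ∈ I, Z i ∈ P} : ℝ) ≤ η / 16 * (Nat.card G : ℝ) ^ k :=
    hkC k hkkC G hnil hlog S hS (by omega) K inferInstance hJ' hTerm
  -- times
  have hs0 := (hStar G K k r S hS (by omega) hω2).1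
  obtain ⟨s, hs⟩ : ∃ s : ℝ, sStar K k r = s := ⟨_, rfl⟩
  rw [hs] at hσ hs0 ⊢
  have hσ1 : (C₀ + 1) / γ ^ 2 ≤ s := by
    refine le_trans ?_ hσ
    have : 0 ≤ 4 * (C₀ + 1) + 4 * (1 + u₀) / ε + 1 / ε := by positivity
    linarith
  have hσ2 : 4 * (C₀ + 1) ≤ s := by
    refine le_trans ?_ hσ
    have : 0 ≤ (C₀ + 1) / γ ^ 2 + 4 * (1 + u₀) / ε + 1 / ε := by positivity
    linarith
  have hσ3 : 4 * (1 + u₀) ≤ ε * s := by
    have h6 : 4 * (1 + u₀) / ε ≤ s := by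
      refine le_trans ?_ hσ
      have : 0 ≤ (C₀ + 1) / γ ^ 2 + 4 * (C₀ + 1) + 1 / ε := by positivity
      linarith
    rw [div_le_iff₀ hε] at h6
    linarith
  have hσ4 : 1 ≤ ε * s := by
    have h6 : 1 / ε ≤ s := by
      refine le_trans ?_ hσ
      have : 0 ≤ (C₀ + 1) / γ ^ 2 + 4 * (C₀ + 1) + 4 * (1 + u₀) / ε := by positivity
      linarith
    rw [div_le_iff₀ hε] at h6
    linarith
  set t₁ : ℝ := 2 * η₁ * (k : ℝ) with ht₁
  set t : ℝ := (1 + ε) * (s * (k : ℝ)) - t₁ with ht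
  have ht₁0 : 0 ≤ t₁ := by positivity
  have htlow : (1 + ε / 2) * s * (k : ℝ) ≤ t := by
    rw [ht, ht₁]
    have h6 : 2 * η₁ ≤ ε / 2 * s := by linarith
    linarith [mul_le_mul_of_nonneg_right h6 hk0.le]
  have htlow' : s * (k : ℝ) ≤ t := by
    refine le_trans ?_ htlow
    have : 0 ≤ ε / 2 * s * (k : ℝ) := by positivity
    linarith
  have ht0 : 0 ≤ t := le_trans (by positivity) htlow'
  set n : ℕ := ⌊η₁ * (k : ℝ)⌋₊ with hn
  have hnle : (n : ℝ) ≤ η₁ * (k : ℝ) := Nat.floor_le (by positivity)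
  have hnk : n < k := by
    have : (n : ℝ) < (k : ℝ) := by linarith [mul_le_mul_of_nonneg_right hη₁c hk0.le]
    exact_mod_cast this
  obtain ⟨Good, hG1', hG2, hG3⟩ := up_good hStr hFull hUni hRate hLamE P M K F F₁ k D r₀ r Jm γ
    (ε / 8) t (η / 16) (fun lam h6 h7 => (hF₁ lam).2 ⟨(hF lam).1 h6, h7⟩) hkpos hγ0 hγ1
    (by positivity) (by linarith) ht0 hJ' (hγd γ hγ0 hγd') (hγe γ hγ0 hγe') (by linarith) hγ4
    hev1 hev2 hev3 hev4
  have hY := hH G P M k n (n / 2) D (Real.exp (-(k : ℝ))) hnk hD1 (Real.exp_pos _).le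
      (fun m hm1 hm2 => hk1 G hlog P m hm1 hm2)
  have hmain := up_avg hU h2 P M K inferInstance F hF k n (n / 2) D (γ ^ 2 / 2) t
    (4 * (η / 16)) _ _ (2 * η₁) Good hkpos (by positivity) ht0 hG1' hG2 hG3 hY
    (UBasy.b1 h5 η₁ hη₁0 k hkpos)
  -- the sum over the linear characters
  have hs' : s + 1 + u₀ ≤ (1 - ε / 8) * t / (k : ℝ) := by
    rw [le_div_iff₀ hk0]
    have h6 : (1 - ε / 8) * ((1 + ε / 2) * s * (k : ℝ)) ≤ (1 - ε / 8) * t :=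
      mul_le_mul_of_nonneg_left htlow (by linarith)
    refine le_trans ?_ h6
    have h7 : s + 1 + u₀ ≤ (1 + ε / 4) * s := by linarith
    have h8 : (1 + ε / 4) * s ≤ (1 - ε / 8) * ((1 + ε / 2) * s) := by
      have : (1 + ε / 4) ≤ (1 - ε / 8) * (1 + ε / 2) := by nlinarith
      calc (1 + ε / 4) * s ≤ ((1 - ε / 8) * (1 + ε / 2)) * s :=
            mul_le_mul_of_nonneg_right this hs0
        _ = _ := by ring
    calc (s + 1 + u₀) * (k : ℝ) ≤ ((1 - ε / 8) * ((1 + ε / 2) * s)) * (k : ℝ) :=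
          mul_le_mul_of_nonneg_right (le_trans h7 h8) hk0.le
      _ = _ := by ring
  have hts := types_sum hNCs hNCb hTy hCF hEn hStar K k r Jm S hS hω2 (by omega) hJ' ν u₀ ω'
    hν0.le hSt hω' ((1 - ε / 8) * t / (k : ℝ)) (by rw [hs]; exact hs') F₁ hF₁
  rw [hTT] at hts
  have hexp1 : (Nat.card G : ℝ) * Real.exp (-(γ ^ 2 * t)) ≤ Real.exp (-(k : ℝ)) := by
    calc (Nat.card G : ℝ) * Real.exp (-(γ ^ 2 * t)) ≤
        Real.exp (C₀ * (k : ℝ)) * Real.exp (-(γ ^ 2 * t)) :=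
          mul_le_mul_of_nonneg_right hcard (Real.exp_pos _).le
      _ = Real.exp (C₀ * (k : ℝ) - γ ^ 2 * t) := by
          rw [← Real.exp_add, sub_eq_add_neg]
      _ ≤ Real.exp (-(k : ℝ)) := by
          apply Real.exp_le_exp.2
          have h6 : (C₀ + 1) ≤ s * γ ^ 2 := by
            rwa [div_le_iff₀ (by positivity)] at hσ1
          have h7 : γ ^ 2 * (s * (k : ℝ)) ≤ γ ^ 2 * t :=
            mul_le_mul_of_nonneg_left htlow' (by positivity)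
          linarith [mul_le_mul_of_nonneg_right h6 hk0.le]
  have hexp2 : (Nat.card G : ℝ) * Real.exp (-(t / 4)) ≤ Real.exp (-(k : ℝ)) := by
    calc (Nat.card G : ℝ) * Real.exp (-(t / 4)) ≤
        Real.exp (C₀ * (k : ℝ)) * Real.exp (-(t / 4)) :=
          mul_le_mul_of_nonneg_right hcard (Real.exp_pos _).le
      _ = Real.exp (C₀ * (k : ℝ) - t / 4) := by
          rw [← Real.exp_add, sub_eq_add_neg]
      _ ≤ Real.exp (-(k : ℝ)) := by
          apply Real.exp_le_exp.2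
          linarith [mul_le_mul_of_nonneg_right hσ2 hk0.le]
  have hJr : (K.index : ℝ) ≤ (Jm : ℝ) := by exact_mod_cast hJ'
  have hFr : (F.card : ℝ) ≤ (Nat.card G : ℝ) := by exact_mod_cast hFcard
  have hsum0 : 0 ≤ ∑ lam ∈ F₁, (Nat.card {P : Subgroup G // Cpl P K lam} : ℝ) *
      ph3 (CF K lam) ((1 - ε / 8) * t / (k : ℝ)) ^ k := by
    exact Finset.sum_nonneg fun lam _ =>
      mul_nonneg (Nat.cast_nonneg _) (pow_nonneg (ph3_nonneg _ _) _)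
  have hXb : (K.index : ℝ) *
        ((F.card : ℝ) * (Real.exp (-(γ ^ 2 * t)) + Real.exp (-(t / 4))) +
          ∑ lam ∈ F₁, (Nat.card {P : Subgroup G // Cpl P K lam} : ℝ) *
            ph3 (CF K lam) ((1 - ε / 8) * t / (k : ℝ)) ^ k) ≤
      (Jm : ℝ) * (2 * Real.exp (-(k : ℝ)) + TT * ν) := by
    have h6 : (F.card : ℝ) * (Real.exp (-(γ ^ 2 * t)) + Real.exp (-(t / 4))) ≤
        (Nat.card G : ℝ) * (Real.exp (-(γ ^ 2 * t)) + Real.exp (-(t / 4))) :=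
      mul_le_mul_of_nonneg_right hFr (by positivity)
    have h7 : 0 ≤ (F.card : ℝ) * (Real.exp (-(γ ^ 2 * t)) + Real.exp (-(t / 4))) := by
      positivity
    refine mul_le_mul hJr ?_ (add_nonneg h7 hsum0) (by positivity)
    linarith
  have hsqb : Real.sqrt ((Nat.card G : ℝ) * Real.exp (-(2 * (γ ^ 2 / 2) * t)) +
      (K.index : ℝ) *
        ((F.card : ℝ) * (Real.exp (-(γ ^ 2 * t)) + Real.exp (-(t / 4))) +
          ∑ lam ∈ F₁, (Nat.card {P : Subgroup G // Cpl P K lam} : ℝ) *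
            ph3 (CF K lam) ((1 - ε / 8) * t / (k : ℝ)) ^ k) + Real.exp (-(k : ℝ))) ≤
      η / 4 := by
    have h6 : (2 + 2 * (Jm : ℝ)) * Real.exp (-(k : ℝ)) ≤ (η / 4) ^ 2 / 4 := by
      have e1 : -(1 * (k : ℝ)) = -(k : ℝ) := by ring
      rw [e1] at ek2
      exact ek2
    have h7 : -(2 * (γ ^ 2 / 2) * t) = -(γ ^ 2 * t) := by ring
    rw [h7]
    rw [← Real.sqrt_sq (show (0 : ℝ) ≤ η / 4 by positivity)]
    apply Real.sqrt_le_sqrt
    have h8 : (Jm : ℝ) * (2 * Real.exp (-(k : ℝ)) + TT * ν) =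
        2 * (Jm : ℝ) * Real.exp (-(k : ℝ)) + (η / 4) ^ 2 / 4 := by
      rw [mul_add, hν1]
      ring
    linarith [sq_nonneg (η / 4)]
  -- the end
  have hpo : ∑ i ∈ Finset.range n, pois t₁ i ≤ η / 16 := by
    have h6 := hP1 t₁ (1 / 2) n ht₁0 (by norm_num) (by norm_num) (by rw [ht₁]; linarith)
    refine le_trans h6 (le_trans (le_of_eq ?_) ek3)
    rw [one_mul]
    congr 1
    rw [ht₁]
    ring
  have hfin : ∑ Z : Fin k → G, dTV Z ((1 + ε) * (s * (k : ℝ))) ≤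
      ∑ Z : Fin k → G, (η / 16 + tvMix Z t n) := by
    apply Finset.sum_le_sum
    intro Z _
    have h6 := hT4 G k Z t t₁ n hkpos ht0 ht₁0
    have h7 : t + t₁ = (1 + ε) * (s * (k : ℝ)) := by rw [ht]; ring
    rw [h7] at h6
    linarith
  refine le_trans hfin ?_
  rw [Finset.sum_add_distrib, Finset.sum_const, Finset.card_univ, nsmul_eq_mul]
  have hcardZ : (Fintype.card (Fin k → G) : ℝ) = (Nat.card G : ℝ) ^ k := by
    rw [Fintype.card_fun, Fintype.card_fin, Nat.card_eq_fintype_card]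
    push_cast
    rfl
  rw [hcardZ]
  have hN0 : 0 < (Nat.card G : ℝ) ^ k := by positivity
  have h9 : 4 * (η / 16) + Real.sqrt ((Nat.card G : ℝ) * Real.exp (-(2 * (γ ^ 2 / 2) * t)) +
      (K.index : ℝ) *
        ((F.card : ℝ) * (Real.exp (-(γ ^ 2 * t)) + Real.exp (-(t / 4))) +
          ∑ lam ∈ F₁, (Nat.card {P : Subgroup G // Cpl P K lam} : ℝ) *
            ph3 (CF K lam) ((1 - ε / 8) * t / (k : ℝ)) ^ k) + Real.exp (-(k : ℝ))) / 2 +
      2 * η₁ ≤ 15 / 16 * η := by linarith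
  have h10 := le_trans hmain (mul_le_mul_of_nonneg_left h9 hN0.le)
  linarith [mul_nonneg hN0.le hη.le]

end NilCut
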