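import Pool.Agent.Lib.MP_4ddf81_pr.Stm3
import Pool.Agent.Lib.MP_4ddf81_pr.P.Dual2

/-!
# MP_4ddf81_pr: the number of the linear characters
-/

namespace NilCut

namespace FinCP

theorem trivial_on_commutator {G : Type} [Group G] (l : G →* ℂˣ) :
    ∀ a ∈ commutator G, l a = 1 := fun _ ha =>
  (Abelianization.commutator_subset_ker l) ha

theorem card_eq (G : Type) [Group G] [Finite G] :
    Nat.card (G →* ℂˣ) = Nat.card (Abelianization G) := by
  have h1 : Nat.card {l : G →* ℂˣ // ∀ a ∈ commutator G, l a = 1} = Nat.card (G →* ℂˣ) :=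
    Nat.card_congr (Equiv.subtypeUnivEquiv (fun l => trivial_on_commutator l))
  have h2 : Nat.card {l : G →* ℂˣ // ∀ a ∈ commutator G, l a = 1} = (commutator G).index :=
    (p_Dual2 G (commutator G) le_rfl).2
  rw [← h1, h2]
  rfl

theorem abel_surj (G : Type) [Group G] :
    Function.Surjective (Abelianization.of : G →* Abelianization G) :=
  QuotientGroup.mk_surjective

end FinCP

theorem p_FinC : S_FinC := by
  intro G _ _
  have hfin : Finite (Abelianization G) := Finite.of_surjective _ (FinCP.abel_surj G)
  have hc := FinCP.card_eq G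
  refine ⟨?_, hc, Nat.card_le_card_of_surjective _ (FinCP.abel_surj G)⟩
  apply Nat.finite_of_card_ne_zero
  rw [hc]
  exact Nat.card_pos.ne'

end NilCut
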