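import Pool.Agent.Lib.MP_4ddf81_pr.Stm3

/-!
# MP_4ddf81_pr, stage 3 : the mean for a typical path
-/

namespace NilCut

open Filter Topology

namespace MPathP

/-- the choice of `k₀` -/
theorem large (J₀ C₁ : ℝ) (hJ : 1 ≤ J₀) (hC : 0 < C₁) : ∃ k₀ : ℕ, ∀ k : ℕ, k₀ ≤ k →
    ∃ l : ℝ, 2 * J₀ + 2 ≤ l ∧ l ^ 3 = (k : ℝ) ∧ (k : ℝ) ^ (2 / 3 : ℝ) = l ^ 2 ∧ 0 ≤ Real.log k ∧
      256 * J₀ ^ 2 * C₁ * Real.log k ≤ l := by
  have h1 : Tendsto (fun x : ℝ => Real.log x / x ^ (1 / 3 : ℝ)) atTop (𝓝 0) :=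
    (isLittleO_log_rpow_atTop (by norm_num : (0 : ℝ) < 1 / 3)).tendsto_div_nhds_zero
  have h2 : Tendsto (fun x : ℝ => x ^ (1 / 3 : ℝ)) atTop atTop := tendsto_rpow_atTop (by norm_num)
  have hpos : 0 < 1 / (256 * J₀ ^ 2 * C₁) := by positivity
  have e1 := (h1.comp tendsto_natCast_atTop_atTop).eventually (gt_mem_nhds hpos)
  have e2 := (h2.comp tendsto_natCast_atTop_atTop).eventually (eventually_ge_atTop (2 * J₀ + 2))
  have e3 : ∀ᶠ k : ℕ in atTop, 1 ≤ k := eventually_ge_atTop 1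
  obtain ⟨k₀, hk₀⟩ := eventually_atTop.1 (e1.and (e2.and e3))
  refine ⟨k₀, fun k hk => ?_⟩
  obtain ⟨a1, a2, a3⟩ := hk₀ k hk
  simp only [Function.comp] at a1 a2
  have hk1 : (1 : ℝ) ≤ (k : ℝ) := by exact_mod_cast a3
  have hk0 : (0 : ℝ) ≤ (k : ℝ) := by linarith
  have hl : 0 < (k : ℝ) ^ (1 / 3 : ℝ) := by linarith
  refine ⟨(k : ℝ) ^ (1 / 3 : ℝ), a2, ?_, ?_, Real.log_nonneg hk1, ?_⟩
  · rw [← Real.rpow_natCast, ← Real.rpow_mul hk0]
    norm_num
  · rw [← Real.rpow_natCast ((k : ℝ) ^ (1 / 3 : ℝ)), ← Real.rpow_mul hk0]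
    norm_num
  · rw [div_lt_div_iff₀ hl (by positivity), one_mul] at a1
    linarith

/-- the sum of the `u j` -/
theorem sum_u {Q : Type} [Group Q] [Fintype Q] {n : ℕ} (q : Fin n → Q) (c : Q → ℂ) (x₀ : Q)
    (κ : ℂ) : ∑ j : Fin n, (open Classical in if q j = x₀ then (c (pst q j) - 1) / κ else 0) =
      ∑ x : Q, ((Nat.card {j : Fin n // pst q j = x ∧ q j = x₀} : ℕ) : ℂ) * ((c x - 1) / κ) := by
  classical
  have h : ∀ j : Fin n, (if q j = x₀ then (c (pst q j) - 1) / κ else 0) =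
      ∑ x : Q, if pst q j = x ∧ q j = x₀ then (c x - 1) / κ else 0 := by
    intro j
    rw [Finset.sum_eq_single (pst q j)]
    · by_cases hj : q j = x₀ <;> simp [hj]
    · intro x _ hx
      rw [if_neg]
      rintro ⟨h, -⟩
      exact hx h.symm
    · intro h
      exact absurd (Finset.mem_univ _) h
  rw [Finset.sum_congr rfl (fun j _ => h j), Finset.sum_comm]
  refine Finset.sum_congr rfl fun x _ => ?_
  rw [← Finset.sum_filter, Finset.sum_const, nsmul_eq_mul, Nat.card_eq_fintype_card,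
    Fintype.card_subtype]

end MPathP

open MPathP in
theorem p_MPath (hP : S_PrExp) : S_MPath := by
  intro J₀ C₁ hC
  rcases Nat.eq_zero_or_pos J₀ with rfl | hJ₀
  · refine ⟨1, 0, one_pos, fun k _ Q _ _ hQ => ?_⟩
    exact absurd (Fintype.card_pos (α := Q)) (by omega)
  have hJ1 : (1 : ℝ) ≤ (J₀ : ℝ) := by exact_mod_cast hJ₀
  obtain ⟨k₀, hk₀⟩ := large (J₀ : ℝ) C₁ hJ1 hC
  refine ⟨1 / (64 * (J₀ : ℝ) ^ 2), k₀, by positivity, fun k hk Q _ _ hQ n hn z q c hc hkq ht => ?_⟩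
  obtain ⟨l, hl, hl3, hl2, hlog, hlogl⟩ := hk₀ k hk
  set J : ℝ := (Fintype.card Q : ℝ) with hJdef
  have hJpos : 1 ≤ J := by
    have : 0 < Fintype.card Q := Fintype.card_pos
    rw [hJdef]
    exact_mod_cast this
  have hJJ : J ≤ (J₀ : ℝ) := by
    rw [hJdef]
    exact_mod_cast hQ
  have hlpos : 0 < l := by linarith
  have hkpos : 0 < (k : ℝ) := by rw [← hl3]; positivity
  rw [hl2] at hkq
  -- lower bound for the classes
  have hkJ : l ^ 2 ≤ (k : ℝ) / (2 * J) := by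
    rw [le_div_iff₀ (by positivity), ← hl3]
    have : l ^ 2 * (2 * J) ≤ l ^ 2 * l := by
      apply mul_le_mul_of_nonneg_left _ (by positivity)
      linarith
    linarith [this, show l ^ 2 * l = l ^ 3 by ring]
  have hlow : ∀ x, (k : ℝ) / (2 * J) ≤ (kq z x : ℝ) := by
    intro x
    have h1 := (abs_le.1 (hkq x)).1
    have h2 : (k : ℝ) / J = (k : ℝ) / (2 * J) + (k : ℝ) / (2 * J) := by field_simp; ring
    linarith
  have hk8 : 4 ≤ (k : ℝ) / (2 * J) := by
    refine le_trans ?_ hkJ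
    nlinarith
  refine ⟨fun x => ?_, ?_⟩
  · have : (4 : ℝ) ≤ (kq z x : ℝ) := hk8.trans (hlow x)
    exact_mod_cast this
  -- the limit
  set L : ℂ := ∑ x : Q, (((n : ℝ) / ((k : ℝ) * J) : ℝ) : ℂ) * (c x - 1) with hL
  have hLre : L.re = -((n : ℝ) / (k : ℝ) * En c) := by
    rw [hL, Complex.re_sum]
    have : ∀ x : Q, ((((n : ℝ) / ((k : ℝ) * J) : ℝ) : ℂ) * (c x - 1)).re =
        (n : ℝ) / ((k : ℝ) * J) * ((c x).re - 1) := by
      intro x
      rw [Complex.re_ofReal_mul, Complex.sub_re, Complex.one_re]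
    rw [Finset.sum_congr rfl (fun x _ => this x), ← Finset.mul_sum, En]
    have e : ∑ x : Q, ((c x).re - 1) = -∑ x : Q, (1 - (c x).re) := by
      rw [← Finset.sum_neg_distrib]
      exact Finset.sum_congr rfl fun x _ => by ring
    rw [e, ← hJdef]
    field_simp
  have hn0 : (0 : ℝ) ≤ (n : ℝ) := Nat.cast_nonneg n
  have hmain : ∀ i : Fin k, ‖mPath z q c i - Complex.exp L‖ ≤ 1 / 3 * Real.exp L.re := by
    intro i
    set κ : ℝ := (kq z (z i) : ℝ) with hκ
    have hκlow : (k : ℝ) / (2 * J) ≤ κ := hlow (z i)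
    have hκpos : 0 < κ := by linarith
    have hκinv : 1 / κ ≤ 2 * J / (k : ℝ) := by
      rw [div_le_div_iff₀ hκpos hkpos]
      rw [div_le_iff₀ (by positivity)] at hκlow
      linarith
    classical
    have hprod : mPath z q c i = ∏ j : Fin n, (1 + (if q j = z i then (c (pst q j) - 1) / (κ : ℂ)
        else 0)) := by
      unfold mPath
      refine Finset.prod_congr rfl fun j _ => ?_
      by_cases hj : q j = z i
      · rw [if_pos hj, if_pos hj, hj, hκ, Complex.ofReal_natCast]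
      · rw [if_neg hj, if_neg hj]
    rw [hprod]
    have hcn : ∀ x, ‖c x - 1‖ ≤ 2 := by
      intro x
      calc ‖c x - 1‖ ≤ ‖c x‖ + ‖(1 : ℂ)‖ := norm_sub_le _ _
        _ = 2 := by rw [hc x, norm_one]; norm_num
    have hun : ∀ j : Fin n, ‖(if q j = z i then (c (pst q j) - 1) / (κ : ℂ) else 0 : ℂ)‖ ≤
        4 * J / (k : ℝ) := by
      intro j
      split_ifs
      · rw [norm_div, Complex.norm_real, Real.norm_of_nonneg hκpos.le]
        calc ‖c (pst q j) - 1‖ / κ = ‖c (pst q j) - 1‖ * (1 / κ) := by ring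
          _ ≤ 2 * (2 * J / (k : ℝ)) :=
            mul_le_mul (hcn _) hκinv (by positivity) (by norm_num)
          _ = 4 * J / (k : ℝ) := by ring
      · rw [norm_zero]; positivity
    have hJk : 4 * J / (k : ℝ) ≤ 1 / 2 := by
      rw [div_le_div_iff₀ hkpos (by norm_num)]
      rw [le_div_iff₀ (by positivity)] at hk8
      linarith
    -- bound of `n / k`
    have hnk : 256 * (J₀ : ℝ) ^ 2 * (n : ℝ) ≤ (k : ℝ) * l := by
      calc 256 * (J₀ : ℝ) ^ 2 * (n : ℝ) ≤ 256 * (J₀ : ℝ) ^ 2 * (C₁ * (k : ℝ) * Real.log k) :=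
            mul_le_mul_of_nonneg_left hn (by positivity)
        _ = (k : ℝ) * (256 * (J₀ : ℝ) ^ 2 * C₁ * Real.log k) := by ring
        _ ≤ (k : ℝ) * l := mul_le_mul_of_nonneg_left hlogl hkpos.le
    have hJsq : J ^ 2 ≤ (J₀ : ℝ) ^ 2 := by
      apply pow_le_pow_left₀ (by linarith) hJJ
    have hl1 : 1 ≤ l := by linarith
    have hlk : l ≤ (k : ℝ) := by
      rw [← hl3]
      nlinarith [mul_nonneg hlpos.le (sub_nonneg.2 hl1), sq_nonneg l,
        mul_le_mul hl1 hl1 zero_le_one hlpos.le]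
    apply hP n _ L (1 / 16) (1 / 8) (fun j => (hun j).trans hJk) ?_ ?_ (by norm_num)
    · calc ∑ j : Fin n, ‖(if q j = z i then (c (pst q j) - 1) / (κ : ℂ) else 0 : ℂ)‖ ^ 2
          ≤ ∑ _j : Fin n, (4 * J / (k : ℝ)) ^ 2 :=
            Finset.sum_le_sum fun j _ => pow_le_pow_left₀ (norm_nonneg _) (hun j) 2
        _ = (n : ℝ) * (4 * J / (k : ℝ)) ^ 2 := by
            rw [Finset.sum_const, nsmul_eq_mul, Finset.card_univ, Fintype.card_fin]
        _ = 16 * J ^ 2 * (n : ℝ) / (k : ℝ) ^ 2 := by field_simp; ring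
        _ ≤ 1 / 16 := by
            rw [div_le_div_iff₀ (by positivity) (by norm_num)]
            have h1 : J ^ 2 * (n : ℝ) ≤ (J₀ : ℝ) ^ 2 * (n : ℝ) :=
              mul_le_mul_of_nonneg_right hJsq hn0
            have h2 : (k : ℝ) * l ≤ (k : ℝ) ^ 2 := by nlinarith
            nlinarith
    · rw [sum_u q c (z i) (κ : ℂ), hL, ← Finset.sum_sub_distrib]
      have hterm : ∀ x : Q, ‖((Nat.card {j : Fin n // pst q j = x ∧ q j = z i} : ℕ) : ℂ) *
          ((c x - 1) / (κ : ℂ)) - (((n : ℝ) / ((k : ℝ) * J) : ℝ) : ℂ) * (c x - 1)‖ ≤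
          2 * (1 / (32 * (J₀ : ℝ) ^ 2) * J + 2 * (n : ℝ) * l ^ 2 / (k : ℝ) ^ 2) := by
        intro x
        set t : ℝ := (Nat.card {j : Fin n // pst q j = x ∧ q j = z i} : ℝ) with htdef
        have htx := ht x (z i)
        rw [← htdef] at htx
        have e : ((Nat.card {j : Fin n // pst q j = x ∧ q j = z i} : ℕ) : ℂ) *
            ((c x - 1) / (κ : ℂ)) - (((n : ℝ) / ((k : ℝ) * J) : ℝ) : ℂ) * (c x - 1) =
            ((t / κ - (n : ℝ) / ((k : ℝ) * J) : ℝ) : ℂ) * (c x - 1) := by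
          rw [htdef]
          push_cast
          ring
        rw [e, norm_mul, Complex.norm_real, Real.norm_eq_abs, mul_comm]
        apply mul_le_mul (hcn x) _ (abs_nonneg _) (by norm_num)
        have e2 : t / κ - (n : ℝ) / ((k : ℝ) * J) = (t - (n : ℝ) / J ^ 2) * (1 / κ) +
            (n : ℝ) / J ^ 2 * ((J * ((k : ℝ) / J - κ)) / (κ * (k : ℝ))) := by
          have hJne : J ≠ 0 := by linarith
          field_simp
          ring
        rw [e2]
        refine (abs_add_le _ _).trans (add_le_add ?_ ?_)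
        · rw [abs_mul, abs_of_pos (by positivity : (0 : ℝ) < 1 / κ)]
          calc |t - (n : ℝ) / J ^ 2| * (1 / κ) ≤ (1 / (64 * (J₀ : ℝ) ^ 2) * (k : ℝ)) *
                (2 * J / (k : ℝ)) := mul_le_mul htx hκinv (by positivity) (by positivity)
            _ = 1 / (32 * (J₀ : ℝ) ^ 2) * J := by field_simp; ring
        · rw [abs_mul, abs_of_nonneg (by positivity : (0 : ℝ) ≤ (n : ℝ) / J ^ 2), abs_div,
            abs_mul, abs_of_pos (by linarith : (0 : ℝ) < J),
            abs_of_pos (by positivity : (0 : ℝ) < κ * (k : ℝ))]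
          have h3 : |(k : ℝ) / J - κ| ≤ l ^ 2 := by
            rw [abs_sub_comm]
            exact hkq (z i)
          calc (n : ℝ) / J ^ 2 * (J * |(k : ℝ) / J - κ| / (κ * (k : ℝ)))
              = (n : ℝ) / J ^ 2 * (J * |(k : ℝ) / J - κ| / (k : ℝ)) * (1 / κ) := by
                field_simp
            _ ≤ (n : ℝ) / J ^ 2 * (J * l ^ 2 / (k : ℝ)) * (2 * J / (k : ℝ)) := by
                gcongr
            _ = 2 * (n : ℝ) * l ^ 2 / (k : ℝ) ^ 2 := by
                field_simp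
      calc ‖∑ x : Q, (((Nat.card {j : Fin n // pst q j = x ∧ q j = z i} : ℕ) : ℂ) *
          ((c x - 1) / (κ : ℂ)) - (((n : ℝ) / ((k : ℝ) * J) : ℝ) : ℂ) * (c x - 1))‖
          ≤ ∑ _x : Q, 2 * (1 / (32 * (J₀ : ℝ) ^ 2) * J + 2 * (n : ℝ) * l ^ 2 / (k : ℝ) ^ 2) :=
            norm_sum_le_of_le _ fun x _ => hterm x
        _ = 1 / 16 * (J ^ 2 / (J₀ : ℝ) ^ 2) + 4 * J * (n : ℝ) * l ^ 2 / (k : ℝ) ^ 2 := by
            rw [Finset.sum_const, nsmul_eq_mul, Finset.card_univ, ← hJdef]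
            field_simp
            ring
        _ ≤ 1 / 16 * 1 + 1 / 16 := by
            apply add_le_add
            · apply mul_le_mul_of_nonneg_left _ (by norm_num)
              rw [div_le_one (by positivity)]
              exact hJsq
            · rw [div_le_div_iff₀ (by positivity) (by norm_num)]
              have h4 : J ≤ (J₀ : ℝ) ^ 2 := by nlinarith
              have h5 : 256 * J * (n : ℝ) ≤ (k : ℝ) * l := by
                nlinarith [mul_le_mul_of_nonneg_right h4 hn0]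
              have h6 : 256 * J * (n : ℝ) * l ^ 2 ≤ (k : ℝ) * l * l ^ 2 :=
                mul_le_mul_of_nonneg_right h5 (by positivity)
              have h7 : (k : ℝ) * l * l ^ 2 = (k : ℝ) ^ 2 := by
                rw [show (k : ℝ) * l * l ^ 2 = (k : ℝ) * l ^ 3 by ring, hl3]
                ring
              nlinarith
        _ = 1 / 8 := by norm_num
  -- conclusion
  rw [← hLre]
  have h1 : ‖∑ i : Fin k, mPath z q c i - ∑ _i : Fin k, Complex.exp L‖ ≤
      (k : ℝ) * (1 / 3 * Real.exp L.re) := by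
    rw [← Finset.sum_sub_distrib]
    refine (norm_sum_le_of_le _ fun i _ => hmain i).trans ?_
    rw [Finset.sum_const, nsmul_eq_mul, Finset.card_univ, Fintype.card_fin]
  have h2 : ‖∑ _i : Fin k, Complex.exp L‖ = (k : ℝ) * Real.exp L.re := by
    rw [Finset.sum_const, Finset.card_univ, Fintype.card_fin, nsmul_eq_mul, norm_mul,
      Complex.norm_natCast, Complex.norm_exp]
  have h3 : ‖∑ _i : Fin k, Complex.exp L‖ ≤ ‖∑ i : Fin k, mPath z q c i‖ +
      ‖∑ i : Fin k, mPath z q c i - ∑ _i : Fin k, Complex.exp L‖ := by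
    have := norm_sub_le (∑ i : Fin k, mPath z q c i)
      (∑ i : Fin k, mPath z q c i - ∑ _i : Fin k, Complex.exp L)
    rwa [sub_sub_cancel] at this
  rw [h2] at h3
  linarith

end NilCut
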