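import Pool.Agent.Lib.MP_4ddf81_pr.Stm3

namespace NilCut

theorem p_NCs : S_NCs := by
  intro G _ _ K _ r F hF f
  classical
  rw [← Finset.sum_fiberwise_of_maps_to (g := CF K) (t := F.image (CF K))
    (fun lam h => Finset.mem_image_of_mem _ h)]
  refine Finset.sum_congr rfl fun C _ => ?_
  have h1 : ∀ lam ∈ F.filter (fun lam => CF K lam = C),
      (Nat.card {P : Subgroup G // Cpl P K lam} : ℝ) * f (CF K lam) =
      (Nat.card {P : Subgroup G // Cpl P K lam} : ℝ) * f C := by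
    intro lam hlam
    rw [(Finset.mem_filter.1 hlam).2]
  rw [Finset.sum_congr rfl h1, ← Finset.sum_mul]
  congr 1
  have h2 : NC K r C = ∑ lam ∈ F.filter (fun lam => CF K lam = C),
      Nat.card {P : Subgroup G // Cpl P K lam} := by
    let e : {p : Subgroup G × (K →* ℂˣ) //
        Cpl p.1 K p.2 ∧ p.2 ≠ 1 ∧ Nat.card p.2.range ≤ r ∧ CF K p.2 = C} ≃
        (Σ lam : (F.filter (fun lam => CF K lam = C) : Finset (K →* ℂˣ)),
          {P : Subgroup G // Cpl P K lam.1}) :=
      { toFun := fun p => ⟨⟨p.1.2, Finset.mem_filter.2 ⟨(hF _).2 ⟨p.2.2.1, p.2.2.2.1⟩,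
          p.2.2.2.2⟩⟩, ⟨p.1.1, p.2.1⟩⟩
        invFun := fun q => ⟨(q.2.1, q.1.1), q.2.2, ((hF _).1 (Finset.mem_filter.1 q.1.2).1).1,
          ((hF _).1 (Finset.mem_filter.1 q.1.2).1).2, (Finset.mem_filter.1 q.1.2).2⟩
        left_inv := fun _ => rfl
        right_inv := fun _ => rfl }
    unfold NC
    rw [Nat.card_congr e, Nat.card_sigma]
    exact Finset.sum_coe_sort (F.filter (fun lam => CF K lam = C))
      (fun lam => Nat.card {P : Subgroup G // Cpl P K lam})
  rw [h2]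
  push_cast
  rfl

end NilCut
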