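import Pool.Agent.Lib.MP_4ddf81_pr.Stm3

/-!
# MP_4ddf81_pr, stage 3 : the rank of a nilpotent group   (helper13)
-/

namespace NilCut

namespace RankP

theorem fin {G : Type} [Group G] [Finite G] (p : ℕ) (hp : p.Prime) :
    Finite (G →* Multiplicative (ZMod p)) := by
  have : Fact p.Prime := ⟨hp⟩
  exact Finite.of_injective (fun φ : G →* Multiplicative (ZMod p) => (φ : G → _))
    DFunLike.coe_injective

/-- evaluation at `g` -/
def ev {G : Type} [Group G] (p : ℕ) (g : G) :
    (G →* Multiplicative (ZMod p)) →* Multiplicative (ZMod p) where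
  toFun φ := φ g
  map_one' := rfl
  map_mul' _ _ := rfl

theorem pts {G : Type} [Group G] [Finite G] (p : ℕ) (hp : p.Prime) :
    ∀ (N : ℕ) (W : Subgroup (G →* Multiplicative (ZMod p))), Nat.card W ≤ N →
    ∃ (m : ℕ) (g : ℕ → G), p ^ m ≤ Nat.card W ∧
      ∀ φ ∈ W, (∀ j < m, φ (g j) = 1) → φ = 1 := by
  have : Fact p.Prime := ⟨hp⟩
  have hfin := fin (G := G) p hp
  intro N
  induction N with
  | zero =>
    intro W hW
    have : 0 < Nat.card W := Nat.card_pos
    omega
  | succ N ih =>
    intro W hW
    by_cases hbot : W = ⊥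
    · refine ⟨0, fun _ => 1, ?_, ?_⟩
      · rw [pow_zero]
        exact Nat.card_pos
      · intro φ hφ _
        rw [hbot, Subgroup.mem_bot] at hφ
        exact hφ
    · obtain ⟨φ₀, hφ₀, hne⟩ : ∃ φ ∈ W, φ ≠ 1 := by
        by_contra h
        push Not at h
        exact hbot ((Subgroup.eq_bot_iff_forall W).2 h)
      obtain ⟨g₀, hg₀⟩ : ∃ g, φ₀ g ≠ 1 := by
        by_contra h
        push Not at h
        exact hne (MonoidHom.ext h)
      set f : W →* Multiplicative (ZMod p) := (ev p g₀).comp W.subtype with hf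
      have hrange : f.range = ⊤ := by
        have hc : (Nat.card (Multiplicative (ZMod p))).Prime := by
          have : Nat.card (Multiplicative (ZMod p)) = p := by simp
          rw [this]
          exact hp
        have : Fact (Nat.card (Multiplicative (ZMod p))).Prime := ⟨hc⟩
        rcases Subgroup.eq_bot_or_eq_top_of_prime_card f.range with h | h
        · exfalso
          have h1 : f ⟨φ₀, hφ₀⟩ ∈ f.range := ⟨_, rfl⟩
          rw [h, Subgroup.mem_bot] at h1
          exact hg₀ h1
        · exact h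
      have hcard : p * Nat.card f.ker = Nat.card W := by
        have h1 := f.ker.card_mul_index
        rw [Subgroup.index_ker, hrange] at h1
        rw [← h1, mul_comm]
        congr 1
        simp
      set W' : Subgroup (G →* Multiplicative (ZMod p)) := f.ker.map W.subtype with hW'
      have hc' : Nat.card W' = Nat.card f.ker := by
        rw [hW']
        exact (Nat.card_congr (f.ker.equivMapOfInjective W.subtype
          (Subgroup.subtype_injective W)).toEquiv).symm
      have hpos : 0 < Nat.card f.ker := Nat.card_pos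
      have h2 := hp.two_le
      obtain ⟨m, g, hm, hall⟩ := ih W' (by
        rw [hc']
        have h3 : 2 * Nat.card f.ker ≤ p * Nat.card f.ker := Nat.mul_le_mul_right _ h2
        omega)
      refine ⟨m + 1, fun j => Nat.casesOn j g₀ g, ?_, ?_⟩
      · rw [pow_succ', ← hcard, ← hc']
        exact Nat.mul_le_mul_left _ hm
      · intro φ hφ h
        refine hall φ ?_ fun j hj => h (j + 1) (by omega)
        rw [hW', Subgroup.mem_map]
        refine ⟨⟨φ, hφ⟩, ?_, rfl⟩
        rw [MonoidHom.mem_ker]
        exact h 0 (by omega)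

/-- the exponents -/
def u (n p : ℕ) : ℕ := (∏ q ∈ n.primeFactors.erase p, q) ^ (p - 1)

theorem u_ne {n p q : ℕ} (hp : p ∈ n.primeFactors) (hq : q ∈ n.primeFactors) (hpq : q ≠ p)
    (x : Multiplicative (ZMod q)) : x ^ u n p = 1 := by
  have h1 : q ∣ u n p := by
    refine dvd_pow (Finset.dvd_prod_of_mem _ (Finset.mem_erase.2 ⟨hpq, hq⟩)) ?_
    have := (Nat.prime_of_mem_primeFactors hp).two_le
    omega
  obtain ⟨k, hk⟩ := h1
  apply Multiplicative.toAdd.injective
  rw [toAdd_pow, toAdd_one, hk, nsmul_eq_mul]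
  simp

theorem u_eq {n p : ℕ} (hp : p ∈ n.primeFactors) (x : Multiplicative (ZMod p)) :
    x ^ u n p = x := by
  have hpp := Nat.prime_of_mem_primeFactors hp
  have : Fact p.Prime := ⟨hpp⟩
  apply Multiplicative.toAdd.injective
  rw [toAdd_pow, nsmul_eq_mul]
  have h1 : ((u n p : ℕ) : ZMod p) = 1 := by
    rw [u, Nat.cast_pow]
    apply ZMod.pow_card_sub_one_eq_one
    rw [Ne, ZMod.natCast_eq_zero_iff, hpp.prime.dvd_finsetProd_iff]
    rintro ⟨q, hq, hdvd⟩
    obtain ⟨h2, h3⟩ := Finset.mem_erase.1 hq
    exact h2 ((Nat.prime_dvd_prime_iff_eq hpp (Nat.prime_of_mem_primeFactors h3)).1 hdvd).symm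
  rw [h1, one_mul]

theorem inj_units {G : Type} [Group G] [Finite G] (hF : S_FinC) (p : ℕ) (hp : p.Prime) :
    Nat.card (G →* Multiplicative (ZMod p)) ≤ Nat.card (Abelianization G) := by
  have : NeZero p := ⟨hp.ne_zero⟩
  have h1 := (hF G).1
  rw [← (hF G).2.1]
  set ι : Multiplicative (ZMod p) →* ℂˣ :=
    Circle.toUnits.comp (ZMod.toCircle (N := p)).toMonoidHom with hι
  have hinj : Function.Injective ι := by
    intro a b hab
    have h2 := congrArg (fun z : ℂˣ => (z : ℂ)) hab
    have h3 : ZMod.toCircle (N := p) a.toAdd = ZMod.toCircle (N := p) b.toAdd := by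
      apply Circle.ext
      exact h2
    have h4 := ZMod.injective_toCircle h3
    exact Multiplicative.toAdd.injective h4
  refine Nat.card_le_card_of_injective (fun φ : G →* Multiplicative (ZMod p) => ι.comp φ) ?_
  intro φ ψ h
  ext g
  have h2 := DFunLike.congr_fun h g
  exact congrArg _ (hinj h2)

end RankP

open RankP in
theorem p_Rank (hM : S_MaxH) (hF : S_FinC) : S_Rank := by
  intro G _ _ hnil
  classical
  set n := Nat.card G with hn
  have hn0 : n ≠ 0 := Nat.card_pos.ne'
  have hch : ∀ p : ℕ, ∃ (m : ℕ) (g : ℕ → G), p.Prime →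
      p ^ m ≤ Nat.card (G →* Multiplicative (ZMod p)) ∧
        ∀ φ : G →* Multiplicative (ZMod p), (∀ j < m, φ (g j) = 1) → φ = 1 := by
    intro p
    by_cases hp : p.Prime
    · obtain ⟨m, g, h1, h2⟩ := pts (G := G) p hp _ ⊤ le_rfl
      refine ⟨m, g, fun _ => ⟨?_, fun φ h => h2 φ (Subgroup.mem_top _) h⟩⟩
      rwa [Subgroup.card_top] at h1
    · exact ⟨0, fun _ => 1, fun h => absurd h hp⟩
  choose m g hmg using hch
  set g' : ℕ → ℕ → G := fun p j => if j < m p then g p j else 1 with hg'
  set L := n.primeFactors.toList with hL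
  set gj : ℕ → G := fun j => (L.map fun p => g' p j ^ u n p).prod with hgj
  have hev : ∀ q ∈ n.primeFactors, ∀ (φ : G →* Multiplicative (ZMod q)) (j : ℕ),
      φ (gj j) = φ (g' q j) := by
    intro q hq φ j
    have h1 : φ (gj j) = ∏ p ∈ n.primeFactors, φ (g' p j) ^ u n p := by
      rw [hgj]
      simp only
      rw [map_list_prod, List.map_map, hL, Finset.prod_map_toList]
      refine Finset.prod_congr rfl fun p _ => ?_
      simp
    rw [h1, Finset.prod_eq_single_of_mem q hq, u_eq hq]
    intro p hp hpq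
    exact u_ne hp hq hpq.symm _
  set N := n.primeFactors.sup m with hN
  set S : Finset G := (Finset.range N).image gj with hS
  have hScard : S.card ≤ N := by
    refine Finset.card_image_le.trans ?_
    rw [Finset.card_range]
  have hgen : Subgroup.closure (S : Set G) = ⊤ := by
    by_contra hne
    obtain ⟨p, hp, hdvd, φ, hφ, hall⟩ := hM G hnil _ hne
    have hpm : p ∈ n.primeFactors := Nat.mem_primeFactors.2 ⟨hp, hdvd, hn0⟩
    apply hφ
    refine (hmg p hp).2 φ fun j hj => ?_
    have hjN : j < N := lt_of_lt_of_le hj (Finset.le_sup (f := m) hpm)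
    have h1 : φ (gj j) = 1 := by
      refine hall _ (Subgroup.subset_closure ?_)
      rw [hS, Finset.mem_coe, Finset.mem_image]
      exact ⟨j, Finset.mem_range.2 hjN, rfl⟩
    rw [hev p hpm, hg'] at h1
    simpa [hj] using h1
  rcases Finset.eq_empty_or_nonempty n.primeFactors with hemp | hne
  · refine ⟨2, S, Nat.prime_two, hgen, ?_, inj_units hF 2 Nat.prime_two⟩
    have h1 : S.card = 0 := by
      have : N = 0 := by rw [hN, hemp]; simp
      omega
    rw [h1, pow_zero]
    have := fin (G := G) 2 Nat.prime_two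
    exact Nat.card_pos
  · obtain ⟨p, hpm, hp⟩ := Finset.exists_mem_eq_sup _ hne m
    have hpp := Nat.prime_of_mem_primeFactors hpm
    refine ⟨p, S, hpp, hgen, ?_, inj_units hF p hpp⟩
    refine le_trans ?_ (hmg p hpp).1
    exact Nat.pow_le_pow_right hpp.pos (hScard.trans (by rw [hN, hp]))

end NilCut
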