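import Pool.Agent.Lib.MP_4ddf81_pr.Stm3
import Pool.Agent.Lib.MP_4ddf81_pr.P2.UBdet
import Pool.Agent.Lib.MP_4ddf81_pr.P2.Anti

namespace NilCut

namespace UB3P

variable {G : Type} [Group G] [Fintype G]

/-- the comparison of the total variation distance with the `ℓ²` distance -/
theorem tv_le (σ μ : G → ℝ) (hμ : ∀ g, μ g ≤ σ g) (hσ : ∑ g, σ g = 1)
    (hm : ∑ g, μ g ≤ 1) :
    ∑ g : G, |σ g - 1 / (Nat.card G : ℝ)| ≤ Real.sqrt ((Nat.card G : ℝ) *
      ∑ g : G, (μ g - (∑ h : G, μ h) / (Nat.card G : ℝ)) ^ 2) + 2 * (1 - ∑ g, μ g) := by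
  set m := ∑ g, μ g with hmdef
  have hG : (0 : ℝ) < (Nat.card G : ℝ) := by
    have : 0 < Nat.card G := Nat.card_pos
    exact_mod_cast this
  have h1 : ∀ g, |σ g - 1 / (Nat.card G : ℝ)| ≤
      |μ g - m / (Nat.card G : ℝ)| + (σ g - μ g) + (1 - m) / (Nat.card G : ℝ) := by
    intro g
    have a1 : σ g - 1 / (Nat.card G : ℝ) =
        (μ g - m / (Nat.card G : ℝ)) + (σ g - μ g) - (1 - m) / (Nat.card G : ℝ) := by
      ring
    have a2 : 0 ≤ σ g - μ g := sub_nonneg.mpr (hμ g)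
    have a3 : 0 ≤ (1 - m) / (Nat.card G : ℝ) := div_nonneg (by linarith) hG.le
    rw [a1, abs_le]
    have a4 := abs_le.mp (le_refl |μ g - m / (Nat.card G : ℝ)|)
    constructor
    · linarith [a4.1]
    · linarith [a4.2]
  have h3 := Finset.sum_le_sum (fun g (_ : g ∈ (Finset.univ : Finset G)) => h1 g)
  rw [Finset.sum_add_distrib, Finset.sum_add_distrib, Finset.sum_sub_distrib, hσ,
    Finset.sum_const, Finset.card_univ, ← Nat.card_eq_fintype_card, nsmul_eq_mul,
    mul_div_cancel₀ _ hG.ne', ← hmdef] at h3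
  have h4 : ∑ g : G, |μ g - m / (Nat.card G : ℝ)| ≤ Real.sqrt ((Nat.card G : ℝ) *
      ∑ g : G, (μ g - m / (Nat.card G : ℝ)) ^ 2) := by
    apply Real.le_sqrt_of_sq_le
    have h5 := sq_sum_le_card_mul_sum_sq (s := (Finset.univ : Finset G))
      (f := fun g => |μ g - m / (Nat.card G : ℝ)|)
    simp only [sq_abs] at h5
    rw [Finset.card_univ, ← Nat.card_eq_fintype_card] at h5
    exact h5
  linarith

open Classical in
/-- the point mass at `1` -/
noncomputable def dl (g : G) : ℝ := if g = 1 then 1 else 0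

theorem conv_dl (ν : G → ℝ) : conv ν (dl : G → ℝ) = ν := by
  classical
  funext g
  unfold conv dl
  rw [Finset.sum_eq_single g]
  · rw [if_pos (by group), mul_one]
  · intro h _ hne
    rw [if_neg, mul_zero]
    intro hh
    exact hne (inv_mul_eq_one.1 hh)
  · intro h
    exact absurd (Finset.mem_univ _) h

theorem QF_dl (χ : G → ℂ) : QF χ (dl : G → ℝ) = (χ 1).re := by
  classical
  unfold QF dl
  rw [Finset.sum_eq_single (1 : G), Finset.sum_eq_single (1 : G)]
  · simp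
  · intro b _ hb
    simp [hb]
  · intro h
    exact absurd (Finset.mem_univ _) h
  · intro a _ ha
    refine Finset.sum_eq_zero fun b _ => ?_
    simp [ha]
  · intro h
    exact absurd (Finset.mem_univ _) h

/-- `QF` is additive in the function -/
theorem QF_sum {ι : Type} (s : Finset ι) (f : ι → G → ℂ) (μ : G → ℝ) :
    QF (fun g => ∑ i ∈ s, f i g) μ = ∑ i ∈ s, QF (f i) μ := by
  classical
  unfold QF
  rw [← Complex.re_sum]
  congr 1
  symm
  rw [Finset.sum_comm]
  refine Finset.sum_congr rfl fun a _ => ?_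
  rw [Finset.sum_comm]
  refine Finset.sum_congr rfl fun b _ => ?_
  rw [Finset.mul_sum]

theorem QF_smul (r : ℝ) (f : G → ℂ) (μ : G → ℝ) :
    QF (fun g => (r : ℂ) * f g) μ = r * QF f μ := by
  unfold QF
  rw [← Complex.re_ofReal_mul]
  congr 1
  rw [Finset.mul_sum]
  refine Finset.sum_congr rfl fun a _ => ?_
  rw [Finset.mul_sum]
  refine Finset.sum_congr rfl fun b _ => ?_
  ring

theorem QF_zero (μ : G → ℝ) : QF (fun _ : G => (0 : ℂ)) μ = 0 := by
  unfold QF
  simp

end UB3P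

theorem p_UB3 (hP : S_Plan) (h2 : S_QF2) (h5 : S_QF5) (hK : S_Kid) (hS : S_Sq) : S_UB3 := by
  classical
  intro G _ _ P M K hKn F hF k n D Z A₁ c t hk hc0 ht0 hgap
  set L := law Z t with hL
  set ν₁ := wlaw Z A₁ with hν₁
  have pL : ∀ g, 0 ≤ L g := fun g => Anti.law_nonneg hk Z ht0 g
  have sL : ∑ g, L g = 1 := Anti.law_sum hk Z ht0
  have p1 : ∀ g, 0 ≤ ν₁ g := fun g => UBdet.wlaw_nonneg _ _ _
  have s1 : ∑ g, ν₁ g = (Nat.card A₁ : ℝ) / (k : ℝ) ^ n := UBdet.wlaw_sum Z A₁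
  have t1 : ∑ g, ν₁ g ≤ 1 := UBdet.wlaw_sum_le Z A₁
  set ν := conv L ν₁ with hν
  have hsum : ∑ g, ν g = (Nat.card A₁ : ℝ) / (k : ℝ) ^ n := by
    rw [hν, UBdet.conv_sum, sL, one_mul, s1]
  have hsum1 : ∑ g, ν g ≤ 1 := by rw [hsum, ← s1]; exact t1
  have hle : ∀ g, ν g ≤ conv L (stepLaw Z n) g := by
    intro g
    rw [hν]
    unfold conv
    refine Finset.sum_le_sum fun h _ => mul_le_mul_of_nonneg_left ?_ (pL h)
    rw [hν₁, UBdet.stepLaw_eq]
    exact UBdet.wlaw_mono _ _ _ (Set.subset_univ _) _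
  have hσ : ∑ g, conv L (stepLaw Z n) g = 1 := by
    rw [UBdet.conv_sum, sL, one_mul, UBdet.stepLaw_sum hk Z]
  have htv := UB3P.tv_le (conv L (stepLaw Z n)) ν hle hσ hsum1
  have h0 : 2 * tvMix Z t n = ∑ g : G, |conv L (stepLaw Z n) g - 1 / (Nat.card G : ℝ)| := by
    unfold tvMix; ring
  rw [h0, ← hsum]
  refine htv.trans (add_le_add_left (Real.sqrt_le_sqrt ?_) _)
  rw [hP G P ν]
  have hχ : ∀ i, (fun g => (P.ρ i g).trace) = indL (M.H i) (M.lam i) := fun i =>
    funext (M.tr i)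
  -- the three bounds
  have hA : ∑ i, (P.d i : ℝ) ^ 2 * Real.exp (-(2 * c * t)) =
      (Nat.card G : ℝ) * Real.exp (-(2 * c * t)) := by
    rw [← Finset.sum_mul, (hS G P).1]
  have hB : ∑ i, (if P.Kl K i then (P.d i : ℝ) * QF (fun g => (P.ρ i g).trace) L else 0) =
      ∑ lam ∈ F, QF (indL K lam) L := by
    rw [← UB3P.QF_sum F (fun lam => indL K lam) L]
    have e1 : (fun g => ∑ lam ∈ F, indL K lam g) = fun g =>
        ∑ i, (if P.Kl K i then (P.d i : ℂ) * (P.ρ i g).trace else 0) := by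
      funext g
      exact (hK G P K hKn F hF g).symm
    rw [e1, UB3P.QF_sum Finset.univ]
    refine Finset.sum_congr rfl fun i _ => ?_
    by_cases hi : P.Kl K i
    · simp only [if_pos hi]
      have := UB3P.QF_smul (P.d i : ℝ) (fun g => (P.ρ i g).trace) L
      rw [← this]
      norm_cast
    · simp only [if_neg hi]
      rw [UB3P.QF_zero]
  have hC : ∑ i, (if D < P.d i then (P.d i : ℝ) * QF (fun g => (P.ρ i g).trace) ν₁ else 0) =
      ∑ i ∈ Finset.univ.filter (fun i => D < P.d i),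
        (P.d i : ℝ) * QF (fun g => (P.ρ i g).trace) ν₁ := by
    rw [Finset.sum_filter]
  rw [← hA, ← hB, ← hC, ← Finset.sum_add_distrib, ← Finset.sum_add_distrib]
  refine Finset.sum_le_sum fun i _ => ?_
  have hd : (0 : ℝ) ≤ (P.d i : ℝ) := Nat.cast_nonneg _
  rw [hχ i]
  have qL := (h2 G (M.H i) (M.lam i) L ν₁ p1 t1)
  have q1 := (h2 G (M.H i) (M.lam i) ν₁ L pL sL.le)
  have nA : 0 ≤ (P.d i : ℝ) ^ 2 * Real.exp (-(2 * c * t)) := by positivity
  have nB : 0 ≤ (if P.Kl K i then (P.d i : ℝ) * QF (indL (M.H i) (M.lam i)) L else 0) := by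
    split_ifs
    · exact mul_nonneg hd qL.1
    · exact le_rfl
  have nC : 0 ≤ (if D < P.d i then (P.d i : ℝ) * QF (indL (M.H i) (M.lam i)) ν₁ else 0) := by
    split_ifs
    · exact mul_nonneg hd q1.1
    · exact le_rfl
  by_cases hnt : P.nt i
  · rw [if_pos hnt]
    by_cases hD : D < P.d i
    · have e : (P.d i : ℝ) * QF (indL (M.H i) (M.lam i)) ν ≤
          (if D < P.d i then (P.d i : ℝ) * QF (indL (M.H i) (M.lam i)) ν₁ else 0) := by
        rw [if_pos hD]
        exact mul_le_mul_of_nonneg_left q1.2.1 hd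
      linarith
    · rcases hgap i hnt (not_lt.1 hD) with hKl | hG
      · have e : (P.d i : ℝ) * QF (indL (M.H i) (M.lam i)) ν ≤
            (if P.Kl K i then (P.d i : ℝ) * QF (indL (M.H i) (M.lam i)) L else 0) := by
          rw [if_pos hKl]
          exact mul_le_mul_of_nonneg_left qL.2.2 hd
        linarith
      · have e1 := h5 G (M.H i) (M.lam i) k Z c t ν₁ hk hc0 ht0 hG
        have e2 := (h2 G (M.H i) (M.lam i) UB3P.dl ν₁ p1 t1).2.1
        rw [UB3P.conv_dl, UB3P.QF_dl] at e2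
        have e3 : (indL (M.H i) (M.lam i) 1).re = (P.d i : ℝ) := by
          rw [← M.tr i 1, map_one, Matrix.trace_one, Fintype.card_fin]
          simp
        rw [e3] at e2
        have e4 : (P.d i : ℝ) * QF (indL (M.H i) (M.lam i)) ν ≤
            (P.d i : ℝ) ^ 2 * Real.exp (-(2 * c * t)) := by
          calc (P.d i : ℝ) * QF (indL (M.H i) (M.lam i)) ν
              ≤ (P.d i : ℝ) * (Real.exp (-(2 * c * t)) * (P.d i : ℝ)) :=
                mul_le_mul_of_nonneg_left (e1.trans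
                  (mul_le_mul_of_nonneg_left e2 (Real.exp_pos _).le)) hd
            _ = (P.d i : ℝ) ^ 2 * Real.exp (-(2 * c * t)) := by ring
        linarith
  · rw [if_neg hnt]
    linarith

end NilCut
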